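import Pool.Agent.H46.Eg.Mz

/-!
# [H46 EG ABS] the abstract theorem (10-20 lines)
`abs_main`: `nn δ' (P m (L δ' f)) = nn δ' (L δ' (P (m - 1) f)) = 0` for all m (`P_L`, `nn_congr`), `complete`.
-/

set_option autoImplicit false

open MeasureTheory Set Pool.H46.Bi

namespace Pool.H46.Eg

variable {Ω : Type} [MeasurableSpace Ω] (S : Fl Ω)

theorem abs_main (hC : S.Cuts) {f : Ω → ℂ} (hf : Bd f) (hi : S.Inva f) (ht : S.Tc f)
    {δ' : ℝ} (hδ' : 0 < δ') : S.nn δ' (S.L δ' f) = 0 := by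
  refine complete S (L_bd S hδ' hf) fun m => ?_
  rw [nn_congr S (fun ω hω => P_L S m hδ' hf hω)]
  exact mode_zero S hC hf hi ht (m - 1) hδ'

end Pool.H46.Eg
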