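import Pool.Agent.H46.Eg.Lin

/-!
# [H46 EG LAD] the ladder of an invariant function (40-70 lines)
`refl_int`: the map `ζ ↦ -conj ζ` is a linear isometry (`Complex.conjLIE` and the negation).
`ladder`: the sum is `∫ ζ, cL kap (conj ζ + ζ) f (T ζ ω)` (`T_int` for the integrability).  By `refl_int` it is equal to
`∫ ζ, cL kap (conj (-conj ζ) + (-conj ζ)) f (T (-conj ζ) ω) = - ∫ ζ, cL kap (ζ + conj ζ) f (T (-conj ζ) ω)` and for a.e. ζ with ‖ζ‖ < δ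
`f (T (-conj ζ) ω) = f (T ζ ω)` by `Inva` (same imaginary part, `‖-conj ζ - ζ‖ = 2 |re ζ| ≤ 2 ‖ζ‖`, `3 K ‖ζ‖ < 4 K δ ≤ d ω`;
a.e. ζ: neither ζ nor -conj ζ is in the null set `{ζ | (ζ, ω) ∈ B}`, `S.Bnull`).  For ‖ζ‖ ≥ δ the kernel is 0.
So the sum is equal to its negative.
-/

set_option autoImplicit false

open MeasureTheory Set Pool.H46.Bi

namespace Pool.H46.Eg

variable {Ω : Type} [MeasurableSpace Ω] (S : Fl Ω)

private theorem refl_mp : MeasurePreserving (fun ζ : ℂ => -(starRingEnd ℂ) ζ)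
    (volume : Measure ℂ) volume :=
  (Complex.conjLIE.trans (LinearIsometryEquiv.neg ℝ)).measurePreserving

private theorem refl_emb : MeasurableEmbedding (fun ζ : ℂ => -(starRingEnd ℂ) ζ) :=
  (Complex.conjLIE.trans (LinearIsometryEquiv.neg ℝ)).toHomeomorph.measurableEmbedding

theorem refl_int (f : ℂ → ℂ) : ∫ ζ : ℂ, f (-(starRingEnd ℂ) ζ) = ∫ ζ : ℂ, f ζ := by
  have h := refl_mp.integral_comp refl_emb f
  exact h

/-- almost every ζ and its mirror image are not exceptional -/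
theorem refl_ae {ω : Ω} (hω : ω ∈ S.X) :
    ∀ᵐ ζ : ℂ, (ζ, ω) ∉ S.B ∧ (-(starRingEnd ℂ) ζ, ω) ∉ S.B := by
  have h0 : ∀ᵐ ζ : ℂ, (ζ, ω) ∉ S.B := by
    rw [ae_iff]
    simpa using S.Bnull ω hω
  have h1 : ∀ᵐ ζ : ℂ, (-(starRingEnd ℂ) ζ, ω) ∉ S.B := refl_mp.quasiMeasurePreserving.ae h0
  filter_upwards [h0, h1] with ζ h2 h3
  exact ⟨h2, h3⟩

theorem ladder {δ : ℝ} (hδ : 0 < δ) {f : Ω → ℂ} (hf : Bd f) (hi : S.Inva f) {ω : Ω}
    (hω : ω ∈ S.Om δ) : S.L δ f ω + S.L' δ f ω = 0 := by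
  have hK := S.hK
  have hc : Continuous fun ζ : ℂ => ((cL δ * kap δ ζ : ℝ) : ℂ) :=
    Complex.continuous_ofReal.comp (continuous_const.mul (kap_cont δ))
  have i1 : Integrable fun ζ : ℂ => ((cL δ * kap δ ζ : ℝ) : ℂ) * (starRingEnd ℂ) ζ * f (S.T ζ ω) :=
    T_int S hf (k := fun ζ : ℂ => ((cL δ * kap δ ζ : ℝ) : ℂ) * (starRingEnd ℂ) ζ)
      (hc.mul Complex.continuous_conj) (δ := δ) (fun ζ hζ => by simp [kap_zero hδ hζ]) ω
  have i2 : Integrable fun ζ : ℂ => ((cL δ * kap δ ζ : ℝ) : ℂ) * ζ * f (S.T ζ ω) :=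
    T_int S hf (k := fun ζ : ℂ => ((cL δ * kap δ ζ : ℝ) : ℂ) * ζ)
      (hc.mul continuous_id) (δ := δ) (fun ζ hζ => by simp [kap_zero hδ hζ]) ω
  have e1 : S.L δ f ω + S.L' δ f ω =
      ∫ ζ : ℂ, ((cL δ * kap δ ζ : ℝ) : ℂ) * ((starRingEnd ℂ) ζ + ζ) * f (S.T ζ ω) := by
    unfold Fl.L Fl.L'
    rw [← integral_add i1 i2]
    congr 1
    funext ζ
    ring
  have e2 : ∫ ζ : ℂ, ((cL δ * kap δ ζ : ℝ) : ℂ) * ((starRingEnd ℂ) ζ + ζ) * f (S.T ζ ω) =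
      ∫ ζ : ℂ, -(((cL δ * kap δ ζ : ℝ) : ℂ) * ((starRingEnd ℂ) ζ + ζ) * f (S.T ζ ω)) := by
    rw [← refl_int (fun ζ : ℂ => ((cL δ * kap δ ζ : ℝ) : ℂ) * ((starRingEnd ℂ) ζ + ζ) * f (S.T ζ ω))]
    apply integral_congr_ae
    filter_upwards [refl_ae S hω.1] with ζ hζ
    have hn : ‖-(starRingEnd ℂ) ζ‖ = ‖ζ‖ := by rw [norm_neg, Complex.norm_conj]
    rw [kap_norm δ hn]
    by_cases h : δ ≤ ‖ζ‖
    · simp [kap_zero hδ h]
    · push Not at h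
      have h4 : ‖-(starRingEnd ℂ) ζ - ζ‖ ≤ 2 * ‖ζ‖ := by
        refine (norm_sub_le _ _).trans ?_
        rw [hn]
        linarith
      have h5 : S.K * (‖ζ‖ + ‖-(starRingEnd ℂ) ζ - ζ‖) < S.d ω := by
        have h6 : S.K * (‖ζ‖ + ‖-(starRingEnd ℂ) ζ - ζ‖) ≤ S.K * (3 * ‖ζ‖) :=
          mul_le_mul_of_nonneg_left (by linarith) (by linarith)
        have h7 : S.K * (3 * ‖ζ‖) < S.K * (4 * δ) :=
          mul_lt_mul_of_pos_left (by linarith) (by linarith)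
        have h8 := hω.2
        linarith
      have h9 := hi ω hω.1 ζ (-(starRingEnd ℂ) ζ) (by simp) h5 hζ.1 hζ.2
      rw [h9]
      simp only [map_neg, Complex.conj_conj]
      ring
  rw [integral_neg] at e2
  rw [e1]
  exact self_eq_neg.1 e2

end Pool.H46.Eg
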