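import Pool.Agent.H46.Eg.Psh
import Pool.Agent.H46.Eg.Lad

/-!
# [H46 EG CUH] the source term of the cut off function (90-130 lines)
g = a f.  For ω ∈ Om δ, with `c ζ = cL δ * kap δ ζ`:
`L δ g ω + L' δ g ω = ∫ c ζ (conj ζ + ζ) g (T ζ ω) = ∫ c ζ re ζ (g (T ζ ω) - g (T (-conj ζ) ω))` (average of the integral and
its image under `refl_int`).  For a.e. ζ with ‖ζ‖ < δ (`refl_ae`; ζ and -conj ζ not exceptional): f takes the same value at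
`T ζ ω` and `T (-conj ζ) ω` (`Inva`), `|a (T ζ ω) - a (T (-conj ζ) ω)| ≤ (1/t) 2 |re ζ|` (`Cut.lip`), and this difference is 0 if both
points are outside W (`Cut.one`, `S.TX`).  So, with 1_W = indicator,
`‖integrand‖ ≤ (2 M / t) c ζ ‖ζ‖² (1_W (T ζ ω) + 1_W (T (-conj ζ) ω))`, and by `refl_int` (real version)
`‖L g ω + L' g ω‖ ≤ (4 M / t) I ω`, `I ω = ∫ c ζ ‖ζ‖² 1_W (T ζ ω) ≤ ∫ c ζ ‖ζ‖² = 1` (`int_sq`), hence
`‖..‖ ^ 2 ≤ (16 M² / t²) I ω`, and `∫ ω in Om δ, I ω = ∫ c ζ ‖ζ‖² ∫ ω in Om δ, 1_W (T ζ ω) ≤ ∫ c ζ ‖ζ‖² μ W = μ W` by Fubini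
and `push_all`.
-/

set_option autoImplicit false

open MeasureTheory Set Pool.H46.Bi

namespace Pool.H46.Eg

variable {Ω : Type} [MeasurableSpace Ω] (S : Fl Ω)

theorem cut_bd {δ t C : ℝ} {a : Ω → ℝ} {W : Set Ω} (hc : S.Cut δ t C a W) {f : Ω → ℂ}
    (hf : Bd f) : Bd (fun ω => (a ω : ℂ) * f ω) := by
  obtain ⟨hfm, Cf, hCf⟩ := hf
  refine ⟨(Complex.measurable_ofReal.comp hc.ma).mul hfm, Cf, fun ω => ?_⟩
  rw [norm_mul, Complex.norm_real, Real.norm_of_nonneg (hc.nonneg ω)]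
  have h0 : 0 ≤ ‖f ω‖ := norm_nonneg _
  have h1 := hCf ω
  have h2 := hc.le_one ω
  have h3 := hc.nonneg ω
  nlinarith

theorem cut_sup {δ t C : ℝ} {a : Ω → ℝ} {W : Set Ω} (hc : S.Cut δ t C a W) (f : Ω → ℂ) :
    S.Sup δ (fun ω => (a ω : ℂ) * f ω) := by
  intro ω hω
  simp [hc.zero ω hω]

/-- the kernel times the square of the norm is integrable -/
theorem cuh_sq_int {δ : ℝ} (hδ : 0 < δ) : Integrable (fun ζ : ℂ => cL δ * kap δ ζ * ‖ζ‖ ^ 2) := by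
  by_contra h
  have h1 := integral_undef h
  have h2 := int_sq hδ
  rw [h1] at h2
  exact zero_ne_one h2

/-- the mirror image preserves the measure -/
theorem cuh_refl_mp : MeasurePreserving (fun ζ : ℂ => -(starRingEnd ℂ) ζ) volume volume := by
  have h := (Complex.conjLIE.trans (LinearIsometryEquiv.neg ℝ)).measurePreserving
  exact h

theorem cuh_refl_int_real (f : ℂ → ℝ) : ∫ ζ : ℂ, f (-(starRingEnd ℂ) ζ) = ∫ ζ : ℂ, f ζ := by
  have h := refl_int (fun ζ => ((f ζ : ℝ) : ℂ))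
  have h1 : (∫ ζ : ℂ, ((f (-(starRingEnd ℂ) ζ) : ℝ) : ℂ)) =
      ((∫ ζ : ℂ, f (-(starRingEnd ℂ) ζ) : ℝ) : ℂ) := integral_ofReal
  have h2 : (∫ ζ : ℂ, ((f ζ : ℝ) : ℂ)) = ((∫ ζ : ℂ, f ζ : ℝ) : ℂ) := integral_ofReal
  rw [h1, h2] at h
  exact_mod_cast h

/-- the weight of the translations into W -/
noncomputable def wI (δ : ℝ) (W : Set Ω) (ω : Ω) : ℝ :=
  ∫ ζ : ℂ, cL δ * kap δ ζ * ‖ζ‖ ^ 2 * W.indicator (fun _ => (1 : ℝ)) (S.T ζ ω)

theorem cuh_ind_nonneg (W : Set Ω) (ω : Ω) : 0 ≤ W.indicator (fun _ => (1 : ℝ)) ω :=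
  Set.indicator_nonneg (fun _ _ => zero_le_one) _

theorem cuh_ind_le_one (W : Set Ω) (ω : Ω) : W.indicator (fun _ => (1 : ℝ)) ω ≤ 1 := by
  by_cases h : ω ∈ W
  · rw [Set.indicator_of_mem h]
  · rw [Set.indicator_of_notMem h]; exact zero_le_one

theorem cuh_ker_nonneg {δ : ℝ} (hδ : 0 < δ) (ζ : ℂ) : 0 ≤ cL δ * kap δ ζ :=
  mul_nonneg (cL_pos hδ).le (kap_nonneg δ ζ)

theorem cuh_ker_cont (δ : ℝ) : Continuous (fun ζ : ℂ => cL δ * kap δ ζ) :=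
  continuous_const.mul (kap_cont δ)

theorem cuh_wI_meas2 (δ : ℝ) {W : Set Ω} (hW : MeasurableSet W) :
    Measurable (fun p : ℂ × Ω =>
      cL δ * kap δ p.1 * ‖p.1‖ ^ 2 * W.indicator (fun _ => (1 : ℝ)) (S.T p.1 p.2)) := by
  have h1 : Measurable (fun p : ℂ × Ω => cL δ * kap δ p.1) :=
    (cuh_ker_cont δ).measurable.comp measurable_fst
  have h2 : Measurable (fun p : ℂ × Ω => ‖p.1‖ ^ 2) :=
    (continuous_norm.pow 2).measurable.comp measurable_fst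
  have h3 : Measurable (fun p : ℂ × Ω => W.indicator (fun _ => (1 : ℝ)) (S.T p.1 p.2)) :=
    (measurable_const.indicator hW).comp S.mT
  exact (h1.mul h2).mul h3

theorem cuh_wI_int {δ : ℝ} (hδ : 0 < δ) {W : Set Ω} (hW : MeasurableSet W) (ω : Ω) :
    Integrable (fun ζ : ℂ =>
      cL δ * kap δ ζ * ‖ζ‖ ^ 2 * W.indicator (fun _ => (1 : ℝ)) (S.T ζ ω)) := by
  refine (cuh_sq_int hδ).mono' ?_ (ae_of_all _ fun ζ => ?_)
  · exact ((cuh_wI_meas2 S δ hW).comp (measurable_id.prodMk measurable_const)).aestronglyMeasurable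
  · have h1 := cuh_ker_nonneg hδ ζ
    have h2 : 0 ≤ ‖ζ‖ ^ 2 := by positivity
    have h3 := cuh_ind_nonneg W (S.T ζ ω)
    have h4 := cuh_ind_le_one W (S.T ζ ω)
    rw [Real.norm_of_nonneg (mul_nonneg (mul_nonneg h1 h2) h3)]
    exact mul_le_of_le_one_right (mul_nonneg h1 h2) h4

theorem cuh_wI_nonneg {δ : ℝ} (hδ : 0 < δ) (W : Set Ω) (ω : Ω) : 0 ≤ wI S δ W ω := by
  refine integral_nonneg fun ζ => ?_
  have h1 := cuh_ker_nonneg hδ ζ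
  have h2 : 0 ≤ ‖ζ‖ ^ 2 := by positivity
  exact mul_nonneg (mul_nonneg h1 h2) (cuh_ind_nonneg W _)

theorem cuh_wI_le_one {δ : ℝ} (hδ : 0 < δ) {W : Set Ω} (hW : MeasurableSet W) (ω : Ω) :
    wI S δ W ω ≤ 1 := by
  rw [← int_sq hδ]
  refine integral_mono (cuh_wI_int S hδ hW ω) (cuh_sq_int hδ) fun ζ => ?_
  have h1 := cuh_ker_nonneg hδ ζ
  have h2 : 0 ≤ ‖ζ‖ ^ 2 := by positivity
  exact mul_le_of_le_one_right (mul_nonneg h1 h2) (cuh_ind_le_one W _)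

theorem cuh_wI_total {δ : ℝ} (hδ : 0 < δ) {W : Set Ω} (hW : MeasurableSet W) :
    Integrable (wI S δ W) (S.μ.restrict (S.Om δ)) ∧
      ∫ ω in S.Om δ, wI S δ W ω ∂S.μ ≤ (S.μ W).toReal := by
  have := S.fin
  have hdom : Integrable (fun p : ℂ × Ω => cL δ * kap δ p.1 * ‖p.1‖ ^ 2)
      ((volume : Measure ℂ).prod (S.μ.restrict (S.Om δ))) := (cuh_sq_int hδ).comp_fst _
  have hF : Integrable (fun p : ℂ × Ω =>
      cL δ * kap δ p.1 * ‖p.1‖ ^ 2 * W.indicator (fun _ => (1 : ℝ)) (S.T p.1 p.2))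
      ((volume : Measure ℂ).prod (S.μ.restrict (S.Om δ))) := by
    refine hdom.mono' (cuh_wI_meas2 S δ hW).aestronglyMeasurable (ae_of_all _ fun p => ?_)
    have h1 := cuh_ker_nonneg hδ p.1
    have h2 : 0 ≤ ‖p.1‖ ^ 2 := by positivity
    have h3 := cuh_ind_nonneg W (S.T p.1 p.2)
    have h4 := cuh_ind_le_one W (S.T p.1 p.2)
    rw [Real.norm_of_nonneg (mul_nonneg (mul_nonneg h1 h2) h3)]
    exact mul_le_of_le_one_right (mul_nonneg h1 h2) h4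
  refine ⟨hF.integral_prod_right, ?_⟩
  have hsw : ∫ ω in S.Om δ, wI S δ W ω ∂S.μ = ∫ ζ : ℂ, ∫ ω in S.Om δ,
      cL δ * kap δ ζ * ‖ζ‖ ^ 2 * W.indicator (fun _ => (1 : ℝ)) (S.T ζ ω) ∂S.μ :=
    (integral_integral_swap (f := fun (ζ : ℂ) (ω : Ω) =>
      cL δ * kap δ ζ * ‖ζ‖ ^ 2 * W.indicator (fun _ => (1 : ℝ)) (S.T ζ ω)) hF).symm
  rw [hsw]
  have hb : ∀ ζ : ℂ, (∫ ω in S.Om δ,
      cL δ * kap δ ζ * ‖ζ‖ ^ 2 * W.indicator (fun _ => (1 : ℝ)) (S.T ζ ω) ∂S.μ) ≤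
      cL δ * kap δ ζ * ‖ζ‖ ^ 2 * (S.μ W).toReal := by
    intro ζ
    rw [integral_const_mul]
    by_cases hζ : δ ≤ ‖ζ‖
    · rw [kap_zero hδ hζ]; simp
    · push Not at hζ
      have h1 := cuh_ker_nonneg hδ ζ
      have h2 : 0 ≤ ‖ζ‖ ^ 2 := by positivity
      refine mul_le_mul_of_nonneg_left ?_ (mul_nonneg h1 h2)
      have h3 := push_all S hδ hζ (h := W.indicator (fun _ => (1 : ℝ)))
        (measurable_const.indicator hW) (cuh_ind_nonneg W) (cuh_ind_le_one W)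
      refine h3.trans (le_of_eq ?_)
      rw [integral_indicator_const _ hW]
      simp [Measure.real]
  calc ∫ ζ : ℂ, ∫ ω in S.Om δ,
      cL δ * kap δ ζ * ‖ζ‖ ^ 2 * W.indicator (fun _ => (1 : ℝ)) (S.T ζ ω) ∂S.μ
      ≤ ∫ ζ : ℂ, cL δ * kap δ ζ * ‖ζ‖ ^ 2 * (S.μ W).toReal := by
        refine integral_mono hF.integral_prod_left ((cuh_sq_int hδ).mul_const _) hb
    _ = (S.μ W).toReal := by rw [integral_mul_const, int_sq hδ, one_mul]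

/-- the pointwise bound -/
theorem cut_pt {δ t C M : ℝ} (hδ : 0 < δ) (ht : 0 < t) {f : Ω → ℂ} (hf : Bd f)
    (hM : ∀ ω, ‖f ω‖ ≤ M) (hi : S.Inva f) {a : Ω → ℝ} {W : Set Ω} (hc : S.Cut δ t C a W)
    {ω : Ω} (hω : ω ∈ S.Om δ) :
    ‖S.L δ (fun ω => (a ω : ℂ) * f ω) ω + S.L' δ (fun ω => (a ω : ℂ) * f ω) ω‖ ≤
      4 * M / t * wI S δ W ω := by
  have hM0 : 0 ≤ M := (norm_nonneg _).trans (hM ω)
  have hK := S.hK
  have hg := cut_bd S hc hf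
  set g : Ω → ℂ := fun ω => (a ω : ℂ) * f ω with hgdef
  set Φ : ℂ → ℂ := fun ζ =>
    ((cL δ * kap δ ζ : ℝ) : ℂ) * ((starRingEnd ℂ) ζ + ζ) * g (S.T ζ ω) with hΦ
  set J : ℂ → ℝ := fun ζ =>
    cL δ * kap δ ζ * ‖ζ‖ ^ 2 * W.indicator (fun _ => (1 : ℝ)) (S.T ζ ω) with hJ
  have hkc : Continuous (fun ζ : ℂ => ((cL δ * kap δ ζ : ℝ) : ℂ)) :=
    Complex.continuous_ofReal.comp (cuh_ker_cont δ)
  have hk0 : ∀ ζ : ℂ, δ ≤ ‖ζ‖ → ((cL δ * kap δ ζ : ℝ) : ℂ) = 0 := by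
    intro ζ hζ
    rw [kap_zero hδ hζ]; simp
  have i1 : Integrable fun ζ : ℂ =>
      ((cL δ * kap δ ζ : ℝ) : ℂ) * (starRingEnd ℂ) ζ * g (S.T ζ ω) :=
    T_int S hg (k := fun ζ => ((cL δ * kap δ ζ : ℝ) : ℂ) * (starRingEnd ℂ) ζ)
      (hkc.mul Complex.continuous_conj) (δ := δ)
      (fun ζ hζ => by rw [hk0 ζ hζ, zero_mul]) ω
  have i2 : Integrable fun ζ : ℂ => ((cL δ * kap δ ζ : ℝ) : ℂ) * ζ * g (S.T ζ ω) :=
    T_int S hg (k := fun ζ => ((cL δ * kap δ ζ : ℝ) : ℂ) * ζ)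
      (hkc.mul continuous_id) (δ := δ)
      (fun ζ hζ => by rw [hk0 ζ hζ, zero_mul]) ω
  have iΦ : Integrable Φ := by
    have h := i1.add i2
    refine h.congr (ae_of_all _ fun ζ => ?_)
    simp only [Pi.add_apply, hΦ]
    ring
  have hsum : S.L δ g ω + S.L' δ g ω = ∫ ζ, Φ ζ := by
    unfold Fl.L Fl.L'
    rw [← integral_add i1 i2]
    refine integral_congr_ae (ae_of_all _ fun ζ => ?_)
    simp only [hΦ]
    ring
  have iΦ' : Integrable (fun ζ => Φ (-(starRingEnd ℂ) ζ)) :=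
    cuh_refl_mp.integrable_comp_of_integrable iΦ
  have hrefl : ∫ ζ, Φ (-(starRingEnd ℂ) ζ) = ∫ ζ, Φ ζ := refl_int Φ
  have iJ : Integrable J := cuh_wI_int S hδ hc.mW ω
  have iJ' : Integrable (fun ζ => J (-(starRingEnd ℂ) ζ)) :=
    cuh_refl_mp.integrable_comp_of_integrable iJ
  have hJr : ∫ ζ, J (-(starRingEnd ℂ) ζ) = ∫ ζ, J ζ := cuh_refl_int_real J
  have h2 : (2 : ℂ) * (∫ ζ, Φ ζ) = ∫ ζ, (Φ ζ + Φ (-(starRingEnd ℂ) ζ)) := by
    rw [integral_add iΦ iΦ', hrefl, two_mul]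
  have hnorm : ∀ ζ : ℂ, ‖-(starRingEnd ℂ) ζ‖ = ‖ζ‖ := fun ζ => by
    rw [norm_neg, RCLike.norm_conj]
  have hpt : ∀ᵐ ζ : ℂ, ‖Φ ζ + Φ (-(starRingEnd ℂ) ζ)‖ ≤
      4 * M / t * (J ζ + J (-(starRingEnd ℂ) ζ)) := by
    filter_upwards [refl_ae S hω.1] with ζ hζB
    have hkap' : kap δ (-(starRingEnd ℂ) ζ) = kap δ ζ := kap_norm δ (hnorm ζ)
    by_cases hζ : δ ≤ ‖ζ‖
    · have e1 : Φ ζ = 0 := by
        simp only [hΦ]; rw [hk0 ζ hζ]; ring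
      have e2 : Φ (-(starRingEnd ℂ) ζ) = 0 := by
        simp only [hΦ]; rw [hk0 (-(starRingEnd ℂ) ζ) (by rw [hnorm]; exact hζ)]; ring
      have e3 : J ζ = 0 := by
        simp only [hJ]; rw [kap_zero hδ hζ]; ring
      have e4 : J (-(starRingEnd ℂ) ζ) = 0 := by
        simp only [hJ]; rw [hkap', kap_zero hδ hζ]; ring
      rw [e1, e2, e3, e4]; simp
    · push Not at hζ
      have hd : 4 * S.K * δ ≤ S.d ω := hω.2
      have hdiff : ‖-(starRingEnd ℂ) ζ - ζ‖ ≤ 2 * ‖ζ‖ := by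
        calc ‖-(starRingEnd ℂ) ζ - ζ‖ ≤ ‖-(starRingEnd ℂ) ζ‖ + ‖ζ‖ := norm_sub_le _ _
          _ = 2 * ‖ζ‖ := by rw [hnorm]; ring
      have hz0 : 0 ≤ ‖ζ‖ := norm_nonneg ζ
      have hKpos : 0 < S.K := by linarith
      have hlt : S.K * (‖ζ‖ + ‖-(starRingEnd ℂ) ζ - ζ‖) < S.d ω := by
        have h3 : S.K * (‖ζ‖ + ‖-(starRingEnd ℂ) ζ - ζ‖) ≤ S.K * (3 * ‖ζ‖) :=
          mul_le_mul_of_nonneg_left (by linarith) hKpos.le
        have h4 : S.K * (3 * ‖ζ‖) < S.K * (4 * δ) :=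
          mul_lt_mul_of_pos_left (by linarith) hKpos
        calc S.K * (‖ζ‖ + ‖-(starRingEnd ℂ) ζ - ζ‖) ≤ S.K * (3 * ‖ζ‖) := h3
          _ < S.K * (4 * δ) := h4
          _ = 4 * S.K * δ := by ring
          _ ≤ S.d ω := hd
      have him : ζ.im = (-(starRingEnd ℂ) ζ).im := by simp
      have hfeq : f (S.T (-(starRingEnd ℂ) ζ) ω) = f (S.T ζ ω) :=
        hi ω hω.1 ζ _ him hlt hζB.1 hζB.2
      have hlip : |a (S.T (-(starRingEnd ℂ) ζ) ω) - a (S.T ζ ω)| ≤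
          1 / t * ‖-(starRingEnd ℂ) ζ - ζ‖ :=
        hc.lip ω hω.1 ζ _ him hlt hζB.1 hζB.2
      have hlt1 : S.K * ‖ζ‖ < S.d ω := by
        refine lt_of_le_of_lt ?_ hlt
        exact mul_le_mul_of_nonneg_left (by linarith [norm_nonneg (-(starRingEnd ℂ) ζ - ζ)]) hKpos.le
      have hX1 : S.T ζ ω ∈ S.X := (S.TX ω hω.1 ζ hlt1 hζB.1).1
      have hX2 : S.T (-(starRingEnd ℂ) ζ) ω ∈ S.X :=
        (S.TX ω hω.1 _ (by rw [hnorm]; exact hlt1) hζB.2).1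
      set A : ℝ := a (S.T ζ ω) with hA
      set A' : ℝ := a (S.T (-(starRingEnd ℂ) ζ) ω) with hA'
      set w : ℝ := W.indicator (fun _ => (1 : ℝ)) (S.T ζ ω) with hw
      set w' : ℝ := W.indicator (fun _ => (1 : ℝ)) (S.T (-(starRingEnd ℂ) ζ) ω) with hw'
      have hw0 : 0 ≤ w := cuh_ind_nonneg W _
      have hw0' : 0 ≤ w' := cuh_ind_nonneg W _
      have hAA : |A' - A| ≤ 1 / t * (2 * ‖ζ‖) * (w + w') := by
        have hnn : 0 ≤ 1 / t * (2 * ‖ζ‖) := by positivity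
        by_cases hW1 : S.T ζ ω ∈ W
        · have : w = 1 := by rw [hw, Set.indicator_of_mem hW1]
          calc |A' - A| ≤ 1 / t * ‖-(starRingEnd ℂ) ζ - ζ‖ := hlip
            _ ≤ 1 / t * (2 * ‖ζ‖) := mul_le_mul_of_nonneg_left hdiff (by positivity)
            _ ≤ 1 / t * (2 * ‖ζ‖) * (w + w') := le_mul_of_one_le_right hnn (by linarith)
        · by_cases hW2 : S.T (-(starRingEnd ℂ) ζ) ω ∈ W
          · have : w' = 1 := by rw [hw', Set.indicator_of_mem hW2]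
            calc |A' - A| ≤ 1 / t * ‖-(starRingEnd ℂ) ζ - ζ‖ := hlip
              _ ≤ 1 / t * (2 * ‖ζ‖) := mul_le_mul_of_nonneg_left hdiff (by positivity)
              _ ≤ 1 / t * (2 * ‖ζ‖) * (w + w') := le_mul_of_one_le_right hnn (by linarith)
          · have e1 : A = 1 := hc.one _ hX1 hW1
            have e2 : A' = 1 := hc.one _ hX2 hW2
            rw [e1, e2, sub_self, abs_zero]
            exact mul_nonneg hnn (by linarith)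
      have hval : Φ ζ + Φ (-(starRingEnd ℂ) ζ) =
          ((cL δ * kap δ ζ : ℝ) : ℂ) * ((starRingEnd ℂ) ζ + ζ) *
            (((A - A' : ℝ) : ℂ) * f (S.T ζ ω)) := by
        simp only [hΦ, hgdef]
        rw [hkap', hfeq, ← hA, ← hA']
        push_cast
        simp only [map_neg, Complex.conj_conj]
        ring
      have hJ1 : J ζ + J (-(starRingEnd ℂ) ζ) = cL δ * kap δ ζ * ‖ζ‖ ^ 2 * (w + w') := by
        simp only [hJ]
        rw [hkap', hnorm, ← hw, ← hw']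
        ring
      rw [hval, hJ1]
      have hk := cuh_ker_nonneg hδ ζ
      have hn1 : ‖(starRingEnd ℂ) ζ + ζ‖ ≤ 2 * ‖ζ‖ := by
        calc ‖(starRingEnd ℂ) ζ + ζ‖ ≤ ‖(starRingEnd ℂ) ζ‖ + ‖ζ‖ := norm_add_le _ _
          _ = 2 * ‖ζ‖ := by rw [RCLike.norm_conj]; ring
      have hn2 : ‖((A - A' : ℝ) : ℂ) * f (S.T ζ ω)‖ ≤ 1 / t * (2 * ‖ζ‖) * (w + w') * M := by
        rw [norm_mul, Complex.norm_real, Real.norm_eq_abs, abs_sub_comm]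
        exact mul_le_mul hAA (hM _) (norm_nonneg _) ((abs_nonneg _).trans hAA)
      calc ‖((cL δ * kap δ ζ : ℝ) : ℂ) * ((starRingEnd ℂ) ζ + ζ) *
            (((A - A' : ℝ) : ℂ) * f (S.T ζ ω))‖
          = (cL δ * kap δ ζ) * ‖(starRingEnd ℂ) ζ + ζ‖ * ‖((A - A' : ℝ) : ℂ) * f (S.T ζ ω)‖ := by
            rw [norm_mul, norm_mul, Complex.norm_real, Real.norm_of_nonneg hk]
        _ ≤ (cL δ * kap δ ζ) * (2 * ‖ζ‖) * (1 / t * (2 * ‖ζ‖) * (w + w') * M) := by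
            refine mul_le_mul (mul_le_mul_of_nonneg_left hn1 hk) hn2 (norm_nonneg _) ?_
            exact mul_nonneg hk (by positivity)
        _ = 4 * M / t * (cL δ * kap δ ζ * ‖ζ‖ ^ 2 * (w + w')) := by ring
  rw [hsum]
  have h5 : ‖(2 : ℂ) * (∫ ζ, Φ ζ)‖ ≤ 4 * M / t * (wI S δ W ω + wI S δ W ω) := by
    rw [h2]
    have h6 : ∫ ζ, 4 * M / t * (J ζ + J (-(starRingEnd ℂ) ζ)) =
        4 * M / t * (wI S δ W ω + wI S δ W ω) := by
      rw [integral_const_mul, integral_add iJ iJ', hJr]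
      rfl
    rw [← h6]
    exact norm_integral_le_of_norm_le ((iJ.add iJ').const_mul _) hpt
  rw [norm_mul] at h5
  have h7 : ‖(2 : ℂ)‖ = 2 := by simp
  rw [h7] at h5
  linarith

theorem cut_h {δ t C M : ℝ} (hδ : 0 < δ) (ht : 0 < t) {f : Ω → ℂ} (hf : Bd f)
    (hM : ∀ ω, ‖f ω‖ ≤ M) (hi : S.Inva f) {a : Ω → ℝ} {W : Set Ω} (hc : S.Cut δ t C a W) :
    S.nn δ (fun ω => S.L δ (fun ω => (a ω : ℂ) * f ω) ω + S.L' δ (fun ω => (a ω : ℂ) * f ω) ω) ≤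
      16 * M ^ 2 / t ^ 2 * (S.μ W).toReal := by
  obtain ⟨hI, hT⟩ := cuh_wI_total S hδ hc.mW
  unfold Fl.nn
  have hpt : ∀ ω ∈ S.Om δ,
      ‖S.L δ (fun ω => (a ω : ℂ) * f ω) ω + S.L' δ (fun ω => (a ω : ℂ) * f ω) ω‖ ^ 2 ≤
        16 * M ^ 2 / t ^ 2 * wI S δ W ω := by
    intro ω hω
    have h1 := cut_pt S hδ ht hf hM hi hc hω
    have h0 := cuh_wI_nonneg S hδ W ω
    have h01 := cuh_wI_le_one S hδ hc.mW ω
    calc ‖S.L δ (fun ω => (a ω : ℂ) * f ω) ω + S.L' δ (fun ω => (a ω : ℂ) * f ω) ω‖ ^ 2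
        ≤ (4 * M / t * wI S δ W ω) ^ 2 := by
          exact pow_le_pow_left₀ (norm_nonneg _) h1 2
      _ = 16 * M ^ 2 / t ^ 2 * (wI S δ W ω * wI S δ W ω) := by
          field_simp; ring
      _ ≤ 16 * M ^ 2 / t ^ 2 * (wI S δ W ω * 1) := by
          refine mul_le_mul_of_nonneg_left ?_ (by positivity)
          exact mul_le_mul_of_nonneg_left h01 h0
      _ = 16 * M ^ 2 / t ^ 2 * wI S δ W ω := by ring
  calc ∫ ω in S.Om δ,
        ‖S.L δ (fun ω => (a ω : ℂ) * f ω) ω + S.L' δ (fun ω => (a ω : ℂ) * f ω) ω‖ ^ 2 ∂S.μ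
      ≤ ∫ ω in S.Om δ, 16 * M ^ 2 / t ^ 2 * wI S δ W ω ∂S.μ := by
        refine integral_mono_of_nonneg (ae_of_all _ fun ω => by positivity)
          (hI.const_mul _) ?_
        filter_upwards [ae_restrict_mem (Om_meas S δ)] with ω hω
        exact hpt ω hω
    _ = 16 * M ^ 2 / t ^ 2 * ∫ ω in S.Om δ, wI S δ W ω ∂S.μ := integral_const_mul _ _
    _ ≤ 16 * M ^ 2 / t ^ 2 * (S.μ W).toReal :=
        mul_le_mul_of_nonneg_left hT (by positivity)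

/-- the cut off function is near f -/
theorem cut_near {δ t C M : ℝ} {f : Ω → ℂ} (hf : Bd f) (hM : ∀ ω, ‖f ω‖ ≤ M) {a : Ω → ℝ}
    {W : Set Ω} (hc : S.Cut δ t C a W) :
    ∫ ω, ‖(a ω : ℂ) * f ω - f ω‖ ^ 2 ∂S.μ ≤ M ^ 2 * (S.μ W).toReal := by
  have := S.fin
  have hX : ∀ᵐ ω ∂S.μ, ω ∈ S.X := by
    rw [ae_iff]
    exact S.nX
  have hle : ∀ᵐ ω ∂S.μ, ‖(a ω : ℂ) * f ω - f ω‖ ^ 2 ≤ W.indicator (fun _ => M ^ 2) ω := by
    filter_upwards [hX] with ω hω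
    by_cases hW : ω ∈ W
    · rw [Set.indicator_of_mem hW]
      have h1 : ‖(a ω : ℂ) * f ω - f ω‖ ≤ M := by
        have e : (a ω : ℂ) * f ω - f ω = ((a ω - 1 : ℝ) : ℂ) * f ω := by push_cast; ring
        rw [e, norm_mul, Complex.norm_real, Real.norm_eq_abs]
        have h2 := hc.nonneg ω
        have h3 := hc.le_one ω
        have h4 : |a ω - 1| ≤ 1 := by rw [abs_le]; constructor <;> linarith
        calc |a ω - 1| * ‖f ω‖ ≤ 1 * M := mul_le_mul h4 (hM ω) (norm_nonneg _) zero_le_one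
          _ = M := one_mul M
      exact pow_le_pow_left₀ (norm_nonneg _) h1 2
    · rw [Set.indicator_of_notMem hW, hc.one ω hω hW]
      simp
  calc ∫ ω, ‖(a ω : ℂ) * f ω - f ω‖ ^ 2 ∂S.μ
      ≤ ∫ ω, W.indicator (fun _ => M ^ 2) ω ∂S.μ := by
        refine integral_mono_of_nonneg (ae_of_all _ fun ω => by positivity) ?_ hle
        exact (integrable_const (M ^ 2)).indicator hc.mW
    _ = M ^ 2 * (S.μ W).toReal := by
        rw [integral_indicator_const _ hc.mW]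
        simp [Measure.real, mul_comm]

end Pool.H46.Eg
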