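import Pool.Agent.H46.Eg.Nn

/-!
# [H46 EG BES] Bessel's inequality and completeness for the modes (80-120 lines)
For fixed ω: `S.P m F ω = fourierCoeff (fun φ => F (S.R φ ω)) m` (definition, `smul_eq_mul`), and
`∑ m ∈ s, ‖fourierCoeff g m‖ ^ 2 ≤ ∫ ‖g‖ ^ 2` (Parseval: `tsum_sq_fourierCoeff` for `g` in `Lp 2`: take `MemLp.toLp` of the bounded
measurable function, `fourierCoeff` only depends on the a.e. class: `fourierCoeff_toLp`-like lemma, or
`integral_congr_ae`; `sum_le_hasSum` / `Summable.sum_le_tsum`).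
`rot_inv`: `∫ ω in Om δ, ∫ φ, ‖F (R φ ω)‖ ^ 2 = ∫ ω in Om δ, ‖F ω‖ ^ 2`: Fubini (`integral_integral_swap`, bounded on a
finite measure), for each φ `S.Rmp φ` and `R φ ω ∈ Om δ ↔ ω ∈ Om δ` (`S.RX`, `S.Rd`, and `R (-φ)` is the
inverse by `S.Radd`, `S.R0`): write the set integral as the integral of the indicator, use
`MeasurePreserving.integral_comp'` or `integral_map`/`lintegral` (no embedding is needed with `integral_map` and
strong measurability: `S.μ.map (R φ) = S.μ`).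
`bessel` integrates the first line over ω.  `complete`: Parseval (equality) and `∫ ω in Om δ, ∑' m, ‖P m F ω‖ ^ 2 = 0`: every term
vanishes a.e., countably many m (`ae_all_iff`), so `∫ φ, ‖F (R φ ω)‖ ^ 2 = 0` for a.e. ω; use `rot_inv`.
`bessel_ip`: `‖ip δ (P m F) (P m G)‖ ≤ √(nn (P m F)) √(nn (P m G))` (`ip_le`) and the Cauchy inequality for sums
(`Finset.sum_mul_le_sqrt_mul_sqrt` or `Real.add_pow_le..`: `Finset.sum_sqrt_mul_sqrt_le`), then `bessel`.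
-/

set_option autoImplicit false

open MeasureTheory Set Pool.H46.Bi

namespace Pool.H46.Eg

variable {Ω : Type} [MeasurableSpace Ω] (S : Fl Ω)

private theorem bes_pars {g : Tor → ℂ} (hg : Measurable g) {C : ℝ} (hC : ∀ t, ‖g t‖ ≤ C) :
    HasSum (fun n : ℤ => ‖fourierCoeff g n‖ ^ 2) (∫ t, ‖g t‖ ^ 2 ∂AddCircle.haarAddCircle) := by
  have hm : MemLp g 2 AddCircle.haarAddCircle :=
    MemLp.of_bound hg.aestronglyMeasurable C (Filter.Eventually.of_forall hC)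
  have h1 := hasSum_sq_fourierCoeff (hm.toLp g)
  have h2 : (hm.toLp g : Tor → ℂ) =ᵐ[AddCircle.haarAddCircle] g := hm.coeFn_toLp
  rw [fourierCoeff_congr_ae h2] at h1
  have h3 : ∫ t, ‖(hm.toLp g : Tor → ℂ) t‖ ^ 2 ∂AddCircle.haarAddCircle =
      ∫ t, ‖g t‖ ^ 2 ∂AddCircle.haarAddCircle := by
    refine integral_congr_ae ?_
    filter_upwards [h2] with t ht
    rw [ht]
  rw [h3] at h1
  exact h1

private theorem bes_P (m : ℤ) (F : Ω → ℂ) (ω : Ω) :
    S.P m F ω = fourierCoeff (fun φ => F (S.R φ ω)) m := rfl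

private theorem bes_orb {F : Ω → ℂ} (hF : Bd F) (ω : Ω) :
    Measurable (fun φ : Tor => F (S.R φ ω)) :=
  hF.1.comp (S.mR.comp (measurable_id.prodMk measurable_const))

private theorem bes_joint {F : Ω → ℂ} (hF : Bd F) :
    Measurable (fun p : Ω × Tor => ‖F (S.R p.2 p.1)‖ ^ 2) :=
  ((hF.1.comp (S.mR.comp measurable_swap)).norm).pow_const 2

omit [MeasurableSpace Ω] in
private theorem bes_bound {F : Ω → ℂ} {C : ℝ} (hC : ∀ ω, ‖F ω‖ ≤ C) (ω : Ω) :
    ‖‖F ω‖ ^ 2‖ ≤ C ^ 2 := by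
  rw [Real.norm_eq_abs, abs_of_nonneg (sq_nonneg _)]
  exact pow_le_pow_left₀ (norm_nonneg _) (hC ω) 2

private theorem bes_int {δ : ℝ} {F : Ω → ℂ} (hF : Bd F) :
    Integrable (fun ω => ‖F ω‖ ^ 2) (S.μ.restrict (S.Om δ)) := by
  have := S.fin
  obtain ⟨C, hC⟩ := hF.2
  exact Integrable.of_bound ((hF.1.norm.pow_const 2).aestronglyMeasurable) (C ^ 2)
    (Filter.Eventually.of_forall fun ω => bes_bound hC ω)

private theorem bes_prod {δ : ℝ} {F : Ω → ℂ} (hF : Bd F) :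
    Integrable (fun p : Ω × Tor => ‖F (S.R p.2 p.1)‖ ^ 2)
      ((S.μ.restrict (S.Om δ)).prod AddCircle.haarAddCircle) := by
  have := S.fin
  obtain ⟨C, hC⟩ := hF.2
  exact Integrable.of_bound (bes_joint S hF).aestronglyMeasurable (C ^ 2)
    (Filter.Eventually.of_forall fun p => bes_bound hC _)

private theorem bes_pre (δ : ℝ) (φ : Tor) : S.R φ ⁻¹' (S.Om δ) = S.Om δ := by
  ext ω
  rw [mem_preimage]
  constructor
  · rintro ⟨h1, h2⟩
    have h3 := S.RX (-φ) _ h1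
    rw [S.Radd, neg_add_cancel, S.R0] at h3
    rw [S.Rd] at h2
    exact ⟨h3, h2⟩
  · rintro ⟨h1, h2⟩
    refine ⟨S.RX φ ω h1, ?_⟩
    rw [S.Rd]
    exact h2

private theorem bes_rot {δ : ℝ} {F : Ω → ℂ} (hF : Bd F) :
    ∫ ω in S.Om δ, ∫ φ, ‖F (S.R φ ω)‖ ^ 2 ∂AddCircle.haarAddCircle ∂S.μ = S.nn δ F := by
  have := S.fin
  have h1 : ∀ φ : Tor, ∫ ω in S.Om δ, ‖F (S.R φ ω)‖ ^ 2 ∂S.μ = S.nn δ F := by
    intro φ
    have h2 := (S.Rmp φ).restrict_preimage (Om_meas S δ)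
    rw [bes_pre S δ φ] at h2
    have h3 := integral_map (μ := S.μ.restrict (S.Om δ)) h2.measurable.aemeasurable
      (f := fun ω => ‖F ω‖ ^ 2) ((hF.1.norm.pow_const 2).aestronglyMeasurable)
    rw [h2.map_eq] at h3
    unfold Fl.nn
    exact h3.symm
  have h4 := integral_integral_swap (μ := S.μ.restrict (S.Om δ)) (ν := AddCircle.haarAddCircle)
    (f := fun ω φ => ‖F (S.R φ ω)‖ ^ 2) (bes_prod S hF)
  rw [h4]
  simp only [h1]
  rw [integral_const, probReal_univ, one_smul]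

theorem bessel {δ : ℝ} {F : Ω → ℂ} (hF : Bd F) (s : Finset ℤ) :
    ∑ m ∈ s, S.nn δ (S.P m F) ≤ S.nn δ F := by
  have := S.fin
  obtain ⟨C, hC⟩ := hF.2
  rw [← bes_rot S hF]
  unfold Fl.nn
  rw [← integral_finsetSum _ fun m _ => bes_int S (P_bd S m hF)]
  refine integral_mono (integrable_finsetSum _ fun m _ => bes_int S (P_bd S m hF))
    (bes_prod S hF).integral_prod_left fun ω => ?_
  have h1 := bes_pars (bes_orb S hF ω) (fun t => hC _)
  have h2 := sum_le_hasSum s (fun m _ => sq_nonneg _) h1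
  exact h2

theorem complete {δ : ℝ} {F : Ω → ℂ} (hF : Bd F) (h : ∀ m : ℤ, S.nn δ (S.P m F) = 0) :
    S.nn δ F = 0 := by
  have := S.fin
  obtain ⟨C, hC⟩ := hF.2
  rw [← bes_rot S hF]
  have h1 : ∀ m : ℤ, ∀ᵐ ω ∂(S.μ.restrict (S.Om δ)), ‖S.P m F ω‖ ^ 2 = 0 := by
    intro m
    have h2 := h m
    unfold Fl.nn at h2
    exact (integral_eq_zero_iff_of_nonneg (fun ω => sq_nonneg _) (bes_int S (P_bd S m hF))).1 h2
  have h3 := ae_all_iff.2 h1
  rw [← integral_zero Ω ℝ (μ := S.μ.restrict (S.Om δ))]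
  refine integral_congr_ae ?_
  filter_upwards [h3] with ω hω
  have h4 := bes_pars (bes_orb S hF ω) (fun t => hC _)
  have h5 : (fun n : ℤ => ‖fourierCoeff (fun φ => F (S.R φ ω)) n‖ ^ 2) = fun _ => 0 := by
    funext n
    exact hω n
  rw [h5] at h4
  exact h4.unique hasSum_zero

theorem bessel_ip {δ : ℝ} {F G : Ω → ℂ} (hF : Bd F) (hG : Bd G) (s : Finset ℤ) :
    ∑ m ∈ s, ‖S.ip δ (S.P m F) (S.P m G)‖ ≤ Real.sqrt (S.nn δ F) * Real.sqrt (S.nn δ G) := by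
  have h1 : ∑ m ∈ s, ‖S.ip δ (S.P m F) (S.P m G)‖ ≤
      ∑ m ∈ s, Real.sqrt (S.nn δ (S.P m F)) * Real.sqrt (S.nn δ (S.P m G)) :=
    Finset.sum_le_sum fun m _ => ip_le S (P_bd S m hF) (P_bd S m hG)
  have h2 := Real.sum_sqrt_mul_sqrt_le s (fun m => nn_nonneg S δ (S.P m F))
    (fun m => nn_nonneg S δ (S.P m G))
  refine h1.trans (h2.trans ?_)
  exact mul_le_mul (Real.sqrt_le_sqrt (bessel S hF s)) (Real.sqrt_le_sqrt (bessel S hG s))
    (Real.sqrt_nonneg _) (Real.sqrt_nonneg _)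

end Pool.H46.Eg
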