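import Pool.Agent.H46.Eg.Psh
import Pool.Agent.H46.Eg.Bes

/-!
# [H46 EG LBD] bounds for L (60-100 lines)
With `w ζ = cL δ * kap δ ζ * ‖ζ‖`, `∫ w ≤ 2 / δ` (`int_norm`), w ≥ 0, w ζ = 0 for ‖ζ‖ ≥ δ: for u bounded measurable
`‖∫ c ζ conj ζ u ζ‖² ≤ (∫ w ‖u‖)² ≤ (∫ w) (∫ w ‖u‖²)` (Cauchy-Schwarz: `integral_mul_le_Lp_mul_Lq_of_nonneg` for √w and √w ‖u‖; or
from `0 ≤ ∫ w (‖u‖ - λ)²` for all λ, discriminant).
`nn_L_le`: u ζ = F (T ζ ω); integrate over ω ∈ Om δ, Fubini, `push_all` with h = ‖F‖² for every ‖ζ‖ < δ.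
`nn_L_tc`: `L δ f ω = ∫ c ζ conj ζ (f (T ζ ω) - f ω)` (`int_conj`), u ζ = f (T ζ ω) - f ω, Fubini and the hypothesis.
-/

set_option autoImplicit false

open MeasureTheory Set Pool.H46.Bi

namespace Pool.H46.Eg

variable {Ω : Type} [MeasurableSpace Ω] (S : Fl Ω)

private theorem lbd_w {δ : ℝ} (hδ : 0 < δ) : (∀ ζ : ℂ, 0 ≤ cL δ * kap δ ζ * ‖ζ‖) ∧
    (∀ ζ : ℂ, δ ≤ ‖ζ‖ → cL δ * kap δ ζ * ‖ζ‖ = 0) ∧
    Continuous (fun ζ : ℂ => cL δ * kap δ ζ * ‖ζ‖) ∧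
    Integrable (fun ζ : ℂ => cL δ * kap δ ζ * ‖ζ‖) := by
  have h0 : ∀ ζ : ℂ, δ ≤ ‖ζ‖ → cL δ * kap δ ζ * ‖ζ‖ = 0 := fun ζ h => by
    rw [kap_zero hδ h, mul_zero, zero_mul]
  have hc : Continuous (fun ζ : ℂ => cL δ * kap δ ζ * ‖ζ‖) :=
    (continuous_const.mul (kap_cont δ)).mul continuous_norm
  refine ⟨fun ζ => ?_, h0, hc, ?_⟩
  · exact mul_nonneg (mul_nonneg (cL_pos hδ).le (kap_nonneg δ ζ)) (norm_nonneg _)
  · have h1 : Integrable (fun ζ : ℂ => ((cL δ * kap δ ζ * ‖ζ‖ : ℝ) : ℂ)) :=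
      integrable_of_zero (δ := δ) (Complex.continuous_ofReal.comp hc) fun ζ h => by
        rw [h0 ζ h, Complex.ofReal_zero]
    have h2 := h1.re
    exact h2

/-- Cauchy-Schwarz with the weight `w` -/
private theorem lbd_cs {δ : ℝ} (hδ : 0 < δ) {u : ℂ → ℂ} (hu : Measurable u) {C : ℝ}
    (hC : ∀ ζ, ‖u ζ‖ ≤ C) :
    ‖∫ ζ : ℂ, ((cL δ * kap δ ζ : ℝ) : ℂ) * (starRingEnd ℂ) ζ * u ζ‖ ^ 2 ≤
      2 / δ * ∫ ζ : ℂ, cL δ * kap δ ζ * ‖ζ‖ * ‖u ζ‖ ^ 2 := by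
  obtain ⟨w0, -, -, wi⟩ := lbd_w hδ
  have i1 : Integrable (fun ζ : ℂ => cL δ * kap δ ζ * ‖ζ‖ * ‖u ζ‖) := by
    refine wi.mul_bdd (c := C) hu.norm.aestronglyMeasurable
      (Filter.Eventually.of_forall fun ζ => ?_)
    rw [norm_norm]
    exact hC ζ
  have i2 : Integrable (fun ζ : ℂ => cL δ * kap δ ζ * ‖ζ‖ * ‖u ζ‖ ^ 2) := by
    refine wi.mul_bdd (c := C ^ 2) (hu.norm.pow_const 2).aestronglyMeasurable
      (Filter.Eventually.of_forall fun ζ => ?_)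
    rw [Real.norm_eq_abs, abs_of_nonneg (sq_nonneg _)]
    exact pow_le_pow_left₀ (norm_nonneg _) (hC ζ) 2
  obtain ⟨J, hJ⟩ : ∃ J, J = ∫ ζ : ℂ, cL δ * kap δ ζ * ‖ζ‖ * ‖u ζ‖ := ⟨_, rfl⟩
  obtain ⟨Q, hQ⟩ : ∃ Q, Q = ∫ ζ : ℂ, cL δ * kap δ ζ * ‖ζ‖ * ‖u ζ‖ ^ 2 := ⟨_, rfl⟩
  have hW := int_norm hδ
  obtain ⟨W, hWd⟩ : ∃ W, W = ∫ ζ : ℂ, cL δ * kap δ ζ * ‖ζ‖ := ⟨_, rfl⟩
  rw [← hWd] at hW
  have h1 : ‖∫ ζ : ℂ, ((cL δ * kap δ ζ : ℝ) : ℂ) * (starRingEnd ℂ) ζ * u ζ‖ ≤ J := by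
    rw [hJ]
    refine (norm_integral_le_integral_norm _).trans (le_of_eq ?_)
    refine integral_congr_ae (Filter.Eventually.of_forall fun ζ => ?_)
    simp only [norm_mul, Complex.norm_real, Complex.norm_conj]
    rw [Real.norm_of_nonneg (cL_pos hδ).le, Real.norm_of_nonneg (kap_nonneg δ ζ)]
  have h2 : ∀ l : ℝ, 0 ≤ Q - 2 * l * J + l ^ 2 * W := by
    intro l
    have e : Q - 2 * l * J + l ^ 2 * W =
        ∫ ζ : ℂ, cL δ * kap δ ζ * ‖ζ‖ * (‖u ζ‖ - l) ^ 2 := by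
      have i3 : Integrable (fun ζ : ℂ => cL δ * kap δ ζ * ‖ζ‖ * ‖u ζ‖ ^ 2 -
          2 * l * (cL δ * kap δ ζ * ‖ζ‖ * ‖u ζ‖)) := i2.sub (i1.const_mul _)
      rw [hQ, hJ, hWd, ← integral_const_mul, ← integral_const_mul,
        ← integral_sub i2 (i1.const_mul _), ← integral_add i3 (wi.const_mul _)]
      refine integral_congr_ae (Filter.Eventually.of_forall fun ζ => ?_)
      simp only
      ring
    rw [e]
    exact integral_nonneg fun ζ => mul_nonneg (w0 ζ) (sq_nonneg _)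
  have h3 := h2 (δ / 2 * J)
  have h4 : (δ / 2 * J) ^ 2 * W ≤ (δ / 2 * J) ^ 2 * (2 / δ) :=
    mul_le_mul_of_nonneg_left hW (sq_nonneg _)
  have h5 : (δ / 2 * J) ^ 2 * (2 / δ) = δ / 2 * J ^ 2 := by
    field_simp
  have h6 : δ / 2 * J ^ 2 ≤ Q := by
    rw [h5] at h4
    nlinarith
  have h7 : J ^ 2 ≤ 2 / δ * Q := by
    rw [div_mul_eq_mul_div, le_div_iff₀ hδ]
    linarith
  rw [← hQ]
  exact (pow_le_pow_left₀ (norm_nonneg _) h1 2).trans h7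

/-- the estimate of an average with a parameter -/
private theorem lbd_main {δ E C : ℝ} (hδ : 0 < δ) {U : ℂ → Ω → ℂ}
    (hU : Measurable fun p : ℂ × Ω => U p.1 p.2) (hC : ∀ ζ ω, ‖U ζ ω‖ ≤ C)
    (hE : ∀ ζ : ℂ, ‖ζ‖ < δ → ∫ ω in S.Om δ, ‖U ζ ω‖ ^ 2 ∂S.μ ≤ E) {H : Ω → ℂ}
    (hH : ∀ ω ∈ S.Om δ, H ω =
      ∫ ζ : ℂ, ((cL δ * kap δ ζ : ℝ) : ℂ) * (starRingEnd ℂ) ζ * U ζ ω) :
    S.nn δ H ≤ (2 / δ) ^ 2 * E := by
  have hfin := S.fin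
  obtain ⟨w0, wz, wc, wi⟩ := lbd_w hδ
  have hC0 : 0 ≤ C ^ 2 := sq_nonneg C
  have hsq : ∀ ζ ω, ‖U ζ ω‖ ^ 2 ≤ C ^ 2 := fun ζ ω =>
    pow_le_pow_left₀ (norm_nonneg _) (hC ζ ω) 2
  have hmU : Measurable (fun p : Ω × ℂ => ‖U p.2 p.1‖ ^ 2) :=
    ((hU.comp measurable_swap).norm).pow_const 2
  have hI : Integrable (fun p : Ω × ℂ => cL δ * kap δ p.2 * ‖p.2‖ * ‖U p.2 p.1‖ ^ 2)
      ((S.μ.restrict (S.Om δ)).prod volume) := by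
    have h1 : Integrable (fun _ : Ω => C ^ 2) (S.μ.restrict (S.Om δ)) := integrable_const _
    have h2 := h1.mul_prod wi
    refine h2.mono' ?_ (Filter.Eventually.of_forall fun p => ?_)
    · exact ((wc.measurable.comp measurable_snd).mul hmU).aestronglyMeasurable
    · rw [Real.norm_eq_abs, abs_of_nonneg (mul_nonneg (w0 p.2) (sq_nonneg _)), mul_comm]
      exact mul_le_mul_of_nonneg_right (hsq _ _) (w0 p.2)
  have h1 : S.nn δ H ≤ ∫ ω in S.Om δ, (2 / δ *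
      ∫ ζ : ℂ, cL δ * kap δ ζ * ‖ζ‖ * ‖U ζ ω‖ ^ 2) ∂S.μ := by
    unfold Fl.nn
    refine integral_mono_of_nonneg (Filter.Eventually.of_forall fun ω => sq_nonneg _)
      (hI.integral_prod_left.const_mul _) ?_
    refine (ae_restrict_iff' (Om_meas S δ)).2 (Filter.Eventually.of_forall fun ω hω => ?_)
    simp only
    rw [hH ω hω]
    exact lbd_cs hδ (hU.comp (measurable_id.prodMk measurable_const)) fun ζ => hC ζ ω
  have h2 : ∫ ω in S.Om δ, (∫ ζ : ℂ, cL δ * kap δ ζ * ‖ζ‖ * ‖U ζ ω‖ ^ 2) ∂S.μ =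
      ∫ ζ : ℂ, ∫ ω in S.Om δ, cL δ * kap δ ζ * ‖ζ‖ * ‖U ζ ω‖ ^ 2 ∂S.μ :=
    integral_integral_swap (f := fun ω ζ => cL δ * kap δ ζ * ‖ζ‖ * ‖U ζ ω‖ ^ 2) hI
  have hE0 : 0 ≤ E := (integral_nonneg fun ω => sq_nonneg _).trans
    (hE 0 (by rw [norm_zero]; exact hδ))
  have h3 : ∫ ζ : ℂ, ∫ ω in S.Om δ, cL δ * kap δ ζ * ‖ζ‖ * ‖U ζ ω‖ ^ 2 ∂S.μ ≤
      ∫ ζ : ℂ, cL δ * kap δ ζ * ‖ζ‖ * E := by
    refine integral_mono hI.integral_prod_right (wi.mul_const E) fun ζ => ?_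
    simp only
    rw [integral_const_mul]
    by_cases hζ : ‖ζ‖ < δ
    · exact mul_le_mul_of_nonneg_left (hE ζ hζ) (w0 ζ)
    · rw [wz ζ (not_lt.1 hζ), zero_mul, zero_mul]
  rw [integral_mul_const] at h3
  have h4 : (∫ ζ : ℂ, cL δ * kap δ ζ * ‖ζ‖) * E ≤ 2 / δ * E :=
    mul_le_mul_of_nonneg_right (int_norm hδ) hE0
  rw [integral_const_mul, h2] at h1
  refine h1.trans ?_
  calc 2 / δ * ∫ ζ : ℂ, ∫ ω in S.Om δ, cL δ * kap δ ζ * ‖ζ‖ * ‖U ζ ω‖ ^ 2 ∂S.μ ≤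
        2 / δ * (2 / δ * E) := mul_le_mul_of_nonneg_left (h3.trans h4) (by positivity)
    _ = (2 / δ) ^ 2 * E := by ring

theorem nn_L_le {δ : ℝ} (hδ : 0 < δ) {F : Ω → ℂ} (hF : Bd F) :
    S.nn δ (S.L δ F) ≤ (2 / δ) ^ 2 * ∫ ω, ‖F ω‖ ^ 2 ∂S.μ := by
  obtain ⟨hm, C, hC⟩ := hF
  refine lbd_main S hδ (U := fun ζ ω => F (S.T ζ ω)) (hm.comp S.mT) (fun ζ ω => hC _)
    (fun ζ hζ => ?_) (fun ω _ => rfl)
  exact push_all S hδ hζ (h := fun ω => ‖F ω‖ ^ 2) (hm.norm.pow_const 2)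
    (fun ω => sq_nonneg _) (C := C ^ 2) fun ω => pow_le_pow_left₀ (norm_nonneg _) (hC ω) 2

theorem nn_L_tc {δ ε : ℝ} (hδ : 0 < δ) {f : Ω → ℂ} (hf : Bd f)
    (h : ∀ ζ : ℂ, ‖ζ‖ < δ → ∫ ω in S.Om δ, ‖f (S.T ζ ω) - f ω‖ ^ 2 ∂S.μ ≤ ε) :
    S.nn δ (S.L δ f) ≤ (2 / δ) ^ 2 * ε := by
  obtain ⟨hm, C, hC⟩ := id hf
  refine lbd_main S hδ (U := fun ζ ω => f (S.T ζ ω) - f ω)
    ((hm.comp S.mT).sub (hm.comp measurable_snd)) (C := C + C)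
    (fun ζ ω => (norm_sub_le _ _).trans (add_le_add (hC _) (hC _))) h (fun ω _ => ?_)
  have hk : Continuous (fun ζ : ℂ => ((cL δ * kap δ ζ : ℝ) : ℂ) * (starRingEnd ℂ) ζ) :=
    (Complex.continuous_ofReal.comp (continuous_const.mul (kap_cont δ))).mul
      Complex.continuous_conj
  have hk0 : ∀ ζ : ℂ, δ ≤ ‖ζ‖ → ((cL δ * kap δ ζ : ℝ) : ℂ) * (starRingEnd ℂ) ζ = 0 :=
    fun ζ hζ => by rw [kap_zero hδ hζ, mul_zero, Complex.ofReal_zero, zero_mul]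
  have i1 := T_int S hf hk hk0 ω
  have i2 : Integrable (fun ζ : ℂ => ((cL δ * kap δ ζ : ℝ) : ℂ) * (starRingEnd ℂ) ζ * f ω) :=
    (integrable_of_zero hk hk0).mul_const _
  have e : ∫ ζ : ℂ, ((cL δ * kap δ ζ : ℝ) : ℂ) * (starRingEnd ℂ) ζ * (f (S.T ζ ω) - f ω) =
      S.L δ f ω - ∫ ζ : ℂ, ((cL δ * kap δ ζ : ℝ) : ℂ) * (starRingEnd ℂ) ζ * f ω := by
    unfold Fl.L
    rw [← integral_sub i1 i2]
    refine integral_congr_ae (Filter.Eventually.of_forall fun ζ => ?_)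
    simp only
    ring
  rw [e, integral_mul_const, int_conj, zero_mul, sub_zero]

/-- the modes are contractions of `L²` of the whole space -/
theorem P_int_le (m : ℤ) {F : Ω → ℂ} (hF : Bd F) :
    ∫ ω, ‖S.P m F ω‖ ^ 2 ∂S.μ ≤ ∫ ω, ‖F ω‖ ^ 2 ∂S.μ := by
  have hfin := S.fin
  obtain ⟨hm, C, hC⟩ := hF
  have hsq : ∀ ω, ‖F ω‖ ^ 2 ≤ C ^ 2 := fun ω => pow_le_pow_left₀ (norm_nonneg _) (hC ω) 2
  have hmR : Measurable (fun p : Ω × Tor => ‖F (S.R p.2 p.1)‖ ^ 2) :=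
    ((hm.comp (S.mR.comp measurable_swap)).norm).pow_const 2
  have hI : Integrable (fun p : Ω × Tor => ‖F (S.R p.2 p.1)‖ ^ 2)
      (S.μ.prod (AddCircle.haarAddCircle : Measure Tor)) := by
    refine Integrable.of_bound hmR.aestronglyMeasurable (C ^ 2)
      (Filter.Eventually.of_forall fun p => ?_)
    rw [Real.norm_eq_abs, abs_of_nonneg (sq_nonneg _)]
    exact hsq _
  have h1 : ∀ ω, ‖S.P m F ω‖ ^ 2 ≤
      ∫ φ : Tor, ‖F (S.R φ ω)‖ ^ 2 ∂AddCircle.haarAddCircle := by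
    intro ω
    have hmω : Measurable (fun φ : Tor => F (S.R φ ω)) :=
      hm.comp (S.mR.comp (measurable_id.prodMk measurable_const))
    have j1 : Integrable (fun φ : Tor => ‖F (S.R φ ω)‖) AddCircle.haarAddCircle := by
      refine Integrable.of_bound hmω.norm.aestronglyMeasurable C
        (Filter.Eventually.of_forall fun φ => ?_)
      rw [norm_norm]
      exact hC _
    have j2 : Integrable (fun φ : Tor => ‖F (S.R φ ω)‖ ^ 2) AddCircle.haarAddCircle := by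
      refine Integrable.of_bound (hmω.norm.pow_const 2).aestronglyMeasurable (C ^ 2)
        (Filter.Eventually.of_forall fun φ => ?_)
      rw [Real.norm_eq_abs, abs_of_nonneg (sq_nonneg _)]
      exact hsq _
    obtain ⟨J, hJ⟩ : ∃ J, J = ∫ φ : Tor, ‖F (S.R φ ω)‖ ∂AddCircle.haarAddCircle := ⟨_, rfl⟩
    have h2 : ‖S.P m F ω‖ ≤ J := by
      rw [hJ]
      unfold Fl.P
      refine (norm_integral_le_integral_norm _).trans (le_of_eq ?_)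
      refine integral_congr_ae (Filter.Eventually.of_forall fun φ => ?_)
      simp only [norm_mul]
      rw [show ‖(fourier (-m) φ : ℂ)‖ = 1 from Circle.norm_coe _, one_mul]
    have h3 : 0 ≤ ∫ φ : Tor, (‖F (S.R φ ω)‖ - J) ^ 2 ∂AddCircle.haarAddCircle :=
      integral_nonneg fun φ => sq_nonneg _
    have h4 : ∫ φ : Tor, (‖F (S.R φ ω)‖ - J) ^ 2 ∂AddCircle.haarAddCircle =
        (∫ φ : Tor, ‖F (S.R φ ω)‖ ^ 2 ∂AddCircle.haarAddCircle) - 2 * J * J + J ^ 2 := by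
      have j3 : Integrable (fun φ : Tor => ‖F (S.R φ ω)‖ ^ 2 - 2 * J * ‖F (S.R φ ω)‖)
        AddCircle.haarAddCircle := j2.sub (j1.const_mul _)
      have e : ∀ φ : Tor, (‖F (S.R φ ω)‖ - J) ^ 2 =
          (‖F (S.R φ ω)‖ ^ 2 - 2 * J * ‖F (S.R φ ω)‖) + J ^ 2 := fun φ => by ring
      simp only [e]
      rw [integral_add j3 (integrable_const _), integral_sub j2 (j1.const_mul _),
        integral_const_mul, ← hJ, integral_const]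
      simp
    have h5 : J ^ 2 ≤ ∫ φ : Tor, ‖F (S.R φ ω)‖ ^ 2 ∂AddCircle.haarAddCircle := by
      rw [h4] at h3
      nlinarith
    exact (pow_le_pow_left₀ (norm_nonneg _) h2 2).trans h5
  have h6 : ∫ ω, ‖S.P m F ω‖ ^ 2 ∂S.μ ≤
      ∫ ω, (∫ φ : Tor, ‖F (S.R φ ω)‖ ^ 2 ∂AddCircle.haarAddCircle) ∂S.μ :=
    integral_mono_of_nonneg (Filter.Eventually.of_forall fun ω => sq_nonneg _)
      hI.integral_prod_left (Filter.Eventually.of_forall h1)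
  refine h6.trans (le_of_eq ?_)
  rw [integral_integral_swap (f := fun ω φ => ‖F (S.R φ ω)‖ ^ 2) hI]
  have h7 : ∀ φ : Tor, ∫ ω, ‖F (S.R φ ω)‖ ^ 2 ∂S.μ = ∫ ω, ‖F ω‖ ^ 2 ∂S.μ := by
    intro φ
    have hmp := S.Rmp φ
    have h8 : AEStronglyMeasurable (fun ω => ‖F ω‖ ^ 2) (S.μ.map (S.R φ)) :=
      (hm.norm.pow_const 2).aestronglyMeasurable
    rw [← integral_map hmp.measurable.aemeasurable h8, hmp.map_eq]
  simp only [h7]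
  rw [integral_const]
  simp

end Pool.H46.Eg
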