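import Pool.Agent.H46.Eg.Chn
import Pool.Agent.H46.Eg.Cuh
import Pool.Agent.H46.Eg.Lbd

/-!
# [H46 EG APX] the cut off functions and the chain (100-140 lines)
Let C, δ0 be from `Cuts` (replace C by max C 1), M ≥ 1 a bound of f.  For κ > 0 and δ small put t = κ / δ (≥ δ), `Cuts` gives a, W with
`μ W ≤ C δ t = C κ`; g = a f.  `Tc`: for small δ the hypothesis of `nn_L_tc` holds with ε' > 0 to be chosen.
 `√nn (L f) ≤ (2 / δ) √ε'` (`nn_L_tc`);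
 `√nn (L g) ≤ √nn (L f) + √nn (L (g - f)) ≤ (2/δ) √ε' + (2/δ) M √(C κ)` (`L_add`, `nn_add_le`, `nn_L_le`, `cut_near`);
 `√nn (L g + L' g) ≤ (4 M / t) √(C κ) = 4 M δ √C / √κ` (`cut_h`, t = κ/δ);  `nn (L f + L' f) = 0` (`ladder`).
`chain` for F = f, G = g: `‖ip ..‖ ≤ (2/δ) √ε' * 4 M δ √C / √κ = 8 M √C √ε' / √κ ≤ ε` if ε' is small (depends on κ, ε).
`chain` for F = G = g and `ip_self`: `nn (L (P m g)) ≤ 2 √nn(L g) √nn(L g + L' g) + nn(L g + L' g) ≤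
 2 (2/δ) (√ε' + M √(C κ)) 4 M δ √C / √κ + 16 M² δ² C / κ = 16 M √C √ε' / √κ + 16 M² C + 16 M² C δ² / κ ≤ 16 M² C + 2 =: A` for small δ, ε'.
`cut_near`: `∫ ‖g - f‖² ≤ M² C κ ≤ ε` if κ is small.  First κ, then ε', then δ1.  ‖g‖ ≤ M as 0 ≤ a ≤ 1.
-/

set_option autoImplicit false

open MeasureTheory Set Pool.H46.Bi

namespace Pool.H46.Eg

variable {Ω : Type} [MeasurableSpace Ω] (S : Fl Ω)

theorem approx (hC : S.Cuts) {f : Ω → ℂ} (hf : Bd f) {M : ℝ} (hM : ∀ ω, ‖f ω‖ ≤ M)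
    (hi : S.Inva f) (ht : S.Tc f) : ∃ A : ℝ, 0 ≤ A ∧ ∀ ε : ℝ, 0 < ε → ∃ δ1 : ℝ, 0 < δ1 ∧
      ∀ δ : ℝ, 0 < δ → δ < δ1 → ∃ g : Ω → ℂ, Bd g ∧ (∀ ω, ‖g ω‖ ≤ M) ∧
        (∀ m : ℤ, ‖S.ip δ (S.L δ (S.P m f)) (S.L δ (S.P m g))‖ ≤ ε) ∧
        (∀ m : ℤ, S.nn δ (S.L δ (S.P m g)) ≤ A) ∧
        ∫ ω, ‖g ω - f ω‖ ^ 2 ∂S.μ ≤ ε := by
  obtain ⟨C, δ0, hδ0, hcut⟩ := hC
  set C₁ : ℝ := max C 1 with hC₁
  set M₁ : ℝ := max M 1 with hM₁
  have hC1 : 1 ≤ C₁ := le_max_right _ _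
  have hM1 : 1 ≤ M₁ := le_max_right _ _
  have hC0 : 0 < C₁ := by linarith
  have hM0 : 0 < M₁ := by linarith
  have hMf : ∀ ω, ‖f ω‖ ≤ M₁ := fun ω => (hM ω).trans (le_max_left _ _)
  refine ⟨16 * M₁ ^ 2 * C₁ + 2, by positivity, ?_⟩
  intro ε hε
  have hMC : 0 < M₁ ^ 2 * C₁ := by positivity
  set κ : ℝ := min 1 (ε / (M₁ ^ 2 * C₁)) with hκ
  have hκ0 : 0 < κ := lt_min one_pos (div_pos hε hMC)
  have hκ1 : κ ≤ 1 := min_le_left _ _
  have hκε : M₁ ^ 2 * C₁ * κ ≤ ε := by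
    have h1 : κ ≤ ε / (M₁ ^ 2 * C₁) := min_le_right _ _
    rw [le_div_iff₀ hMC] at h1
    linarith [mul_comm κ (M₁ ^ 2 * C₁)]
  set D : ℝ := Real.sqrt (C₁ * κ) with hD
  have hD0 : 0 < D := Real.sqrt_pos.mpr (by positivity)
  have hDD : D ^ 2 = C₁ * κ := Real.sq_sqrt (by positivity)
  set e1 : ℝ := min ε 1 with he1
  have he0 : 0 < e1 := lt_min hε one_pos
  have heε : e1 ≤ ε := min_le_left _ _
  have he11 : e1 ≤ 1 := min_le_right _ _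
  set η : ℝ := e1 * κ / (16 * M₁ * D) with hη
  have hη0 : 0 < η := by positivity
  have hηe : 16 * η * M₁ * D / κ = e1 := by
    rw [hη]; field_simp
  obtain ⟨δT, hδT, hTc⟩ := ht (η ^ 2) (by positivity)
  set δ2 : ℝ := κ / (16 * M₁ ^ 2 * C₁) with hδ2
  have hδ20 : 0 < δ2 := by positivity
  have hδ2κ : 16 * M₁ ^ 2 * C₁ * δ2 = κ := by
    rw [hδ2]; field_simp
  have hMC1 : 1 ≤ 16 * M₁ ^ 2 * C₁ := by nlinarith [one_le_pow₀ (n := 2) hM1]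
  have hδ2le : δ2 ≤ κ := by nlinarith
  refine ⟨min (min δ0 δT) δ2, lt_min (lt_min hδ0 hδT) hδ20, ?_⟩
  intro δ hδ hδlt
  have hlt0 : δ < δ0 := hδlt.trans_le ((min_le_left _ _).trans (min_le_left _ _))
  have hltT : δ < δT := hδlt.trans_le ((min_le_left _ _).trans (min_le_right _ _))
  have hlt2 : δ < δ2 := hδlt.trans_le (min_le_right _ _)
  have hδsq : δ ^ 2 ≤ δ2 := by nlinarith
  set t : ℝ := κ / δ with htdef
  have ht0 : 0 < t := div_pos hκ0 hδ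
  have hδt : δ * t = κ := by rw [htdef]; field_simp
  have hδlet : δ ≤ t := by
    rw [htdef, le_div_iff₀ hδ]; nlinarith
  obtain ⟨a, W, hc⟩ := hcut δ t hδ hlt0 hδlet
  have hW : (S.μ W).toReal ≤ D ^ 2 := by
    rw [hDD]
    refine hc.meas.trans ?_
    rw [hδt]
    exact mul_le_mul_of_nonneg_right (le_max_left _ _) hκ0.le
  set g : Ω → ℂ := fun ω => (a ω : ℂ) * f ω with hg
  have hgB : Bd g := cut_bd S hc hf
  have hgS : S.Sup δ g := cut_sup S hc f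
  have hgM : ∀ ω, ‖g ω‖ ≤ M := by
    intro ω
    have h1 : ‖g ω‖ = a ω * ‖f ω‖ := by
      simp only [hg, norm_mul, Complex.norm_real, Real.norm_eq_abs, abs_of_nonneg (hc.nonneg ω)]
    rw [h1]
    calc a ω * ‖f ω‖ ≤ 1 * ‖f ω‖ := mul_le_mul_of_nonneg_right (hc.le_one ω) (norm_nonneg _)
      _ ≤ M := by rw [one_mul]; exact hM ω
  have hnear : ∫ ω, ‖g ω - f ω‖ ^ 2 ∂S.μ ≤ (M₁ * D) ^ 2 := by
    refine (cut_near S hf hMf hc).trans ?_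
    rw [mul_pow]
    exact mul_le_mul_of_nonneg_left hW (by positivity)
  -- the norm of `L f`
  have hu : Real.sqrt (S.nn δ (S.L δ f)) ≤ 2 / δ * η := by
    have h1 := nn_L_tc S hδ hf (fun ζ hζ => hTc δ hδ hltT ζ hζ)
    rw [← mul_pow] at h1
    exact Real.sqrt_le_iff.mpr ⟨by positivity, h1⟩
  have hr : Real.sqrt (S.nn δ (S.L δ fun ω => g ω - f ω)) ≤ 2 / δ * (M₁ * D) := by
    have h1 := (nn_L_le S hδ (Bd.sub hgB hf)).trans
      (mul_le_mul_of_nonneg_left hnear (by positivity : (0 : ℝ) ≤ (2 / δ) ^ 2))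
    rw [← mul_pow] at h1
    exact Real.sqrt_le_iff.mpr ⟨by positivity, h1⟩
  have hv : Real.sqrt (S.nn δ (S.L δ g)) ≤ 2 / δ * (η + M₁ * D) := by
    have h1 : S.L δ g = fun ω => S.L δ f ω + S.L δ (fun ω => g ω - f ω) ω := by
      funext ω
      rw [← L_add S hδ hf (Bd.sub hgB hf) ω]
      congr 1
      funext ω'
      ring
    rw [h1]
    refine (nn_add_le S (L_bd S hδ hf) (L_bd S hδ (Bd.sub hgB hf))).trans ?_
    rw [mul_add]
    exact add_le_add hu hr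
  -- the source term
  have hh : Real.sqrt (S.nn δ fun ω => S.L δ g ω + S.L' δ g ω) ≤ 4 * M₁ * D / t := by
    have h1 := cut_h S hδ ht0 hf hMf hi hc
    refine Real.sqrt_le_iff.mpr ⟨by positivity, h1.trans ?_⟩
    calc 16 * M₁ ^ 2 / t ^ 2 * (S.μ W).toReal ≤ 16 * M₁ ^ 2 / t ^ 2 * D ^ 2 :=
          mul_le_mul_of_nonneg_left hW (by positivity)
      _ = (4 * M₁ * D / t) ^ 2 := by ring
  have h0 : S.nn δ (fun ω => S.L δ f ω + S.L' δ f ω) = 0 := by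
    rw [nn_congr S (G := fun _ => (0 : ℂ)) (fun ω hω => ladder S hδ hf hi hω)]
    simp [Fl.nn]
  have hht : 4 * M₁ * D / t = 4 * M₁ * D * δ / κ := by
    rw [htdef]; field_simp
  rw [hht] at hh
  have hu0 := Real.sqrt_nonneg (S.nn δ (S.L δ f))
  have hv0 := Real.sqrt_nonneg (S.nn δ (S.L δ g))
  have hh0 := Real.sqrt_nonneg (S.nn δ fun ω => S.L δ g ω + S.L' δ g ω)
  have hh' : 0 ≤ 4 * M₁ * D * δ / κ := by positivity
  refine ⟨g, hgB, hgM, ?_, ?_, ?_⟩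
  · intro m
    have h1 := chain S hδ hf hgB hgS m
    rw [h0, Real.sqrt_zero, zero_mul, zero_mul, add_zero, add_zero] at h1
    refine h1.trans ((mul_le_mul hu hh hh0 (by positivity)).trans ?_)
    have h2 : 2 / δ * η * (4 * M₁ * D * δ / κ) = (16 * η * M₁ * D / κ) / 2 := by
      field_simp; ring
    rw [h2, hηe]
    linarith
  · intro m
    have h1 := chain S hδ hgB hgB hgS m
    rw [ip_self S, Complex.norm_real, Real.norm_eq_abs, abs_of_nonneg (nn_nonneg S _ _)] at h1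
    have h2 : Real.sqrt (S.nn δ (S.L δ g)) *
        Real.sqrt (S.nn δ fun ω => S.L δ g ω + S.L' δ g ω) ≤
        2 / δ * (η + M₁ * D) * (4 * M₁ * D * δ / κ) := mul_le_mul hv hh hh0 (by positivity)
    have h3 : Real.sqrt (S.nn δ fun ω => S.L δ g ω + S.L' δ g ω) *
        Real.sqrt (S.nn δ fun ω => S.L δ g ω + S.L' δ g ω) ≤
        (4 * M₁ * D * δ / κ) * (4 * M₁ * D * δ / κ) := mul_le_mul hh hh hh0 hh'
    have h4 : 2 / δ * (η + M₁ * D) * (4 * M₁ * D * δ / κ) =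
        (16 * η * M₁ * D / κ) / 2 + 8 * M₁ ^ 2 * (D ^ 2 / κ) := by
      field_simp; ring
    have h5 : D ^ 2 / κ = C₁ := by rw [hDD]; field_simp
    have h6 : (4 * M₁ * D * δ / κ) * (4 * M₁ * D * δ / κ) =
        16 * M₁ ^ 2 * (D ^ 2 / κ) * (δ ^ 2 / κ) := by
      field_simp; ring
    rw [h5, hηe] at h4
    rw [h5] at h6
    have h7 : 16 * M₁ ^ 2 * C₁ * (δ ^ 2 / κ) ≤ 1 := by
      rw [← mul_div_assoc, div_le_one hκ0]
      calc 16 * M₁ ^ 2 * C₁ * δ ^ 2 ≤ 16 * M₁ ^ 2 * C₁ * δ2 :=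
            mul_le_mul_of_nonneg_left hδsq (by positivity)
        _ = κ := hδ2κ
    rw [mul_comm (Real.sqrt (S.nn δ fun ω => S.L δ g ω + S.L' δ g ω))
      (Real.sqrt (S.nn δ (S.L δ g)))] at h1
    linarith
  · refine hnear.trans ?_
    rw [mul_pow, hDD, ← mul_assoc]
    exact hκε

end Pool.H46.Eg
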