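import Pool.Agent.H46.Eg.Mes

/-!
# [H46 EG AVL] the average of L δ F (60-100 lines)
`av_L`: for ω ∈ Om δ': `Av δ' (L δ F) ω = ∫ η, (∫ ξ, kk δ' (η - ξ) cL δ kap δ ξ conj ξ) F (T η ω)`: for a.e. ζ with ‖ζ‖ < δ'
(`(ζ, ω) ∉ B`) and a.e. ξ with ‖ξ‖ < δ (`(ζ + ξ, ω) ∉ B`, translate of a null set) `T ξ (T ζ ω) = T (ζ + ξ) ω` by `S.Tadd`
(`K (δ' + δ) < 4 K δ' ≤ d ω`); substitute η = ζ + ξ for fixed ξ and use Fubini (`integral_integral_swap`; the integrand is
bounded by an integrable function of (ζ, ξ) with compact support).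
-/

set_option autoImplicit false

open MeasureTheory Set Pool.H46.Bi

namespace Pool.H46.Eg

variable {Ω : Type} [MeasurableSpace Ω] (S : Fl Ω)

private lemma int2 {a b : ℝ} {g : ℂ × ℂ → ℂ} (hg : Continuous g)
    (h0 : ∀ p : ℂ × ℂ, g p ≠ 0 → ‖p.1‖ ≤ a ∧ ‖p.2‖ ≤ b) {f : ℂ × ℂ → ℂ} (hf : Measurable f)
    {C : ℝ} (hC : ∀ p, ‖f p‖ ≤ C) :
    Integrable (fun p => g p * f p) ((volume : Measure ℂ).prod (volume : Measure ℂ)) := by
  have hgi : Integrable g ((volume : Measure ℂ).prod (volume : Measure ℂ)) := by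
    refine hg.integrable_of_hasCompactSupport ?_
    refine HasCompactSupport.intro ((isCompact_closedBall (0 : ℂ) a).prod (isCompact_closedBall (0 : ℂ) b)) ?_
    intro p hp
    by_contra hne
    apply hp
    obtain ⟨h1, h2⟩ := h0 p hne
    rw [Set.mem_prod, mem_closedBall_zero_iff, mem_closedBall_zero_iff]
    exact ⟨h1, h2⟩
  exact hgi.mul_bdd hf.aestronglyMeasurable (Filter.Eventually.of_forall hC)

theorem av_L {δ' δ : ℝ} (hδ' : 0 < δ') (hδ : 0 < δ) (hle : 2 * δ ≤ δ') {F : Ω → ℂ} (hF : Bd F)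
    {ω : Ω} (hω : ω ∈ S.Om δ') :
    S.Av δ' (S.L δ F) ω =
      ∫ η : ℂ, (∫ ξ : ℂ, ((kk δ' (η - ξ) * (cL δ * kap δ ξ) : ℝ) : ℂ) * (starRingEnd ℂ) ξ) *
        F (S.T η ω) := by
  obtain ⟨hX, hd⟩ := hω
  obtain ⟨mF, C, hC⟩ := hF
  have hK := S.hK
  have mFT : Measurable fun ζ : ℂ => F (S.T ζ ω) :=
    mF.comp (S.mT.comp (measurable_id.prodMk measurable_const))
  have hkap : Continuous (kap δ) := kap_cont δ
  have hkk : Continuous (kk δ') := kk_cont δ'
  have hB := S.Bnull ω hX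
  -- step 1
  have s1 : S.Av δ' (S.L δ F) ω = ∫ ζ : ℂ, ∫ ξ : ℂ,
      (((kk δ' ζ * (cL δ * kap δ ξ) : ℝ) : ℂ) * (starRingEnd ℂ) ξ) * F (S.T (ζ + ξ) ω) := by
    unfold Fl.Av Fl.L
    refine integral_congr_ae ?_
    have hae : ∀ᵐ ζ : ℂ, (ζ, ω) ∉ S.B := by
      rw [ae_iff]
      simpa using hB
    filter_upwards [hae] with ζ hζ
    rcases le_or_gt δ' ‖ζ‖ with h | h
    · simp [kk_zero hδ' h]
    · rw [← integral_const_mul]
      refine integral_congr_ae ?_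
      have hae2 : ∀ᵐ ξ : ℂ, (ζ + ξ, ω) ∉ S.B := by
        have hq : Filter.Tendsto (fun ξ : ℂ => ζ + ξ) (ae volume) (ae volume) :=
          (measurePreserving_add_left volume ζ).quasiMeasurePreserving.tendsto_ae
        exact hq.eventually hae
      filter_upwards [hae2] with ξ hξ
      rcases le_or_gt δ ‖ξ‖ with h' | h'
      · simp [kap_zero hδ h']
      · have hlt : S.K * (‖ζ‖ + ‖ξ‖) < S.d ω := by
          have : S.K * (‖ζ‖ + ‖ξ‖) < 4 * S.K * δ' := by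
            have h3 : ‖ζ‖ + ‖ξ‖ < 4 * δ' := by linarith
            have := mul_lt_mul_of_pos_left h3 (by linarith : 0 < S.K)
            linarith
          linarith
        rw [(S.Tadd ω hX ζ ξ hlt hζ hξ).2]
        push_cast
        ring
  rw [s1]
  -- step 2
  rw [integral_integral_swap (f := fun ζ ξ : ℂ =>
      (((kk δ' ζ * (cL δ * kap δ ξ) : ℝ) : ℂ) * (starRingEnd ℂ) ξ) * F (S.T (ζ + ξ) ω))]
  swap
  · refine int2 (a := δ') (b := δ) (g := fun p : ℂ × ℂ =>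
      ((kk δ' p.1 * (cL δ * kap δ p.2) : ℝ) : ℂ) * (starRingEnd ℂ) p.2) ?_ ?_
      (f := fun p : ℂ × ℂ => F (S.T (p.1 + p.2) ω)) ?_ (C := C) fun p => hC _
    · fun_prop
    · intro p hp
      constructor
      · by_contra hcon
        rw [not_le] at hcon
        exact hp (by simp [kk_zero hδ' hcon.le])
      · by_contra hcon
        rw [not_le] at hcon
        exact hp (by simp [kap_zero hδ hcon.le])
    · exact mFT.comp (measurable_fst.add measurable_snd)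
  -- step 3
  have s3 : ∀ ξ : ℂ, ∫ ζ : ℂ, (((kk δ' ζ * (cL δ * kap δ ξ) : ℝ) : ℂ) * (starRingEnd ℂ) ξ) *
      F (S.T (ζ + ξ) ω) = ∫ η : ℂ, (((kk δ' (η - ξ) * (cL δ * kap δ ξ) : ℝ) : ℂ) *
        (starRingEnd ℂ) ξ) * F (S.T η ω) := by
    intro ξ
    rw [← integral_add_right_eq_self (fun η : ℂ => (((kk δ' (η - ξ) * (cL δ * kap δ ξ) : ℝ) : ℂ) *
        (starRingEnd ℂ) ξ) * F (S.T η ω)) ξ]
    simp only [add_sub_cancel_right]
  simp only [s3]
  -- step 4
  rw [integral_integral_swap (f := fun ξ η : ℂ =>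
      (((kk δ' (η - ξ) * (cL δ * kap δ ξ) : ℝ) : ℂ) * (starRingEnd ℂ) ξ) * F (S.T η ω))]
  swap
  · refine int2 (a := δ) (b := δ + δ') (g := fun p : ℂ × ℂ =>
      ((kk δ' (p.2 - p.1) * (cL δ * kap δ p.1) : ℝ) : ℂ) * (starRingEnd ℂ) p.1) ?_ ?_
      (f := fun p : ℂ × ℂ => F (S.T p.2 ω)) ?_ (C := C) fun p => hC _
    · fun_prop
    · intro p hp
      have h1 : ‖p.1‖ ≤ δ := by
        by_contra hcon
        rw [not_le] at hcon
        exact hp (by simp [kap_zero hδ hcon.le])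
      refine ⟨h1, ?_⟩
      by_contra hcon
      rw [not_le] at hcon
      have h2 : δ' ≤ ‖p.2 - p.1‖ := by
        have := norm_sub_norm_le p.2 p.1
        linarith
      exact hp (by simp [kk_zero hδ' h2])
    · exact mFT.comp measurable_snd
  simp only [integral_mul_const]

end Pool.H46.Eg
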