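import Pool.Agent.H46.Eg.Lin

/-!
# [H46 EG PLN] the operators shift the Fourier modes (60-100 lines)
For ω ∈ Om δ: `P m (L δ F) ω = ∫ φ, fourier (-m) φ * ∫ ζ, c ζ conj ζ * F (T ζ (R φ ω))` with
`c ζ = cL δ * kap δ ζ`.  For fixed φ the inner integrand is, for a.e. ζ (`S.Bnull ω` pulled back under the rotation
`ζ ↦ e φ * ζ`, which preserves null sets: `Pool.H46.Bi.rot_mp` in Bi/Mea.lean, `.quasiMeasurePreserving.ae` or preimage_null),
`c ζ conj ζ * F (R φ (T (e φ * ζ) ω))` by `S.TR` when `‖ζ‖ < δ` (`K ‖ζ‖ < 4 K δ ≤ d ω`), and both are 0 when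
`‖ζ‖ ≥ δ` (`kap_zero`).  Substitute ζ' = e φ * ζ (`rot_int`; `kap_norm`; `conj ζ = e φ * conj ζ'`, `norm_e`,
`conj_mul_e`): `∫ ζ', c ζ' conj ζ' * e φ * F (R φ (T ζ' ω))`.  `e φ = fourier 1 φ` (`fourier_one`, `e` is
`AddCircle.toCircle`), `fourier (-m) φ * fourier 1 φ = fourier (-(m - 1)) φ` (`fourier_add`).  Fubini
(`integral_integral_swap`, the integrand is bounded by `C c ζ ‖ζ‖`, measurable) gives `L δ (P (m - 1) F) ω`.
For `L'`: `ζ = conj (e φ) ζ'`, `conj (e φ) = fourier (-1) φ`.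
-/

set_option autoImplicit false

open MeasureTheory Set Pool.H46.Bi

namespace Pool.H46.Eg

variable {Ω : Type} [MeasurableSpace Ω] (S : Fl Ω)

private theorem rot_mp0 (α : Tor) : MeasurePreserving (fun z : ℂ => e α * z)
    (volume : Measure ℂ) volume :=
  (rotation (AddCircle.toCircle α)).measurePreserving

private theorem rot_ae {ω : Ω} (hω : ω ∈ S.X) (φ : Tor) : ∀ᵐ ζ : ℂ, (e φ * ζ, ω) ∉ S.B := by
  have h0 : ∀ᵐ ζ : ℂ, (ζ, ω) ∉ S.B := by
    rw [ae_iff]
    simpa using S.Bnull ω hω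
  exact (rot_mp0 φ).quasiMeasurePreserving.ae h0

private theorem four_norm (n : ℤ) (φ : Tor) : ‖(fourier n φ : ℂ)‖ = 1 := by
  rw [fourier_apply]
  exact Circle.norm_coe _

private theorem four_e (m : ℤ) (φ : Tor) : (fourier (-(m - 1)) φ : ℂ) = fourier (-m) φ * e φ := by
  rw [show -(m - 1) = -m + 1 by ring, fourier_add, fourier_one]
  rfl

private theorem four_e' (m : ℤ) (φ : Tor) :
    (fourier (-(m + 1)) φ : ℂ) = fourier (-m) φ * (starRingEnd ℂ) (e φ) := by
  have h : (fourier (-1) φ : ℂ) = (starRingEnd ℂ) (fourier 1 φ : ℂ) := fourier_neg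
  rw [show -(m + 1) = -m + -1 by ring, fourier_add, h, fourier_one]
  rfl

theorem P_L (m : ℤ) {δ : ℝ} (hδ : 0 < δ) {F : Ω → ℂ} (hF : Bd F) {ω : Ω} (hω : ω ∈ S.Om δ) :
    S.P m (S.L δ F) ω = S.L δ (S.P (m - 1) F) ω := by
  have hK := S.hK
  have hc : Continuous fun ζ : ℂ => ((cL δ * kap δ ζ : ℝ) : ℂ) :=
    Complex.continuous_ofReal.comp (continuous_const.mul (kap_cont δ))
  have hk : Continuous fun ζ : ℂ => ((cL δ * kap δ ζ : ℝ) : ℂ) * (starRingEnd ℂ) ζ :=
    hc.mul Complex.continuous_conj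
  have hk0 : ∀ ζ : ℂ, δ ≤ ‖ζ‖ → ((cL δ * kap δ ζ : ℝ) : ℂ) * (starRingEnd ℂ) ζ = 0 :=
    fun ζ hζ => by simp [kap_zero hδ hζ]
  have e1 : ∀ φ : Tor, S.L δ F (S.R φ ω) =
      ∫ ζ : ℂ, e φ * (((cL δ * kap δ ζ : ℝ) : ℂ) * (starRingEnd ℂ) ζ) * F (S.R φ (S.T ζ ω)) := by
    intro φ
    rw [← rot_int φ (fun ζ : ℂ => e φ * (((cL δ * kap δ ζ : ℝ) : ℂ) * (starRingEnd ℂ) ζ) * F (S.R φ (S.T ζ ω)))]
    unfold Fl.L
    apply integral_congr_ae
    filter_upwards [rot_ae S hω.1 φ] with ζ hζ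
    have hn : ‖e φ * ζ‖ = ‖ζ‖ := by rw [norm_mul, norm_e, one_mul]
    rw [kap_norm δ hn]
    by_cases h : δ ≤ ‖ζ‖
    · simp [kap_zero hδ h]
    · push Not at h
      have h5 : S.K * ‖ζ‖ < S.d ω := by
        have h7 : S.K * ‖ζ‖ < S.K * (4 * δ) :=
          mul_lt_mul_of_pos_left (by linarith [norm_nonneg ζ]) (by linarith)
        have h8 := hω.2
        linarith
      rw [S.TR φ ω hω.1 ζ h5 hζ]
      have h9 := e_mul_conj φ
      try simp only [map_mul]
      linear_combination (-(((cL δ * kap δ ζ : ℝ) : ℂ) * (starRingEnd ℂ) ζ) * F (S.R φ (S.T (e φ * ζ) ω))) * h9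
  have hint : Integrable (Function.uncurry fun (φ : Tor) (ζ : ℂ) =>
      (fourier (-m) φ : ℂ) * (e φ * (((cL δ * kap δ ζ : ℝ) : ℂ) * (starRingEnd ℂ) ζ) * F (S.R φ (S.T ζ ω))))
      (AddCircle.haarAddCircle.prod volume) := by
    obtain ⟨hFm, C, hC⟩ := hF
    have hb : Integrable (fun p : Tor × ℂ => C * ‖((cL δ * kap δ p.2 : ℝ) : ℂ) * (starRingEnd ℂ) p.2‖)
        ((AddCircle.haarAddCircle (T := 2 * Real.pi)).prod volume) :=
      Integrable.comp_snd ((integrable_of_zero hk hk0).norm.const_mul C) _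
    refine hb.mono' ?_ ?_
    · apply Measurable.aestronglyMeasurable
      have m1 : Measurable fun p : Tor × ℂ => S.T p.2 ω :=
        S.mT.comp (measurable_snd.prodMk measurable_const)
      have m2 : Measurable fun p : Tor × ℂ => F (S.R p.1 (S.T p.2 ω)) :=
        hFm.comp (S.mR.comp (measurable_fst.prodMk m1))
      have m3 : Measurable fun p : Tor × ℂ => (fourier (-m) p.1 : ℂ) :=
        (fourier (-m)).continuous.measurable.comp measurable_fst
      have m4 : Measurable fun p : Tor × ℂ => e p.1 :=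
        e_measurable.comp measurable_fst
      have m5 : Measurable fun p : Tor × ℂ => ((cL δ * kap δ p.2 : ℝ) : ℂ) * (starRingEnd ℂ) p.2 :=
        hk.measurable.comp measurable_snd
      exact m3.mul ((m4.mul m5).mul m2)
    · refine Filter.Eventually.of_forall fun p => ?_
      have h1 : ‖(fourier (-m) p.1 : ℂ)‖ = 1 := four_norm _ _
      have h2 : ‖e p.1‖ = 1 := norm_e _
      simp only [Function.uncurry]
      rw [norm_mul, norm_mul, norm_mul, h1, h2, one_mul, one_mul, mul_comm]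
      exact mul_le_mul_of_nonneg_right (hC _) (norm_nonneg _)
  unfold Fl.P
  calc ∫ φ : Tor, (fourier (-m) φ : ℂ) * S.L δ F (S.R φ ω) ∂AddCircle.haarAddCircle
      = ∫ φ : Tor, (∫ ζ : ℂ, (fourier (-m) φ : ℂ) *
          (e φ * (((cL δ * kap δ ζ : ℝ) : ℂ) * (starRingEnd ℂ) ζ) * F (S.R φ (S.T ζ ω)))) ∂AddCircle.haarAddCircle := by
        congr 1
        funext φ
        rw [e1 φ, ← integral_const_mul]
    _ = ∫ ζ : ℂ, ∫ φ : Tor, (fourier (-m) φ : ℂ) *
          (e φ * (((cL δ * kap δ ζ : ℝ) : ℂ) * (starRingEnd ℂ) ζ) * F (S.R φ (S.T ζ ω))) ∂AddCircle.haarAddCircle := by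
        rw [integral_integral_swap hint]
    _ = _ := by
        unfold Fl.L
        congr 1
        funext ζ
        rw [← integral_const_mul]
        congr 1
        funext φ
        have h3 : (fourier (-(m - 1)) φ : ℂ) = fourier (-m) φ * e φ := four_e m φ
        rw [h3]
        ring

theorem P_L' (m : ℤ) {δ : ℝ} (hδ : 0 < δ) {F : Ω → ℂ} (hF : Bd F) {ω : Ω} (hω : ω ∈ S.Om δ) :
    S.P m (S.L' δ F) ω = S.L' δ (S.P (m + 1) F) ω := by
  have hK := S.hK
  have hc : Continuous fun ζ : ℂ => ((cL δ * kap δ ζ : ℝ) : ℂ) :=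
    Complex.continuous_ofReal.comp (continuous_const.mul (kap_cont δ))
  have hk : Continuous fun ζ : ℂ => ((cL δ * kap δ ζ : ℝ) : ℂ) * ζ :=
    hc.mul continuous_id
  have hk0 : ∀ ζ : ℂ, δ ≤ ‖ζ‖ → ((cL δ * kap δ ζ : ℝ) : ℂ) * ζ = 0 :=
    fun ζ hζ => by simp [kap_zero hδ hζ]
  have e1 : ∀ φ : Tor, S.L' δ F (S.R φ ω) =
      ∫ ζ : ℂ, (starRingEnd ℂ) (e φ) * (((cL δ * kap δ ζ : ℝ) : ℂ) * ζ) * F (S.R φ (S.T ζ ω)) := by
    intro φ
    rw [← rot_int φ (fun ζ : ℂ => (starRingEnd ℂ) (e φ) * (((cL δ * kap δ ζ : ℝ) : ℂ) * ζ) * F (S.R φ (S.T ζ ω)))]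
    unfold Fl.L'
    apply integral_congr_ae
    filter_upwards [rot_ae S hω.1 φ] with ζ hζ
    have hn : ‖e φ * ζ‖ = ‖ζ‖ := by rw [norm_mul, norm_e, one_mul]
    rw [kap_norm δ hn]
    by_cases h : δ ≤ ‖ζ‖
    · simp [kap_zero hδ h]
    · push Not at h
      have h5 : S.K * ‖ζ‖ < S.d ω := by
        have h7 : S.K * ‖ζ‖ < S.K * (4 * δ) :=
          mul_lt_mul_of_pos_left (by linarith [norm_nonneg ζ]) (by linarith)
        have h8 := hω.2
        linarith
      rw [S.TR φ ω hω.1 ζ h5 hζ]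
      have h9 := conj_mul_e φ
      try simp only [map_mul]
      linear_combination (-(((cL δ * kap δ ζ : ℝ) : ℂ) * ζ) * F (S.R φ (S.T (e φ * ζ) ω))) * h9
  have hint : Integrable (Function.uncurry fun (φ : Tor) (ζ : ℂ) =>
      (fourier (-m) φ : ℂ) * ((starRingEnd ℂ) (e φ) * (((cL δ * kap δ ζ : ℝ) : ℂ) * ζ) * F (S.R φ (S.T ζ ω))))
      (AddCircle.haarAddCircle.prod volume) := by
    obtain ⟨hFm, C, hC⟩ := hF
    have hb : Integrable (fun p : Tor × ℂ => C * ‖((cL δ * kap δ p.2 : ℝ) : ℂ) * p.2‖)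
        ((AddCircle.haarAddCircle (T := 2 * Real.pi)).prod volume) :=
      Integrable.comp_snd ((integrable_of_zero hk hk0).norm.const_mul C) _
    refine hb.mono' ?_ ?_
    · apply Measurable.aestronglyMeasurable
      have m1 : Measurable fun p : Tor × ℂ => S.T p.2 ω :=
        S.mT.comp (measurable_snd.prodMk measurable_const)
      have m2 : Measurable fun p : Tor × ℂ => F (S.R p.1 (S.T p.2 ω)) :=
        hFm.comp (S.mR.comp (measurable_fst.prodMk m1))
      have m3 : Measurable fun p : Tor × ℂ => (fourier (-m) p.1 : ℂ) :=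
        (fourier (-m)).continuous.measurable.comp measurable_fst
      have m4 : Measurable fun p : Tor × ℂ => (starRingEnd ℂ) (e p.1) :=
        Complex.continuous_conj.measurable.comp (e_measurable.comp measurable_fst)
      have m5 : Measurable fun p : Tor × ℂ => ((cL δ * kap δ p.2 : ℝ) : ℂ) * p.2 :=
        hk.measurable.comp measurable_snd
      exact m3.mul ((m4.mul m5).mul m2)
    · refine Filter.Eventually.of_forall fun p => ?_
      have h1 : ‖(fourier (-m) p.1 : ℂ)‖ = 1 := four_norm _ _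
      have h2 : ‖(starRingEnd ℂ) (e p.1)‖ = 1 := by rw [Complex.norm_conj, norm_e]
      simp only [Function.uncurry]
      rw [norm_mul, norm_mul, norm_mul, h1, h2, one_mul, one_mul, mul_comm]
      exact mul_le_mul_of_nonneg_right (hC _) (norm_nonneg _)
  unfold Fl.P
  calc ∫ φ : Tor, (fourier (-m) φ : ℂ) * S.L' δ F (S.R φ ω) ∂AddCircle.haarAddCircle
      = ∫ φ : Tor, (∫ ζ : ℂ, (fourier (-m) φ : ℂ) *
          ((starRingEnd ℂ) (e φ) * (((cL δ * kap δ ζ : ℝ) : ℂ) * ζ) * F (S.R φ (S.T ζ ω)))) ∂AddCircle.haarAddCircle := by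
        congr 1
        funext φ
        rw [e1 φ, ← integral_const_mul]
    _ = ∫ ζ : ℂ, ∫ φ : Tor, (fourier (-m) φ : ℂ) *
          ((starRingEnd ℂ) (e φ) * (((cL δ * kap δ ζ : ℝ) : ℂ) * ζ) * F (S.R φ (S.T ζ ω))) ∂AddCircle.haarAddCircle := by
        rw [integral_integral_swap hint]
    _ = _ := by
        unfold Fl.L'
        congr 1
        funext ζ
        rw [← integral_const_mul]
        congr 1
        funext φ
        have h3 : (fourier (-(m + 1)) φ : ℂ) = fourier (-m) φ * (starRingEnd ℂ) (e φ) := four_e' m φ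
        rw [h3]
        ring

end Pool.H46.Eg
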