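import Pool.Agent.H46.Eg.En
import Pool.Agent.H46.Eg.Pln
import Pool.Agent.H46.Eg.Bes

/-!
# [H46 EG CHN] the telescoping sum over the modes (90-130 lines)
Let u = L δ F, v = L δ G, HF = L F + L' F, HG = L G + L' G (all Bd).  On Om δ, for all m:
`L (P m F) = P (m + 1) u` (`P_L`), `L' (P (m + 2) F) = P (m + 1) (L' F) = P (m + 1) HF - P (m + 1) u` (`P_L'`, `P_add`, `P_smul`), the same for G.
`e m = ip (L (P m F)) (L (P m G))`.  By `energy` (for P (m+2) F, P (m+2) G: `P_bd`, `P_sup`) and `ip_congr`: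
`e (m + 2) = ip (L' (P (m+2) F)) (L' (P (m+2) G)) = e m - ip (P u) (P HG) - ip (P HF) (P v) + ip (P HF) (P HG)`, P = P (m + 1)
(bilinearity of ip: `integral_sub`, `integral_add`; everything is bounded, the measure finite).
So `‖e m‖ ≤ ‖e (m + 2 n)‖ + ∑ j < n, (‖ip (P (m+2j+1) u) (P (m+2j+1) HG)‖ + ...)` and the three sums are bounded by `bessel_ip` with
the finset of the m + 2 j + 1 (image of range n under an injective map).  Finally `‖e (m + 2 n)‖ = ‖ip (P (m+2n+1) u) (P (m+2n+1) v)‖`, and the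
sums over n < N of these are bounded by `bessel_ip` for all N, so for every ε > 0 some n has `‖e (m + 2 n)‖ ≤ ε`
(otherwise N ε ≤ const for all N); `le_of_forall_pos_le_add`.
-/

set_option autoImplicit false

open MeasureTheory Set Pool.H46.Bi

namespace Pool.H46.Eg

variable {Ω : Type} [MeasurableSpace Ω] (S : Fl Ω)

private lemma ip_int {δ : ℝ} {F G : Ω → ℂ} (hF : Bd F) (hG : Bd G) :
    Integrable (fun ω => F ω * (starRingEnd ℂ) (G ω)) (S.μ.restrict (S.Om δ)) := by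
  have := S.fin
  obtain ⟨mF, C, hC⟩ := hF
  obtain ⟨mG, D, hD⟩ := hG
  refine Integrable.of_bound (C := C * D) ?_ ?_
  · exact (mF.mul (Complex.continuous_conj.measurable.comp mG)).aestronglyMeasurable
  · refine Filter.Eventually.of_forall fun ω => ?_
    rw [norm_mul, RCLike.norm_conj]
    exact mul_le_mul (hC ω) (hD ω) (norm_nonneg _) ((norm_nonneg _).trans (hC ω))

private lemma ip_sub_sub {δ : ℝ} {A B C D : Ω → ℂ} (hA : Bd A) (hB : Bd B) (hC : Bd C) (hD : Bd D) :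
    S.ip δ (fun ω => A ω - B ω) (fun ω => C ω - D ω) =
      S.ip δ A C - S.ip δ A D - S.ip δ B C + S.ip δ B D := by
  have e : ∀ ω, (A ω - B ω) * (starRingEnd ℂ) (C ω - D ω) =
      A ω * (starRingEnd ℂ) (C ω) - A ω * (starRingEnd ℂ) (D ω) - B ω * (starRingEnd ℂ) (C ω) +
        B ω * (starRingEnd ℂ) (D ω) := by
    intro ω
    rw [map_sub]
    ring
  unfold Fl.ip
  simp only [e]
  have h1 := ip_int S (δ := δ) hA hC
  have h2 := ip_int S (δ := δ) hA hD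
  have h3 := ip_int S (δ := δ) hB hC
  have h4 := ip_int S (δ := δ) hB hD
  have h12 : Integrable (fun ω => A ω * (starRingEnd ℂ) (C ω) - A ω * (starRingEnd ℂ) (D ω))
      (S.μ.restrict (S.Om δ)) := h1.sub h2
  have h123 : Integrable (fun ω => A ω * (starRingEnd ℂ) (C ω) - A ω * (starRingEnd ℂ) (D ω) -
      B ω * (starRingEnd ℂ) (C ω)) (S.μ.restrict (S.Om δ)) := h12.sub h3
  rw [integral_add h123 h4, integral_sub h12 h3, integral_sub h1 h2]

private lemma step {δ : ℝ} (hδ : 0 < δ) {F G : Ω → ℂ} (hF : Bd F) (hG : Bd G) (hs : S.Sup δ G)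
    (m : ℤ) :
    ‖S.ip δ (S.L δ (S.P m F)) (S.L δ (S.P m G))‖ ≤
      ‖S.ip δ (S.L δ (S.P (m + 2) F)) (S.L δ (S.P (m + 2) G))‖ +
      (‖S.ip δ (S.P (m + 1) (S.L δ F)) (S.P (m + 1) fun ω => S.L δ G ω + S.L' δ G ω)‖ +
      ‖S.ip δ (S.P (m + 1) fun ω => S.L δ F ω + S.L' δ F ω) (S.P (m + 1) (S.L δ G))‖ +
      ‖S.ip δ (S.P (m + 1) fun ω => S.L δ F ω + S.L' δ F ω)
        (S.P (m + 1) fun ω => S.L δ G ω + S.L' δ G ω)‖) := by
  have key : ∀ {H : Ω → ℂ}, Bd H → ∀ ω ∈ S.Om δ, S.L' δ (S.P (m + 2) H) ω =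
      S.P (m + 1) (fun ω => S.L δ H ω + S.L' δ H ω) ω - S.P (m + 1) (S.L δ H) ω := by
    intro H hH ω hω
    have h1 := P_L' S (m + 1) hδ hH hω
    have h2 := P_add S (m + 1) (L_bd S hδ hH) (L'_bd S hδ hH) ω
    have e : m + 1 + 1 = m + 2 := by ring
    rw [e] at h1
    rw [h2, ← h1]
    ring
  have key2 : ∀ {H : Ω → ℂ}, Bd H → ∀ ω ∈ S.Om δ, S.P (m + 1) (S.L δ H) ω = S.L δ (S.P m H) ω := by
    intro H hH ω hω
    have h1 := P_L S (m + 1) hδ hH hω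
    have e : m + 1 - 1 = m := by ring
    rw [e] at h1
    exact h1
  have hE := energy S hδ (P_bd S (m + 2) hF) (P_bd S (m + 2) hG) (P_sup S (m + 2) hs)
  rw [ip_congr S (key hF) (key hG)] at hE
  have b1 : Bd (S.P (m + 1) (S.L δ F)) := P_bd S _ (L_bd S hδ hF)
  have b2 : Bd (S.P (m + 1) (S.L δ G)) := P_bd S _ (L_bd S hδ hG)
  have b3 : Bd (S.P (m + 1) fun ω => S.L δ F ω + S.L' δ F ω) :=
    P_bd S _ ((L_bd S hδ hF).add (L'_bd S hδ hF))
  have b4 : Bd (S.P (m + 1) fun ω => S.L δ G ω + S.L' δ G ω) :=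
    P_bd S _ ((L_bd S hδ hG).add (L'_bd S hδ hG))
  rw [ip_sub_sub S b3 b1 b4 b2] at hE
  rw [← ip_congr S (key2 hF) (key2 hG)]
  have e5 : S.ip δ (S.P (m + 1) (S.L δ F)) (S.P (m + 1) (S.L δ G)) =
      S.ip δ (S.L δ (S.P (m + 2) F)) (S.L δ (S.P (m + 2) G)) -
      S.ip δ (S.P (m + 1) fun ω => S.L δ F ω + S.L' δ F ω)
        (S.P (m + 1) fun ω => S.L δ G ω + S.L' δ G ω) +
      S.ip δ (S.P (m + 1) fun ω => S.L δ F ω + S.L' δ F ω) (S.P (m + 1) (S.L δ G)) +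
      S.ip δ (S.P (m + 1) (S.L δ F)) (S.P (m + 1) fun ω => S.L δ G ω + S.L' δ G ω) := by
    rw [hE]; ring
  rw [e5]
  refine (norm_add_le _ _).trans ?_
  refine (add_le_add_left ((norm_add_le _ _).trans (add_le_add_left (norm_sub_le _ _) _)) _).trans ?_
  linarith

private lemma sum_im (f : ℤ → ℝ) (m : ℤ) (n : ℕ) :
    ∑ j ∈ Finset.range n, f (m + 2 * (j : ℤ) + 1) =
      ∑ k ∈ (Finset.range n).image (fun j : ℕ => m + 2 * (j : ℤ) + 1), f k := by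
  rw [Finset.sum_image]
  intro a _ b _ h
  have : m + 2 * (a : ℤ) + 1 = m + 2 * (b : ℤ) + 1 := h
  have : (a : ℤ) = b := by linarith
  exact_mod_cast this

theorem chain {δ : ℝ} (hδ : 0 < δ) {F G : Ω → ℂ} (hF : Bd F) (hG : Bd G) (hs : S.Sup δ G)
    (m : ℤ) :
    ‖S.ip δ (S.L δ (S.P m F)) (S.L δ (S.P m G))‖ ≤
      Real.sqrt (S.nn δ (S.L δ F)) * Real.sqrt (S.nn δ fun ω => S.L δ G ω + S.L' δ G ω) +
      Real.sqrt (S.nn δ fun ω => S.L δ F ω + S.L' δ F ω) * Real.sqrt (S.nn δ (S.L δ G)) +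
      Real.sqrt (S.nn δ fun ω => S.L δ F ω + S.L' δ F ω) *
        Real.sqrt (S.nn δ fun ω => S.L δ G ω + S.L' δ G ω) := by
  have bu := L_bd S hδ hF
  have bv := L_bd S hδ hG
  have bH : Bd (fun ω => S.L δ F ω + S.L' δ F ω) := (L_bd S hδ hF).add (L'_bd S hδ hF)
  have bK : Bd (fun ω => S.L δ G ω + S.L' δ G ω) := (L_bd S hδ hG).add (L'_bd S hδ hG)
  set R := Real.sqrt (S.nn δ (S.L δ F)) * Real.sqrt (S.nn δ fun ω => S.L δ G ω + S.L' δ G ω) +
      Real.sqrt (S.nn δ fun ω => S.L δ F ω + S.L' δ F ω) * Real.sqrt (S.nn δ (S.L δ G)) +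
      Real.sqrt (S.nn δ fun ω => S.L δ F ω + S.L' δ F ω) *
        Real.sqrt (S.nn δ fun ω => S.L δ G ω + S.L' δ G ω) with hR
  set E : ℤ → ℝ := fun k => ‖S.ip δ (S.L δ (S.P k F)) (S.L δ (S.P k G))‖ with hE
  set a : ℤ → ℝ := fun k => ‖S.ip δ (S.P k (S.L δ F)) (S.P k fun ω => S.L δ G ω + S.L' δ G ω)‖ with ha
  set b : ℤ → ℝ := fun k => ‖S.ip δ (S.P k fun ω => S.L δ F ω + S.L' δ F ω) (S.P k (S.L δ G))‖ with hb
  set c : ℤ → ℝ := fun k => ‖S.ip δ (S.P k fun ω => S.L δ F ω + S.L' δ F ω)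
        (S.P k fun ω => S.L δ G ω + S.L' δ G ω)‖ with hc
  change E m ≤ R
  have hstep : ∀ k, E k ≤ E (k + 2) + (a (k + 1) + b (k + 1) + c (k + 1)) := fun k =>
    step S hδ hF hG hs k
  have hind : ∀ n : ℕ, E m ≤ E (m + 2 * (n : ℤ)) +
      ∑ j ∈ Finset.range n, (a (m + 2 * (j : ℤ) + 1) + b (m + 2 * (j : ℤ) + 1) + c (m + 2 * (j : ℤ) + 1)) := by
    intro n
    induction n with
    | zero => simp
    | succ n ih =>
      rw [Finset.sum_range_succ]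
      have h := hstep (m + 2 * (n : ℤ))
      have e : m + 2 * ((n + 1 : ℕ) : ℤ) = m + 2 * (n : ℤ) + 2 := by push_cast; ring
      rw [e]
      linarith
  have hsum : ∀ n : ℕ, ∑ j ∈ Finset.range n, (a (m + 2 * (j : ℤ) + 1) + b (m + 2 * (j : ℤ) + 1) +
      c (m + 2 * (j : ℤ) + 1)) ≤ R := by
    intro n
    rw [Finset.sum_add_distrib, Finset.sum_add_distrib, sum_im a, sum_im b,
      sum_im c]
    exact add_le_add (add_le_add (bessel_ip S bu bK _) (bessel_ip S bH bv _)) (bessel_ip S bH bK _)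
  have hE1 : ∀ k, E k = ‖S.ip δ (S.P (k + 1) (S.L δ F)) (S.P (k + 1) (S.L δ G))‖ := by
    intro k
    have key2 : ∀ {H : Ω → ℂ}, Bd H → ∀ ω ∈ S.Om δ, S.L δ (S.P k H) ω = S.P (k + 1) (S.L δ H) ω := by
      intro H hH ω hω
      have h1 := P_L S (k + 1) hδ hH hω
      have e : k + 1 - 1 = k := by ring
      rw [e] at h1
      exact h1.symm
    simp only [hE]
    rw [ip_congr S (key2 hF) (key2 hG)]
  have hEs : ∀ N : ℕ, ∑ n ∈ Finset.range N, E (m + 2 * (n : ℤ)) ≤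
      Real.sqrt (S.nn δ (S.L δ F)) * Real.sqrt (S.nn δ (S.L δ G)) := by
    intro N
    have e : ∑ n ∈ Finset.range N, E (m + 2 * (n : ℤ)) =
        ∑ j ∈ Finset.range N, (fun k => ‖S.ip δ (S.P k (S.L δ F)) (S.P k (S.L δ G))‖) (m + 2 * (j : ℤ) + 1) :=
      Finset.sum_congr rfl fun n _ => hE1 _
    rw [e, sum_im (fun k => ‖S.ip δ (S.P k (S.L δ F)) (S.P k (S.L δ G))‖) m N]
    exact bessel_ip S bu bv _
  by_contra hcon
  rw [not_le] at hcon
  set D := Real.sqrt (S.nn δ (S.L δ F)) * Real.sqrt (S.nn δ (S.L δ G)) with hD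
  obtain ⟨N, hN⟩ := exists_nat_gt (D / (E m - R))
  have hpos : 0 < E m - R := by linarith
  have h1 : (N : ℝ) * (E m - R) ≤ ∑ n ∈ Finset.range N, E (m + 2 * (n : ℤ)) := by
    rw [← nsmul_eq_mul, ← Finset.card_range N, ← Finset.sum_const]
    rw [Finset.card_range]
    refine Finset.sum_le_sum fun n _ => ?_
    have h2 := hind n
    have h3 := hsum n
    linarith
  have h4 := hEs N
  rw [div_lt_iff₀ hpos] at hN
  linarith

end Pool.H46.Eg
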