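import Pool.Agent.H46.Eg.Cv

/-!
# [H46 EG CIP] composition of two convolutions (100-150 lines)
`A ω = ∫ ζ, p ζ * F (T ζ ω)` is Bd (as in `L_bd`; prove it for the kernel p: measurable by joint measurability,
bounded by `C ∫ ‖p‖`).  Left side `= ∫ ω in Om δ, ∫ ξ, conj (q ξ) * (A ω * conj (G (T ξ ω)))`; swap
(`integral_integral_swap`, everything is bounded by an integrable function of ξ on a finite measure):
`∫ ξ, conj (q ξ) * ∫ ω in Om δ, A ω * conj (G (T ξ ω))`.  For ‖ξ‖ ≥ δ: q ξ = 0.  For ‖ξ‖ < δ: `cv` with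
`Φ ω ω' = A ω * conj (G ω')`: the inner integral is `∫ ω in E', A (T (-ξ) ω) * conj (G ω)`, E' = {ω ∈ X | 8 K δ ≤ d ω}.
For ω ∈ E' with `(-ξ, ω) ∉ B` (a.e. ω by `S.Bnull'`): `A (T (-ξ) ω) = ∫ ζ, p ζ * F (T ζ (T (-ξ) ω))` and for a.e. ζ with ‖ζ‖ < δ
(those with `(ζ - ξ, ω) ∉ B`: `S.Bnull ω` translated by ξ) it is `p ζ * F (T (ζ - ξ) ω)` by `S.Tadd` (`-ξ + ζ`,
`K (‖ξ‖ + ‖ζ‖) < 2 K δ < d ω`); so `A (T (-ξ) ω) = ∫ η, p (η + ξ) * F (T η ω)` (`integral_add_right_eq_self`).  Swap the three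
integrals back: `∫ ω in E', conj (G ω) * ∫ η, F (T η ω) * ∫ ξ, p (η + ξ) * conj (q ξ)`.
-/

set_option autoImplicit false

open MeasureTheory Set Pool.H46.Bi

namespace Pool.H46.Eg

variable {Ω : Type} [MeasurableSpace Ω] (S : Fl Ω)

theorem cip_int {δ : ℝ} {p : ℂ → ℂ} (hp : Continuous p) (hp0 : ∀ ζ : ℂ, δ ≤ ‖ζ‖ → p ζ = 0) :
    Integrable p := by
  refine hp.integrable_of_hasCompactSupport
    (HasCompactSupport.intro (isCompact_closedBall (0 : ℂ) δ) ?_)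
  intro x hx
  rw [Metric.mem_closedBall, dist_zero_right, not_le] at hx
  exact hp0 x hx.le

theorem cip_A_meas {p : ℂ → ℂ} (hp : Continuous p) {F : Ω → ℂ} (hF : Measurable F) :
    Measurable fun ω : Ω => ∫ ζ : ℂ, p ζ * F (S.T ζ ω) := by
  have h : Measurable fun x : Ω × ℂ => p x.2 * F (S.T x.2 x.1) :=
    (hp.measurable.comp measurable_snd).mul
      (hF.comp (S.mT.comp (measurable_snd.prodMk measurable_fst)))
  exact h.stronglyMeasurable.integral_prod_right'.measurable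

theorem cip_B_meas {p : ℂ → ℂ} (hp : Continuous p) {F : Ω → ℂ} (hF : Measurable F) :
    Measurable fun x : Ω × ℂ => ∫ η : ℂ, p (η + x.2) * F (S.T η x.1) := by
  have h : Measurable fun y : (Ω × ℂ) × ℂ => p (y.2 + y.1.2) * F (S.T y.2 y.1.1) :=
    (hp.measurable.comp (measurable_snd.add (measurable_snd.comp measurable_fst))).mul
      (hF.comp (S.mT.comp (measurable_snd.prodMk (measurable_fst.comp measurable_fst))))
  exact h.stronglyMeasurable.integral_prod_right'.measurable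

theorem cip_B_le {δ : ℝ} {p : ℂ → ℂ} (hp : Continuous p) (hp0 : ∀ ζ : ℂ, δ ≤ ‖ζ‖ → p ζ = 0)
    {F : Ω → ℂ} {C : ℝ} (hC : ∀ ω, ‖F ω‖ ≤ C) (ξ : ℂ) (ω : Ω) :
    ‖∫ η : ℂ, p (η + ξ) * F (S.T η ω)‖ ≤ (∫ η : ℂ, ‖p η‖) * C := by
  have hi : Integrable fun η : ℂ => ‖p (η + ξ)‖ * C :=
    ((cip_int hp hp0).comp_add_right ξ).norm.mul_const C
  calc ‖∫ η : ℂ, p (η + ξ) * F (S.T η ω)‖ ≤ ∫ η : ℂ, ‖p (η + ξ)‖ * C := by
        refine norm_integral_le_of_norm_le hi (Filter.Eventually.of_forall fun η => ?_)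
        rw [norm_mul]
        exact mul_le_mul_of_nonneg_left (hC _) (norm_nonneg _)
    _ = (∫ η : ℂ, ‖p (η + ξ)‖) * C := integral_mul_const _ _
    _ = (∫ η : ℂ, ‖p η‖) * C := by rw [integral_add_right_eq_self (fun η => ‖p η‖) ξ]

theorem cip_prod_int {μ : Measure Ω} [IsFiniteMeasure μ] {q : ℂ → ℂ} (hq : Continuous q)
    (hqi : Integrable q) {Ψ : Ω → ℂ → ℂ} (hm : Measurable (Function.uncurry Ψ)) {b : ℝ}
    (hb : ∀ ω ξ, ‖Ψ ω ξ‖ ≤ b) :
    Integrable (Function.uncurry fun (ω : Ω) (ξ : ℂ) => (starRingEnd ℂ) (q ξ) * Ψ ω ξ)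
      (μ.prod (volume : Measure ℂ)) := by
  have h : Integrable (fun z : Ω × ℂ => b * ‖q z.2‖) (μ.prod (volume : Measure ℂ)) :=
    (integrable_const b).mul_prod hqi.norm
  refine h.mono' ?_ (Filter.Eventually.of_forall fun z => ?_)
  · exact (((Complex.continuous_conj.comp hq).measurable.comp
      measurable_snd).mul hm).aestronglyMeasurable
  · simp only [Function.uncurry]
    rw [norm_mul, RCLike.norm_conj, mul_comm]
    exact mul_le_mul_of_nonneg_right (hb _ _) (norm_nonneg _)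

/-- the convolution at a translated point -/
theorem cip_shift {δ : ℝ} (hδ : 0 < δ) {F : Ω → ℂ} {p : ℂ → ℂ}
    (hp0 : ∀ ζ : ℂ, δ ≤ ‖ζ‖ → p ζ = 0) {ξ : ℂ} (hξ : ‖ξ‖ < δ) {ω : Ω} (hω : ω ∈ S.X)
    (hd : 8 * S.K * δ ≤ S.d ω) (hB : (-ξ, ω) ∉ S.B) :
    ∫ ζ : ℂ, p ζ * F (S.T ζ (S.T (-ξ) ω)) = ∫ η : ℂ, p (η + ξ) * F (S.T η ω) := by
  have hK := S.hK
  rw [← integral_sub_right_eq_self (fun η => p (η + ξ) * F (S.T η ω)) ξ]
  have h0 : ∀ᵐ ζ : ℂ, (ζ, ω) ∉ S.B := by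
    rw [ae_iff]
    simpa using S.Bnull ω hω
  have h1 : ∀ᵐ ζ : ℂ, (-ξ + ζ, ω) ∉ S.B :=
    (quasiMeasurePreserving_add_left (volume : Measure ℂ) (-ξ)).ae h0
  refine integral_congr_ae ?_
  filter_upwards [h1] with ζ hζ
  by_cases hz : ‖ζ‖ < δ
  · have hlt : S.K * (‖-ξ‖ + ‖ζ‖) < S.d ω := by
      rw [norm_neg]
      have h2 : S.K * (‖ξ‖ + ‖ζ‖) ≤ S.K * (2 * δ) :=
        mul_le_mul_of_nonneg_left (by linarith) (by linarith)
      nlinarith [mul_pos (lt_of_lt_of_le one_pos hK) hδ]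
    have h3 := (S.Tadd ω hω (-ξ) ζ hlt hB hζ).2
    rw [h3, sub_add_cancel, neg_add_eq_sub]
  · rw [not_lt] at hz
    rw [sub_add_cancel, hp0 ζ hz, zero_mul, zero_mul]

/-- the inner swap -/
theorem cip_inner {δ : ℝ} {F : Ω → ℂ} (hF : Bd F) {p q : ℂ → ℂ} (hp : Continuous p)
    (hq : Continuous q) (hp0 : ∀ ζ : ℂ, δ ≤ ‖ζ‖ → p ζ = 0)
    (hq0 : ∀ ζ : ℂ, δ ≤ ‖ζ‖ → q ζ = 0) (ω : Ω) :
    ∫ ξ : ℂ, (starRingEnd ℂ) (q ξ) * ∫ η : ℂ, p (η + ξ) * F (S.T η ω) =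
      ∫ η : ℂ, (∫ ξ : ℂ, p (η + ξ) * (starRingEnd ℂ) (q ξ)) * F (S.T η ω) := by
  obtain ⟨hFm, C, hC⟩ := hF
  have hi : Integrable (Function.uncurry fun (ξ η : ℂ) =>
      (starRingEnd ℂ) (q ξ) * (p (η + ξ) * F (S.T η ω)))
      ((volume : Measure ℂ).prod (volume : Measure ℂ)) := by
    have hc : Continuous fun z : ℂ × ℂ => ‖q z.1‖ * ‖p (z.2 + z.1)‖ :=
      (hq.comp continuous_fst).norm.mul (hp.comp (continuous_snd.add continuous_fst)).norm
    have hs : HasCompactSupport fun z : ℂ × ℂ => ‖q z.1‖ * ‖p (z.2 + z.1)‖ := by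
      refine HasCompactSupport.intro (isCompact_closedBall (0 : ℂ × ℂ) (2 * δ)) ?_
      intro z hz
      rw [Metric.mem_closedBall, dist_zero_right, Prod.norm_def, not_le, lt_max_iff] at hz
      by_cases h1 : ‖z.1‖ < δ
      · rcases hz with hz | hz
        · linarith [norm_nonneg z.1]
        · have h2 : δ ≤ ‖z.2 + z.1‖ := by
            have := norm_sub_le (z.2 + z.1) z.1
            rw [add_sub_cancel_right] at this
            linarith
          rw [hp0 _ h2, norm_zero, mul_zero]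
      · rw [hq0 _ (not_lt.1 h1), norm_zero, zero_mul]
    have hI : Integrable (fun z : ℂ × ℂ => (‖q z.1‖ * ‖p (z.2 + z.1)‖) * C)
        ((volume : Measure ℂ).prod (volume : Measure ℂ)) :=
      (hc.integrable_of_hasCompactSupport hs).mul_const C
    refine hI.mono' ?_ (Filter.Eventually.of_forall fun z => ?_)
    · refine Measurable.aestronglyMeasurable ?_
      exact (((Complex.continuous_conj.comp hq).measurable.comp measurable_fst)).mul
        ((hp.measurable.comp (measurable_snd.add measurable_fst)).mul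
          (hFm.comp (S.mT.comp (measurable_snd.prodMk measurable_const))))
    · simp only [Function.uncurry]
      rw [norm_mul, norm_mul, RCLike.norm_conj, ← mul_assoc]
      exact mul_le_mul_of_nonneg_left (hC _) (mul_nonneg (norm_nonneg _) (norm_nonneg _))
  calc ∫ ξ : ℂ, (starRingEnd ℂ) (q ξ) * ∫ η : ℂ, p (η + ξ) * F (S.T η ω)
      = ∫ ξ : ℂ, ∫ η : ℂ, (starRingEnd ℂ) (q ξ) * (p (η + ξ) * F (S.T η ω)) := by
        refine integral_congr_ae (Filter.Eventually.of_forall fun ξ => ?_)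
        simp only
        rw [← integral_const_mul]
    _ = ∫ η : ℂ, ∫ ξ : ℂ, (starRingEnd ℂ) (q ξ) * (p (η + ξ) * F (S.T η ω)) :=
        integral_integral_swap hi
    _ = _ := by
        refine integral_congr_ae (Filter.Eventually.of_forall fun η => ?_)
        simp only
        rw [← integral_mul_const]
        refine integral_congr_ae (Filter.Eventually.of_forall fun ξ => ?_)
        simp only
        ring

theorem comp_ip {δ : ℝ} (hδ : 0 < δ) {F G : Ω → ℂ} (hF : Bd F) (hG : Bd G) (hs : S.Sup δ G)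
    {p q : ℂ → ℂ} (hp : Continuous p) (hq : Continuous q) (hp0 : ∀ ζ : ℂ, δ ≤ ‖ζ‖ → p ζ = 0)
    (hq0 : ∀ ζ : ℂ, δ ≤ ‖ζ‖ → q ζ = 0) :
    ∫ ω in S.Om δ, (∫ ζ : ℂ, p ζ * F (S.T ζ ω)) *
        (starRingEnd ℂ) (∫ ξ : ℂ, q ξ * G (S.T ξ ω)) ∂S.μ =
      ∫ ω in {ω | ω ∈ S.X ∧ 8 * S.K * δ ≤ S.d ω},
        (∫ η : ℂ, (∫ ξ : ℂ, p (η + ξ) * (starRingEnd ℂ) (q ξ)) * F (S.T η ω)) *
          (starRingEnd ℂ) (G ω) ∂S.μ := by
  have := S.fin
  have hFb := hF
  obtain ⟨hFm, C, hC⟩ := hF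
  obtain ⟨hGm, D, hD⟩ := hG
  have hqi : Integrable q := cip_int hq hq0
  have hAm : Measurable fun ω : Ω => ∫ ζ : ℂ, p ζ * F (S.T ζ ω) := cip_A_meas S hp hFm
  have hAb : ∀ ω : Ω, ‖∫ ζ : ℂ, p ζ * F (S.T ζ ω)‖ ≤ (∫ η : ℂ, ‖p η‖) * C := by
    intro ω
    have := cip_B_le S hp hp0 hC 0 ω
    simpa using this
  have hP0 : 0 ≤ (∫ η : ℂ, ‖p η‖) := integral_nonneg fun η => norm_nonneg _
  have hC0 : ∀ ω : Ω, 0 ≤ (∫ η : ℂ, ‖p η‖) * C := fun ω => le_trans (norm_nonneg _) (hAb ω)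
  have hE : MeasurableSet {ω : Ω | ω ∈ S.X ∧ 8 * S.K * δ ≤ S.d ω} :=
    S.mX.inter (measurableSet_le measurable_const S.md)
  -- the first swap
  have h1 : ∫ ω in S.Om δ, (∫ ζ : ℂ, p ζ * F (S.T ζ ω)) *
        (starRingEnd ℂ) (∫ ξ : ℂ, q ξ * G (S.T ξ ω)) ∂S.μ =
      ∫ ξ : ℂ, ∫ ω in S.Om δ, (starRingEnd ℂ) (q ξ) *
        ((∫ ζ : ℂ, p ζ * F (S.T ζ ω)) * (starRingEnd ℂ) (G (S.T ξ ω))) ∂S.μ := by
    rw [← integral_integral_swap]
    · refine integral_congr_ae (Filter.Eventually.of_forall fun ω => ?_)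
      simp only
      rw [← integral_conj, ← integral_const_mul]
      refine integral_congr_ae (Filter.Eventually.of_forall fun ξ => ?_)
      simp only [map_mul]
      ring
    · refine cip_prod_int (b := (∫ η : ℂ, ‖p η‖) * C * D) hq hqi ?_ ?_
      · exact (hAm.comp measurable_fst).mul (Complex.continuous_conj.measurable.comp
          (hGm.comp (S.mT.comp (measurable_snd.prodMk measurable_fst))))
      · intro ω ξ
        rw [norm_mul, RCLike.norm_conj]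
        exact mul_le_mul (hAb ω) (hD _) (norm_nonneg _) (hC0 ω)
  -- the change of variables
  have h2 : ∀ ξ : ℂ, ∫ ω in S.Om δ, (starRingEnd ℂ) (q ξ) *
        ((∫ ζ : ℂ, p ζ * F (S.T ζ ω)) * (starRingEnd ℂ) (G (S.T ξ ω))) ∂S.μ =
      ∫ ω in {ω | ω ∈ S.X ∧ 8 * S.K * δ ≤ S.d ω}, (starRingEnd ℂ) (q ξ) *
        ((∫ η : ℂ, p (η + ξ) * F (S.T η ω)) * (starRingEnd ℂ) (G ω)) ∂S.μ := by
    intro ξ
    by_cases hξ : ‖ξ‖ < δ
    · have hcv := cv S hδ hξ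
        (Φ := fun ω ω' => (∫ ζ : ℂ, p ζ * F (S.T ζ ω)) * (starRingEnd ℂ) (G ω'))
        ((hAm.comp measurable_fst).mul (Complex.continuous_conj.measurable.comp
          (hGm.comp measurable_snd))) (C := (∫ η : ℂ, ‖p η‖) * C * D)
        (by
          intro ω ω'
          rw [norm_mul, RCLike.norm_conj]
          exact mul_le_mul (hAb ω) (hD _) (norm_nonneg _) (hC0 ω))
        (by
          intro ω ω' h
          rw [hs ω' h, map_zero, mul_zero])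
      rw [integral_const_mul, hcv, ← integral_const_mul]
      refine integral_congr_ae ?_
      have hB : ∀ᵐ ω ∂S.μ, (-ξ, ω) ∉ S.B := by
        rw [ae_iff]
        simpa using S.Bnull' (-ξ)
      filter_upwards [ae_restrict_mem hE, ae_restrict_of_ae hB] with ω hω hωB
      rw [cip_shift S hδ hp0 hξ hω.1 hω.2 hωB]
    · rw [hq0 ξ (not_lt.1 hξ)]
      simp
  -- the second swap
  have h3 : ∫ ξ : ℂ, ∫ ω in {ω | ω ∈ S.X ∧ 8 * S.K * δ ≤ S.d ω}, (starRingEnd ℂ) (q ξ) *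
        ((∫ η : ℂ, p (η + ξ) * F (S.T η ω)) * (starRingEnd ℂ) (G ω)) ∂S.μ =
      ∫ ω in {ω | ω ∈ S.X ∧ 8 * S.K * δ ≤ S.d ω}, (∫ ξ : ℂ, (starRingEnd ℂ) (q ξ) *
        ((∫ η : ℂ, p (η + ξ) * F (S.T η ω)) * (starRingEnd ℂ) (G ω))) ∂S.μ := by
    rw [← integral_integral_swap]
    refine cip_prod_int (b := (∫ η : ℂ, ‖p η‖) * C * D) hq hqi ?_ ?_
    · exact (cip_B_meas S hp hFm).mul (Complex.continuous_conj.measurable.comp
        (hGm.comp measurable_fst))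
    · intro ω ξ
      rw [norm_mul, RCLike.norm_conj]
      exact mul_le_mul (cip_B_le S hp hp0 hC ξ ω) (hD _) (norm_nonneg _) (hC0 ω)
  rw [h1, integral_congr_ae (Filter.Eventually.of_forall h2), h3]
  refine integral_congr_ae (Filter.Eventually.of_forall fun ω => ?_)
  simp only
  rw [← cip_inner S hFb hp hq hp0 hq0 ω, ← integral_mul_const]
  refine integral_congr_ae (Filter.Eventually.of_forall fun ξ => ?_)
  simp only
  ring

end Pool.H46.Eg
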