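import Pool.Agent.H46.Eg.Mdm

/-!
# [H46 EG MDS] measurability of the translations (proved)
-/

set_option autoImplicit false

open MeasureTheory Metric Set Pool.H46.Bi

namespace Pool.H46.Eg

theorem ts_meas {U : Set ℂ} (hP : Bi.Poly U) : Measurable fun p : ℂ × St => Ts U p.1 p.2 := by
  classical
  have hfin := stp_finite hP
  set G : Set Mo := {g : Mo | ∃ x y, Stp U g x y} with hG
  set A : Mo → Set (ℂ × St) := fun g => {p | Stp U g p.2.2.1 (tgt p.2 p.1)} with hA
  have hAm : ∀ g, MeasurableSet (A g) := by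
    intro g
    have h1 : Measurable fun p : ℂ × St => (p.2.2.1, tgt p.2 p.1) :=
      (measurable_fst.comp (measurable_snd.comp measurable_snd)).prodMk tgt_meas
    exact h1 (stp_open hP.isOpen g).measurableSet
  have hf : ∀ g, Measurable fun p : ℂ × St => ap g (tgt p.2 p.1) p.2 := fun g =>
    (ap_meas g).comp (tgt_meas.prodMk measurable_snd)
  intro M hM
  have key : (fun p : ℂ × St => Ts U p.1 p.2) ⁻¹' M =
      (⋃ g ∈ G, A g ∩ (fun p : ℂ × St => ap g (tgt p.2 p.1) p.2) ⁻¹' M) ∪
        ((⋃ g ∈ G, A g)ᶜ ∩ (fun p : ℂ × St => p.2) ⁻¹' M) := by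
    ext p
    simp only [mem_preimage, mem_union, mem_iUnion, mem_inter_iff, mem_compl_iff, exists_prop]
    by_cases hex : ∃ g, Stp U g p.2.2.1 (tgt p.2 p.1)
    · obtain ⟨g, hg⟩ := hex
      have hT := T_of_stp hP.isOpen (ζ := p.1) (ω := p.2) hg
      constructor
      · intro h
        left
        exact ⟨g, ⟨_, _, hg⟩, hg, by rw [← hT]; exact h⟩
      · rintro (⟨g', _, hg', h⟩ | ⟨h, _⟩)
        · rw [T_of_stp hP.isOpen (ζ := p.1) (ω := p.2) hg']; exact h
        · exact absurd ⟨g, ⟨_, _, hg⟩, hg⟩ h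
    · have hT : Ts U p.1 p.2 = p.2 := by
        unfold Ts
        rw [dif_neg hex]
      rw [hT]
      constructor
      · intro h
        right
        exact ⟨fun ⟨g, _, hg⟩ => hex ⟨g, hg⟩, h⟩
      · rintro (⟨g', _, hg', h⟩ | ⟨_, h⟩)
        · exact absurd ⟨g', hg'⟩ hex
        · exact h
  rw [key]
  refine MeasurableSet.union ?_ (MeasurableSet.inter ?_ (measurable_snd hM))
  · exact hfin.measurableSet_biUnion fun g _ => (hAm g).inter (hf g hM)
  · exact (hfin.measurableSet_biUnion fun g _ => hAm g).compl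

end Pool.H46.Eg
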