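import Pool.Agent.H46.Eg.Mdl

/-!
# [H46 EG MDT] the relations of the small translations (60-100 lines)
Everything from `stp_exists`, `T_of_stp`, `flat` and the algebra in Mdl.lean; `norm_tgt`.
`ts_mem`: g with Stp U g x (tgt ω ζ); `stp_end`; `|infDist (g.act y) V - infDist x V| ≤ ‖g.act y - x‖ ≤ ‖ζ‖` (`stp_dist`,
`infDist_le_infDist_add_dist` twice).
`ts_zero`: `stp_self`, `ap_one`; x ∈ U is not a frontier point (U open).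
`ts_add`: `flat` with y = tgt ω ζ, y' = tgt ω (ζ + ξ) (`K ‖ζ + ξ‖ ≤ K (‖ζ‖ + ‖ξ‖)`): T ζ ω = ap g y ω, `tgt (T ζ ω) ξ = g.act y'`
(`tgt_ap`), so T ξ (T ζ ω) = ap g' (g.act y') (ap g y ω) = ap (g' g) y' ω = T (ζ + ξ) ω.
`ts_R`: `tgt_R`: both use the same g; `R_ap`.
`flow_rel`: ζ' = ζ + t with t real (equal imaginary parts).  If t ≥ 0: as in `ts_add` (y = tgt ω ζ, y' = tgt ω ζ' = y + t e θ, `tgt_add_real`;
`K ‖ζ'‖ ≤ K (‖ζ‖ + ‖ζ' - ζ‖)`): q = (T ζ ω).2 = (g.act y, g.dir θ), `g.act y' = g.act y + t e (g.dir θ)` (`Mo.act_line`), so `stp_reach` gives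
Reach U t g' q.1 q.2 and (T ζ' ω).2 = Phi g' t q.  If t < 0: the same with ζ and ζ' exchanged.
-/

set_option autoImplicit false

open MeasureTheory Metric Set Pool.H46.Bi

namespace Pool.H46.Eg

theorem mdt_ex {U : Set ℂ} (D : Dat U) {ω : St} (hω : ω.2.1 ∈ U) {ζ : ℂ}
    (h : D.K * ‖ζ‖ < infDist ω.2.1 (D.V : Set ℂ)) (hB : tgt ω ζ ∉ frontier U) :
    ∃ g, Stp U g ω.2.1 (tgt ω ζ) :=
  stp_exists D hω (by rw [norm_tgt]; exact h) hB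

theorem ts_mem {U : Set ℂ} (D : Dat U) {ω : St} (hω : ω.2.1 ∈ U) {ζ : ℂ}
    (h : D.K * ‖ζ‖ < infDist ω.2.1 (D.V : Set ℂ)) (hB : tgt ω ζ ∉ frontier U) :
    (Ts U ζ ω).2.1 ∈ U ∧
      |infDist (Ts U ζ ω).2.1 (D.V : Set ℂ) - infDist ω.2.1 (D.V : Set ℂ)| ≤ ‖ζ‖ := by
  obtain ⟨g, hg⟩ := mdt_ex D hω h hB
  rw [T_of_stp D.P.isOpen hg]
  refine ⟨stp_end D.P.isOpen hg, ?_⟩
  have h1 : ‖g.act (tgt ω ζ) - ω.2.1‖ ≤ ‖ζ‖ := by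
    have := stp_dist D.P.isOpen hg
    rwa [norm_tgt] at this
  have h2 := infDist_le_infDist_add_dist (s := (D.V : Set ℂ)) (x := g.act (tgt ω ζ)) (y := ω.2.1)
  have h3 := infDist_le_infDist_add_dist (s := (D.V : Set ℂ)) (x := ω.2.1) (y := g.act (tgt ω ζ))
  rw [dist_comm, dist_eq_norm] at h3
  rw [dist_eq_norm] at h2
  change |infDist (g.act (tgt ω ζ)) (D.V : Set ℂ) - infDist ω.2.1 (D.V : Set ℂ)| ≤ ‖ζ‖
  rw [abs_le]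
  constructor <;> linarith

theorem ts_zero {U : Set ℂ} (hU : IsOpen U) {ω : St} (hω : ω.2.1 ∈ U) :
    Ts U 0 ω = ω ∧ tgt ω 0 ∉ frontier U := by
  constructor
  · have h : Stp U Mo.one ω.2.1 (tgt ω 0) := by
      rw [tgt_zero]
      exact stp_self hω
    rw [T_of_stp hU h, tgt_zero, ap_one]
  · rw [tgt_zero, hU.frontier_eq]
    exact fun h => h.2 hω

theorem mdt_le {U : Set ℂ} (D : Dat U) {ω : St} {ζ ξ : ℂ}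
    (h : D.K * (‖ζ‖ + ‖ξ‖) < infDist ω.2.1 (D.V : Set ℂ)) :
    D.K * ‖ζ‖ < infDist ω.2.1 (D.V : Set ℂ) ∧ D.K * ‖ζ + ξ‖ < infDist ω.2.1 (D.V : Set ℂ) := by
  have hK : 0 ≤ D.K := le_trans zero_le_one D.hK
  constructor
  · refine lt_of_le_of_lt (mul_le_mul_of_nonneg_left ?_ hK) h
    have := norm_nonneg ξ
    linarith
  · exact lt_of_le_of_lt (mul_le_mul_of_nonneg_left (norm_add_le ζ ξ) hK) h

theorem ts_add {U : Set ℂ} (D : Dat U) {ω : St} (hω : ω.2.1 ∈ U) {ζ ξ : ℂ}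
    (h : D.K * (‖ζ‖ + ‖ξ‖) < infDist ω.2.1 (D.V : Set ℂ)) (hB : tgt ω ζ ∉ frontier U)
    (hB' : tgt ω (ζ + ξ) ∉ frontier U) :
    tgt (Ts U ζ ω) ξ ∉ frontier U ∧ Ts U ξ (Ts U ζ ω) = Ts U (ζ + ξ) ω := by
  obtain ⟨h1, h2⟩ := mdt_le D h
  obtain ⟨g, hg⟩ := mdt_ex D hω h1 hB
  obtain ⟨h3, g', h4, h5⟩ := flat D hω (y := tgt ω ζ) (y' := tgt ω (ζ + ξ))
    (by rw [norm_tgt]; exact h1) (by rw [norm_tgt]; exact h2) hB hB' hg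
  rw [T_of_stp D.P.isOpen hg, tgt_ap]
  refine ⟨h3, ?_⟩
  have h6 : Stp U g' (ap g (tgt ω ζ) ω).2.1 (tgt (ap g (tgt ω ζ) ω) ξ) := by
    rw [tgt_ap]
    exact h4
  rw [T_of_stp D.P.isOpen h6, tgt_ap, ap_ap, T_of_stp D.P.isOpen h5]

theorem ts_R {U : Set ℂ} (D : Dat U) (φ : Tor) {ω : St} (hω : ω.2.1 ∈ U) {ζ : ℂ}
    (h : D.K * ‖ζ‖ < infDist ω.2.1 (D.V : Set ℂ)) (hB : tgt ω (e φ * ζ) ∉ frontier U) :
    Ts U ζ (Rs φ ω) = Rs φ (Ts U (e φ * ζ) ω) := by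
  have h1 : D.K * ‖e φ * ζ‖ < infDist ω.2.1 (D.V : Set ℂ) := by
    rw [norm_mul, norm_e, one_mul]
    exact h
  obtain ⟨g, hg⟩ := mdt_ex D hω h1 hB
  have h2 : Stp U g (Rs φ ω).2.1 (tgt (Rs φ ω) ζ) := by
    rw [tgt_R]
    exact hg
  rw [T_of_stp D.P.isOpen h2, T_of_stp D.P.isOpen hg, R_ap, tgt_R]

theorem mdt_flow {U : Set ℂ} (D : Dat U) {ω : St} (hω : ω.2.1 ∈ U) {ζ : ℂ} {t : ℝ} (ht : 0 ≤ t)
    (h1 : D.K * ‖ζ‖ < infDist ω.2.1 (D.V : Set ℂ))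
    (h2 : D.K * ‖ζ + (t : ℂ)‖ < infDist ω.2.1 (D.V : Set ℂ))
    (hB : tgt ω ζ ∉ frontier U) (hB' : tgt ω (ζ + (t : ℂ)) ∉ frontier U) :
    ∃ (g : Mo) (q : ℂ × Tor), Reach U t g q.1 q.2 ∧
      (Ts U ζ ω).2 = q ∧ (Ts U (ζ + (t : ℂ)) ω).2 = Phi g t q := by
  obtain ⟨g, hg⟩ := mdt_ex D hω h1 hB
  obtain ⟨-, g', h4, h5⟩ := flat D hω (y := tgt ω ζ) (y' := tgt ω (ζ + (t : ℂ)))
    (by rw [norm_tgt]; exact h1) (by rw [norm_tgt]; exact h2) hB hB' hg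
  have h6 : g.act (tgt ω (ζ + (t : ℂ))) = g.act (tgt ω ζ) + t * e (g.dir ω.2.2) := by
    rw [tgt_add_real, Mo.act_line]
  refine ⟨g', (g.act (tgt ω ζ), g.dir ω.2.2), ?_, ?_, ?_⟩
  · rw [h6] at h4
    exact stp_reach ht h4
  · rw [T_of_stp D.P.isOpen hg]
    rfl
  · rw [T_of_stp D.P.isOpen h5]
    change ((Mo.mul g' g).act (tgt ω (ζ + (t : ℂ))), (Mo.mul g' g).dir ω.2.2) = _
    unfold Phi
    rw [Mo.mul_act, Mo.mul_dir, h6]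

/-- two displacements with the same imaginary part lead to states on one trajectory -/
theorem flow_rel {U : Set ℂ} (D : Dat U) {ω : St} (hω : ω.2.1 ∈ U) {ζ ζ' : ℂ}
    (him : ζ.im = ζ'.im) (h : D.K * (‖ζ‖ + ‖ζ' - ζ‖) < infDist ω.2.1 (D.V : Set ℂ))
    (hB : tgt ω ζ ∉ frontier U) (hB' : tgt ω ζ' ∉ frontier U) :
    ∃ (g : Mo) (q : ℂ × Tor), Reach U ‖ζ' - ζ‖ g q.1 q.2 ∧
      (((Ts U ζ ω).2 = q ∧ (Ts U ζ' ω).2 = Phi g ‖ζ' - ζ‖ q) ∨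
        ((Ts U ζ' ω).2 = q ∧ (Ts U ζ ω).2 = Phi g ‖ζ' - ζ‖ q)) := by
  obtain ⟨h1, h2⟩ := mdt_le D h
  rw [add_sub_cancel] at h2
  have ht : ζ' - ζ = (((ζ' - ζ).re : ℝ) : ℂ) := by
    apply Complex.ext
    · simp
    · simp [him]
  generalize (ζ' - ζ).re = t at ht
  have hn : ‖ζ' - ζ‖ = |t| := by
    rw [ht, Complex.norm_real, Real.norm_eq_abs]
  rcases le_total 0 t with h0 | h0
  · have h3 : ζ' = ζ + (t : ℂ) := by rw [← ht]; ring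
    rw [hn, abs_of_nonneg h0]
    rw [h3] at h2 hB' ⊢
    obtain ⟨g, q, hr, ha, hb⟩ := mdt_flow D hω h0 h1 h2 hB hB'
    exact ⟨g, q, hr, Or.inl ⟨ha, hb⟩⟩
  · have h3 : ζ = ζ' + ((-t : ℝ) : ℂ) := by
      rw [Complex.ofReal_neg, ← ht]
      ring
    rw [hn, abs_of_nonpos h0]
    rw [h3] at h1 hB
    obtain ⟨g, q, hr, ha, hb⟩ := mdt_flow D hω (neg_nonneg.mpr h0) h2 h1 hB' hB
    rw [← h3] at hb
    exact ⟨g, q, hr, Or.inr ⟨ha, hb⟩⟩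

end Pool.H46.Eg
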