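import Pool.Agent.H46.Eg.Mdu
import Pool.Agent.H46.Eg.Mds
import Pool.Agent.H46.Eg.Mdt

/-!
# [H46 EG INS] the phase space of a polygon is a flat space (assembly, proved)
-/

set_option autoImplicit false

open MeasureTheory Metric Set Pool.H46.Bi

namespace Pool.H46.Eg

/-- the flat space of a polygon -/
noncomputable def ins {U : Set ℂ} (D : Dat U) : Fl St where
  μ := mus U
  X := {ω | ω.2.1 ∈ U}
  B := {p | tgt p.2 p.1 ∈ frontier U}
  T := Ts U
  R := Rs
  d := fun ω => infDist ω.2.1 (D.V : Set ℂ)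
  K := D.K
  fin := mus_fin D.P
  hK := D.hK
  mX := (D.P.isOpen.preimage (continuous_fst.comp continuous_snd)).measurableSet
  nX := mus_compl D.P.isOpen
  mB := tgt_meas isClosed_frontier.measurableSet
  mT := ts_meas D.P
  mR := rs_meas
  md := (continuous_infDist_pt _).measurable.comp (measurable_fst.comp measurable_snd)
  R0 := R_zero
  Radd := R_add
  Rmp := rs_mp U D.P.isOpen
  RX := fun _ _ h => h
  Rd := fun _ _ => rfl
  Bnull := fun ω _ => b_null D.P ω
  Bnull' := b_null' D.P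
  TX := fun _ hω _ h hB => ts_mem D hω h hB
  T0 := fun _ hω => ts_zero D.P.isOpen hω
  Tadd := fun _ hω _ _ h hB hB' => ts_add D hω h hB hB'
  TR := fun φ _ hω _ h hB => ts_R D φ hω h hB
  Tmu := fun ζ S hS => by
    refine (measure_mono ?_).trans (ts_mu D ζ hS)
    rintro ω ⟨h1, h2, h3, h4⟩
    refine ⟨h1, ?_, h3, h4⟩
    have h5 : 0 ≤ D.K * ‖ζ‖ := mul_nonneg (by linarith [D.hK]) (norm_nonneg ζ)
    linarith

end Pool.H46.Eg
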