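import Pool.Agent.H46.Eg.Hmu
import Pool.Agent.H46.Eg.Ins

/-!
# [H46 EG CTS] the cutoffs of a polygon (proved)
-/

set_option autoImplicit false

open MeasureTheory Metric Set Pool.H46.Bi

namespace Pool.H46.Eg

theorem cts_mus_le (U : Set ℂ) {E : Set (ℂ × Tor)} (hE : MeasurableSet E) :
    mus U {ω : St | ω.2 ∈ E} ≤ 2 * (volume : Measure (ℂ × Tor)) E := by
  have hm : MeasurableSet {ω : St | ω.2 ∈ E} := measurable_snd hE
  rw [← lintegral_indicator_one hm, mus_lint U (measurable_one.indicator hm)]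
  have h1 : ∀ s : Bool, ∫⁻ q in U ×ˢ (univ : Set Tor),
      ({ω : St | ω.2 ∈ E}).indicator (1 : St → ENNReal) (s, q) ≤ (volume : Measure (ℂ × Tor)) E := by
    intro s
    calc ∫⁻ q in U ×ˢ (univ : Set Tor), ({ω : St | ω.2 ∈ E}).indicator (1 : St → ENNReal) (s, q)
        ≤ ∫⁻ q, ({ω : St | ω.2 ∈ E}).indicator (1 : St → ENNReal) (s, q) :=
          lintegral_mono' Measure.restrict_le_self le_rfl
      _ = ∫⁻ q, E.indicator (1 : ℂ × Tor → ENNReal) q := by
          apply lintegral_congr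
          intro q
          by_cases hq : q ∈ E
          · rw [indicator_of_mem hq, indicator_of_mem (by exact hq)]
            rfl
          · rw [indicator_of_notMem hq, indicator_of_notMem (by exact hq)]
      _ = volume E := lintegral_indicator_one hE
  rw [two_mul (volume E)]
  exact add_le_add (h1 false) (h1 true)

theorem ins_cuts {U : Set ℂ} (D : Dat U) : (ins D).Cuts := by
  classical
  have hU := D.P.isOpen
  have hK := D.hK
  obtain ⟨C, hC0, hC⟩ := wr_meas D.P D.V D.ne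
  refine ⟨2 * C * (8 * D.K + 64 * D.K ^ 2), 1, one_pos, ?_⟩
  intro δ t hδ _ hδt
  have ht : 0 < t := lt_of_lt_of_le hδ hδt
  set ρ := 8 * D.K * δ with hρ
  have hρ0 : 0 < ρ := by positivity
  have hUm : MeasurableSet {ω : St | ω.2.1 ∈ U} :=
    (hU.preimage (continuous_fst.comp continuous_snd)).measurableSet
  refine ⟨fun ω => if ω.2.1 ∈ U then tau U D.V ρ t ω.2 / t else 0, {ω | ω.2 ∈ Wr U D.V ρ t}, ?_⟩
  have hWm : MeasurableSet (Wr U D.V ρ t) := (wr_open hU D.V ρ t).measurableSet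
  refine ⟨?_, ?_, ?_, ?_, ?_, ?_, ?_, ?_⟩
  · exact Measurable.ite hUm (((tau_meas hU D.V ρ t).comp measurable_snd).div_const t)
      measurable_const
  · exact measurable_snd hWm
  · intro ω
    by_cases h : ω.2.1 ∈ U
    · simp only [h, if_true]
      exact div_nonneg (tau_nonneg D.V ρ ht.le ω.2) ht.le
    · simp only [h, if_false]; exact le_rfl
  · intro ω
    by_cases h : ω.2.1 ∈ U
    · simp only [h, if_true]
      rw [div_le_one ht]
      exact tau_le D.V ρ ω.2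
    · simp only [h, if_false]; exact zero_le_one
  · intro ω hω
    by_cases h : ω.2.1 ∈ U
    · simp only [h, if_true]
      have h1 : infDist ω.2.1 (D.V : Set ℂ) < ρ := hω
      rw [tau_zero D.V ht.le h h1, zero_div]
    · simp only [h, if_false]
  · intro ω hω hW
    have h : ω.2.1 ∈ U := hω
    simp only [h, if_true]
    have h1 : ¬ tau U D.V ρ t ω.2 < t := by
      intro h2
      exact hW ((tau_lt_iff D.V ρ t le_rfl ω.2).mp h2)
    have h2 : tau U D.V ρ t ω.2 = t := le_antisymm (tau_le D.V ρ ω.2) (not_lt.mp h1)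
    rw [h2, div_self ht.ne']
  · intro ω hω ζ ζ' him hlt hB hB'
    have hω' : ω.2.1 ∈ U := hω
    have hlt' : D.K * (‖ζ‖ + ‖ζ' - ζ‖) < infDist ω.2.1 (D.V : Set ℂ) := hlt
    have hK0 : 0 ≤ D.K := by linarith
    have h1 : D.K * ‖ζ‖ < infDist ω.2.1 (D.V : Set ℂ) := by
      have := mul_nonneg hK0 (norm_nonneg (ζ' - ζ))
      linarith [mul_add D.K ‖ζ‖ ‖ζ' - ζ‖]
    have h2 : D.K * ‖ζ'‖ < infDist ω.2.1 (D.V : Set ℂ) := by
      have h3 : ‖ζ'‖ ≤ ‖ζ‖ + ‖ζ' - ζ‖ := by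
        have : ζ' = ζ + (ζ' - ζ) := by ring
        calc ‖ζ'‖ = ‖ζ + (ζ' - ζ)‖ := by rw [← this]
          _ ≤ ‖ζ‖ + ‖ζ' - ζ‖ := norm_add_le _ _
      have := mul_le_mul_of_nonneg_left h3 hK0
      linarith
    have hm1 := (ts_mem D hω' h1 hB).1
    have hm2 := (ts_mem D hω' h2 hB').1
    obtain ⟨g, q, hr, hq⟩ := flow_rel D hω' him hlt' hB hB'
    have hlip := tau_lip hU D.V (ρ := ρ) (T := t) hr
    have key : |tau U D.V ρ t (Ts U ζ' ω).2 - tau U D.V ρ t (Ts U ζ ω).2| ≤ ‖ζ' - ζ‖ := by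
      rcases hq with ⟨e1, e2⟩ | ⟨e1, e2⟩
      · rw [e1, e2]; exact hlip
      · rw [e1, e2, abs_sub_comm]; exact hlip
    show |(if (Ts U ζ' ω).2.1 ∈ U then tau U D.V ρ t (Ts U ζ' ω).2 / t else 0) -
      (if (Ts U ζ ω).2.1 ∈ U then tau U D.V ρ t (Ts U ζ ω).2 / t else 0)| ≤ 1 / t * ‖ζ' - ζ‖
    rw [if_pos hm1, if_pos hm2, ← sub_div, abs_div, abs_of_pos ht, div_eq_inv_mul, one_div]
    exact mul_le_mul_of_nonneg_left key (inv_nonneg.mpr ht.le)
  · have h1 := cts_mus_le U hWm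
    have h2 := hC ρ t hρ0 ht.le
    have h3 : 0 ≤ C * (t * ρ + ρ ^ 2) := by positivity
    have h4 : mus U {ω : St | ω.2 ∈ Wr U D.V ρ t} ≤ ENNReal.ofReal (2 * (C * (t * ρ + ρ ^ 2))) := by
      rw [ENNReal.ofReal_mul (by norm_num)]
      refine h1.trans ?_
      have : ENNReal.ofReal 2 = 2 := by norm_num
      rw [this]
      gcongr
    have h5 := ENNReal.toReal_le_of_le_ofReal (by positivity) h4
    refine h5.trans ?_
    rw [hρ]
    have h6 : δ ^ 2 ≤ δ * t := by nlinarith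
    have h7 : 0 ≤ C * D.K ^ 2 := by positivity
    have h8 := mul_le_mul_of_nonneg_left h6 h7
    nlinarith

theorem ins_inva {U : Set ℂ} (D : Dat U) {f : ℂ × Tor → ℝ} (hf : Inv U f) :
    (ins D).Inva fun ω => ((f ω.2 : ℝ) : ℂ) := by
  intro ω hω ζ ζ' him hlt hB hB'
  have hω' : ω.2.1 ∈ U := hω
  have hlt' : D.K * (‖ζ‖ + ‖ζ' - ζ‖) < infDist ω.2.1 (D.V : Set ℂ) := hlt
  obtain ⟨g, q, hr, hq⟩ := flow_rel D hω' him hlt' hB hB'
  have h1 := hf _ _ _ _ hr
  show ((f (Ts U ζ' ω).2 : ℝ) : ℂ) = ((f (Ts U ζ ω).2 : ℝ) : ℂ)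
  rcases hq with ⟨e1, e2⟩ | ⟨e1, e2⟩
  · rw [e1, e2]; exact congrArg _ h1
  · rw [e1, e2]; exact congrArg _ h1.symm

end Pool.H46.Eg
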