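import Pool.Agent.H46.Eg.Mes

/-!
# [H46 EG PSH] small translations do not increase integrals (60-90 lines)
`push`: for a.e. ω ∈ Om δ' the point T ζ ω is in Om δ (`S.TX`, `4 K δ + δ' ≤ 4 K δ'`, `S.Bnull' ζ`), so the left side is at most
`∫⁻ (indicator of Om δ * h) (T ζ ω)`; approximate by simple functions or use: the measure
`(μ.restrict {ω | ω ∈ X ∧ 2 K ‖ζ‖ < d ω ∧ (ζ, ω) ∉ B}).map (T ζ) ≤ μ` by `S.Tmu` (`Measure.le_iff`), and `lintegral_map`,
`lintegral_mono'`.  Then convert to Bochner integrals of a bounded nonnegative function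
(`integral_eq_lintegral_of_nonneg_ae`, `ENNReal.toReal_mono`, finite measure `S.fin`).
-/

set_option autoImplicit false

open MeasureTheory Set Pool.H46.Bi

namespace Pool.H46.Eg

variable {Ω : Type} [MeasurableSpace Ω] (S : Fl Ω)

/-- the domain of the translation by `ζ` -/
def psD (ζ : ℂ) : Set Ω := {ω | ω ∈ S.X ∧ 2 * S.K * ‖ζ‖ < S.d ω ∧ (ζ, ω) ∉ S.B}

theorem psT_meas (ζ : ℂ) : Measurable (S.T ζ) :=
  S.mT.comp (measurable_const.prodMk measurable_id)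

theorem psD_meas (ζ : ℂ) : MeasurableSet (psD S ζ) := by
  have h : Measurable fun ω : Ω => (ζ, ω) := measurable_const.prodMk measurable_id
  exact S.mX.inter ((measurableSet_lt measurable_const S.md).inter (h S.mB).compl)

theorem ps_map (ζ : ℂ) : Measure.map (S.T ζ) (S.μ.restrict (psD S ζ)) ≤ S.μ := by
  refine Measure.le_iff.2 fun A hA => ?_
  rw [Measure.map_apply (psT_meas S ζ) hA, Measure.restrict_apply (psT_meas S ζ hA)]
  refine le_trans (measure_mono ?_) (S.Tmu ζ A hA)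
  rintro ω ⟨hωA, hωD⟩
  exact ⟨hωD.1, hωD.2.1, hωD.2.2, hωA⟩

/-- the general form: the translation of a part of `psD` into `E'` -/
theorem ps_gen {ζ : ℂ} {E E' : Set Ω} (hE : MeasurableSet E) (hE' : MeasurableSet E')
    (hsub : ∀ ω ∈ E, (ζ, ω) ∉ S.B → ω ∈ psD S ζ ∧ S.T ζ ω ∈ E')
    {h : Ω → ℝ} (hm : Measurable h) (h0 : ∀ ω, 0 ≤ h ω) {C : ℝ} (hC : ∀ ω, h ω ≤ C) :
    ∫ ω in E, h (S.T ζ ω) ∂S.μ ≤ ∫ ω in E', h ω ∂S.μ := by
  have := S.fin
  have hT := psT_meas S ζ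
  have hn : ∀ᵐ ω ∂S.μ, (ζ, ω) ∉ S.B := by
    rw [ae_iff]
    simpa using S.Bnull' ζ
  have hint : IntegrableOn h E' S.μ := by
    refine Measure.integrableOn_of_bounded (measure_ne_top _ _) hm.aestronglyMeasurable
      (M := C) ?_
    filter_upwards with ω
    rw [Real.norm_of_nonneg (h0 ω)]
    exact hC ω
  rw [integral_eq_lintegral_of_nonneg_ae (Filter.Eventually.of_forall fun ω => h0 _)
      (hm.comp hT).aestronglyMeasurable,
    integral_eq_lintegral_of_nonneg_ae (Filter.Eventually.of_forall fun ω => h0 _)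
      hm.aestronglyMeasurable]
  refine ENNReal.toReal_mono ?_ ?_
  · have := hint.lintegral_lt_top
    exact this.ne
  · have hmE : Measurable fun ω => E'.indicator (fun ω => ENNReal.ofReal (h ω)) ω :=
      (hm.ennreal_ofReal).indicator hE'
    calc ∫⁻ ω in E, ENNReal.ofReal (h (S.T ζ ω)) ∂S.μ
        ≤ ∫⁻ ω in psD S ζ, E'.indicator (fun ω => ENNReal.ofReal (h ω)) (S.T ζ ω) ∂S.μ := by
          rw [← lintegral_indicator hE, ← lintegral_indicator (psD_meas S ζ)]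
          refine lintegral_mono_ae ?_
          filter_upwards [hn] with ω hω
          by_cases hωE : ω ∈ E
          · have h1 := hsub ω hωE hω
            rw [indicator_of_mem hωE, indicator_of_mem h1.1, indicator_of_mem h1.2]
          · rw [indicator_of_notMem hωE]
            exact bot_le
      _ = ∫⁻ ω, E'.indicator (fun ω => ENNReal.ofReal (h ω)) ω
            ∂(Measure.map (S.T ζ) (S.μ.restrict (psD S ζ))) := (lintegral_map hmE hT).symm
      _ ≤ ∫⁻ ω, E'.indicator (fun ω => ENNReal.ofReal (h ω)) ω ∂S.μ :=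
          lintegral_mono' (ps_map S ζ) le_rfl
      _ = ∫⁻ ω in E', ENNReal.ofReal (h ω) ∂S.μ := lintegral_indicator hE' _

theorem push {δ' δ : ℝ} (hδ' : 0 < δ') (hle : 2 * δ ≤ δ') {ζ : ℂ} (hζ : ‖ζ‖ < δ')
    {h : Ω → ℝ} (hm : Measurable h) (h0 : ∀ ω, 0 ≤ h ω) {C : ℝ} (hC : ∀ ω, h ω ≤ C) :
    ∫ ω in S.Om δ', h (S.T ζ ω) ∂S.μ ≤ ∫ ω in S.Om δ, h ω ∂S.μ := by
  have hK := S.hK
  have hKζ : S.K * ‖ζ‖ < S.K * δ' := mul_lt_mul_of_pos_left hζ (by linarith)
  have hKδ' : 0 < S.K * δ' := mul_pos (by linarith) hδ'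
  have hδK : δ' ≤ S.K * δ' := by nlinarith
  have hKδ : S.K * (2 * δ) ≤ S.K * δ' := mul_le_mul_of_nonneg_left hle (by linarith)
  refine ps_gen S (Om_meas S δ') (Om_meas S δ) ?_ hm h0 hC
  rintro ω ⟨hX, hd⟩ hB
  have h4 := S.TX ω hX ζ (by nlinarith) hB
  have h6 := abs_le.1 h4.2
  refine ⟨⟨hX, by nlinarith, hB⟩, h4.1, ?_⟩
  nlinarith

/-- the case of the whole space -/
theorem push_all {δ : ℝ} (hδ : 0 < δ) {ζ : ℂ} (hζ : ‖ζ‖ < δ)
    {h : Ω → ℝ} (hm : Measurable h) (h0 : ∀ ω, 0 ≤ h ω) {C : ℝ} (hC : ∀ ω, h ω ≤ C) :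
    ∫ ω in S.Om δ, h (S.T ζ ω) ∂S.μ ≤ ∫ ω, h ω ∂S.μ := by
  have hK := S.hK
  have hKζ : S.K * ‖ζ‖ < S.K * δ := mul_lt_mul_of_pos_left hζ (by linarith)
  have hKδ : 0 < S.K * δ := mul_pos (by linarith) hδ
  have h1 := ps_gen S (ζ := ζ) (Om_meas S δ) MeasurableSet.univ (fun ω hω hB => by
    refine ⟨⟨hω.1, ?_, hB⟩, mem_univ _⟩
    have := hω.2
    nlinarith) hm h0 hC
  rwa [setIntegral_univ] at h1

end Pool.H46.Eg
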