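import Pool.Agent.H46.Eg.Lyr
import Pool.Agent.H46.Eg.Psh

/-!
# [H46 EG TCL] continuity of translations (proved)
`ins_tc`: F = f 1_U as a function of (x, θ); g continuous with compact support and `∫ ‖F - g‖² ≤ ε'` (`MemLp.exists_hasCompactSupport_integral_rpow_sub_le`
or `MemLp.exists_boundedContinuous_eLpNorm_sub_le` for p = 2; F is bounded and vanishes outside of U ×ˢ univ, a set of finite measure).
g̃ ω = g ω.2.  For ω ∈ Om δ, ‖ζ‖ < δ:
`‖f (T ω) - f ω‖² ≤ 3 (‖f - g̃‖² (T ω) + ‖g̃ (T ω) - g̃ ω‖² + ‖g̃ - f‖² ω)`; the first term: `push_all` with h = ‖f̃ - g̃‖² (bounded), ≤ `∫ h ∂mus ≤ 2 ε'`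
(`mus_lint` or its Bochner form), the last one too.  The middle one: if `infDist x Uᶜ > δ` then T ζ ω = (s, (tgt ω ζ, θ)) (`ts_inner`) and the
term is at most `w(δ)²` (uniform continuity of g: `Continuous.uniformContinuous_of_hasCompactSupport`-like; `norm_tgt`); otherwise `infDist x Uᶜ ≤ δ` and it is at most
`4 sup‖g‖²`, on a set of small measure (`layer`).  Choose ε', then δ0.
-/

set_option autoImplicit false

open MeasureTheory Metric Set Pool.H46.Bi

namespace Pool.H46.Eg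

private theorem tcl_snd (U : Set ℂ) {H : ℂ × Tor → ℝ} (hH : Measurable H) :
    ∫ ω : St, H ω.2 ∂(mus U) =
      2 * ∫ q, H q ∂((volume : Measure (ℂ × Tor)).restrict (U ×ˢ univ)) := by
  unfold mus
  have h1 := integral_map (μ := (Measure.count : Measure Bool).prod
    ((volume : Measure (ℂ × Tor)).restrict (U ×ˢ univ))) (φ := Prod.snd)
    measurable_snd.aemeasurable (f := H) hH.aestronglyMeasurable
  rw [Measure.map_snd_prod, integral_smul_measure] at h1
  rw [← h1]
  have h2 : (Measure.count (univ : Set Bool)).toReal = 2 := by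
    rw [Measure.count_univ]
    simp
  rw [h2, smul_eq_mul]

theorem ins_tc {U : Set ℂ} (D : Dat U) {f : ℂ × Tor → ℝ} (hf : Measurable f) {M : ℝ}
    (hM : ∀ q, |f q| ≤ M) : (ins D).Tc fun ω => ((f ω.2 : ℝ) : ℂ) := by
  intro ε hε
  have hfin : IsFiniteMeasure (mus U) := mus_fin D.P
  set ν : Measure (ℂ × Tor) := (volume : Measure (ℂ × Tor)).restrict (U ×ˢ univ) with hν
  have hνfin : IsFiniteMeasure ν := by
    refine ⟨?_⟩
    have h1 := mus_lint U (F := fun _ => 1) measurable_const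
    simp only [lintegral_const, one_mul] at h1
    have h2 : mus U univ < ⊤ := measure_lt_top _ _
    rw [h1] at h2
    have h3 : ν univ ≤ ((volume : Measure (ℂ × Tor)).restrict (U ×ˢ univ)) univ +
      ((volume : Measure (ℂ × Tor)).restrict (U ×ˢ univ)) univ := le_self_add
    exact lt_of_le_of_lt h3 h2
  -- approximation
  have hmem : MemLp f (ENNReal.ofReal 2) ν := by
    refine MemLp.of_bound hf.aestronglyMeasurable M (Filter.Eventually.of_forall fun q => ?_)
    rw [Real.norm_eq_abs]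
    exact hM q
  obtain ⟨g, hgs, hgi, hgc, -⟩ := hmem.exists_hasCompactSupport_integral_rpow_sub_le
    (by norm_num : (0 : ℝ) < 2) (show (0 : ℝ) < ε / 24 by positivity)
  obtain ⟨G, hG⟩ : ∃ G : ℝ, ∀ q, ‖g q‖ ≤ G := hgs.exists_bound_of_continuous hgc
  have hG0 : 0 ≤ G := (norm_nonneg _).trans (hG (0, 0))
  have hM0 : 0 ≤ M := (abs_nonneg _).trans (hM (0, 0))
  have huc : UniformContinuous g := hgs.uniformContinuous_of_continuous hgc
  set m : ℝ := (mus U univ).toReal with hm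
  have hm0 : 0 ≤ m := ENNReal.toReal_nonneg
  obtain ⟨ε2, hε2, hε2'⟩ : ∃ ε2 : ℝ, 0 < ε2 ∧ 3 * (ε2 ^ 2 * m) ≤ ε / 4 := by
    refine ⟨Real.sqrt (ε / (12 * (m + 1))), Real.sqrt_pos.2 (by positivity), ?_⟩
    rw [Real.sq_sqrt (by positivity)]
    have h1 : ε / (12 * (m + 1)) * m ≤ ε / 12 := by
      rw [div_mul_eq_mul_div, div_le_div_iff₀ (by positivity) (by norm_num)]
      nlinarith
    linarith
  obtain ⟨ε3, hε3, hε3'⟩ : ∃ ε3 : ℝ, 0 < ε3 ∧ 3 * ((2 * G) ^ 2 * ε3) ≤ ε / 4 := by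
    refine ⟨ε / (12 * ((2 * G) ^ 2 + 1)), by positivity, ?_⟩
    have h1 : (2 * G) ^ 2 * (ε / (12 * ((2 * G) ^ 2 + 1))) ≤ ε / 12 := by
      rw [mul_div_assoc', div_le_div_iff₀ (by positivity) (by norm_num)]
      nlinarith [sq_nonneg (2 * G)]
    linarith
  obtain ⟨δ1, hδ1, hδ1'⟩ := Metric.uniformContinuous_iff.1 huc ε2 hε2
  obtain ⟨δ2, hδ2, hδ2'⟩ := layer D.P hε3
  refine ⟨min δ1 δ2, lt_min hδ1 hδ2, ?_⟩
  intro δ hδ hδ0 ζ hζ
  set h : St → ℝ := fun ω => (f ω.2 - g ω.2) ^ 2 with hh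
  have hgm : Measurable g := hgc.measurable
  have hhm : Measurable h :=
    ((hf.comp measurable_snd).sub (hgm.comp measurable_snd)).pow_const 2
  have hh0 : ∀ ω, 0 ≤ h ω := fun ω => sq_nonneg _
  have hhC : ∀ ω, h ω ≤ (M + G) ^ 2 := by
    intro ω
    rw [hh]
    simp only
    rw [← sq_abs]
    refine pow_le_pow_left₀ (abs_nonneg _) ?_ 2
    refine (abs_sub _ _).trans ?_
    exact add_le_add (hM _) (hG _)
  have hhI : ∫ ω, h ω ∂(mus U) ≤ ε / 12 := by
    have h1 := tcl_snd U (H := fun q => (f q - g q) ^ 2) ((hf.sub hgm).pow_const 2)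
    have h2 : ∫ q, (f q - g q) ^ 2 ∂ν ≤ ε / 24 := by
      refine le_trans (le_of_eq ?_) hgi
      refine integral_congr_ae (Filter.Eventually.of_forall fun q => ?_)
      show (f q - g q) ^ 2 = ‖f q - g q‖ ^ (2 : ℝ)
      rw [Real.rpow_two, Real.norm_eq_abs, sq_abs]
    rw [hh, h1]
    linarith
  set Lr : Set St := {ω : St | ω.2.1 ∈ U ∧ infDist ω.2.1 Uᶜ ≤ δ} with hLr
  have hLm : MeasurableSet Lr := by
    have h1 : MeasurableSet {ω : St | ω.2.1 ∈ U} :=
      (D.P.isOpen.preimage (continuous_fst.comp continuous_snd)).measurableSet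
    have h2 : MeasurableSet {ω : St | infDist ω.2.1 Uᶜ ≤ δ} :=
      measurableSet_le ((continuous_infDist_pt _).measurable.comp
        (measurable_fst.comp measurable_snd)) measurable_const
    exact h1.inter h2
  have hLμ : (mus U Lr).toReal ≤ ε3 := by
    refine le_trans ?_ hδ2'
    refine ENNReal.toReal_mono (measure_ne_top _ _) (measure_mono ?_)
    rintro ω ⟨h1, h2⟩
    exact ⟨h1, h2.trans (hδ0.le.trans (min_le_right _ _))⟩
  set c : St → ℝ := fun ω => ε2 ^ 2 + Lr.indicator (fun _ => (2 * G) ^ 2) ω with hc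
  have hcm : Measurable c := measurable_const.add (measurable_const.indicator hLm)
  have hc0 : ∀ ω, 0 ≤ c ω := by
    intro ω
    have : 0 ≤ Lr.indicator (fun _ => (2 * G) ^ 2) ω := indicator_nonneg (fun _ _ => sq_nonneg _) ω
    rw [hc]
    simp only
    positivity
  have hcC : ∀ ω, c ω ≤ ε2 ^ 2 + (2 * G) ^ 2 := by
    intro ω
    have : Lr.indicator (fun _ => (2 * G) ^ 2) ω ≤ (2 * G) ^ 2 :=
      indicator_le_self' (fun _ _ => sq_nonneg _) ω
    rw [hc]
    simp only
    linarith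
  have hcint : Integrable c (mus U) := by
    refine Integrable.of_bound hcm.aestronglyMeasurable (ε2 ^ 2 + (2 * G) ^ 2)
      (Filter.Eventually.of_forall fun ω => ?_)
    rw [Real.norm_of_nonneg (hc0 ω)]
    exact hcC ω
  have hcI : ∫ ω, c ω ∂(mus U) ≤ ε2 ^ 2 * m + (2 * G) ^ 2 * ε3 := by
    have h1 : ∫ ω, c ω ∂(mus U) = ε2 ^ 2 * m + (2 * G) ^ 2 * (mus U Lr).toReal := by
      rw [hc]
      simp only
      rw [integral_add (integrable_const _) ((integrable_const _).indicator hLm),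
        integral_const, integral_indicator_const _ hLm, smul_eq_mul, smul_eq_mul]
      simp only [Measure.real]
      ring
    rw [h1]
    have h2 := mul_le_mul_of_nonneg_left hLμ (sq_nonneg (2 * G))
    linarith
  have hhint : Integrable h (mus U) := by
    refine Integrable.of_bound hhm.aestronglyMeasurable ((M + G) ^ 2)
      (Filter.Eventually.of_forall fun ω => ?_)
    rw [Real.norm_of_nonneg (hh0 ω)]
    exact hhC ω
  have hTm : Measurable (Ts U ζ) := psT_meas (ins D) ζ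
  have hhTint : Integrable (fun ω => h (Ts U ζ ω)) (mus U) := by
    refine Integrable.of_bound (hhm.comp hTm).aestronglyMeasurable ((M + G) ^ 2)
      (Filter.Eventually.of_forall fun ω => ?_)
    rw [Real.norm_of_nonneg (hh0 _)]
    exact hhC _
  have hOm : MeasurableSet ((ins D).Om δ) := Om_meas (ins D) δ
  -- pointwise bound
  have hpt : ∀ ω ∈ (ins D).Om δ, ‖((f (Ts U ζ ω).2 : ℝ) : ℂ) - ((f ω.2 : ℝ) : ℂ)‖ ^ 2 ≤
      3 * (h (Ts U ζ ω) + c ω + h ω) := by
    intro ω hω
    have hωU : ω.2.1 ∈ U := hω.1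
    rw [← Complex.ofReal_sub, Complex.norm_real, Real.norm_eq_abs, sq_abs]
    have hmid : (g (Ts U ζ ω).2 - g ω.2) ^ 2 ≤ c ω := by
      by_cases hL : ω ∈ Lr
      · have h1 : |g (Ts U ζ ω).2 - g ω.2| ≤ 2 * G := by
          refine (abs_sub _ _).trans ?_
          have h2 := hG (Ts U ζ ω).2
          have h3 := hG ω.2
          rw [Real.norm_eq_abs] at h2 h3
          linarith
        have h2 : (g (Ts U ζ ω).2 - g ω.2) ^ 2 ≤ (2 * G) ^ 2 := by
          rw [← sq_abs]
          exact pow_le_pow_left₀ (abs_nonneg _) h1 2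
        rw [hc]
        simp only
        rw [indicator_of_mem hL]
        nlinarith [sq_nonneg ε2]
      · have h1 : δ < infDist ω.2.1 Uᶜ := by
          by_contra hcon
          exact hL ⟨hωU, not_lt.1 hcon⟩
        rw [ts_inner D.P.isOpen hωU (hζ.trans h1)]
        have h2 : dist (tgt ω ζ, ω.2.2) ω.2 < δ1 := by
          rw [Prod.dist_eq]
          simp only [dist_self]
          rw [dist_eq_norm, norm_tgt]
          refine max_lt ?_ hδ1
          exact hζ.trans (hδ0.trans_le (min_le_left _ _))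
        have h3 := hδ1' h2
        rw [Real.dist_eq] at h3
        have h4 : (g (tgt ω ζ, ω.2.2) - g ω.2) ^ 2 ≤ ε2 ^ 2 := by
          rw [← sq_abs]
          exact pow_le_pow_left₀ (abs_nonneg _) h3.le 2
        rw [hc]
        simp only
        rw [indicator_of_notMem hL]
        linarith
    set A := f (Ts U ζ ω).2 - g (Ts U ζ ω).2
    set B := g (Ts U ζ ω).2 - g ω.2
    set C := f ω.2 - g ω.2
    have e1 : f (Ts U ζ ω).2 - f ω.2 = A + B - C := by ring
    have e2 : h (Ts U ζ ω) = A ^ 2 := rfl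
    have e3 : h ω = C ^ 2 := rfl
    rw [e1, e2, e3]
    nlinarith [sq_nonneg (A - B), sq_nonneg (A + C), sq_nonneg (B + C)]
  have hfin2 : ∫ ω in (ins D).Om δ, ‖((f (Ts U ζ ω).2 : ℝ) : ℂ) - ((f ω.2 : ℝ) : ℂ)‖ ^ 2 ∂(mus U) ≤
      ∫ ω in (ins D).Om δ, 3 * (h (Ts U ζ ω) + c ω + h ω) ∂(mus U) := by
    refine setIntegral_mono_on ?_ ?_ hOm hpt
    · refine Integrable.integrableOn ?_
      refine Integrable.of_bound (C := (2 * M) ^ 2) ?_ (Filter.Eventually.of_forall fun ω => ?_)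
      · have h1 : Measurable fun ω => ((f (Ts U ζ ω).2 : ℝ) : ℂ) :=
          Complex.measurable_ofReal.comp (hf.comp (measurable_snd.comp hTm))
        have h2 : Measurable fun ω : St => ((f ω.2 : ℝ) : ℂ) :=
          Complex.measurable_ofReal.comp (hf.comp measurable_snd)
        exact ((h1.sub h2).norm.pow_const 2).aestronglyMeasurable
      · rw [Real.norm_of_nonneg (by positivity), ← Complex.ofReal_sub, Complex.norm_real,
          Real.norm_eq_abs]
        refine pow_le_pow_left₀ (abs_nonneg _) ?_ 2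
        refine (abs_sub _ _).trans ?_
        linarith [hM (Ts U ζ ω).2, hM ω.2]
    · exact (((hhTint.add hcint).add hhint).const_mul 3).integrableOn
  have hpush : ∫ ω in (ins D).Om δ, h (Ts U ζ ω) ∂(mus U) ≤ ∫ ω, h ω ∂(mus U) :=
    push_all (ins D) hδ hζ hhm hh0 hhC
  have hsum : ∫ ω in (ins D).Om δ, 3 * (h (Ts U ζ ω) + c ω + h ω) ∂(mus U) =
      3 * (∫ ω in (ins D).Om δ, h (Ts U ζ ω) ∂(mus U) + ∫ ω in (ins D).Om δ, c ω ∂(mus U) +
        ∫ ω in (ins D).Om δ, h ω ∂(mus U)) := by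
    have i1 : Integrable (fun ω => h (Ts U ζ ω) + c ω) (mus U) := hhTint.add hcint
    rw [integral_const_mul, integral_add i1.integrableOn hhint.integrableOn,
      integral_add hhTint.integrableOn hcint.integrableOn]
  have hc2 : ∫ ω in (ins D).Om δ, c ω ∂(mus U) ≤ ∫ ω, c ω ∂(mus U) :=
    setIntegral_le_integral hcint (Filter.Eventually.of_forall hc0)
  have hh2 : ∫ ω in (ins D).Om δ, h ω ∂(mus U) ≤ ∫ ω, h ω ∂(mus U) :=
    setIntegral_le_integral hhint (Filter.Eventually.of_forall hh0)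
  have hfinal : ∫ ω in (ins D).Om δ, ‖((f (Ts U ζ ω).2 : ℝ) : ℂ) - ((f ω.2 : ℝ) : ℂ)‖ ^ 2
      ∂(mus U) ≤ ε := by
    refine hfin2.trans ?_
    rw [hsum]
    linarith
  exact hfinal

end Pool.H46.Eg
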