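import Pool.Agent.H46.Eg.LocC
import Pool.Agent.H46.Eg.Ins
import Pool.Agent.H46.Eg.Tcl
import Pool.Agent.H46.Bi.Gl1

/-!
# [H46 EG LOCR] from the vanishing of L to local independence of the point (80-120 lines)
x0 ∈ U, x0 ∉ V: choose r > 0 with `ball x0 (2 r) ⊆ U`, and δ0 ≤ r with `4 K δ0 ≤ infDist x V` for x ∈ ball x0 r (`infDist x0 V > 0`: V finite, closed, nonempty; r small).
For 0 < δ < δ0 and a.e. (x, θ) with x ∈ ball x0 r: `L δ f̃ (false, (x, θ)) = 0` (`nn = 0`: the integral of a nonnegative function vanishes, so it is 0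
for a.e. ω ∈ Om δ (`setIntegral_eq_zero_iff_of_nonneg_ae`, bounded measurable: `L_bd`), restrict to the sheet false: `mus_lint` for the indicator of the
exceptional set, or `Measure.ae_prod..`).  For such x, ‖ζ‖ < δ: `Ts U ζ ω = (false, (x + e θ * ζ, θ))` (`ts_inner`: `infDist x Uᶜ ≥ r`),
so `L δ f̃ ω = ∫ c ζ conj ζ f (x + e θ ζ, θ) = ∫ c z (conj (conj (e θ) z)) f (x + z, θ) = e θ * ∫ c z conj z f (x + z, θ)` (`rot_int`,
the kernel is zero for ‖ζ‖ ≥ δ).  By Fubini (`Measure.ae_ae_of_ae_prod` after swapping) for a.e. θ the hypothesis of `loc_const` holds for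
all n ≥ N with δ = 1/(n+1) < δ0 (`ae_all_iff`).
So for a.e. θ, a.e. x, a.e. y in the ball: f (x, θ) = f (y, θ).  `Rel f x0 x0`: `gl1_iff` in Bi/Gl1.lean (or Fubini for the product measure).
-/

set_option autoImplicit false

open MeasureTheory Metric Set Pool.H46.Bi

namespace Pool.H46.Eg

/-- vanishing on the sheet false -/
private theorem lr_sheet {U : Set ℂ} (D : Dat U) {G : St → ℂ} (hG : Bd G) {δ : ℝ}
    (h : (ins D).nn δ G = 0) :
    ∀ᵐ q ∂((volume : Measure (ℂ × Tor)).restrict (U ×ˢ univ)),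
      (false, q) ∈ (ins D).Om δ → G (false, q) = 0 := by
  have hfin := (ins D).fin
  have hOm := Om_meas (ins D) δ
  obtain ⟨hG1, C, hC⟩ := hG
  have hint : Integrable (fun ω => ‖G ω‖ ^ 2) ((ins D).μ.restrict ((ins D).Om δ)) := by
    refine Integrable.of_bound (hG1.norm.pow_const 2).aestronglyMeasurable (C ^ 2)
      (Filter.Eventually.of_forall fun ω => ?_)
    rw [Real.norm_eq_abs, abs_of_nonneg (by positivity)]
    exact pow_le_pow_left₀ (norm_nonneg _) (hC ω) 2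
  have h1 : (fun ω => ‖G ω‖ ^ 2) =ᵐ[(ins D).μ.restrict ((ins D).Om δ)] 0 :=
    (integral_eq_zero_iff_of_nonneg (fun ω => by positivity) hint).1 h
  have h2 : ∀ᵐ ω ∂(mus U), ω ∈ (ins D).Om δ → G ω = 0 := by
    have h3 := (ae_restrict_iff' hOm).1 h1
    filter_upwards [h3] with ω hω hω'
    have h4 := hω hω'
    have h5 : ‖G ω‖ ^ 2 = 0 := h4
    exact norm_eq_zero.1 (pow_eq_zero_iff two_ne_zero |>.1 h5)
  have hE : MeasurableSet {ω : St | ω ∈ (ins D).Om δ → G ω = 0}ᶜ := by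
    have h3 : {ω : St | ω ∈ (ins D).Om δ → G ω = 0}ᶜ =
        (ins D).Om δ ∩ {ω | G ω = 0}ᶜ := by
      ext ω
      simp only [mem_compl_iff, mem_ofPred_eq, mem_inter_iff, Classical.not_imp]
    rw [h3]
    exact hOm.inter (hG1 (measurableSet_singleton (0 : ℂ))).compl
  have h3 : mus U {ω : St | ω ∈ (ins D).Om δ → G ω = 0}ᶜ = 0 := h2
  have h4 := mus_lint U (F := ({ω : St | ω ∈ (ins D).Om δ → G ω = 0}ᶜ).indicator 1)
    (measurable_one.indicator hE)
  rw [lintegral_indicator_one hE, h3] at h4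
  have h5 := (add_eq_zero.1 h4.symm).1
  have hmI : Measurable fun q : ℂ × Tor =>
      ({ω : St | ω ∈ (ins D).Om δ → G ω = 0}ᶜ).indicator (1 : St → ENNReal) (false, q) :=
    (measurable_one.indicator hE).comp (measurable_const.prodMk measurable_id)
  have h5' := (lintegral_eq_zero_iff hmI).1 h5
  filter_upwards [h5'] with q hq
  by_contra hcon
  have h6 : (false, q) ∈ {ω : St | ω ∈ (ins D).Om δ → G ω = 0}ᶜ := hcon
  rw [Set.indicator_of_mem h6] at hq
  exact one_ne_zero hq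

/-- far from the frontier L is the mollified gradient -/
private theorem lr_L {U : Set ℂ} (D : Dat U) (f : ℂ × Tor → ℝ) {δ : ℝ} (hδ : 0 < δ) {x : ℂ}
    (θ : Tor) (hx : x ∈ U) (h : δ ≤ infDist x Uᶜ)
    (h0 : (ins D).L δ (fun ω => ((f ω.2 : ℝ) : ℂ)) (false, (x, θ)) = 0) :
    ∫ z : ℂ, ((cL δ * kap δ z : ℝ) : ℂ) * (starRingEnd ℂ) z * ((f (x + z, θ) : ℝ) : ℂ) = 0 := by
  have h1 : (ins D).L δ (fun ω => ((f ω.2 : ℝ) : ℂ)) (false, (x, θ)) =
      ∫ ζ : ℂ, (fun z : ℂ => e θ * (((cL δ * kap δ z : ℝ) : ℂ) * (starRingEnd ℂ) z *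
        ((f (x + z, θ) : ℝ) : ℂ))) (e θ * ζ) := by
    unfold Fl.L
    congr 1
    funext ζ
    have hk : kap δ (e θ * ζ) = kap δ ζ := kap_norm δ (by rw [norm_mul, norm_e, one_mul])
    show ((cL δ * kap δ ζ : ℝ) : ℂ) * (starRingEnd ℂ) ζ * ((f (Ts U ζ (false, (x, θ))).2 : ℝ) : ℂ) =
      e θ * (((cL δ * kap δ (e θ * ζ) : ℝ) : ℂ) * (starRingEnd ℂ) (e θ * ζ) *
        ((f (x + e θ * ζ, θ) : ℝ) : ℂ))
    rw [hk]
    rcases le_or_gt δ ‖ζ‖ with hz | hz
    · rw [kap_zero hδ hz]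
      simp
    · rw [ts_inner D.P.isOpen (ω := (false, (x, θ))) hx (lt_of_lt_of_le hz h)]
      have ht : tgt (false, (x, θ)) ζ = x + e θ * ζ := by
        simp [tgt, sgn]
      rw [ht, map_mul]
      have he := e_mul_conj θ
      linear_combination (-((cL δ * kap δ ζ : ℝ) : ℂ) * (starRingEnd ℂ) ζ *
        ((f (x + e θ * ζ, θ) : ℝ) : ℂ)) * he
  have h2 := rot_int θ (fun z : ℂ => e θ * (((cL δ * kap δ z : ℝ) : ℂ) * (starRingEnd ℂ) z *
        ((f (x + z, θ) : ℝ) : ℂ)))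
  rw [h1, h2, integral_const_mul] at h0
  exact (mul_eq_zero.1 h0).resolve_left (e_ne_zero θ)

private theorem lr_compl {U : Set ℂ} (hb : Bornology.IsBounded U) : (Uᶜ : Set ℂ).Nonempty := by
  obtain ⟨R, hR⟩ := hb.subset_closedBall (0 : ℂ)
  refine ⟨((|R| + 1 : ℝ) : ℂ), fun h => ?_⟩
  have h1 := hR h
  rw [mem_closedBall, dist_zero_right, Complex.norm_real, Real.norm_eq_abs] at h1
  have h2 := le_abs_self R
  have h3 : |(|R| + 1)| = |R| + 1 := abs_of_nonneg (by positivity)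
  rw [h3] at h1
  linarith

theorem rel_of_L {U : Set ℂ} (D : Dat U) {f : ℂ × Tor → ℝ} (hf : Measurable f) {M : ℝ}
    (hM : ∀ q, |f q| ≤ M)
    (h : ∀ δ : ℝ, 0 < δ → (ins D).nn δ ((ins D).L δ fun ω => ((f ω.2 : ℝ) : ℂ)) = 0)
    {x0 : ℂ} (hx0 : x0 ∈ U) (hV : x0 ∉ D.V) : Rel f x0 x0 := by
  have hFb : Bd (fun ω : St => ((f ω.2 : ℝ) : ℂ)) := by
    refine ⟨Complex.measurable_ofReal.comp (hf.comp measurable_snd), M, fun ω => ?_⟩
    rw [Complex.norm_real, Real.norm_eq_abs]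
    exact hM _
  have hK : 1 ≤ D.K := D.hK
  -- the distances
  have hUc := lr_compl D.P.bdd
  obtain ⟨a, ha⟩ : ∃ a, a = infDist x0 Uᶜ := ⟨_, rfl⟩
  obtain ⟨b, hb⟩ : ∃ b, b = infDist x0 (D.V : Set ℂ) := ⟨_, rfl⟩
  have ha0 : 0 < a := by
    rw [ha]
    exact (D.P.isOpen.isClosed_compl.notMem_iff_infDist_pos hUc).1 (fun h => h hx0)
  have hb0 : 0 < b := by
    rw [hb]
    refine (D.V.finite_toSet.isClosed.notMem_iff_infDist_pos ?_).1 (fun h => hV (Finset.mem_coe.1 h))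
    exact_mod_cast D.ne
  obtain ⟨r, hr⟩ : ∃ r, r = min (a / 2) (b / 2) := ⟨_, rfl⟩
  have hr0 : 0 < r := by
    rw [hr]
    exact lt_min (by linarith) (by linarith)
  have hra : r ≤ a / 2 := by
    rw [hr]; exact min_le_left _ _
  have hrb : r ≤ b / 2 := by
    rw [hr]; exact min_le_right _ _
  have hxa : ∀ x ∈ ball x0 r, a / 2 ≤ infDist x Uᶜ := by
    intro x hx
    have h1 := infDist_le_infDist_add_dist (s := (Uᶜ : Set ℂ)) (x := x0) (y := x)
    rw [mem_ball, dist_comm] at hx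
    linarith
  have hxb : ∀ x ∈ ball x0 r, b / 2 ≤ infDist x (D.V : Set ℂ) := by
    intro x hx
    have h1 := infDist_le_infDist_add_dist (s := (D.V : Set ℂ)) (x := x0) (y := x)
    rw [mem_ball, dist_comm] at hx
    linarith
  have hxU : ∀ x ∈ ball x0 r, x ∈ U := by
    intro x hx
    by_contra hcon
    have h1 : infDist x Uᶜ = 0 := infDist_zero_of_mem hcon
    have h2 := hxa x hx
    linarith
  obtain ⟨δ0, hδ0⟩ : ∃ δ0, δ0 = min (a / 2) (b / (8 * D.K)) := ⟨_, rfl⟩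
  have hδ0p : 0 < δ0 := by
    rw [hδ0]
    refine lt_min (by linarith) (by positivity)
  have hδa : δ0 ≤ a / 2 := by
    rw [hδ0]; exact min_le_left _ _
  have hδb : 4 * D.K * δ0 ≤ b / 2 := by
    have h1 : δ0 ≤ b / (8 * D.K) := by
      rw [hδ0]; exact min_le_right _ _
    rw [le_div_iff₀ (by positivity)] at h1
    linarith
  -- for small δ
  have hball : MeasurableSet (ball x0 r ×ˢ (univ : Set Tor)) :=
    measurableSet_ball.prod MeasurableSet.univ
  have hsmall : ∀ δ : ℝ, 0 < δ → δ ≤ δ0 →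
      ∀ᵐ q ∂((volume : Measure (ℂ × Tor)).restrict (ball x0 r ×ˢ univ)),
        ∫ z : ℂ, ((cL δ * kap δ z : ℝ) : ℂ) * (starRingEnd ℂ) z *
          ((f (q.1 + z, q.2) : ℝ) : ℂ) = 0 := by
    intro δ hδ hδ'
    have h1 := lr_sheet D (L_bd (ins D) hδ hFb) (h δ hδ)
    have h2 := ae_restrict_of_ae_restrict_of_subset
      (s := ball x0 r ×ˢ (univ : Set Tor)) (t := U ×ˢ (univ : Set Tor))
      (Set.prod_mono hxU Subset.rfl) h1
    filter_upwards [h2, ae_restrict_mem hball] with q hq hq'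
    have hq1 : q.1 ∈ ball x0 r := hq'.1
    have hmem : (false, q) ∈ (ins D).Om δ := by
      refine ⟨hxU _ hq1, ?_⟩
      show 4 * D.K * δ ≤ infDist q.1 (D.V : Set ℂ)
      have h3 : 4 * D.K * δ ≤ 4 * D.K * δ0 := mul_le_mul_of_nonneg_left hδ' (by linarith)
      have h4 := hxb _ hq1
      linarith
    exact lr_L D f hδ q.2 (hxU _ hq1) (by have := hxa _ hq1; linarith) (hq hmem)
  obtain ⟨N, hN⟩ := exists_nat_gt (1 / δ0)
  have hNδ : ∀ n : ℕ, N ≤ n → 1 / ((n : ℝ) + 1) ≤ δ0 := by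
    intro n hn
    have h1 : (N : ℝ) ≤ n := by exact_mod_cast hn
    rw [div_lt_iff₀ hδ0p] at hN
    rw [div_le_iff₀ (by positivity)]
    have h2 : (N : ℝ) * δ0 ≤ ((n : ℝ) + 1) * δ0 := mul_le_mul_of_nonneg_right (by linarith) hδ0p.le
    linarith
  have hall : ∀ᵐ q ∂((volume : Measure (ℂ × Tor)).restrict (ball x0 r ×ˢ univ)), ∀ n : ℕ, N ≤ n →
      ∫ z : ℂ, ((cL (1 / ((n : ℝ) + 1)) * kap (1 / ((n : ℝ) + 1)) z : ℝ) : ℂ) *
        (starRingEnd ℂ) z * ((f (q.1 + z, q.2) : ℝ) : ℂ) = 0 := by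
    rw [ae_all_iff]
    intro n
    by_cases hn : N ≤ n
    · filter_upwards [hsmall _ (by positivity) (hNδ n hn)] with q hq _
      exact hq
    · exact Filter.Eventually.of_forall fun q hq => (hn hq).elim
  have hprod : (volume : Measure (ℂ × Tor)).restrict (ball x0 r ×ˢ univ) =
      ((volume : Measure ℂ).restrict (ball x0 r)).prod (volume : Measure Tor) := by
    rw [Measure.volume_eq_prod, ← Measure.prod_restrict, Measure.restrict_univ]
  rw [hprod] at hall
  have hsw := (Measure.measurePreserving_swap (μ := (volume : Measure Tor))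
    (ν := (volume : Measure ℂ).restrict (ball x0 r))).quasiMeasurePreserving.ae hall
  have hfub := Measure.ae_ae_of_ae_prod hsw
  have hloc : ∀ᵐ θ : Tor, ∀ᵐ x ∂((volume : Measure ℂ).restrict (ball x0 r)),
      ∀ᵐ y ∂((volume : Measure ℂ).restrict (ball x0 r)), f (x, θ) = f (y, θ) := by
    filter_upwards [hfub] with θ hθ
    refine loc_const (u := fun x => f (x, θ)) (hf.comp (measurable_id.prodMk measurable_const))
      (fun x => hM _) (N := N) fun n hn => ?_
    filter_upwards [hθ] with x hx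
    exact hx n hn
  -- back to the product
  have hm := gl1_measurable hf
  have hm2 : ∀ θ : Tor, MeasurableSet {xy : ℂ × ℂ | f (xy.1, θ) = f (xy.2, θ)} := by
    intro θ
    exact measurableSet_eq_fun (hf.comp (measurable_fst.prodMk measurable_const))
      (hf.comp (measurable_snd.prodMk measurable_const))
  have h1 : ∀ᵐ θ : Tor, ∀ᵐ xy ∂(((volume : Measure ℂ).restrict (ball x0 r)).prod
      ((volume : Measure ℂ).restrict (ball x0 r))), f (xy.1, θ) = f (xy.2, θ) := by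
    filter_upwards [hloc] with θ hθ
    exact (Measure.ae_prod_iff_ae_ae (hm2 θ)).2 hθ
  have hm3 : MeasurableSet {p : Tor × (ℂ × ℂ) | f (p.2.1, p.1) = f (p.2.2, p.1)} :=
    measurableSet_eq_fun (hf.comp (by fun_prop)) (hf.comp (by fun_prop))
  have h2 : ∀ᵐ p ∂((volume : Measure Tor).prod (((volume : Measure ℂ).restrict (ball x0 r)).prod
      ((volume : Measure ℂ).restrict (ball x0 r)))), f (p.2.1, p.1) = f (p.2.2, p.1) :=
    (Measure.ae_prod_iff_ae_ae hm3).2 h1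
  have h3 := (Measure.measurePreserving_swap (μ := ((volume : Measure ℂ).restrict (ball x0 r)).prod
      ((volume : Measure ℂ).restrict (ball x0 r)))
    (ν := (volume : Measure Tor))).quasiMeasurePreserving.ae h2
  refine ⟨r, hr0, ?_⟩
  have h4 : (volume : Measure ((ℂ × ℂ) × Tor)).restrict ((ball x0 r ×ˢ ball x0 r) ×ˢ univ)
      = (((volume : Measure ℂ).restrict (ball x0 r)).prod
        ((volume : Measure ℂ).restrict (ball x0 r))).prod (volume : Measure Tor) := by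
    rw [Measure.prod_restrict, ← Measure.restrict_univ (μ := (volume : Measure Tor)),
      Measure.prod_restrict]
    rfl
  rw [h4]
  exact h3

end Pool.H46.Eg
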