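import Pool.Agent.H46.Eg.Abs
import Pool.Agent.H46.Eg.Cts
import Pool.Agent.H46.Eg.LocR
import Pool.Agent.H46.Bi.Gl2
import Pool.Agent.H46.Bi.Rfh
import Pool.Agent.H46.Bi.Erg
import Pool.Agent.H46.Bi.Irr
import Pool.Agent.H46.Bi.Inv
import Pool.Agent.H46.Bi.Cnv

/-!
# Bounded invariant functions of polygonal billiards (assembly)
-/

set_option autoImplicit false

open MeasureTheory Metric Set Pool.H46.Bi

namespace Pool.H46.Eg

/-- every bounded measurable invariant function of the billiard in a polygon is almost everywhere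
a function of the direction -/
theorem core {U : Set ℂ} (hP : Bi.Poly U) {f : ℂ × Tor → ℝ} (hf : Measurable f) {M : ℝ}
    (hM : ∀ q, |f q| ≤ M) (hinv : Inv U f) :
    ∃ h : Tor → ℝ, Measurable h ∧
      ∀ᵐ q : ℂ × Tor ∂((volume : Measure (ℂ × Tor)).restrict (U ×ˢ univ)), f q = h q.2 := by
  obtain ⟨D⟩ := dat_exists hP
  have hBd : Bd fun ω : St => ((f ω.2 : ℝ) : ℂ) := by
    refine ⟨Complex.measurable_ofReal.comp (hf.comp measurable_snd), M, fun ω => ?_⟩
    rw [Complex.norm_real, Real.norm_eq_abs]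
    exact hM _
  exact global_h hP hf (V := D.V) (fun x hx hV => rel_of_L D hf hM
    (fun δ hδ => abs_main (ins D) (ins_cuts D) hBd (ins_inva D hinv) (ins_tc D hf hM) hδ) hx hV)

/-- two sides at an irrational angle: bounded invariant functions are almost everywhere constant -/
theorem core_irr {U : Set ℂ} (hP : Bi.Poly U)
    (hirr : ∃ a b c d : ℂ, a ≠ b ∧ c ≠ d ∧ segment ℝ a b ⊆ frontier U ∧
      segment ℝ c d ⊆ frontier U ∧
      ¬ ∃ q : ℚ, Complex.arg ((b - a) / (d - c)) = (q : ℝ) * Real.pi)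
    {f : ℂ × Tor → ℝ} (hf : Measurable f) {M : ℝ} (hM : ∀ q, |f q| ≤ M) (hinv : Inv U f) :
    ∃ c : ℝ, ∀ᵐ q : ℂ × Tor ∂((volume : Measure (ℂ × Tor)).restrict (U ×ˢ univ)), f q = c := by
  obtain ⟨h, hh, hae⟩ := core hP hf hM hinv
  obtain ⟨p, α, ε, p', β, ε', hc, hc', hord⟩ := irr_charts hP hirr
  obtain ⟨c, hcst⟩ := h_const hh (h_refl hP hf hinv hh hae hc) (h_refl hP hf hinv hh hae hc') hord
  refine ⟨c, ?_⟩
  have h2 : ∀ᵐ q : ℂ × Tor ∂((volume : Measure (ℂ × Tor)).restrict (U ×ˢ univ)), h q.2 = c := by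
    apply ae_restrict_of_ae
    exact (Measure.quasiMeasurePreserving_snd (μ := (volume : Measure ℂ))
      (ν := (volume : Measure Tor))).ae hcst
  filter_upwards [hae, h2] with q h1 h2
  rw [h1, h2]

/-- the real form of an invariant function gives one on the circle of directions -/
theorem inv_desc {U : Set ℂ} (hopen : IsOpen U)
    {f : ℂ × ℝ → ℝ} (hf : Measurable f)
    (hper : ∀ x : ℂ, ∀ θ : ℝ, f (x, θ) = f (x, θ + 2 * Real.pi))
    (hstr : ∀ x : ℂ, ∀ θ t : ℝ, 0 ≤ t →
        (∀ s ∈ Set.Icc (0:ℝ) t, x + (s : ℂ) * Complex.exp ((θ : ℂ) * Complex.I) ∈ U) →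
        f (x, θ) = f (x + (t : ℂ) * Complex.exp ((θ : ℂ) * Complex.I), θ))
    (hrfl : ∀ x w : ℂ, ∀ θ θ' t ε s : ℝ, 0 < t → 0 < ε → 0 < s → ‖w‖ = 1 →
        (∀ r ∈ Set.Ico (0:ℝ) t, x + (r : ℂ) * Complex.exp ((θ : ℂ) * Complex.I) ∈ U) →
        frontier U ∩ Metric.ball (x + (t : ℂ) * Complex.exp ((θ : ℂ) * Complex.I)) ε =
          {z : ℂ | ∃ r : ℝ, z = x + (t : ℂ) * Complex.exp ((θ : ℂ) * Complex.I) + (r : ℂ) * w} ∩
            Metric.ball (x + (t : ℂ) * Complex.exp ((θ : ℂ) * Complex.I)) ε →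
        Complex.exp ((θ' : ℂ) * Complex.I) =
          w ^ 2 * (starRingEnd ℂ) (Complex.exp ((θ : ℂ) * Complex.I)) →
        (∀ r ∈ Set.Ioc (0:ℝ) s, x + (t : ℂ) * Complex.exp ((θ : ℂ) * Complex.I)
            + (r : ℂ) * Complex.exp ((θ' : ℂ) * Complex.I) ∈ U) →
        f (x, θ) = f (x + (t : ℂ) * Complex.exp ((θ : ℂ) * Complex.I)
            + (s : ℂ) * Complex.exp ((θ' : ℂ) * Complex.I), θ')) :
    ∃ F : ℂ × Tor → ℝ, Measurable F ∧ (∀ (x : ℂ) (t : ℝ), F (x, (t : Tor)) = f (x, t)) ∧
      Inv U F := by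
  obtain ⟨F, hFm, hFf⟩ := descend hf (fun x t => (hper x t).symm)
  refine ⟨F, hFm, hFf, ?_⟩
  apply inv_of hopen
  · intro x θ t ht hs
    induction θ using QuotientAddGroup.induction_on with
    | H θ =>
      have h1 := hstr x θ t ht (fun s hs' => by
        have := hs s hs'
        rw [← e_coe]
        exact this)
      rw [← e_coe] at h1
      have e1 := hFf x θ
      have e2 := hFf (x + t * e (θ : Tor)) θ
      exact (e1.trans h1).trans e2.symm
  · intro x θ α t ε s ht hs0 hr hc hr2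
    induction θ using QuotientAddGroup.induction_on with
    | H θ =>
      induction α using QuotientAddGroup.induction_on with
      | H α =>
        have hθ' : (((α + α - θ : ℝ) : Tor)) = ((α : Tor)) + (α : Tor) - (θ : Tor) := by
          push_cast
          rfl
        have hexp : Complex.exp (((α + α - θ : ℝ) : ℂ) * Complex.I) =
            (e (α : Tor)) ^ 2 * (starRingEnd ℂ) (Complex.exp ((θ : ℂ) * Complex.I)) := by
          rw [← e_coe, ← e_coe, hθ', e_sub, e_add, pow_two]
        have h1 := hrfl x (e (α : Tor)) θ (α + α - θ) t ε s ht hc.1 hs0 (norm_e _)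
          (fun r hr' => by
            have := hr r hr'
            rw [← e_coe]
            exact this)
          (by
            rw [← e_coe]
            ext z
            simp only [mem_inter_iff, mem_setOf_eq]
            constructor
            · rintro ⟨hz1, hz2⟩
              exact ⟨(side_eq_zero_iff _ _ _).mp ((hc.2 z hz2).mp hz1), hz2⟩
            · rintro ⟨hz1, hz2⟩
              exact ⟨(hc.2 z hz2).mpr ((side_eq_zero_iff _ _ _).mpr hz1), hz2⟩)
          hexp
          (fun r hr' => by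
            have := hr2 r hr'
            rw [← e_coe, ← e_coe, hθ']
            exact this)
        rw [← e_coe, ← e_coe, hθ'] at h1
        have e1 := hFf x θ
        have e2 := hFf (x + t * e (θ : Tor) + s * e ((α : Tor) + (α : Tor) - (θ : Tor)))
          (α + α - θ)
        rw [hθ'] at e2
        exact (e1.trans h1).trans e2.symm

end Pool.H46.Eg
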