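import Pool.Agent.H46.Eg.Mes

/-!
# [H46 EG CV] change of variables under a small translation (70-110 lines)
`map_eq`: `D = {ω ∈ X | 4 K δ ≤ d ω, (ξ, ω) ∉ B, 8 K δ ≤ d (T ξ ω)}`, `D' = {ω ∈ X | 8 K δ ≤ d ω, (-ξ, ω) ∉ B}`.
T ξ maps D to D', T (-ξ) maps D' to D, and they are inverse to each other: `S.Tadd` with ζ = ξ, -ξ
(`K (‖ξ‖ + ‖ξ‖) < 2 K δ < 4 K δ`), `S.T0`, `S.TX` (`|d (T (-ξ) ω) - d ω| ≤ ‖ξ‖ < δ ≤ K δ`).  So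
`Measure.map (T ξ) (μ.restrict D) = μ.restrict D'`: for measurable S: `μ (D ∩ T ξ ⁻¹' S) ≤ μ (S ∩ D')` by `S.Tmu ξ (S ∩ D')`
(`2 K ‖ξ‖ < 4 K δ ≤ d`), and `μ (D' ∩ S) ≤ μ (D ∩ T ξ ⁻¹' S)` by `S.Tmu (-ξ) (D ∩ T ξ ⁻¹' S)`.
`cv`: on Om δ \ D the integrand vanishes or `(ξ, ω) ∈ B`, a null set (`S.Bnull'`); on D the integrand is `Ψ (T ξ ω)`,
`Ψ ω' = Φ (T (-ξ) ω') ω'`; `integral_map`.  D' and `{ω ∈ X | 8 K δ ≤ d ω}` differ by a null set (`S.Bnull' (-ξ)`).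
-/

set_option autoImplicit false

open MeasureTheory Set Pool.H46.Bi

namespace Pool.H46.Eg

variable {Ω : Type} [MeasurableSpace Ω] (S : Fl Ω)

/-- the set where the translation by `ξ` lands in the good set -/
def cvD (δ : ℝ) (ξ : ℂ) : Set Ω :=
  {ω | ω ∈ S.X ∧ 4 * S.K * δ ≤ S.d ω ∧ (ξ, ω) ∉ S.B ∧ 8 * S.K * δ ≤ S.d (S.T ξ ω)}

/-- the image of `cvD` -/
def cvD' (δ : ℝ) (ξ : ℂ) : Set Ω :=
  {ω | ω ∈ S.X ∧ 8 * S.K * δ ≤ S.d ω ∧ (-ξ, ω) ∉ S.B}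

theorem cvT_meas (ξ : ℂ) : Measurable (S.T ξ) :=
  S.mT.comp (measurable_const.prodMk measurable_id)

theorem cvB_meas (ξ : ℂ) : MeasurableSet {ω : Ω | (ξ, ω) ∉ S.B} := by
  have h : Measurable fun ω : Ω => (ξ, ω) := measurable_const.prodMk measurable_id
  exact (h S.mB).compl

theorem cvD_meas (δ : ℝ) (ξ : ℂ) : MeasurableSet (cvD S δ ξ) := by
  refine S.mX.inter ((measurableSet_le measurable_const S.md).inter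
    ((cvB_meas S ξ).inter (measurableSet_le measurable_const (S.md.comp (cvT_meas S ξ)))))

theorem cvD'_meas (δ : ℝ) (ξ : ℂ) : MeasurableSet (cvD' S δ ξ) := by
  refine S.mX.inter ((measurableSet_le measurable_const S.md).inter (cvB_meas S (-ξ)))

theorem cvD_to {δ : ℝ} (hδ : 0 < δ) {ξ : ℂ} (hξ : ‖ξ‖ < δ) {ω : Ω} (h : ω ∈ cvD S δ ξ) :
    S.T ξ ω ∈ cvD' S δ ξ ∧ S.T (-ξ) (S.T ξ ω) = ω := by
  obtain ⟨hX, hd, hB, hd'⟩ := h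
  have hK := S.hK
  have hKξ : S.K * ‖ξ‖ < S.K * δ := mul_lt_mul_of_pos_left hξ (by linarith)
  have hKδ : 0 < S.K * δ := mul_pos (by linarith) hδ
  have h1 : S.K * ‖ξ‖ < S.d ω := by nlinarith
  have h2 : S.K * (‖ξ‖ + ‖-ξ‖) < S.d ω := by rw [norm_neg]; nlinarith
  have hT0 := S.T0 ω hX
  have h3 := S.Tadd ω hX ξ (-ξ) h2 hB (by rw [add_neg_cancel]; exact hT0.2)
  have h4 := S.TX ω hX ξ h1 hB
  refine ⟨⟨h4.1, hd', h3.1⟩, ?_⟩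
  rw [h3.2, add_neg_cancel, hT0.1]

theorem cvD'_to {δ : ℝ} (hδ : 0 < δ) {ξ : ℂ} (hξ : ‖ξ‖ < δ) {ω : Ω} (h : ω ∈ cvD' S δ ξ) :
    S.T (-ξ) ω ∈ cvD S δ ξ ∧ S.T ξ (S.T (-ξ) ω) = ω := by
  obtain ⟨hX, hd, hB⟩ := h
  have hK := S.hK
  have hKξ : S.K * ‖ξ‖ < S.K * δ := mul_lt_mul_of_pos_left hξ (by linarith)
  have hKδ : 0 < S.K * δ := mul_pos (by linarith) hδ
  have hδK : δ ≤ S.K * δ := by nlinarith
  have h1 : S.K * ‖-ξ‖ < S.d ω := by rw [norm_neg]; nlinarith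
  have h2 : S.K * (‖-ξ‖ + ‖ξ‖) < S.d ω := by rw [norm_neg]; nlinarith
  have hT0 := S.T0 ω hX
  have h3 := S.Tadd ω hX (-ξ) ξ h2 hB (by rw [neg_add_cancel]; exact hT0.2)
  have h4 := S.TX ω hX (-ξ) h1 hB
  have h5 : S.T ξ (S.T (-ξ) ω) = ω := by rw [h3.2, neg_add_cancel, hT0.1]
  have h6 := abs_le.1 h4.2
  rw [norm_neg] at h6
  refine ⟨⟨h4.1, by nlinarith, h3.1, ?_⟩, h5⟩
  rw [h5]
  exact hd

theorem cv_map {δ : ℝ} (hδ : 0 < δ) {ξ : ℂ} (hξ : ‖ξ‖ < δ) :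
    Measure.map (S.T ξ) (S.μ.restrict (cvD S δ ξ)) = S.μ.restrict (cvD' S δ ξ) := by
  have hK := S.hK
  have hKξ : S.K * ‖ξ‖ < S.K * δ := mul_lt_mul_of_pos_left hξ (by linarith)
  have hKδ : 0 < S.K * δ := mul_pos (by linarith) hδ
  ext A hA
  rw [Measure.map_apply (cvT_meas S ξ) hA, Measure.restrict_apply (cvT_meas S ξ hA),
    Measure.restrict_apply hA]
  apply le_antisymm
  · refine le_trans (measure_mono ?_) (S.Tmu ξ (A ∩ cvD' S δ ξ) (hA.inter (cvD'_meas S δ ξ)))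
    rintro ω ⟨hωA, hωD⟩
    have h := cvD_to S hδ hξ hωD
    refine ⟨hωD.1, ?_, hωD.2.2.1, hωA, h.1⟩
    have := hωD.2.1
    nlinarith
  · refine le_trans (measure_mono ?_) (S.Tmu (-ξ) (S.T ξ ⁻¹' A ∩ cvD S δ ξ)
      ((cvT_meas S ξ hA).inter (cvD_meas S δ ξ)))
    rintro ω ⟨hωA, hωD⟩
    have h := cvD'_to S hδ hξ hωD
    refine ⟨hωD.1, ?_, hωD.2.2, ?_, h.1⟩
    · have := hωD.2.1
      rw [norm_neg]
      nlinarith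
    · show S.T ξ (S.T (-ξ) ω) ∈ A
      rw [h.2]
      exact hωA

theorem cv {δ : ℝ} (hδ : 0 < δ) {ξ : ℂ} (hξ : ‖ξ‖ < δ) {Φ : Ω → Ω → ℂ}
    (hm : Measurable (Function.uncurry Φ)) {C : ℝ} (hC : ∀ ω ω', ‖Φ ω ω'‖ ≤ C)
    (h0 : ∀ ω ω', S.d ω' < 8 * S.K * δ → Φ ω ω' = 0) :
    ∫ ω in S.Om δ, Φ ω (S.T ξ ω) ∂S.μ =
      ∫ ω in {ω | ω ∈ S.X ∧ 8 * S.K * δ ≤ S.d ω}, Φ (S.T (-ξ) ω) ω ∂S.μ := by
  have e1 : ∫ ω in S.Om δ, Φ ω (S.T ξ ω) ∂S.μ = ∫ ω in cvD S δ ξ, Φ ω (S.T ξ ω) ∂S.μ := by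
    refine setIntegral_eq_of_subset_of_ae_diff_eq_zero (Om_meas S δ).nullMeasurableSet ?_ ?_
    · intro ω hω
      exact ⟨hω.1, hω.2.1⟩
    · have hn : ∀ᵐ ω ∂S.μ, (ξ, ω) ∉ S.B := by
        rw [ae_iff]
        simpa using S.Bnull' ξ
      filter_upwards [hn] with ω hω hd
      refine h0 _ _ ?_
      by_contra hcon
      exact hd.2 ⟨hd.1.1, hd.1.2, hω, not_lt.1 hcon⟩
  have e2 : ∫ ω in cvD S δ ξ, Φ ω (S.T ξ ω) ∂S.μ =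
      ∫ ω in cvD S δ ξ, (fun ω' => Φ (S.T (-ξ) ω') ω') (S.T ξ ω) ∂S.μ := by
    refine setIntegral_congr_fun (cvD_meas S δ ξ) ?_
    intro ω hω
    have h := cvD_to S hδ hξ hω
    show Φ ω (S.T ξ ω) = Φ (S.T (-ξ) (S.T ξ ω)) (S.T ξ ω)
    rw [h.2]
  have hΨ : Measurable fun ω' => Φ (S.T (-ξ) ω') ω' :=
    hm.comp ((cvT_meas S (-ξ)).prodMk measurable_id)
  have e3 : ∫ ω in cvD S δ ξ, (fun ω' => Φ (S.T (-ξ) ω') ω') (S.T ξ ω) ∂S.μ =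
      ∫ ω' in cvD' S δ ξ, Φ (S.T (-ξ) ω') ω' ∂S.μ := by
    rw [← cv_map S hδ hξ]
    exact (integral_map (cvT_meas S ξ).aemeasurable hΨ.aestronglyMeasurable).symm
  have e4 : ∫ ω' in cvD' S δ ξ, Φ (S.T (-ξ) ω') ω' ∂S.μ =
      ∫ ω in {ω | ω ∈ S.X ∧ 8 * S.K * δ ≤ S.d ω}, Φ (S.T (-ξ) ω) ω ∂S.μ := by
    refine setIntegral_congr_set ?_
    have hn : ∀ᵐ ω ∂S.μ, (-ξ, ω) ∉ S.B := by
      rw [ae_iff]
      simpa using S.Bnull' (-ξ)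
    filter_upwards [hn] with ω hω
    apply propext
    constructor
    · intro h
      exact ⟨h.1, h.2.1⟩
    · intro h
      exact ⟨h.1, h.2, hω⟩
  rw [e1, e2, e3, e4]

end Pool.H46.Eg
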