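import Pool.Agent.H46.Eg.Geo

/-!
# [H46 EG DAT] every ball is flat at the scale of its distance from the vertices (40-60 lines)
`dat_exists`: V = the finite set V0 U together with the point 0, c from `chart_scale`, K = 1 + 2 / c.  Let x ∈ U, r > 0,
`K r ≤ infDist x V`.  If `ball x r` contains no frontier point it is a subset of U (it is connected and meets U:
`IsPreconnected.inter_frontier_nonempty`-like lemma: `(isPreconnected_ball ..)`, `frontier_eq`).  Otherwise let p be a frontier
point in the ball: `infDist p V ≥ infDist x V - r ≥ (K - 1) r = 2 r / c` (`infDist_le_infDist_add_dist`), so p ∉ V and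
`c * infDist p V ≥ 2 r`, and `ball x r ⊆ ball p (2 r) ⊆ ball p (c * infDist p V)`.
-/

set_option autoImplicit false

open MeasureTheory Metric Set Pool.H46.Bi

namespace Pool.H46.Eg

/-- a polygon with a finite set of points, such that every ball in which the points are far is
flat -/
structure Dat (U : Set ℂ) where
  P : Bi.Poly U
  V : Finset ℂ
  ne : V.Nonempty
  K : ℝ
  hK : 1 ≤ K
  bc : ∀ x ∈ U, ∀ r : ℝ, 0 < r → K * r ≤ infDist x (V : Set ℂ) →
    ball x r ⊆ U ∨ ∃ (p : ℂ) (α : Tor) (ε : ℝ), Chart U p α ε ∧ ball x r ⊆ ball p ε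

theorem dat_exists {U : Set ℂ} (hP : Bi.Poly U) : Nonempty (Dat U) := by
  classical
  let V : Finset ℂ := insert 0 (V0_finite hP).toFinset
  have hne : V.Nonempty := Finset.insert_nonempty _ _
  have hV : V0 U ⊆ V := by
    intro z hz
    exact Finset.mem_coe.mpr (Finset.mem_insert_of_mem ((V0_finite hP).mem_toFinset.mpr hz))
  obtain ⟨c, hc, hch⟩ := chart_scale hP V hne hV
  have hVne : (V : Set ℂ).Nonempty := hne
  have hc2 : 0 < 2 / c := by positivity
  refine ⟨⟨hP, V, hne, 1 + 2 / c, by linarith, ?_⟩⟩
  intro x hx r hr hK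
  by_cases h : (ball x r ∩ frontier U).Nonempty
  · obtain ⟨p, hp1, hp2⟩ := h
    have hxp : dist x p < r := by rw [dist_comm]; exact hp1
    have h1 : infDist x (V : Set ℂ) ≤ infDist p (V : Set ℂ) + dist x p :=
      infDist_le_infDist_add_dist
    have h2 : 2 * r / c ≤ infDist p (V : Set ℂ) := by
      have h3 : (1 + 2 / c) * r = r + 2 * r / c := by ring
      linarith
    have h4 : 0 < 2 * r / c := by positivity
    have hpV : p ∉ V := by
      intro hpV
      have h5 : infDist p (V : Set ℂ) = 0 := infDist_zero_of_mem (Finset.mem_coe.mpr hpV)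
      linarith
    obtain ⟨α, hα⟩ := hch p hp2 hpV
    refine Or.inr ⟨p, α, _, hα, ?_⟩
    intro z hz
    rw [mem_ball] at hz ⊢
    have h6 : 2 * r ≤ c * infDist p (V : Set ℂ) := by
      rw [div_le_iff₀ hc] at h2
      linarith
    calc dist z p ≤ dist z x + dist x p := dist_triangle _ _ _
      _ < 2 * r := by linarith
      _ ≤ _ := h6
  · left
    refine (isPreconnected_ball (x := x) (r := r)).subset_left_of_subset_union hP.isOpen
      (isClosed_closure (s := U)).isOpen_compl ?_ ?_ ⟨x, mem_ball_self hr, hx⟩
    · rw [Set.disjoint_compl_right_iff_subset]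
      exact subset_closure
    · intro z hz
      by_cases hzU : z ∈ U
      · exact Or.inl hzU
      · right
        intro hcl
        apply h
        refine ⟨z, hz, ?_⟩
        rw [hP.isOpen.frontier_eq]
        exact ⟨hcl, hzU⟩

end Pool.H46.Eg
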