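import Pool.Agent.H46.Bi.Base

/-!
# Ergodicity of irrational polygons: the abstract flat space

`Fl Ω`: a finite measure space with rotations `R φ` and translations `T ζ`, which are defined (up to
null sets, given by `B`) for `K ‖ζ‖ < d ω`; `d` is the distance from the vertices.  The model is the phase
space of a polygon (`H46.Eg.Ins`), the relations are those of the motions of the plane.
`L` and `L'` are the mollified derivatives `d/dz` and `d/dzbar`, `P m` is the `m`-th Fourier mode in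
the direction, `nn` and `ip` are the square of the norm and the inner product of `L²` of
`Om δ = {d ≥ 4 K δ}`.
-/

set_option autoImplicit false

open MeasureTheory Set Pool.H46.Bi

namespace Pool.H46.Eg

/-- a measure space with rotations and small translations -/
structure Fl (Ω : Type) [MeasurableSpace Ω] where
  μ : Measure Ω
  X : Set Ω
  B : Set (ℂ × Ω)
  T : ℂ → Ω → Ω
  R : Tor → Ω → Ω
  d : Ω → ℝ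
  K : ℝ
  fin : IsFiniteMeasure μ
  hK : 1 ≤ K
  mX : MeasurableSet X
  nX : μ Xᶜ = 0
  mB : MeasurableSet B
  mT : Measurable fun p : ℂ × Ω => T p.1 p.2
  mR : Measurable fun p : Tor × Ω => R p.1 p.2
  md : Measurable d
  R0 : ∀ ω, R 0 ω = ω
  Radd : ∀ φ ψ ω, R φ (R ψ ω) = R (φ + ψ) ω
  Rmp : ∀ φ, MeasurePreserving (R φ) μ μ
  RX : ∀ φ, ∀ ω ∈ X, R φ ω ∈ X
  Rd : ∀ φ ω, d (R φ ω) = d ω
  Bnull : ∀ ω ∈ X, volume {ζ : ℂ | (ζ, ω) ∈ B} = 0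
  Bnull' : ∀ ζ : ℂ, μ {ω | (ζ, ω) ∈ B} = 0
  TX : ∀ ω ∈ X, ∀ ζ : ℂ, K * ‖ζ‖ < d ω → (ζ, ω) ∉ B → T ζ ω ∈ X ∧ |d (T ζ ω) - d ω| ≤ ‖ζ‖
  T0 : ∀ ω ∈ X, T 0 ω = ω ∧ ((0 : ℂ), ω) ∉ B
  Tadd : ∀ ω ∈ X, ∀ ζ ξ : ℂ, K * (‖ζ‖ + ‖ξ‖) < d ω → (ζ, ω) ∉ B → (ζ + ξ, ω) ∉ B →
    (ξ, T ζ ω) ∉ B ∧ T ξ (T ζ ω) = T (ζ + ξ) ω
  TR : ∀ φ : Tor, ∀ ω ∈ X, ∀ ζ : ℂ, K * ‖ζ‖ < d ω → (e φ * ζ, ω) ∉ B →
    T ζ (R φ ω) = R φ (T (e φ * ζ) ω)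
  Tmu : ∀ ζ : ℂ, ∀ S : Set Ω, MeasurableSet S →
    μ {ω | ω ∈ X ∧ 2 * K * ‖ζ‖ < d ω ∧ (ζ, ω) ∉ B ∧ T ζ ω ∈ S} ≤ μ S

/-- radial cutoff of radius `δ` -/
noncomputable def kap (δ : ℝ) (ζ : ℂ) : ℝ := max 0 (1 - ‖ζ‖ ^ 2 / δ ^ 2)

/-- the normalising constant of `L` -/
noncomputable def cL (δ : ℝ) : ℝ := 6 / (Real.pi * δ ^ 4)

/-- the mollifier -/
noncomputable def kk (δ : ℝ) (ζ : ℂ) : ℝ := 3 / (Real.pi * δ ^ 2) * kap δ ζ ^ 2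

/-- bounded measurable functions -/
def Bd {Ω : Type} [MeasurableSpace Ω] (F : Ω → ℂ) : Prop :=
  Measurable F ∧ ∃ C : ℝ, ∀ ω, ‖F ω‖ ≤ C

namespace Fl

variable {Ω : Type} [MeasurableSpace Ω] (S : Fl Ω)

/-- mollified `d/dz` -/
noncomputable def L (δ : ℝ) (F : Ω → ℂ) (ω : Ω) : ℂ :=
  ∫ ζ : ℂ, ((cL δ * kap δ ζ : ℝ) : ℂ) * (starRingEnd ℂ) ζ * F (S.T ζ ω)

/-- mollified `d/dzbar` -/
noncomputable def L' (δ : ℝ) (F : Ω → ℂ) (ω : Ω) : ℂ :=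
  ∫ ζ : ℂ, ((cL δ * kap δ ζ : ℝ) : ℂ) * ζ * F (S.T ζ ω)

/-- average over small translations -/
noncomputable def Av (δ : ℝ) (F : Ω → ℂ) (ω : Ω) : ℂ :=
  ∫ ζ : ℂ, ((kk δ ζ : ℝ) : ℂ) * F (S.T ζ ω)

/-- Fourier mode in the direction -/
noncomputable def P (m : ℤ) (F : Ω → ℂ) (ω : Ω) : ℂ :=
  ∫ φ : Tor, (fourier (-m) φ : ℂ) * F (S.R φ ω) ∂AddCircle.haarAddCircle

/-- the states at distance at least `4 K δ` from the vertices -/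
def Om (δ : ℝ) : Set Ω := {ω | ω ∈ S.X ∧ 4 * S.K * δ ≤ S.d ω}

/-- square of the norm -/
noncomputable def nn (δ : ℝ) (F : Ω → ℂ) : ℝ := ∫ ω in S.Om δ, ‖F ω‖ ^ 2 ∂S.μ

/-- inner product -/
noncomputable def ip (δ : ℝ) (F G : Ω → ℂ) : ℂ :=
  ∫ ω in S.Om δ, F ω * (starRingEnd ℂ) (G ω) ∂S.μ

/-- supported at distance at least `8 K δ` from the vertices -/
def Sup (δ : ℝ) (G : Ω → ℂ) : Prop := ∀ ω, S.d ω < 8 * S.K * δ → G ω = 0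

/-- invariance under the flow, in the form used for the ladder -/
def Inva (f : Ω → ℂ) : Prop :=
  ∀ ω ∈ S.X, ∀ ζ ζ' : ℂ, ζ.im = ζ'.im → S.K * (‖ζ‖ + ‖ζ' - ζ‖) < S.d ω → (ζ, ω) ∉ S.B →
    (ζ', ω) ∉ S.B → f (S.T ζ' ω) = f (S.T ζ ω)

/-- `a` is Lipschitz along the flow with constant `c` -/
def Lip (c : ℝ) (a : Ω → ℝ) : Prop :=
  ∀ ω ∈ S.X, ∀ ζ ζ' : ℂ, ζ.im = ζ'.im → S.K * (‖ζ‖ + ‖ζ' - ζ‖) < S.d ω → (ζ, ω) ∉ S.B →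
    (ζ', ω) ∉ S.B → |a (S.T ζ' ω) - a (S.T ζ ω)| ≤ c * ‖ζ' - ζ‖

/-- a cutoff at the vertices of scale `δ`, time `t` and constant `C` -/
structure Cut (δ t C : ℝ) (a : Ω → ℝ) (W : Set Ω) : Prop where
  ma : Measurable a
  mW : MeasurableSet W
  nonneg : ∀ ω, 0 ≤ a ω
  le_one : ∀ ω, a ω ≤ 1
  zero : ∀ ω, S.d ω < 8 * S.K * δ → a ω = 0
  one : ∀ ω ∈ S.X, ω ∉ W → a ω = 1
  lip : S.Lip (1 / t) a
  meas : (S.μ W).toReal ≤ C * (δ * t)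

/-- there are cutoffs with a uniform constant -/
def Cuts : Prop := ∃ C δ0 : ℝ, 0 < δ0 ∧ ∀ δ t : ℝ, 0 < δ → δ < δ0 → δ ≤ t →
  ∃ (a : Ω → ℝ) (W : Set Ω), S.Cut δ t C a W

/-- continuity of the translations of `f` in `L²` -/
def Tc (f : Ω → ℂ) : Prop := ∀ ε : ℝ, 0 < ε → ∃ δ0 : ℝ, 0 < δ0 ∧ ∀ δ : ℝ, 0 < δ → δ < δ0 →
  ∀ ζ : ℂ, ‖ζ‖ < δ → ∫ ω in S.Om δ, ‖f (S.T ζ ω) - f ω‖ ^ 2 ∂S.μ ≤ ε

end Fl

end Pool.H46.Eg
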