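import Pool.Agent.H46.Eg.Def

/-!
# [H46 EG KERE] the symmetric kernel (50-90 lines)
The difference of the two integrands is `kap (η + ξ) kap ξ (conj η ξ - η conj ξ)`.  For `η = 0` both
integrands are equal (`conj ξ ξ = ξ conj ξ`).  For `η ≠ 0` let `u = η / conj η`, `‖u‖ = 1`; the map `ξ ↦ u * conj ξ`
(reflection in the line `ℝ η`) is a linear isometry, it fixes `η` (`u conj η = η`), so
`‖η + u conj ξ‖ = ‖u conj (η + ξ)‖ = ‖η + ξ‖`, `‖u conj ξ‖ = ‖ξ‖`, and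
`(η + u conj ξ) conj (u conj ξ) = u conj (η + ξ) conj u ξ = conj (η + ξ) ξ`: the substitution `ξ → u conj ξ` turns the
right integrand into the left one.  (`LinearIsometryEquiv`: `Complex.conjLIE` followed by `rotation`; or `conjLIE.trans`; use
`MeasurePreserving.integral_comp'` / `.integral_comp` with a measurable embedding.)  No integrability is needed.
-/

set_option autoImplicit false

open MeasureTheory Set Pool.H46.Bi

namespace Pool.H46.Eg

private theorem kere_norm (δ : ℝ) {ζ ζ' : ℂ} (h : ‖ζ‖ = ‖ζ'‖) : kap δ ζ = kap δ ζ' := by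
  unfold kap
  rw [h]

/-- reflections preserve integrals -/
private theorem kere_int (φ : Tor) (f : ℂ → ℂ) :
    ∫ ζ : ℂ, f (e φ * (starRingEnd ℂ) ζ) = ∫ ζ : ℂ, f ζ := by
  have h := (Complex.conjLIE.trans (rotation (AddCircle.toCircle φ))).measurePreserving.integral_comp
    (Complex.conjLIE.trans (rotation (AddCircle.toCircle φ))).toHomeomorph.measurableEmbedding f
  exact h

theorem ker_sym (δ : ℝ) (η : ℂ) :
    ∫ ξ : ℂ, ((kap δ (η + ξ) * kap δ ξ : ℝ) : ℂ) * ((starRingEnd ℂ) (η + ξ) * ξ) =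
      ∫ ξ : ℂ, ((kap δ (η + ξ) * kap δ ξ : ℝ) : ℂ) * ((η + ξ) * (starRingEnd ℂ) ξ) := by
  by_cases hη : η = 0
  · rw [hη]
    refine integral_congr_ae (Filter.Eventually.of_forall fun ξ => ?_)
    simp only [zero_add]
    ring
  have hc : (starRingEnd ℂ) η ≠ 0 := (map_ne_zero _).2 hη
  obtain ⟨θ, hθ⟩ := e_surj (η / (starRingEnd ℂ) η) (by
    rw [norm_div, RCLike.norm_conj, div_self (norm_ne_zero_iff.2 hη)])
  have hη1 : e θ * (starRingEnd ℂ) η = η := by
    rw [hθ]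
    exact div_mul_cancel₀ _ hc
  rw [← kere_int θ (fun ξ => ((kap δ (η + ξ) * kap δ ξ : ℝ) : ℂ) *
    ((η + ξ) * (starRingEnd ℂ) ξ))]
  refine integral_congr_ae (Filter.Eventually.of_forall fun ξ => ?_)
  have h1 : η + e θ * (starRingEnd ℂ) ξ = e θ * (starRingEnd ℂ) (η + ξ) := by
    rw [map_add, mul_add, hη1]
  have h2 : ∀ z : ℂ, ‖e θ * (starRingEnd ℂ) z‖ = ‖z‖ := fun z => by
    rw [norm_mul, norm_e, one_mul, RCLike.norm_conj]
  show ((kap δ (η + ξ) * kap δ ξ : ℝ) : ℂ) * ((starRingEnd ℂ) (η + ξ) * ξ) =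
    ((kap δ (η + e θ * (starRingEnd ℂ) ξ) * kap δ (e θ * (starRingEnd ℂ) ξ) : ℝ) : ℂ) *
      ((η + e θ * (starRingEnd ℂ) ξ) * (starRingEnd ℂ) (e θ * (starRingEnd ℂ) ξ))
  rw [h1, kere_norm δ (h2 (η + ξ)), kere_norm δ (h2 ξ)]
  have h3 : e θ * (starRingEnd ℂ) (η + ξ) * (starRingEnd ℂ) (e θ * (starRingEnd ℂ) ξ) =
      (starRingEnd ℂ) (η + ξ) * ξ := by
    rw [map_mul, Complex.conj_conj]
    linear_combination ((starRingEnd ℂ) (η + ξ) * ξ) * e_mul_conj θ
  rw [h3]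

end Pool.H46.Eg
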