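import Pool.Agent.H46.Eg.Cip
import Pool.Agent.H46.Eg.KerE

/-!
# [H46 EG EN] the energy identity (30-50 lines)
`comp_ip` with `p = q = cL kap conj ζ` (left) and `p = q = cL kap ζ` (right).  The kernels agree:
`∫ ξ, p (η + ξ) * conj (q ξ) = cL ^ 2 * ∫ ξ, kap (η + ξ) kap ξ (conj (η + ξ) * ξ)` resp. `((η + ξ) * conj ξ)`: `ker_sym`
(pull the constant out with `integral_const_mul`).
-/

set_option autoImplicit false

open MeasureTheory Set Pool.H46.Bi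

namespace Pool.H46.Eg

variable {Ω : Type} [MeasurableSpace Ω] (S : Fl Ω)

private theorem en_cont (δ : ℝ) : Continuous (kap δ) := by
  unfold kap
  exact continuous_const.max (continuous_const.sub ((continuous_norm.pow 2).div_const _))

private theorem en_zero {δ : ℝ} (hδ : 0 < δ) {ζ : ℂ} (h : δ ≤ ‖ζ‖) : kap δ ζ = 0 := by
  refine max_eq_left ?_
  have h1 : δ ^ 2 ≤ ‖ζ‖ ^ 2 := pow_le_pow_left₀ hδ.le h 2
  have h2 : 1 ≤ ‖ζ‖ ^ 2 / δ ^ 2 := (one_le_div (by positivity)).2 h1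
  linarith

theorem energy {δ : ℝ} (hδ : 0 < δ) {F G : Ω → ℂ} (hF : Bd F) (hG : Bd G) (hs : S.Sup δ G) :
    S.ip δ (S.L δ F) (S.L δ G) = S.ip δ (S.L' δ F) (S.L' δ G) := by
  have hc : Continuous fun ζ : ℂ => ((cL δ * kap δ ζ : ℝ) : ℂ) :=
    Complex.continuous_ofReal.comp (continuous_const.mul (en_cont δ))
  have h1 := comp_ip S hδ hF hG hs
    (p := fun ζ : ℂ => ((cL δ * kap δ ζ : ℝ) : ℂ) * (starRingEnd ℂ) ζ)
    (q := fun ζ : ℂ => ((cL δ * kap δ ζ : ℝ) : ℂ) * (starRingEnd ℂ) ζ)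
    (hc.mul Complex.continuous_conj) (hc.mul Complex.continuous_conj)
    (fun ζ hζ => by simp [en_zero hδ hζ]) (fun ζ hζ => by simp [en_zero hδ hζ])
  have h2 := comp_ip S hδ hF hG hs
    (p := fun ζ : ℂ => ((cL δ * kap δ ζ : ℝ) : ℂ) * ζ)
    (q := fun ζ : ℂ => ((cL δ * kap δ ζ : ℝ) : ℂ) * ζ)
    (hc.mul continuous_id) (hc.mul continuous_id)
    (fun ζ hζ => by simp [en_zero hδ hζ]) (fun ζ hζ => by simp [en_zero hδ hζ])
  have h3 : ∀ η : ℂ, (∫ ξ : ℂ, (((cL δ * kap δ (η + ξ) : ℝ) : ℂ) * (starRingEnd ℂ) (η + ξ)) *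
      (starRingEnd ℂ) (((cL δ * kap δ ξ : ℝ) : ℂ) * (starRingEnd ℂ) ξ)) =
      ∫ ξ : ℂ, (((cL δ * kap δ (η + ξ) : ℝ) : ℂ) * (η + ξ)) *
        (starRingEnd ℂ) (((cL δ * kap δ ξ : ℝ) : ℂ) * ξ) := by
    intro η
    have e1 : ∀ ξ : ℂ, (((cL δ * kap δ (η + ξ) : ℝ) : ℂ) * (starRingEnd ℂ) (η + ξ)) *
        (starRingEnd ℂ) (((cL δ * kap δ ξ : ℝ) : ℂ) * (starRingEnd ℂ) ξ) =
        ((cL δ : ℝ) : ℂ) ^ 2 * (((kap δ (η + ξ) * kap δ ξ : ℝ) : ℂ) *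
          ((starRingEnd ℂ) (η + ξ) * ξ)) := fun ξ => by
      rw [map_mul (starRingEnd ℂ) (((cL δ * kap δ ξ : ℝ) : ℂ)), Complex.conj_conj,
        Complex.conj_ofReal]
      push_cast
      ring
    have e2 : ∀ ξ : ℂ, (((cL δ * kap δ (η + ξ) : ℝ) : ℂ) * (η + ξ)) *
        (starRingEnd ℂ) (((cL δ * kap δ ξ : ℝ) : ℂ) * ξ) =
        ((cL δ : ℝ) : ℂ) ^ 2 * (((kap δ (η + ξ) * kap δ ξ : ℝ) : ℂ) *
          ((η + ξ) * (starRingEnd ℂ) ξ)) := fun ξ => by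
      rw [map_mul (starRingEnd ℂ) (((cL δ * kap δ ξ : ℝ) : ℂ)), Complex.conj_ofReal]
      push_cast
      ring
    simp only [e1, e2]
    rw [integral_const_mul, integral_const_mul, ker_sym]
  have h4 : S.ip δ (S.L δ F) (S.L δ G) = _ := h1
  have h5 : S.ip δ (S.L' δ F) (S.L' δ G) = _ := h2
  rw [h4, h5]
  simp only [h3]

end Pool.H46.Eg
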