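import Pool.Agent.H46.Eg.StpE

/-!
# [H46 EG FLT] flatness (60-100 lines)
`Dat.bc` for x and r = infDist x V / K (`‖y - x‖ < r`, `‖y' - x‖ < r`).
Case `ball x r ⊆ U`: `Stp U 1 x y` (convexity of the ball), so g = 1 (`stp_unique`); g' = 1 (the segment from y to y' is in the ball).
Case of a chart (p, α, ε), `ball x r ⊆ ball p ε`, R = refl p α, `side p α x ≠ 0`, `side p α y ≠ 0`, `side p α y' ≠ 0` (not in the frontier).
 y on the side of x: `Stp U 1 x y`, g = 1.  y' on the side of x: g' = 1 (`seg_mem` from y, y ∈ U by `half_ball`); y' on the other side: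
 g' = R (`Stp U R y y'`), `Stp U R x y'`, R 1 = R.
 y on the other side: g = R, and R y is in the ball p ε on the side of x (`side_refl`, `Mo.norm_refl_sub`), in U (`stp_end`).  y' on the side of
 x: R y' is on the other side, `Stp U R (R y) (R y')`, R R = 1 (`Mo.refl_refl`), `Stp U 1 x y'`.  y' on the other side: `Stp U 1 (R y) (R y')`
 (`seg_mem`), 1 R = R, `Stp U R x y'`.
The last claim: `g.act y'` is y' (not a frontier point) or R y' in ball p ε with side ≠ 0.
-/

set_option autoImplicit false

open MeasureTheory Metric Set Pool.H46.Bi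

namespace Pool.H46.Eg

/-- straight steps in a chart -/
private theorem flt_one {U : Set ℂ} (hU : IsOpen U) {p : ℂ} {α : Tor} {ε : ℝ}
    (hc : Chart U p α ε) {u v : ℂ} (hu : u ∈ U) (hub : u ∈ ball p ε) (hvb : v ∈ ball p ε)
    (hs : 0 < side p α u * side p α v) : Stp U Mo.one u v := by
  refine Or.inl ⟨rfl, fun s hs' => ?_⟩
  have hzb : u + s * (v - u) ∈ ball p ε := by
    apply (convex_ball p ε).segment_subset hub hvb
    rw [segment_eq_image']
    exact ⟨s, hs', by simp only [Complex.real_smul]⟩
  refine half_ball hU hc hu hub hzb ?_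
  rw [side_comb]
  have hu0 := side_ne hU hc hu hub
  have ha : 0 < side p α u * side p α u := mul_self_pos.2 hu0
  obtain ⟨h0, h1⟩ := hs'
  have e1 : side p α u * ((1 - s) * side p α u + s * side p α v) =
      (1 - s) * (side p α u * side p α u) + s * (side p α u * side p α v) := by ring
  rw [e1]
  rcases h0.eq_or_lt with h | h
  · rw [← h]
    linarith
  · have h2 : 0 < s * (side p α u * side p α v) := mul_pos h hs
    have h3 : 0 ≤ (1 - s) * (side p α u * side p α u) := mul_nonneg (by linarith) ha.le
    linarith

/-- reflected steps in a chart -/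
private theorem flt_refl {U : Set ℂ} {p : ℂ} {α : Tor} {ε : ℝ}
    (hc : Chart U p α ε) {u v : ℂ} (hu : u ∈ U) (hub : u ∈ ball p ε) (hvb : v ∈ ball p ε)
    (hs : side p α u * side p α v < 0) : Stp U (Mo.refl p α) u v :=
  Or.inr ⟨p, α, ε, hc, rfl, hu, hub, hvb, hs⟩

/-- straight steps in a ball -/
private theorem flt_ball {U : Set ℂ} {x : ℂ} {r : ℝ} (h : ball x r ⊆ U) {u v : ℂ}
    (hu : u ∈ ball x r) (hv : v ∈ ball x r) : Stp U Mo.one u v := by
  refine Or.inl ⟨rfl, fun s hs' => h ?_⟩
  apply (convex_ball x r).segment_subset hu hv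
  rw [segment_eq_image']
  exact ⟨s, hs', by simp only [Complex.real_smul]⟩

theorem flat {U : Set ℂ} (D : Dat U) {x y y' : ℂ} (hx : x ∈ U)
    (h1 : D.K * ‖y - x‖ < infDist x (D.V : Set ℂ)) (h2 : D.K * ‖y' - x‖ < infDist x (D.V : Set ℂ))
    (hy : y ∉ frontier U) (hy' : y' ∉ frontier U) {g : Mo} (hg : Stp U g x y) :
    g.act y' ∉ frontier U ∧ ∃ g' : Mo, Stp U g' (g.act y) (g.act y') ∧
      Stp U (Mo.mul g' g) x y' := by
  have hU : IsOpen U := D.P.isOpen
  have hK : 0 < D.K := lt_of_lt_of_le one_pos D.hK
  have hr : 0 < infDist x (D.V : Set ℂ) / D.K := by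
    refine div_pos (lt_of_le_of_lt ?_ h1) hK
    positivity
  have hyr : y ∈ ball x (infDist x (D.V : Set ℂ) / D.K) := by
    rw [mem_ball, dist_eq_norm, lt_div_iff₀ hK]
    linarith
  have hyr' : y' ∈ ball x (infDist x (D.V : Set ℂ) / D.K) := by
    rw [mem_ball, dist_eq_norm, lt_div_iff₀ hK]
    linarith
  have hxr : x ∈ ball x (infDist x (D.V : Set ℂ) / D.K) := mem_ball_self hr
  rcases D.bc x hx _ hr (by rw [mul_div_cancel₀ _ hK.ne']) with hb | ⟨p, α, ε, hc, hb⟩
  · have hg1 : g = Mo.one := stp_unique hU hg (flt_ball hb hxr hyr)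
    subst hg1
    rw [Mo.one_act, Mo.one_act]
    exact ⟨hy', Mo.one, flt_ball hb hyr hyr', by
      rw [Mo.one_mul']
      exact flt_ball hb hxr hyr'⟩
  · have hxb := hb hxr
    have hyb := hb hyr
    have hyb' := hb hyr'
    have hx0 := side_ne hU hc hx hxb
    have hy0 : side p α y ≠ 0 := fun h => hy ((hc.2 y hyb).2 h)
    have hy0' : side p α y' ≠ 0 := fun h => hy' ((hc.2 y' hyb').2 h)
    have hR : ∀ z ∈ ball p ε, (Mo.refl p α).act z ∈ ball p ε := by
      intro z hz
      rw [mem_ball, dist_eq_norm, Mo.norm_refl_sub, ← dist_eq_norm]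
      exact hz
    rcases lt_or_gt_of_ne (mul_ne_zero hx0 hy0) with hs | hs
    · -- y on the other side
      have hgR : g = Mo.refl p α := stp_unique hU hg (flt_refl hc hx hxb hyb hs)
      subst hgR
      have hsy : side p α ((Mo.refl p α).act y) = -side p α y := side_refl p α y
      have hsy' : side p α ((Mo.refl p α).act y') = -side p α y' := side_refl p α y'
      have hRyU : (Mo.refl p α).act y ∈ U := by
        refine half_ball hU hc hx hxb (hR y hyb) ?_
        rw [hsy]
        linarith [mul_neg (side p α x) (side p α y)]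
      refine ⟨fun h => ?_, ?_⟩
      · have := (hc.2 _ (hR y' hyb')).1 h
        rw [hsy'] at this
        exact hy0' (by linarith)
      · rcases lt_or_gt_of_ne (mul_ne_zero hx0 hy0') with hs' | hs'
        · -- y' on the other side
          refine ⟨Mo.one, flt_one hU hc hRyU (hR y hyb) (hR y' hyb') ?_, ?_⟩
          · rw [hsy, hsy']
            have h3 : 0 < (side p α x * side p α y) * (side p α x * side p α y') :=
              mul_pos_of_neg_of_neg hs hs'
            have h4 : 0 < side p α x * side p α x := mul_self_pos.2 hx0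
            have h5 : (side p α x * side p α y) * (side p α x * side p α y') =
              (side p α x * side p α x) * (-side p α y * -side p α y') := by ring
            rw [h5] at h3
            exact (pos_iff_pos_of_mul_pos h3).1 h4
          · rw [Mo.one_mul']
            exact flt_refl hc hx hxb hyb' hs'
        · refine ⟨Mo.refl p α, flt_refl hc hRyU (hR y hyb) (hR y' hyb') ?_, ?_⟩
          · rw [hsy, hsy']
            have h3 : (side p α x * side p α y) * (side p α x * side p α y') < 0 :=
              mul_neg_of_neg_of_pos hs hs'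
            have h4 : 0 < side p α x * side p α x := mul_self_pos.2 hx0
            have h5 : (side p α x * side p α y) * (side p α x * side p α y') =
              (side p α x * side p α x) * (-side p α y * -side p α y') := by ring
            rw [h5] at h3
            exact neg_of_mul_neg_right h3 h4.le
          · rw [Mo.refl_refl]
            exact flt_one hU hc hx hxb hyb' hs'
    · -- y on the side of x
      have hg1 : g = Mo.one := stp_unique hU hg (flt_one hU hc hx hxb hyb hs)
      subst hg1
      rw [Mo.one_act, Mo.one_act]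
      have hyU : y ∈ U := half_ball hU hc hx hxb hyb hs
      refine ⟨hy', ?_⟩
      rcases lt_or_gt_of_ne (mul_ne_zero hx0 hy0') with hs' | hs'
      · refine ⟨Mo.refl p α, flt_refl hc hyU hyb hyb' ?_, ?_⟩
        · have h3 : (side p α x * side p α y) * (side p α x * side p α y') < 0 :=
            mul_neg_of_pos_of_neg hs hs'
          have h4 : 0 < side p α x * side p α x := mul_self_pos.2 hx0
          have h5 : (side p α x * side p α y) * (side p α x * side p α y') =
            (side p α x * side p α x) * (side p α y * side p α y') := by ring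
          rw [h5] at h3
          exact neg_of_mul_neg_right h3 h4.le
        · rw [Mo.mul_one']
          exact flt_refl hc hx hxb hyb' hs'
      · refine ⟨Mo.one, flt_one hU hc hyU hyb hyb' ?_, ?_⟩
        · have h3 : 0 < (side p α x * side p α y) * (side p α x * side p α y') := mul_pos hs hs'
          have h4 : 0 < side p α x * side p α x := mul_self_pos.2 hx0
          have h5 : (side p α x * side p α y) * (side p α x * side p α y') =
            (side p α x * side p α x) * (side p α y * side p α y') := by ring
          rw [h5] at h3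
          exact (pos_iff_pos_of_mul_pos h3).1 h4
        · rw [Mo.one_mul']
          exact flt_one hU hc hx hxb hyb' hs'

end Pool.H46.Eg
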