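import Pool.Agent.H46.Eg.Geo2

/-!
# [H46 EG GEO3] charts at the scale of the distance from the vertices (50-80 lines)
For v ∈ V take R v, c v from `near_vertex`; for p in the frontier, p ∉ V, with ‖p - v‖ < R v for some v: chart of radius c v ‖p - v‖ ≥ c v infDist p V
(`infDist_le_dist_of_mem`).  The set of the p in the frontier with ‖p - v‖ ≥ R v for all v ∈ V is compact (the frontier is bounded: `hP.bdd`) and contains no
point of V ⊇ V0 U: ε1 from `unif_chart`; `infDist p V ≤ D` there, so radius ε1 ≥ (ε1 / D) infDist p V.  c = the minimum of the c v and of ε1 / (D + 1);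
`chart_mono` (`0 < infDist p V`: V is finite, so closed, nonempty, p ∉ V).
-/

set_option autoImplicit false

open MeasureTheory Metric Set Pool.H46.Bi

namespace Pool.H46.Eg

theorem chart_scale {U : Set ℂ} (hP : Bi.Poly U) (V : Finset ℂ) (hne : V.Nonempty)
    (hV : V0 U ⊆ V) : ∃ c : ℝ, 0 < c ∧ ∀ p ∈ frontier U, p ∉ V →
      ∃ α : Tor, Chart U p α (c * infDist p (V : Set ℂ)) := by
  classical
  choose R c hR hc hch using fun v : ℂ => near_vertex hP V hV v
  have hfc : IsCompact (frontier U) := by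
    refine Metric.isCompact_of_isClosed_isBounded isClosed_frontier ?_
    exact hP.bdd.closure.subset frontier_subset_closure
  have hCc : IsCompact {p | p ∈ frontier U ∧ ∀ v ∈ V, R v ≤ ‖p - v‖} := by
    have hcl : IsClosed {p : ℂ | ∀ v ∈ V, R v ≤ ‖p - v‖} := by
      have : {p : ℂ | ∀ v ∈ V, R v ≤ ‖p - v‖} = ⋂ v ∈ V, {p : ℂ | R v ≤ ‖p - v‖} := by
        ext p
        simp
      rw [this]
      exact isClosed_biInter fun v _ => isClosed_le continuous_const (by fun_prop)
    exact hfc.inter_right hcl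
  obtain ⟨ε1, hε1, hun⟩ := unif_chart hCc (fun z hz => hz.1) (fun z hz hzV => by
    have h1 := hz.2 z (hV hzV)
    have h2 := hR z
    rw [sub_self, norm_zero] at h1
    linarith)
  obtain ⟨D, hD⟩ : ∃ D : ℝ, ∀ p ∈ frontier U, infDist p (V : Set ℂ) ≤ D := by
    obtain ⟨D, hD⟩ := (hfc.image (continuous_infDist_pt (V : Set ℂ))).bddAbove
    exact ⟨D, fun p hp => hD ⟨p, hp, rfl⟩⟩
  obtain ⟨v0, hv0, hmin⟩ := V.exists_min_image c hne
  have hD0 : 0 < max D 0 + 1 := by positivity
  refine ⟨min (c v0) (ε1 / (max D 0 + 1)), lt_min (hc v0) (by positivity), ?_⟩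
  intro p hp hpV
  have hpos : 0 < infDist p (V : Set ℂ) :=
    (V.finite_toSet.isClosed.notMem_iff_infDist_pos hne).1 hpV
  have hm : 0 < min (c v0) (ε1 / (max D 0 + 1)) := lt_min (hc v0) (by positivity)
  by_cases h : ∃ v ∈ V, ‖p - v‖ < R v
  · obtain ⟨v, hv, hpv⟩ := h
    have hne' : p ≠ v := fun h => hpV (h ▸ hv)
    obtain ⟨α, hα⟩ := hch v p hp hne' hpv
    refine ⟨α, chart_mono hα (mul_pos hm hpos) ?_⟩
    have h1 : infDist p (V : Set ℂ) ≤ ‖p - v‖ := by
      rw [← dist_eq_norm]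
      exact infDist_le_dist_of_mem (Finset.mem_coe.2 hv)
    exact mul_le_mul ((min_le_left _ _).trans (hmin v hv)) h1 hpos.le (hc v).le
  · push Not at h
    obtain ⟨α, hα⟩ := hun p ⟨hp, h⟩
    refine ⟨α, chart_mono hα (mul_pos hm hpos) ?_⟩
    have h1 : infDist p (V : Set ℂ) ≤ max D 0 + 1 :=
      (hD p hp).trans ((le_max_left _ _).trans (by linarith))
    calc min (c v0) (ε1 / (max D 0 + 1)) * infDist p (V : Set ℂ)
        ≤ ε1 / (max D 0 + 1) * (max D 0 + 1) :=
          mul_le_mul (min_le_right _ _) h1 hpos.le (by positivity)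
      _ = ε1 := div_mul_cancel₀ _ hD0.ne'

end Pool.H46.Eg
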