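import Pool.Agent.H46.Bi.Cne
import Pool.Agent.H46.Bi.Mea

/-!
# [H46 EG GEO1] uniform charts on compact sets (50-80 lines)
Notation: `V0 U` is the set of the frontier points without chart, all in Pool.H46.Bi (Bi/Base.lean, `sub_chart` in Bi/Half.lean).
`chart_move`: for `z ∈ ball p (ε/2)` with `side p α z = 0`: `side z α w = side p α w` for all w (first part of `sub_chart`), and
`ball z (ε/2) ⊆ ball p ε`.
`unif_chart`: for q ∈ C take a chart (q, α q, ε q) (q is a frontier point outside `V0 U`); the balls `ball q (ε q / 2)` cover C;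
finite subcover (`IsCompact.elim_nhds_subcover'` or `elim_finite_subcover`), ε0 = the smallest ε q / 2 (or 1 if there is none); a point of C in `ball q (ε q / 2)` is
in the frontier, so on the line; `chart_move` and `chart_mono`.
-/

set_option autoImplicit false

open MeasureTheory Metric Set Pool.H46.Bi

namespace Pool.H46.Eg

theorem chart_mono {U : Set ℂ} {p : ℂ} {α : Tor} {ε ε' : ℝ} (h : Chart U p α ε) (h0 : 0 < ε')
    (hle : ε' ≤ ε) : Chart U p α ε' := ⟨h0, fun z hz => h.2 z (ball_subset_ball hle hz)⟩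

theorem chart_move {U : Set ℂ} {p : ℂ} {α : Tor} {ε : ℝ} (h : Chart U p α ε) {z : ℂ}
    (hz : z ∈ ball p (ε / 2)) (hs : side p α z = 0) : Chart U z α (ε / 2) := by
  refine ⟨by linarith [h.1], fun w hw => ?_⟩
  have h1 : side z α w = side p α w := by
    have h2 : side z α w = side p α w - side p α z := by
      unfold side
      rw [← Complex.sub_im]
      congr 1
      ring
    rw [h2, hs, sub_zero]
  have h3 : w ∈ ball p ε := by
    rw [mem_ball] at hw hz ⊢
    have := dist_triangle w z p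
    linarith
  rw [h1]
  exact h.2 w h3

theorem unif_chart {U : Set ℂ} {C : Set ℂ} (hC : IsCompact C)
    (hF : C ⊆ frontier U) (hV : ∀ z ∈ C, z ∉ V0 U) :
    ∃ ε : ℝ, 0 < ε ∧ ∀ p ∈ C, ∃ α : Tor, Chart U p α ε := by
  have h1 : ∀ q : C, ∃ (α : Tor) (ε : ℝ), Chart U (q : ℂ) α ε := by
    intro q
    by_contra hcon
    exact hV q q.2 ⟨hF q.2, hcon⟩
  choose α ε hch using h1
  obtain ⟨t, ht⟩ := hC.elim_nhds_subcover' (fun x hx => ball x (ε ⟨x, hx⟩ / 2))
    (fun x hx => ball_mem_nhds x (by linarith [(hch ⟨x, hx⟩).1]))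
  have hmin : ∃ r : ℝ, 0 < r ∧ ∀ q ∈ t, r ≤ ε q / 2 := by
    by_cases hne : t.Nonempty
    · obtain ⟨q0, hq0, hm⟩ := Finset.exists_min_image t (fun q => ε q / 2) hne
      exact ⟨ε q0 / 2, by linarith [(hch q0).1], hm⟩
    · rw [Finset.not_nonempty_iff_eq_empty] at hne
      exact ⟨1, one_pos, fun q hq => by rw [hne] at hq; exact absurd hq (Finset.notMem_empty q)⟩
  obtain ⟨r, hr, hrm⟩ := hmin
  refine ⟨r, hr, fun p hp => ?_⟩
  have h2 := ht hp
  simp only [mem_iUnion] at h2
  obtain ⟨q, hq, hpq⟩ := h2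
  refine ⟨α q, ?_⟩
  have h3 : side (q : ℂ) (α q) p = 0 := by
    refine ((hch q).2 p ?_).1 (hF hp)
    refine ball_subset_ball ?_ hpq
    linarith [(hch q).1]
  exact chart_mono (chart_move (hch q) hpq h3) hr (hrm q hq)

end Pool.H46.Eg
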