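import Pool.Agent.H46.Eg.Geo1

/-!
# [H46 EG GEO2] charts near a vertex (60-90 lines)
`cone_exists`, `cone_mono` (Bi/Cne.lean), `V0_finite` (Bi/Geo.lean).  R a cone radius of v such that v is the only point of V in `ball v R`
(or there is none).  C = frontier ∩ sphere v (R/2) is compact and contains no point of V; ε0 from `unif_chart`, ε0 ≤ R/4 without loss (`chart_mono`).
For p in the frontier, `0 < ‖p - v‖ < R/2` put `s = (R/2) / ‖p - v‖ ≥ 1`, p' = v + s (p - v) ∈ C (`Cone`), chart (p', α, ε0).  Then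
(p, α, ε0 / s) is a chart: for `z ∈ ball p (ε0/s)` the point z' = v + s (z - v) is in `ball p' ε0 ⊆ ball v R`, z is in `ball v R`, so z is a
frontier point iff z' is one (`Cone` with s, and with 1/s), iff `side p' α z' = 0`, and `side p' α z' = s * side p α z`.  So c = ε0 / (R/2)
(`ε0 / s = c ‖p - v‖`), and the R of the statement is R/2.
-/

set_option autoImplicit false

open MeasureTheory Metric Set Pool.H46.Bi

namespace Pool.H46.Eg

theorem near_vertex {U : Set ℂ} (hP : Bi.Poly U) (V : Finset ℂ) (hV : V0 U ⊆ V) (v : ℂ) :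
    ∃ R c : ℝ, 0 < R ∧ 0 < c ∧ ∀ p ∈ frontier U, p ≠ v → ‖p - v‖ < R →
      ∃ α : Tor, Chart U p α (c * ‖p - v‖) := by
  classical
  obtain ⟨R1, hR1⟩ := cone_exists hP v
  obtain ⟨R2, hR2, hR2'⟩ : ∃ R2 : ℝ, 0 < R2 ∧ ∀ w ∈ V, w ≠ v → R2 ≤ ‖w - v‖ := by
    have h1 : IsOpen (((V.erase v : Finset ℂ) : Set ℂ)ᶜ) := (V.erase v).finite_toSet.isClosed.isOpen_compl
    have h2 : v ∈ ((V.erase v : Finset ℂ) : Set ℂ)ᶜ := by simp
    obtain ⟨r, hr, hr'⟩ := Metric.isOpen_iff.1 h1 v h2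
    refine ⟨r, hr, fun w hw hwv => ?_⟩
    by_contra hcon
    push Not at hcon
    have h3 : w ∈ ball v r := by rw [mem_ball, dist_eq_norm]; exact hcon
    have h4 := hr' h3
    apply h4
    rw [Finset.mem_coe, Finset.mem_erase]
    exact ⟨hwv, hw⟩
  obtain ⟨R, hR⟩ : ∃ R : ℝ, R = min R1 R2 := ⟨_, rfl⟩
  have hR0 : 0 < R := by rw [hR]; exact lt_min hR1.1 hR2
  have hcone : Cone U v R := cone_mono hR1 hR0 (by rw [hR]; exact min_le_left _ _)
  have hRV : ∀ w ∈ V, w ≠ v → R ≤ ‖w - v‖ := fun w hw hwv =>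
    (by rw [hR]; exact min_le_right _ _ : R ≤ R2).trans (hR2' w hw hwv)
  have hC : IsCompact (frontier U ∩ sphere v (R / 2)) :=
    (isCompact_sphere v (R / 2)).inter_left isClosed_frontier
  obtain ⟨ε0, hε0, hch⟩ := unif_chart hC inter_subset_left (by
    rintro z ⟨_, hz2⟩ hz3
    rw [mem_sphere, dist_eq_norm] at hz2
    have h1 : z ≠ v := by
      intro h
      rw [h, sub_self, norm_zero] at hz2
      linarith
    have h2 := hRV z (hV hz3) h1
    linarith)
  obtain ⟨ε1, hε1⟩ : ∃ ε1 : ℝ, ε1 = min ε0 (R / 4) := ⟨_, rfl⟩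
  have hε10 : 0 < ε1 := by rw [hε1]; exact lt_min hε0 (by linarith)
  have hε1a : ε1 ≤ ε0 := by rw [hε1]; exact min_le_left _ _
  have hε1b : ε1 ≤ R / 4 := by rw [hε1]; exact min_le_right _ _
  refine ⟨R / 2, ε1 / (R / 2), by linarith, by positivity, fun p hp hpv hpR => ?_⟩
  have hn0 : 0 < ‖p - v‖ := norm_pos_iff.2 (sub_ne_zero.2 hpv)
  obtain ⟨s, hs⟩ : ∃ s : ℝ, s = (R / 2) / ‖p - v‖ := ⟨_, rfl⟩
  have hs1 : 1 < s := by rw [hs, lt_div_iff₀ hn0]; linarith
  have hs0 : 0 < s := by linarith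
  have hsn : s * ‖p - v‖ = R / 2 := by rw [hs, div_mul_cancel₀ _ hn0.ne']
  have hrad : ε1 / (R / 2) * ‖p - v‖ = ε1 / s := by
    rw [hs]
    field_simp
  have hsc : (s : ℂ) ≠ 0 := by exact_mod_cast hs0.ne'
  have hnorm : ∀ w : ℂ, ‖(s : ℂ) * w‖ = s * ‖w‖ := by
    intro w
    rw [norm_mul, Complex.norm_real, Real.norm_eq_abs, abs_of_pos hs0]
  have hp'n : ‖(v + s * (p - v)) - v‖ = R / 2 := by
    rw [add_sub_cancel_left, hnorm, hsn]
  have hpb : p ∈ ball v R := by rw [mem_ball, dist_eq_norm]; linarith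
  have hp'b : v + s * (p - v) ∈ ball v R := by rw [mem_ball, dist_eq_norm, hp'n]; linarith
  have hp'f : v + s * (p - v) ∈ frontier U := hcone.2 p hpb s hs0 hp'b hp
  obtain ⟨α, hα⟩ := hch (v + s * (p - v)) ⟨hp'f, by rw [mem_sphere, dist_eq_norm, hp'n]⟩
  refine ⟨α, ?_⟩
  rw [hrad]
  refine ⟨by positivity, fun z hz => ?_⟩
  rw [mem_ball, dist_eq_norm, lt_div_iff₀ hs0] at hz
  have hz' : ‖(v + s * (z - v)) - (v + s * (p - v))‖ < ε1 := by
    have : (v + s * (z - v)) - (v + s * (p - v)) = (s : ℂ) * (z - p) := by ring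
    rw [this, hnorm]
    linarith
  have hz'b : v + s * (z - v) ∈ ball v R := by
    rw [mem_ball, dist_eq_norm]
    have : (v + s * (z - v)) - v = ((v + s * (z - v)) - (v + s * (p - v))) + ((v + s * (p - v)) - v) := by ring
    rw [this]
    refine (norm_add_le _ _).trans_lt ?_
    rw [hp'n]
    linarith
  have hzb : z ∈ ball v R := by
    rw [mem_ball, dist_eq_norm] at hz'b ⊢
    rw [add_sub_cancel_left, hnorm] at hz'b
    nlinarith [norm_nonneg (z - v)]
  have hback : v + ((1 / s : ℝ) : ℂ) * ((v + s * (z - v)) - v) = z := by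
    push_cast
    field_simp
    ring
  have h1 : z ∈ frontier U ↔ v + s * (z - v) ∈ frontier U := by
    constructor
    · exact fun h => hcone.2 z hzb s hs0 hz'b h
    · intro h
      have h2 := hcone.2 (v + s * (z - v)) hz'b (1 / s) (by positivity) (by rw [hback]; exact hzb) h
      rwa [hback] at h2
  rw [h1, hα.2 (v + s * (z - v)) (by
    rw [mem_ball, dist_eq_norm]
    linarith)]
  have h3 : side (v + s * (p - v)) α (v + s * (z - v)) = s * side p α z := by
    unfold side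
    rw [← Complex.im_ofReal_mul]
    congr 1
    ring
  rw [h3]
  constructor
  · intro h
    rcases mul_eq_zero.1 h with h | h
    · exact absurd h hs0.ne'
    · exact h
  · intro h
    rw [h, mul_zero]

end Pool.H46.Eg
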