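import Pool.Agent.H46.Bi.Opn
import Pool.Agent.H46.Bi.Mea

/-!
# [H46 EG HIT] the two sided hitting time (50-80 lines)
`Hit ρ t q`: the trajectory of q is at time t within ρ of V.  `Hit2` two sided.  `Wr ρ T`: hit in time less than T.
`hit_open`: union over g of open sets (`reach_isOpen`; the end point depends continuously on q).  `wr_open` a union of open sets (opp is continuous).
`tau_lt_iff`: `csInf_lt_iff` (bounded below by min T 0: `Reach.nonneg`; the set contains T).  `tau_meas`: `measurable_of_Iio`: {tau < r} is `Wr r` or everything.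
`tau_zero`: Hit at time 0 (`Reach.str`).
-/

set_option autoImplicit false

open MeasureTheory Metric Set Pool.H46.Bi

namespace Pool.H46.Eg

/-- the opposite state -/
noncomputable def opp (q : ℂ × Tor) : ℂ × Tor := (q.1, q.2 + ((Real.pi : ℝ) : Tor))

/-- at time t the trajectory is within ρ of V -/
def Hit (U : Set ℂ) (V : Finset ℂ) (ρ t : ℝ) (q : ℂ × Tor) : Prop :=
  ∃ g, Reach U t g q.1 q.2 ∧ infDist (g.act (q.1 + t * e q.2)) (V : Set ℂ) < ρ

/-- two sided -/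
def Hit2 (U : Set ℂ) (V : Finset ℂ) (ρ t : ℝ) (q : ℂ × Tor) : Prop :=
  Hit U V ρ t q ∨ Hit U V ρ t (opp q)

/-- the states which hit in time less than T -/
def Wr (U : Set ℂ) (V : Finset ℂ) (ρ T : ℝ) : Set (ℂ × Tor) := {q | ∃ t, t < T ∧ Hit2 U V ρ t q}

/-- the hitting time, at most T -/
noncomputable def tau (U : Set ℂ) (V : Finset ℂ) (ρ T : ℝ) (q : ℂ × Tor) : ℝ :=
  sInf (insert T {t | Hit2 U V ρ t q})

theorem opp_opp (q : ℂ × Tor) : opp (opp q) = q := by
  unfold opp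
  refine Prod.ext rfl ?_
  apply e_injective
  simp only
  rw [e_add_pi, e_add_pi, neg_neg]

theorem opp_continuous : Continuous opp := by
  unfold opp
  exact continuous_fst.prodMk (continuous_snd.add continuous_const)

theorem hit_open {U : Set ℂ} (hU : IsOpen U) (V : Finset ℂ) (ρ t : ℝ) :
    IsOpen {q | Hit U V ρ t q} := by
  have h : {q | Hit U V ρ t q} = ⋃ g : Mo, ({q : ℂ × Tor | Reach U t g q.1 q.2} ∩
      {q : ℂ × Tor | infDist (g.act (q.1 + t * e q.2)) (V : Set ℂ) < ρ}) := by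
    ext q
    simp only [mem_setOf_eq, mem_iUnion, mem_inter_iff]
    rfl
  rw [h]
  refine isOpen_iUnion fun g => (reach_isOpen hU t g).inter ?_
  refine isOpen_lt ?_ continuous_const
  refine (continuous_infDist_pt _).comp (g.act_continuous.comp ?_)
  exact continuous_fst.add (continuous_const.mul (e_continuous.comp continuous_snd))

theorem wr_open {U : Set ℂ} (hU : IsOpen U) (V : Finset ℂ) (ρ T : ℝ) :
    IsOpen (Wr U V ρ T) := by
  have h : Wr U V ρ T = ⋃ t : Iio T, ({q | Hit U V ρ t q} ∪ opp ⁻¹' {q | Hit U V ρ t q}) := by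
    ext q
    simp only [mem_iUnion, mem_union, mem_preimage, mem_setOf_eq]
    constructor
    · rintro ⟨t, h1, h2⟩
      exact ⟨⟨t, h1⟩, h2⟩
    · rintro ⟨⟨t, h1⟩, h2⟩
      exact ⟨t, h1, h2⟩
  rw [h]
  exact isOpen_iUnion fun t => (hit_open hU V ρ t).union ((hit_open hU V ρ t).preimage opp_continuous)

theorem hit2_nonneg {U : Set ℂ} {V : Finset ℂ} {ρ t : ℝ} {q : ℂ × Tor} (h : Hit2 U V ρ t q) : 0 ≤ t := by
  rcases h with ⟨g, h, _⟩ | ⟨g, h, _⟩ <;> exact h.nonneg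

theorem tau_bdd {U : Set ℂ} (V : Finset ℂ) (ρ T : ℝ) (q : ℂ × Tor) :
    BddBelow (insert T {t | Hit2 U V ρ t q}) := by
  refine ⟨min T 0, ?_⟩
  rintro s (hs | hs)
  · rw [hs]
    exact min_le_left _ _
  · exact (min_le_right _ _).trans (hit2_nonneg hs)

theorem tau_le_hit {U : Set ℂ} {V : Finset ℂ} {ρ T t : ℝ} {q : ℂ × Tor} (h : Hit2 U V ρ t q) :
    tau U V ρ T q ≤ t :=
  csInf_le (tau_bdd V ρ T q) (Or.inr h)

theorem tau_lt_iff {U : Set ℂ} (V : Finset ℂ) (ρ T : ℝ) {r : ℝ} (hr : r ≤ T)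
    (q : ℂ × Tor) : tau U V ρ T q < r ↔ q ∈ Wr U V ρ r := by
  unfold tau
  rw [csInf_lt_iff (tau_bdd V ρ T q) ⟨T, Or.inl rfl⟩]
  constructor
  · rintro ⟨t, ht | ht, h⟩
    · rw [ht] at h
      exact absurd h (not_lt.2 hr)
    · exact ⟨t, h, ht⟩
  · rintro ⟨t, h, ht⟩
    exact ⟨t, Or.inr ht, h⟩

theorem tau_nonneg {U : Set ℂ} (V : Finset ℂ) (ρ : ℝ) {T : ℝ} (hT : 0 ≤ T) (q : ℂ × Tor) :
    0 ≤ tau U V ρ T q := by
  refine le_csInf ⟨T, Or.inl rfl⟩ ?_
  rintro s (hs | hs)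
  · rw [hs]
    exact hT
  · exact hit2_nonneg hs

theorem tau_le {U : Set ℂ} (V : Finset ℂ) (ρ : ℝ) {T : ℝ} (q : ℂ × Tor) :
    tau U V ρ T q ≤ T :=
  csInf_le (tau_bdd V ρ T q) (Or.inl rfl)

theorem tau_meas {U : Set ℂ} (hU : IsOpen U) (V : Finset ℂ) (ρ T : ℝ) :
    Measurable (tau U V ρ T) := by
  refine measurable_of_Iio fun r => ?_
  rcases le_or_gt r T with h | h
  · have h1 : tau U V ρ T ⁻¹' Iio r = Wr U V ρ r := by
      ext q
      exact tau_lt_iff V ρ T h q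
    rw [h1]
    exact (wr_open hU V ρ r).measurableSet
  · have h1 : tau U V ρ T ⁻¹' Iio r = univ := by
      ext q
      simp only [mem_preimage, mem_Iio, mem_univ, iff_true]
      exact (tau_le V ρ q).trans_lt h
    rw [h1]
    exact MeasurableSet.univ

theorem tau_zero {U : Set ℂ} (V : Finset ℂ) {ρ T : ℝ} (hT : 0 ≤ T) {q : ℂ × Tor}
    (hq : q.1 ∈ U) (h : infDist q.1 (V : Set ℂ) < ρ) : tau U V ρ T q = 0 := by
  refine le_antisymm (tau_le_hit (Or.inl ⟨Mo.one, ?_, ?_⟩)) (tau_nonneg V ρ hT q)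
  · refine Reach.str 0 _ _ le_rfl fun s hs => ?_
    have h1 : s = 0 := le_antisymm hs.2 hs.1
    rw [h1]
    simpa using hq
  · rw [Mo.one_act]
    simpa using h

end Pool.H46.Eg
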