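import Pool.Agent.H46.Bi.Spl
import Pool.Agent.H46.Bi.Rev
import Pool.Agent.H46.Bi.Fix
import Pool.Agent.H46.Bi.Det
import Pool.Agent.H46.Bi.Opn

/-!
# [H46 EG RSP] splitting a trajectory (100-150 lines)
Step 1 (induction on `Reach U t g x θ`): for every r ∈ [0, t]:
 (A) ∃ g', Reach U r g' x θ ∧ ∃ g'', Reach U (t - r) g'' (g'.act (x + r e θ)) (g'.dir θ), or
 (B) 0 < r and ∃ g', g'.act (x + r e θ) ∈ frontier U ∧ ∃ η > 0, η ≤ r, ∀ s ∈ [r - η, r), Reach U s g' x θ.
 `str`: (A) with g' = g'' = 1.
 `bounce` (p, α, ε): z = x + r e θ is in the ball (`ball_line`).  side z * side x > 0: g' = 1 (`seg_mem`), the rest is a bounce from z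
 (z ∈ U: `half_ball`).  side z * side x < 0: g' = refl (`Reach.bounce` for time r), the rest is straight from refl z to refl y (same side,
 `seg_mem`, `Mo.act_line`).  side z = 0: (B) with g' = 1 (z is a frontier point by the chart; the earlier points are on the side of x, `seg_mem`),
 compare the proof of `at_exists` in Bi/Spl.lean.
 `trans` t1, t2: r ≤ t1: the first hypothesis ((A): compose the rest with the second part by `Reach.trans`); r > t1: the second hypothesis for
 r - t1, compose in front (for (B) choose η ≤ r - t1).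
Step 2: if Reach U r g0 x θ holds then (B) is impossible at time r.  Let g', η be as in (B).  Apply step 1 to Reach U r g0 x θ and a time
 s ∈ [r - η, r).  In case (A): Reach U s g1 x θ, so g1 = g' (`reach_det`), and `Reach U (r - s) g2 (g'.act (x + s e θ)) ..`; then
 `g0 = mul g2 g'` (`reach_det` with `Reach.trans`) and `‖g0.act (x + r e θ) - g'.act (x + s e θ)‖ ≤ r - s` (`reach_dist`), while
 `‖g'.act (x + r e θ) - g'.act (x + s e θ)‖ = r - s`.  So `‖g0.act (x + r e θ) - g'.act (x + r e θ)‖ ≤ 2 (r - s)`.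
 In case (B) at time s: g1.act (x + s e θ) ∈ frontier U and Reach U s' g1 x θ for s' < s near s, so g1 = g' (`reach_det` at a common s')
 and g'.act (x + s e θ) ∈ U by `Reach.end_mem`: contradiction.  As s → r: g0.act (x + r e θ) = g'.act (x + r e θ), one is in U
 (`Reach.end_mem`), the other in the frontier: contradiction (U open).
Conclusion: (A) for t, g; the g' of (A) is the given one by `reach_det`; `mul g'' g' = g` by `Reach.trans` and `reach_det`
(`r + (t - r) = t`).
-/

set_option autoImplicit false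

open MeasureTheory Metric Set Pool.H46.Bi

namespace Pool.H46.Eg

/-- the trajectory is split at the time r, or r is a time of collision -/
private def Spt (U : Set ℂ) (t : ℝ) (g : Mo) (x : ℂ) (θ : Tor) (r : ℝ) : Prop :=
  (∃ g' g'' : Mo, Mo.mul g'' g' = g ∧ Reach U r g' x θ ∧
    Reach U (t - r) g'' (g'.act (x + r * e θ)) (g'.dir θ)) ∨
  (∃ g' : Mo, g'.act (x + r * e θ) ∈ frontier U ∧
    ∃ t0 : ℝ, 0 ≤ t0 ∧ t0 < r ∧ ∀ s ∈ Ico t0 r, Reach U s g' x θ)

private theorem spt_all {U : Set ℂ} (hU : IsOpen U) {t : ℝ} {g : Mo} {x : ℂ} {θ : Tor}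
    (h : Reach U t g x θ) : ∀ r : ℝ, 0 ≤ r → r ≤ t → Spt U t g x θ r := by
  induction h with
  | str t x θ ht hs =>
    intro r hr hrt
    refine Or.inl ⟨Mo.one, Mo.one, Mo.one_mul' _, Reach.str r x θ hr fun s hs' =>
      hs s ⟨hs'.1, hs'.2.trans hrt⟩, ?_⟩
    rw [Mo.one_act, Mo.one_dir]
    refine Reach.str _ _ _ (by linarith) fun s hs' => ?_
    have h1 : x + (r : ℂ) * e θ + (s : ℂ) * e θ = x + ((r + s : ℝ) : ℂ) * e θ := by
      push_cast; ring
    rw [h1]
    exact hs _ ⟨by linarith [hs'.1], by linarith [hs'.2]⟩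
  | bounce t x θ p α ε ht hc hx hxb hyb hlt =>
    intro r hr hrt
    have hzb : x + r * e θ ∈ ball p ε := ball_line hxb hyb ⟨hr, hrt⟩
    have ha0 : side p α x ≠ 0 := side_ne hU hc hx hxb
    have hzy : x + (r : ℂ) * e θ + ((t - r : ℝ) : ℂ) * e θ = x + t * e θ := by
      push_cast; ring
    have ha2 : 0 < side p α x * side p α x := mul_self_pos.2 ha0
    rcases lt_trichotomy (side p α x * side p α (x + r * e θ)) 0 with h1 | h1 | h1
    · have hR := Reach.bounce r x θ p α ε hr hc hx hxb hzb h1
      refine Or.inl ⟨Mo.refl p α, Mo.one, Mo.one_mul' _, hR, ?_⟩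
      have hb : ∀ w : ℂ, w ∈ ball p ε → (Mo.refl p α).act w ∈ ball p ε := by
        intro w hw
        rw [mem_ball, dist_eq_norm, Mo.norm_refl_sub]
        rwa [mem_ball, dist_eq_norm] at hw
      have h2 : (Mo.refl p α).act (x + r * e θ) + ((t - r : ℝ) : ℂ) * e ((Mo.refl p α).dir θ) =
          (Mo.refl p α).act (x + t * e θ) := by
        rw [← Mo.act_line, hzy]
      refine Reach.str _ _ _ (by linarith) ?_
      refine seg_mem hU hc (by linarith) (Reach.end_mem hU hR) (hb _ hzb) ?_ ?_
      · rw [h2]; exact hb _ hyb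
      · rw [h2, side_refl, side_refl, neg_mul_neg]
        have h3 : 0 < (side p α x * side p α (x + r * e θ)) *
            (side p α x * side p α (x + t * e θ)) := mul_pos_of_neg_of_neg h1 hlt
        have h4 : (side p α x * side p α (x + r * e θ)) *
            (side p α x * side p α (x + t * e θ)) =
            (side p α x * side p α x) * (side p α (x + r * e θ) * side p α (x + t * e θ)) := by ring
        rw [h4] at h3
        exact (mul_pos_iff_of_pos_left ha2).1 h3
    · have h2 : side p α (x + r * e θ) = 0 := (mul_eq_zero.1 h1).resolve_left ha0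
      have hr0 : 0 < r := by
        rcases hr.lt_or_eq with h | h
        · exact h
        · exfalso
          rw [← h] at h2
          simp at h2
          exact ha0 h2
      refine Or.inr ⟨Mo.one, ?_, 0, le_refl _, hr0, ?_⟩
      · rw [Mo.one_act]
        exact (hc.2 _ hzb).2 h2
      · intro s hs
        have hsb : x + s * e θ ∈ ball p ε := ball_line hxb hyb ⟨hs.1, by linarith [hs.2]⟩
        apply Reach.str s x θ hs.1
        apply seg_mem hU hc hs.1 hx hxb hsb
        rw [side_line] at h2 ⊢
        have h3 : side p α x + s * (e (θ - α)).im = side p α x * ((r - s) / r) := by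
          have h4 : (e (θ - α)).im = - side p α x / r := by
            field_simp; linarith
          rw [h4]; field_simp; ring
        rw [h3]
        have h5 : 0 < (r - s) / r := div_pos (by linarith [hs.2]) hr0
        have h7 := mul_pos ha2 h5
        linarith
    · refine Or.inl ⟨Mo.one, Mo.refl p α, Mo.mul_one' _,
        Reach.str r x θ hr (seg_mem hU hc hr hx hxb hzb h1), ?_⟩
      rw [Mo.one_act, Mo.one_dir]
      refine Reach.bounce _ _ _ p α ε (by linarith) hc (half_ball hU hc hx hxb hzb h1) hzb ?_ ?_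
      · rw [hzy]; exact hyb
      · rw [hzy]
        have h3 : (side p α x * side p α (x + r * e θ)) *
            (side p α x * side p α (x + t * e θ)) < 0 := mul_neg_of_pos_of_neg h1 hlt
        have h4 : (side p α x * side p α (x + r * e θ)) *
            (side p α x * side p α (x + t * e θ)) =
            (side p α x * side p α x) * (side p α (x + r * e θ) * side p α (x + t * e θ)) := by ring
        rw [h4] at h3
        by_contra hcon
        have h5 := mul_nonneg ha2.le (not_lt.1 hcon)
        linarith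
  | trans t t' g g' x θ h1 h2 ih1 ih2 =>
    intro r hr hrt
    rcases le_or_gt r t with hle | hgt
    · rcases ih1 r hr hle with ⟨ga, gb, hab, hga, hgb⟩ | hB
      · refine Or.inl ⟨ga, Mo.mul g' gb, ?_, hga, ?_⟩
        · rw [← Mo.mul_assoc', hab]
        · have h3 : t + t' - r = (t - r) + t' := by ring
          rw [h3]
          refine Reach.trans _ _ _ _ _ _ hgb ?_
          have h4 : gb.act (ga.act (x + r * e θ) + ((t - r : ℝ) : ℂ) * e (ga.dir θ)) =
              g.act (x + t * e θ) := by
            rw [← Mo.act_line, ← Mo.mul_act, hab]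
            congr 1
            push_cast; ring
          have h5 : gb.dir (ga.dir θ) = g.dir θ := by
            rw [← Mo.mul_dir, hab]
          rw [h4, h5]
          exact h2
      · exact Or.inr hB
    · have hpt : ∀ (gc : Mo) (s : ℝ), (Mo.mul gc g).act (x + s * e θ) =
          gc.act (g.act (x + t * e θ) + ((s - t : ℝ) : ℂ) * e (g.dir θ)) := by
        intro gc s
        rw [Mo.mul_act, ← Mo.act_line]
        congr 2
        push_cast; ring
      rcases ih2 (r - t) (by linarith) (by linarith) with ⟨gc, gd, hcd, hgc, hgd⟩ | ⟨gc, hfr, t0, ht0, ht0r, hgc⟩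
      · refine Or.inl ⟨Mo.mul gc g, gd, ?_, ?_, ?_⟩
        · rw [Mo.mul_assoc', hcd]
        · have h3 := Reach.trans _ _ _ _ _ _ h1 hgc
          have h4 : t + (r - t) = r := by ring
          rw [h4] at h3
          exact h3
        · rw [hpt, Mo.mul_dir]
          have h4 : t + t' - r = t' - (r - t) := by ring
          rw [h4]
          exact hgd
      · refine Or.inr ⟨Mo.mul gc g, ?_, t + t0, by linarith [h1.nonneg], by linarith, ?_⟩
        · rw [hpt]
          exact hfr
        · intro s hs
          have h3 := Reach.trans _ _ _ _ _ _ h1 (hgc (s - t) ⟨by linarith [hs.1], by linarith [hs.2]⟩)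
          have h4 : t + (s - t) = s := by ring
          rw [h4] at h3
          exact h3

private theorem no_coll {U : Set ℂ} (hU : IsOpen U) {r : ℝ} {g0 g' : Mo} {x : ℂ} {θ : Tor}
    (h : Reach U r g0 x θ) (hfr : g'.act (x + r * e θ) ∈ frontier U) {t0 : ℝ} (ht0r : t0 < r)
    (hs : ∀ s ∈ Ico t0 r, Reach U s g' x θ) : False := by
  have hx := h.start_mem
  obtain ⟨δ, hδ, hball⟩ := Metric.isOpen_iff.1 hU x hx
  -- for small u the trajectory from x - u e θ
  have hc : Continuous (fun u : ℝ => ((x - (u : ℂ) * e θ, θ) : ℂ × Tor)) := by fun_prop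
  have h0 : ((x - ((0 : ℝ) : ℂ) * e θ, θ) : ℂ × Tor) ∈ {q : ℂ × Tor | Reach U r g0 q.1 q.2} := by
    have : x - ((0 : ℝ) : ℂ) * e θ = x := by simp
    rw [this]
    exact h
  have hev : ∀ᶠ u : ℝ in nhds 0, ((x - (u : ℂ) * e θ, θ) : ℂ × Tor) ∈
      {q : ℂ × Tor | Reach U r g0 q.1 q.2} :=
    hc.continuousAt.eventually_mem ((reach_isOpen hU r g0).mem_nhds h0)
  obtain ⟨δ', hδ', hev'⟩ := Metric.eventually_nhds_iff.1 hev
  obtain ⟨u, hu⟩ : ∃ u : ℝ, u = min (min (δ / 2) (δ' / 2)) (r - t0) := ⟨_, rfl⟩
  have hu0 : 0 < u := by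
    rw [hu]
    exact lt_min (lt_min (by linarith) (by linarith)) (by linarith)
  have hu1 : u ≤ δ / 2 := by
    rw [hu]
    exact (min_le_left _ _).trans (min_le_left _ _)
  have hu2 : u ≤ δ' / 2 := by
    rw [hu]
    exact (min_le_left _ _).trans (min_le_right _ _)
  have hu3 : u ≤ r - t0 := by
    rw [hu]
    exact min_le_right _ _
  have hA : Reach U r g0 (x - (u : ℂ) * e θ) θ := by
    refine hev' (y := u) ?_
    rw [Real.dist_eq, sub_zero, abs_of_pos hu0]
    linarith
  have hB : Reach U u Mo.one (x - (u : ℂ) * e θ) θ := by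
    refine Reach.str _ _ _ hu0.le fun s hs' => hball ?_
    have h1 : x - (u : ℂ) * e θ + (s : ℂ) * e θ = x - ((u - s : ℝ) : ℂ) * e θ := by
      push_cast; ring
    rw [h1, mem_ball, dist_eq_norm, sub_sub_cancel_left, norm_neg, norm_mul, norm_e, mul_one,
      Complex.norm_real, Real.norm_eq_abs, abs_of_nonneg (by linarith [hs'.2])]
    linarith [hs'.1]
  have hC : Reach U (u + (r - u)) (Mo.mul g' Mo.one) (x - (u : ℂ) * e θ) θ := by
    refine Reach.trans _ _ _ _ _ _ hB ?_
    rw [Mo.one_act, Mo.one_dir, sub_add_cancel]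
    exact hs _ ⟨by linarith, by linarith⟩
  have h2 : u + (r - u) = r := by ring
  rw [h2, Mo.mul_one'] at hC
  have h3 := reach_det hU hA hC
  rw [← h3, hU.frontier_eq] at hfr
  exact hfr.2 (Reach.end_mem hU h)

theorem reach_split {U : Set ℂ} (hU : IsOpen U) {t r : ℝ} {g g' : Mo} {x : ℂ} {θ : Tor}
    (h : Reach U t g x θ) (h' : Reach U r g' x θ) (hrt : r ≤ t) :
    ∃ g'' : Mo, Mo.mul g'' g' = g ∧ Reach U (t - r) g'' (g'.act (x + r * e θ)) (g'.dir θ) := by
  rcases spt_all hU h r h'.nonneg hrt with ⟨ga, gb, hab, hga, hgb⟩ | ⟨ga, hfr, t0, _, ht0r, hs⟩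
  · have h1 := reach_det hU hga h'
    rw [h1] at hab hgb
    exact ⟨gb, hab, hgb⟩
  · exact (no_coll hU h' hfr ht0r hs).elim

end Pool.H46.Eg
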