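import Pool.Agent.H46.Eg.Hit
import Pool.Agent.H46.Eg.Rsp

/-!
# [H46 EG HITS] the hitting time along a trajectory (60-100 lines)
`hit_shift`: let q' = Phi g r q.  `Hit2 t q'`:
 (1) Hit t q': `Reach.trans` gives Hit (r + t) q.
 (2) Hit t (opp q'): by `reach_rev` Reach U r g.inv (opp q') and Phi g.inv r (opp q') = opp q (`Mo.inv_act_act`, `Mo.inv_dir_dir`, `Mo.act_line`, e(θ + π) = - e θ,
 π + π = 0).  If r ≤ t: `reach_split` (r ≤ t): Hit (t - r) (opp q).  If t < r: `reach_split` of the trajectory of time r at the time t: from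
 w = Phi gh t (opp q') (a hit point) there is a trajectory of time r - t to opp q; `reach_rev`: from opp (opp q) = q in time r - t to opp w, whose
 point is within ρ of V: Hit (r - t) q.
`hit_shift'`: from `hit_shift` for the reversed trajectory: Reach U r g.inv (opp q'), Phi .. = opp q, and Hit2 is invariant under opp (`opp_opp`).
`tau_lip`: for every element t of `insert T ..` of q' there is one ≤ t + r of q (T ≤ T + r): `csInf_le`, `le_csInf`, both directions.
-/

set_option autoImplicit false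

open MeasureTheory Metric Set Pool.H46.Bi

namespace Pool.H46.Eg

private theorem hs_end (g : Mo) (x : ℂ) (t : ℝ) (θ : Tor) :
    g.act (x + t * e θ) + t * e (g.dir θ + ((Real.pi : ℝ) : Tor)) = g.act x := by
  rw [Mo.act_line, e_add_pi]
  ring

private theorem hs_pi (θ : Tor) : θ + ((Real.pi : ℝ) : Tor) + ((Real.pi : ℝ) : Tor) = θ := by
  apply e_injective
  rw [e_add_pi, e_add_pi, neg_neg]

/-- the end point of a composed trajectory -/
private theorem hs_split (g g' : Mo) (x : ℂ) (r t : ℝ) (θ : Tor) :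
    g'.act (g.act (x + r * e θ) + ((t - r : ℝ) : ℂ) * e (g.dir θ)) = (Mo.mul g' g).act (x + t * e θ) := by
  rw [Mo.mul_act]
  congr 1
  have h : x + (t : ℂ) * e θ = (x + r * e θ) + ((t - r : ℝ) : ℂ) * e θ := by
    push_cast
    ring
  rw [h, Mo.act_line g (x + r * e θ) (t - r) θ]

theorem hit_shift {U : Set ℂ} (hU : IsOpen U) (V : Finset ℂ) {ρ r t : ℝ} {g : Mo} {q : ℂ × Tor}
    (h : Reach U r g q.1 q.2) (ht : Hit2 U V ρ t (Phi g r q)) :
    ∃ t' : ℝ, t' ≤ t + r ∧ Hit2 U V ρ t' q := by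
  have hr0 := h.nonneg
  have ht0 := hit2_nonneg ht
  rcases ht with ⟨g', h1, h2⟩ | ⟨g', h1, h2⟩
  · refine ⟨r + t, by linarith, Or.inl ⟨Mo.mul g' g, Reach.trans r t g g' _ _ h h1, ?_⟩⟩
    have h3 := hs_split g g' q.1 r (r + t) q.2
    rw [add_sub_cancel_left] at h3
    rw [← h3]
    exact h2
  · simp only [Phi, opp] at h1 h2
    have h3 := reach_rev hU h
    have e1 : g.inv.act (g.act (q.1 + r * e q.2) + r * e (g.dir q.2 + ((Real.pi : ℝ) : Tor))) = q.1 := by
      rw [hs_end, Mo.inv_act_act]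
    have e2 : g.inv.dir (g.dir q.2 + ((Real.pi : ℝ) : Tor)) = q.2 + ((Real.pi : ℝ) : Tor) := by
      rw [Mo.dir_add_pi, Mo.inv_dir_dir]
    rcases le_or_gt r t with hrt | hrt
    · obtain ⟨g'', h4, h5⟩ := reach_split hU h1 h3 hrt
      rw [e1, e2] at h5
      refine ⟨t - r, by linarith, Or.inr ⟨g'', h5, ?_⟩⟩
      have h6 := hs_split g.inv g'' (g.act (q.1 + r * e q.2)) r t (g.dir q.2 + ((Real.pi : ℝ) : Tor))
      rw [e1, e2, h4] at h6
      simp only [opp]
      rw [h6]
      exact h2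
    · obtain ⟨g'', h4, h5⟩ := reach_split hU h3 h1 hrt.le
      have h6 := reach_rev hU h5
      have h7 := hs_split g' g'' (g.act (q.1 + r * e q.2)) t r (g.dir q.2 + ((Real.pi : ℝ) : Tor))
      rw [h4, e1] at h7
      have h8 : g''.dir (g'.dir (g.dir q.2 + ((Real.pi : ℝ) : Tor))) + ((Real.pi : ℝ) : Tor) = q.2 := by
        rw [← Mo.mul_dir, h4, e2, hs_pi]
      have h9 := hs_end g'' (g'.act (g.act (q.1 + r * e q.2) + t * e (g.dir q.2 + ((Real.pi : ℝ) : Tor))))
        (r - t) (g'.dir (g.dir q.2 + ((Real.pi : ℝ) : Tor)))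
      rw [h7, h8] at h6 h9
      refine ⟨r - t, by linarith, Or.inl ⟨g''.inv, h6, ?_⟩⟩
      rw [h9, Mo.inv_act_act]
      exact h2

theorem hit2_opp {U : Set ℂ} {V : Finset ℂ} {ρ t : ℝ} {q : ℂ × Tor} (h : Hit2 U V ρ t q) :
    Hit2 U V ρ t (opp q) := by
  rcases h with h | h
  · exact Or.inr (by rw [opp_opp]; exact h)
  · exact Or.inl h

theorem hit_shift' {U : Set ℂ} (hU : IsOpen U) (V : Finset ℂ) {ρ r t : ℝ} {g : Mo}
    {q : ℂ × Tor} (h : Reach U r g q.1 q.2) (ht : Hit2 U V ρ t q) :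
    ∃ t' : ℝ, t' ≤ t + r ∧ Hit2 U V ρ t' (Phi g r q) := by
  have h1 : Reach U r g.inv (opp (Phi g r q)).1 (opp (Phi g r q)).2 := reach_rev hU h
  have h2 : Phi g.inv r (opp (Phi g r q)) = opp q := by
    simp only [Phi, opp]
    refine Prod.ext ?_ ?_
    · simp only
      rw [hs_end, Mo.inv_act_act]
    · simp only
      rw [Mo.dir_add_pi, Mo.inv_dir_dir]
  obtain ⟨t', h3, h4⟩ := hit_shift hU V h1 (by rw [h2]; exact hit2_opp ht)
  refine ⟨t', h3, ?_⟩
  have h5 := hit2_opp h4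
  rwa [opp_opp] at h5

theorem tau_lip {U : Set ℂ} (hU : IsOpen U) (V : Finset ℂ) {ρ r T : ℝ} {g : Mo}
    {q : ℂ × Tor} (h : Reach U r g q.1 q.2) :
    |tau U V ρ T (Phi g r q) - tau U V ρ T q| ≤ r := by
  have hr0 := h.nonneg
  have h1 : tau U V ρ T (Phi g r q) - r ≤ tau U V ρ T q := by
    refine le_csInf ⟨T, Or.inl rfl⟩ ?_
    rintro s (hs | hs)
    · rw [hs]
      have := tau_le (U := U) V ρ (T := T) (Phi g r q)
      linarith
    · obtain ⟨t', h2, h3⟩ := hit_shift' hU V h hs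
      have := tau_le_hit (T := T) h3
      linarith
  have h2 : tau U V ρ T q - r ≤ tau U V ρ T (Phi g r q) := by
    refine le_csInf ⟨T, Or.inl rfl⟩ ?_
    rintro s (hs | hs)
    · rw [hs]
      have := tau_le (U := U) V ρ (T := T) q
      linarith
    · obtain ⟨t', h2, h3⟩ := hit_shift hU V h hs
      have := tau_le_hit (T := T) h3
      linarith
  rw [abs_le]
  constructor <;> linarith

end Pool.H46.Eg
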