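import Pool.Agent.H46.Bi.Cnt
import Pool.Agent.H46.Bi.Mea

/-!
# [H46 EG NMU] the measure of the states near V (40-70 lines)
`near_meas`: the set is contained in the union over v ∈ V of `ball v r ×ˢ univ`; `infDist x V < r` gives v ∈ V with ‖x - v‖ < r
(`infDist_lt_iff`, V finite nonempty), area `π r²` (`Complex.volume_ball`), length of Tor: a constant.
`near_reach`: the set is the union over the generated g (`Reach.gen`, `gen_countable`) of {Reach g} ∩ Phi g T ⁻¹' N, N = {infDist < r}; `measure_iUnion_le`,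
`push_le` with F = indicator of N.
-/

set_option autoImplicit false

open MeasureTheory Metric Set Pool.H46.Bi

namespace Pool.H46.Eg

theorem near_meas (V : Finset ℂ) (hV : V.Nonempty) : ∃ C : ℝ, 0 ≤ C ∧ ∀ r : ℝ, 0 ≤ r →
    (volume : Measure (ℂ × Tor)) {q | infDist q.1 (V : Set ℂ) < r} ≤ ENNReal.ofReal (C * r ^ 2) := by
  obtain ⟨c, hc⟩ : ∃ c : ℝ, c = (volume (univ : Set Tor)).toReal := ⟨_, rfl⟩
  have hc0 : 0 ≤ c := by rw [hc]; exact ENNReal.toReal_nonneg
  have hfin : volume (univ : Set Tor) ≠ ⊤ := by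
    rw [AddCircle.measure_univ]
    exact ENNReal.ofReal_ne_top
  have hcu : volume (univ : Set Tor) = ENNReal.ofReal c := by
    rw [hc]
    exact (ENNReal.ofReal_toReal hfin).symm
  refine ⟨(V.card : ℝ) * (Real.pi * c), mul_nonneg (Nat.cast_nonneg _) (mul_nonneg Real.pi_pos.le hc0), ?_⟩
  intro r hr
  have hsub : {q : ℂ × Tor | infDist q.1 (V : Set ℂ) < r} ⊆ ⋃ v ∈ V, ball v r ×ˢ (univ : Set Tor) := by
    intro q hq
    rw [mem_ofPred_eq, infDist_lt_iff (by exact_mod_cast hV)] at hq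
    obtain ⟨v, hv, hd⟩ := hq
    rw [mem_iUnion₂]
    refine ⟨v, by exact_mod_cast hv, ?_⟩
    exact ⟨mem_ball.2 hd, mem_univ _⟩
  refine (measure_mono hsub).trans ((measure_biUnion_finset_le _ _).trans ?_)
  have h1 : ∀ v ∈ V, (volume : Measure (ℂ × Tor)) (ball v r ×ˢ (univ : Set Tor)) = ENNReal.ofReal (r ^ 2 * (Real.pi * c)) := by
    intro v _
    rw [Measure.volume_eq_prod, Measure.prod_prod, Complex.volume_ball, hcu, ENNReal.ofReal_mul (by positivity),
      ENNReal.ofReal_mul Real.pi_pos.le, ENNReal.ofReal_pow hr, mul_assoc]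
    congr 2
    rw [← NNReal.coe_real_pi, ENNReal.ofReal_coe_nnreal]
  rw [Finset.sum_congr rfl h1, Finset.sum_const, nsmul_eq_mul]
  rw [show (V.card : ℝ) * (Real.pi * c) * r ^ 2 = (V.card : ℝ) * (r ^ 2 * (Real.pi * c)) by ring,
    ENNReal.ofReal_mul (Nat.cast_nonneg _), ENNReal.ofReal_natCast]

theorem near_reach {U : Set ℂ} (hP : Bi.Poly U) (V : Finset ℂ) (T r : ℝ) :
    (volume : Measure (ℂ × Tor)) {q | ∃ g, Reach U T g q.1 q.2 ∧
      infDist (g.act (q.1 + T * e q.2)) (V : Set ℂ) < r} ≤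
      (volume : Measure (ℂ × Tor)) {q | infDist q.1 (V : Set ℂ) < r} := by
  classical
  have : Countable {g : Mo // Gen U g} := (gen_countable hP).to_subtype
  obtain ⟨N, hN⟩ : ∃ N : Set (ℂ × Tor), N = {q : ℂ × Tor | infDist q.1 (V : Set ℂ) < r} := ⟨_, rfl⟩
  have hNm : MeasurableSet N := by
    rw [hN]
    exact (isOpen_lt ((continuous_infDist_pt _).comp continuous_fst) continuous_const).measurableSet
  rw [← hN]
  have hsub : {q : ℂ × Tor | ∃ g, Reach U T g q.1 q.2 ∧ infDist (g.act (q.1 + T * e q.2)) (V : Set ℂ) < r} ⊆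
      ⋃ g : {g : Mo // Gen U g}, ({q : ℂ × Tor | Reach U T g.1 q.1 q.2} ∩ Phi g.1 T ⁻¹' N) := by
    rintro q ⟨g, hg, hd⟩
    rw [mem_iUnion]
    refine ⟨⟨g, hg.gen⟩, hg, ?_⟩
    rw [hN]
    exact hd
  refine (measure_mono hsub).trans ((measure_iUnion_le _).trans ?_)
  have h1 := push_le hP T (N.indicator 1) (measurable_one.indicator hNm)
  have h2 : ∀ g : {g : Mo // Gen U g}, (volume : Measure (ℂ × Tor)) ({q : ℂ × Tor | Reach U T g.1 q.1 q.2} ∩ Phi g.1 T ⁻¹' N) =
      ∫⁻ q : ℂ × Tor, ({q : ℂ × Tor | Reach U T g.1 q.1 q.2}).indicator (fun q => N.indicator 1 (Phi g.1 T q)) q := by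
    intro g
    have hm : MeasurableSet ({q : ℂ × Tor | Reach U T g.1 q.1 q.2} ∩ Phi g.1 T ⁻¹' N) :=
      (reach_isOpen hP.isOpen T g.1).measurableSet.inter ((Phi_continuous g.1 T).measurable hNm)
    rw [← lintegral_indicator_one hm]
    congr 1
    funext q
    by_cases h3 : q ∈ {q : ℂ × Tor | Reach U T g.1 q.1 q.2}
    · by_cases h4 : Phi g.1 T q ∈ N
      · rw [indicator_of_mem (show q ∈ _ ∩ _ from ⟨h3, h4⟩), indicator_of_mem h3, indicator_of_mem h4]
        rfl
      · rw [indicator_of_notMem (fun hc => h4 hc.2), indicator_of_mem h3, indicator_of_notMem h4]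
    · rw [indicator_of_notMem (fun hc => h3 hc.1), indicator_of_notMem h3]
  rw [tsum_congr h2]
  refine h1.trans ?_
  refine (setLIntegral_le_lintegral _ _).trans ?_
  rw [lintegral_indicator_one hNm]

end Pool.H46.Eg
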