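import Pool.Agent.H46.Bi.Spl

/-!
# [H46 EG RSPA] almost every intermediate time is regular (proved)
-/

set_option autoImplicit false

open MeasureTheory Metric Set Pool.H46.Bi

namespace Pool.H46.Eg

theorem reach_at {U : Set ℂ} (hU : IsOpen U) {t r : ℝ} {g : Mo} {x : ℂ} {θ : Tor}
    (h : Reach U t g x θ) (h0 : 0 ≤ r) (hrt : r ≤ t) :
    (∃ g', Reach U r g' x θ) ∨ x + r * e θ ∈ Exc U := by
  obtain ⟨g1, h1⟩ := at_exists hU h r h0 hrt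
  rcases h1 with h1 | ⟨⟨α, ε, hc⟩, t0, ht0, ht0r, h2⟩
  · exact Or.inl ⟨g1, h1⟩
  · right
    exact ⟨g1, (h2 t0 ⟨le_rfl, ht0r⟩).gen, _, α, ε, hc, side_self _ _⟩

end Pool.H46.Eg
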