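import Pool.Agent.H46.Eg.HitS
import Pool.Agent.H46.Eg.Nmu
import Pool.Agent.H46.Eg.RspA

/-!
# [H46 EG HMU] the measure of the states which hit (70-110 lines)
Let q ∈ Wr ρ T, with t < T and Hit t q (Reach U t g q).  j = ⌊t / ρ⌋, s = j ρ ≤ t < s + ρ.  `reach_at` for s: either
q.1 + s e θ ∈ Exc U, or Reach U s g' q, and then by `reach_split` a trajectory of time t - s < ρ leads from g'.act (q.1 + s e θ) to the hit point
(use `mul g'' g' = g`, `Mo.mul_act`, `Mo.act_line`), so by `reach_dist` `infDist (g'.act (q.1 + s e θ)) V < ρ + ρ`.  So Wr ρ T is contained in the union over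
j ≤ N = ⌊T / ρ⌋₊ of E_j = {∃ g', Reach U (j ρ) g' q ∧ infDist .. < 2 ρ}, of {q.1 + j ρ e θ ∈ Exc U} (null: `exc_null_phase`, Bi/Cnt.lean), and of the preimages of
these sets under opp (which preserves the measure: (x, θ) ↦ (x, θ + π), compare `Es2_rho` in Bi/Es2.lean).  By `near_reach`, `near_meas` the measure is at most
`2 (N + 1) C (2 ρ)² ≤ 8 C (T / ρ + 1) ρ² = 8 C (T ρ + ρ²)`.
-/

set_option autoImplicit false

open MeasureTheory Metric Set Pool.H46.Bi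

namespace Pool.H46.Eg

private theorem opp_mp : MeasurePreserving opp (volume : Measure (ℂ × Tor)) volume := by
  have h := (MeasurePreserving.id (volume : Measure ℂ)).prod
    (measurePreserving_add_right (volume : Measure Tor) ((Real.pi : ℝ) : Tor))
  exact h

private theorem opp_le (s : Set (ℂ × Tor)) :
    (volume : Measure (ℂ × Tor)) (opp ⁻¹' s) ≤ (volume : Measure (ℂ × Tor)) s := by
  calc (volume : Measure (ℂ × Tor)) (opp ⁻¹' s)
      ≤ (volume : Measure (ℂ × Tor)) (opp ⁻¹' (toMeasurable volume s)) :=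
        measure_mono (preimage_mono (subset_toMeasurable _ _))
    _ = (volume : Measure (ℂ × Tor)) (toMeasurable volume s) :=
        opp_mp.measure_preimage (measurableSet_toMeasurable _ _).nullMeasurableSet
    _ = (volume : Measure (ℂ × Tor)) s := measure_toMeasurable _

/-- the grid times -/
private theorem hit_grid {U : Set ℂ} (hU : IsOpen U) (V : Finset ℂ) {ρ t : ℝ} (hρ : 0 < ρ)
    {q : ℂ × Tor} (h : Hit U V ρ t q) :
    (q.1 + ((((⌊t / ρ⌋₊ : ℕ) : ℝ) * ρ : ℝ) : ℂ) * e q.2 ∈ Exc U) ∨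
      ∃ g', Reach U (((⌊t / ρ⌋₊ : ℕ) : ℝ) * ρ) g' q.1 q.2 ∧
        infDist (g'.act (q.1 + ((((⌊t / ρ⌋₊ : ℕ) : ℝ) * ρ : ℝ) : ℂ) * e q.2)) (V : Set ℂ) < 2 * ρ := by
  obtain ⟨g, hg, hd⟩ := h
  have ht := hg.nonneg
  obtain ⟨s, hs⟩ : ∃ s : ℝ, s = ((⌊t / ρ⌋₊ : ℕ) : ℝ) * ρ := ⟨_, rfl⟩
  rw [← hs]
  have hs0 : 0 ≤ s := by
    rw [hs]; positivity
  have hst : s ≤ t := by
    rw [hs]
    exact (le_div_iff₀ hρ).1 (Nat.floor_le (div_nonneg ht hρ.le))
  have hts : t < s + ρ := by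
    have h1 := Nat.lt_floor_add_one (t / ρ)
    rw [div_lt_iff₀ hρ] at h1
    rw [hs]
    linarith
  rcases reach_at hU hg hs0 hst with ⟨g', hg'⟩ | hE
  · refine Or.inr ⟨g', hg', ?_⟩
    obtain ⟨g'', hgg, hg''⟩ := reach_split hU hg hg' hst
    have h1 := reach_dist hU hg''
    have h2 : g''.act (g'.act (q.1 + s * e q.2) + ((t - s : ℝ) : ℂ) * e (g'.dir q.2)) =
        g.act (q.1 + t * e q.2) := by
      rw [← Mo.act_line, ← Mo.mul_act, hgg]
      congr 1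
      push_cast; ring
    rw [h2, ← dist_eq_norm] at h1
    have h3 := infDist_le_infDist_add_dist (s := (V : Set ℂ)) (x := g'.act (q.1 + s * e q.2))
      (y := g.act (q.1 + t * e q.2))
    rw [dist_comm] at h3
    linarith
  · exact Or.inl hE

theorem wr_meas {U : Set ℂ} (hP : Bi.Poly U) (V : Finset ℂ) (hV : V.Nonempty) :
    ∃ C : ℝ, 0 ≤ C ∧ ∀ ρ T : ℝ, 0 < ρ → 0 ≤ T →
      (volume : Measure (ℂ × Tor)) (Wr U V ρ T) ≤ ENNReal.ofReal (C * (T * ρ + ρ ^ 2)) := by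
  obtain ⟨C, hC, hnear⟩ := near_meas V hV
  refine ⟨8 * C, by positivity, fun ρ T hρ hT => ?_⟩
  obtain ⟨N, hN⟩ : ∃ N : ℕ, N = ⌊T / ρ⌋₊ := ⟨_, rfl⟩
  obtain ⟨H, hH⟩ : ∃ H : Set (ℂ × Tor), H = {q | ∃ t, t < T ∧ Hit U V ρ t q} := ⟨_, rfl⟩
  have hsub : Wr U V ρ T ⊆ H ∪ opp ⁻¹' H := by
    rintro q ⟨t, ht, h | h⟩
    · left
      rw [hH]
      exact ⟨t, ht, h⟩
    · right
      rw [hH]
      exact ⟨t, ht, h⟩
  have hHsub : H ⊆ ⋃ j ∈ Finset.range (N + 1),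
      ({q : ℂ × Tor | q.1 + (((j : ℝ) * ρ : ℝ) : ℂ) * e q.2 ∈ Exc U} ∪
        {q : ℂ × Tor | ∃ g, Reach U ((j : ℝ) * ρ) g q.1 q.2 ∧
          infDist (g.act (q.1 + (((j : ℝ) * ρ : ℝ) : ℂ) * e q.2)) (V : Set ℂ) < 2 * ρ}) := by
    intro q hq
    rw [hH] at hq
    obtain ⟨t, ht, h⟩ := hq
    simp only [mem_iUnion]
    refine ⟨⌊t / ρ⌋₊, ?_, ?_⟩
    · rw [Finset.mem_range, Nat.lt_succ_iff, hN]
      exact Nat.floor_le_floor (div_le_div_of_nonneg_right ht.le hρ.le)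
    · rcases hit_grid hP.isOpen V hρ h with h1 | h1
      · exact Or.inl h1
      · exact Or.inr h1
  have hHm : (volume : Measure (ℂ × Tor)) H ≤ ENNReal.ofReal (((N : ℝ) + 1) * (C * (2 * ρ) ^ 2)) := by
    refine (measure_mono hHsub).trans ((measure_biUnion_finset_le _ _).trans ?_)
    have h1 : ∀ j ∈ Finset.range (N + 1), (volume : Measure (ℂ × Tor))
        ({q : ℂ × Tor | q.1 + (((j : ℝ) * ρ : ℝ) : ℂ) * e q.2 ∈ Exc U} ∪
        {q : ℂ × Tor | ∃ g, Reach U ((j : ℝ) * ρ) g q.1 q.2 ∧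
          infDist (g.act (q.1 + (((j : ℝ) * ρ : ℝ) : ℂ) * e q.2)) (V : Set ℂ) < 2 * ρ}) ≤
        ENNReal.ofReal (C * (2 * ρ) ^ 2) := by
      intro j _
      refine (measure_union_le _ _).trans ?_
      rw [exc_null_phase hP, zero_add]
      exact (near_reach hP V _ _).trans (hnear (2 * ρ) (by linarith))
    refine (Finset.sum_le_sum h1).trans (le_of_eq ?_)
    have h2 : ((N : ℝ) + 1) = ((N + 1 : ℕ) : ℝ) := by push_cast; ring
    rw [Finset.sum_const, Finset.card_range, nsmul_eq_mul, h2,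
      ENNReal.ofReal_mul (p := ((N + 1 : ℕ) : ℝ)) (Nat.cast_nonneg _), ENNReal.ofReal_natCast]
  calc (volume : Measure (ℂ × Tor)) (Wr U V ρ T)
      ≤ (volume : Measure (ℂ × Tor)) H + (volume : Measure (ℂ × Tor)) (opp ⁻¹' H) :=
        (measure_mono hsub).trans (measure_union_le _ _)
    _ ≤ ENNReal.ofReal (((N : ℝ) + 1) * (C * (2 * ρ) ^ 2)) +
          ENNReal.ofReal (((N : ℝ) + 1) * (C * (2 * ρ) ^ 2)) :=
        add_le_add hHm ((opp_le H).trans hHm)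
    _ = ENNReal.ofReal (2 * (((N : ℝ) + 1) * (C * (2 * ρ) ^ 2))) := by
        rw [← ENNReal.ofReal_add (by positivity) (by positivity)]
        congr 1
        ring
    _ ≤ ENNReal.ofReal (8 * C * (T * ρ + ρ ^ 2)) := by
        refine ENNReal.ofReal_le_ofReal ?_
        have h1 : (N : ℝ) ≤ T / ρ := by
          rw [hN]
          exact Nat.floor_le (div_nonneg hT hρ.le)
        have h2 : (N : ℝ) * ρ ≤ T := (le_div_iff₀ hρ).1 h1
        have h3 : (N : ℝ) * ρ * ρ ≤ T * ρ := mul_le_mul_of_nonneg_right h2 hρ.le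
        have h4 : 2 * (((N : ℝ) + 1) * (C * (2 * ρ) ^ 2)) = 8 * C * ((N : ℝ) * ρ * ρ + ρ ^ 2) := by ring
        rw [h4]
        refine mul_le_mul_of_nonneg_left ?_ (by positivity)
        linarith

end Pool.H46.Eg
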