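import Pool.Agent.H46.Eg.Def

/-!
# [H46 EG KER] elementary properties of the kernels (60-90 lines)
`kap δ ζ = (1 - ‖ζ‖² / δ²)_+`, `cL δ = 6 / (π δ⁴)`, `kk δ = 3 / (π δ²) kap²`.
`int_conj`: substitute `ζ → -ζ` (`integral_neg_eq_self`). `int_sq0`: substitute `ζ → I * ζ` (the rotation by a unit
preserves the measure, see `rot_int`): the integral is equal to its negative.
`rot_int`: `LinearIsometryEquiv.measurePreserving` of `rotation (AddCircle.toCircle φ)`, compare `Pool.H46.Bi.rot_mp` in Bi/Mea.lean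
(`MeasurePreserving.integral_comp` with the measurable embedding of the homeomorphism).
-/

set_option autoImplicit false

open MeasureTheory Set Pool.H46.Bi

namespace Pool.H46.Eg

theorem kap_nonneg (δ : ℝ) (ζ : ℂ) : 0 ≤ kap δ ζ := le_max_left _ _

theorem kap_le_one (δ : ℝ) (ζ : ℂ) : kap δ ζ ≤ 1 := by
  refine max_le zero_le_one ?_
  have : 0 ≤ ‖ζ‖ ^ 2 / δ ^ 2 := by positivity
  linarith

theorem kap_zero {δ : ℝ} (hδ : 0 < δ) {ζ : ℂ} (h : δ ≤ ‖ζ‖) : kap δ ζ = 0 := by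
  refine max_eq_left ?_
  have h1 : δ ^ 2 ≤ ‖ζ‖ ^ 2 := pow_le_pow_left₀ hδ.le h 2
  have h2 : 1 ≤ ‖ζ‖ ^ 2 / δ ^ 2 := (one_le_div (by positivity)).2 h1
  linarith

theorem kap_cont (δ : ℝ) : Continuous (kap δ) := by
  unfold kap
  exact continuous_const.max (continuous_const.sub ((continuous_norm.pow 2).div_const _))

theorem kap_norm (δ : ℝ) {ζ ζ' : ℂ} (h : ‖ζ‖ = ‖ζ'‖) : kap δ ζ = kap δ ζ' := by
  unfold kap
  rw [h]

theorem cL_pos {δ : ℝ} (hδ : 0 < δ) : 0 < cL δ := by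
  unfold cL
  have := Real.pi_pos
  positivity

theorem kk_nonneg (δ : ℝ) (ζ : ℂ) : 0 ≤ kk δ ζ := by
  unfold kk
  have := Real.pi_pos
  positivity

theorem kk_zero {δ : ℝ} (hδ : 0 < δ) {ζ : ℂ} (h : δ ≤ ‖ζ‖) : kk δ ζ = 0 := by
  unfold kk
  rw [kap_zero hδ h]
  ring

theorem kk_cont (δ : ℝ) : Continuous (kk δ) := by
  unfold kk
  exact continuous_const.mul ((kap_cont δ).pow 2)

theorem kk_norm (δ : ℝ) {ζ ζ' : ℂ} (h : ‖ζ‖ = ‖ζ'‖) : kk δ ζ = kk δ ζ' := by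
  unfold kk
  rw [kap_norm δ h]

/-- continuous functions which vanish for `‖ζ‖ ≥ δ` are integrable -/
theorem integrable_of_zero {δ : ℝ} {f : ℂ → ℂ} (hf : Continuous f)
    (h : ∀ ζ : ℂ, δ ≤ ‖ζ‖ → f ζ = 0) : Integrable f := by
  refine hf.integrable_of_hasCompactSupport
    (HasCompactSupport.intro (isCompact_closedBall (0 : ℂ) δ) fun x hx => ?_)
  refine h x ?_
  rw [Metric.mem_closedBall, dist_zero_right, not_le] at hx
  exact hx.le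

/-- the rotation by `e φ` preserves integrals -/
theorem rot_int (φ : Tor) (f : ℂ → ℂ) : ∫ ζ : ℂ, f (e φ * ζ) = ∫ ζ : ℂ, f ζ := by
  have h := (rotation (AddCircle.toCircle φ)).measurePreserving.integral_comp
    (rotation (AddCircle.toCircle φ)).toHomeomorph.measurableEmbedding f
  exact h

theorem int_conj (δ : ℝ) :
    ∫ ζ : ℂ, ((cL δ * kap δ ζ : ℝ) : ℂ) * (starRingEnd ℂ) ζ = 0 := by
  have h := integral_neg_eq_self (fun ζ : ℂ => ((cL δ * kap δ ζ : ℝ) : ℂ) * (starRingEnd ℂ) ζ)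
    volume
  have h1 : ∀ ζ : ℂ, ((cL δ * kap δ (-ζ) : ℝ) : ℂ) * (starRingEnd ℂ) (-ζ) =
      -(((cL δ * kap δ ζ : ℝ) : ℂ) * (starRingEnd ℂ) ζ) := fun ζ => by
    rw [kap_norm δ (norm_neg ζ), map_neg]
    ring
  simp only [h1] at h
  rw [integral_neg] at h
  have h2 : (2 : ℂ) * ∫ ζ : ℂ, ((cL δ * kap δ ζ : ℝ) : ℂ) * (starRingEnd ℂ) ζ = 0 := by
    linear_combination -h
  exact (mul_eq_zero.1 h2).resolve_left two_ne_zero

theorem int_sq0 (δ : ℝ) :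
    ∫ ζ : ℂ, ((cL δ * kap δ ζ : ℝ) : ℂ) * (starRingEnd ℂ) ζ * (starRingEnd ℂ) ζ = 0 := by
  obtain ⟨θ, hθ⟩ := e_surj Complex.I (by simp)
  have h := rot_int θ (fun ζ : ℂ => ((cL δ * kap δ ζ : ℝ) : ℂ) * (starRingEnd ℂ) ζ *
    (starRingEnd ℂ) ζ)
  have h1 : ∀ ζ : ℂ, ((cL δ * kap δ (e θ * ζ) : ℝ) : ℂ) * (starRingEnd ℂ) (e θ * ζ) *
      (starRingEnd ℂ) (e θ * ζ) =
      -(((cL δ * kap δ ζ : ℝ) : ℂ) * (starRingEnd ℂ) ζ * (starRingEnd ℂ) ζ) := fun ζ => by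
    rw [kap_norm δ (show ‖e θ * ζ‖ = ‖ζ‖ by rw [norm_mul, norm_e, one_mul]), hθ, map_mul,
      Complex.conj_I]
    linear_combination (((cL δ * kap δ ζ : ℝ) : ℂ) * (starRingEnd ℂ) ζ * (starRingEnd ℂ) ζ) *
      Complex.I_mul_I
  simp only [h1] at h
  rw [integral_neg] at h
  have h2 : (2 : ℂ) * ∫ ζ : ℂ, ((cL δ * kap δ ζ : ℝ) : ℂ) * (starRingEnd ℂ) ζ *
      (starRingEnd ℂ) ζ = 0 := by
    linear_combination -h
  exact (mul_eq_zero.1 h2).resolve_left two_ne_zero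

end Pool.H46.Eg
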