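import Pool.Agent.H46.Eg.Ker

/-!
# [H46 EG KERI] three radial integrals (50-90 lines)
Integrals of radial functions on ℂ: `MeasureTheory.integral_fun_norm_addHaar`
(`∫ f ‖x‖ = dim • μ (ball 0 1) • ∫ y in Ioi 0, y ^ (dim - 1) • f y`, `Complex.finrank_real_complex`,
`Complex.volume_ball`), then the integral over `Ioi 0` is the one over `Ioc 0 δ` of a polynomial:
 `∫ ‖ζ‖² kap = 2π (δ⁴/4 - δ⁴/6) = π δ⁴ / 6`, `∫ kap² = 2π (δ²/2 - 2δ²/4 + δ²/6) = π δ² / 3`,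
 `∫ ‖ζ‖ kap = 2π (δ³/3 - δ³/5) = 4π δ³ / 15`, so `∫ cL ‖ζ‖ kap = 8 / (5 δ) ≤ 2 / δ`.
Or polar coordinates (`Complex.integral_comp_polarCoord_symm`).
-/

set_option autoImplicit false

open MeasureTheory Set Pool.H46.Bi

namespace Pool.H46.Eg

private theorem ki_rad {δ : ℝ} (hδ : 0 < δ) (f : ℝ → ℝ) (h0 : ∀ y, δ ≤ y → f y = 0) :
    ∫ ζ : ℂ, f ‖ζ‖ = 2 * Real.pi * ∫ y in (0 : ℝ)..δ, y * f y := by
  rw [integral_fun_norm_addHaar, Complex.finrank_real_complex]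
  have h1 : (volume : Measure ℂ).real (Metric.ball 0 1) = Real.pi := by
    rw [Measure.real, Complex.volume_ball]
    simp
  rw [h1, intervalIntegral.integral_of_le hδ.le]
  have h2 : ∫ y in Set.Ioi (0 : ℝ), y ^ (2 - 1) • f y = ∫ y in Set.Ioc 0 δ, y * f y := by
    rw [setIntegral_eq_of_subset_of_forall_sdiff_eq_zero measurableSet_Ioi (s := Set.Ioc 0 δ) (fun y hy => hy.1)]
    · apply setIntegral_congr_fun measurableSet_Ioc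
      intro y _
      simp
    · intro y hy
      have h3 : δ ≤ y := by
        by_contra h4
        exact hy.2 ⟨hy.1, (not_le.1 h4).le⟩
      rw [h0 y h3]
      simp
  rw [h2]
  simp only [nsmul_eq_mul, smul_eq_mul]
  push_cast
  ring

private theorem ki_max {δ : ℝ} (hδ : 0 < δ) {y : ℝ} (hy : y ∈ Set.uIcc 0 δ) : max 0 (1 - y ^ 2 / δ ^ 2) = 1 - y ^ 2 / δ ^ 2 := by
  rw [Set.uIcc_of_le hδ.le] at hy
  apply max_eq_right
  have h1 : y ^ 2 ≤ δ ^ 2 := pow_le_pow_left₀ hy.1 hy.2 2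
  have h2 : y ^ 2 / δ ^ 2 ≤ 1 := by
    rw [div_le_one (by positivity)]
    exact h1
  linarith

private theorem ki_zero {δ : ℝ} (hδ : 0 < δ) {y : ℝ} (hy : δ ≤ y) : max 0 (1 - y ^ 2 / δ ^ 2) = 0 := by
  apply max_eq_left
  have h1 : δ ^ 2 ≤ y ^ 2 := pow_le_pow_left₀ hδ.le hy 2
  have h2 : 1 ≤ y ^ 2 / δ ^ 2 := by
    rw [le_div_iff₀ (by positivity), one_mul]
    exact h1
  linarith

theorem int_norm {δ : ℝ} (hδ : 0 < δ) : ∫ ζ : ℂ, cL δ * kap δ ζ * ‖ζ‖ ≤ 2 / δ := by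
  have h1 := ki_rad hδ (fun r => cL δ * max 0 (1 - r ^ 2 / δ ^ 2) * r) (fun y hy => by rw [ki_zero hδ hy]; ring)
  have h2 : ∫ y in (0 : ℝ)..δ, y * (cL δ * max 0 (1 - y ^ 2 / δ ^ 2) * y) = cL δ * (2 * δ ^ 3 / 15) := by
    have h3 : ∀ y ∈ Set.uIcc 0 δ, y * (cL δ * max 0 (1 - y ^ 2 / δ ^ 2) * y) = cL δ * (y ^ 2 - y ^ 4 / δ ^ 2) := by
      intro y hy
      rw [ki_max hδ hy]
      ring
    rw [intervalIntegral.integral_congr h3]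
    have h4 : ∀ y ∈ Set.uIcc 0 δ, HasDerivAt (fun y : ℝ => cL δ * (y ^ 3 / 3 - y ^ 5 / (5 * δ ^ 2))) (cL δ * (y ^ 2 - y ^ 4 / δ ^ 2)) y := by
      intro y _
      have d1 := (hasDerivAt_pow 3 y).div_const 3
      have d2 := (hasDerivAt_pow 5 y).div_const (5 * δ ^ 2)
      have d3 := (d1.sub d2).const_mul (cL δ)
      refine HasDerivAt.congr_deriv d3 ?_
      show cL δ * (((3 : ℕ) : ℝ) * y ^ 2 / 3 - ((5 : ℕ) : ℝ) * y ^ 4 / (5 * δ ^ 2)) = _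
      push_cast
      field_simp
    rw [intervalIntegral.integral_eq_sub_of_hasDerivAt h4 (Continuous.intervalIntegrable (by fun_prop) _ _)]
    field_simp
    ring
  rw [h2] at h1
  have h3 : ∫ ζ : ℂ, cL δ * kap δ ζ * ‖ζ‖ = 2 * Real.pi * (cL δ * (2 * δ ^ 3 / 15)) := h1
  rw [h3]
  unfold cL
  have h4 : 2 * Real.pi * (6 / (Real.pi * δ ^ 4) * (2 * δ ^ 3 / 15)) = (8 / 5) / δ := by
    field_simp
    ring
  rw [h4]
  apply div_le_div_of_nonneg_right _ hδ.le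
  norm_num

theorem int_sq {δ : ℝ} (hδ : 0 < δ) : ∫ ζ : ℂ, cL δ * kap δ ζ * ‖ζ‖ ^ 2 = 1 := by
  have h1 := ki_rad hδ (fun r => cL δ * max 0 (1 - r ^ 2 / δ ^ 2) * r ^ 2) (fun y hy => by rw [ki_zero hδ hy]; ring)
  have h2 : ∫ y in (0 : ℝ)..δ, y * (cL δ * max 0 (1 - y ^ 2 / δ ^ 2) * y ^ 2) = cL δ * (δ ^ 4 / 12) := by
    have h3 : ∀ y ∈ Set.uIcc 0 δ, y * (cL δ * max 0 (1 - y ^ 2 / δ ^ 2) * y ^ 2) = cL δ * (y ^ 3 - y ^ 5 / δ ^ 2) := by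
      intro y hy
      rw [ki_max hδ hy]
      ring
    rw [intervalIntegral.integral_congr h3]
    have h4 : ∀ y ∈ Set.uIcc 0 δ, HasDerivAt (fun y : ℝ => cL δ * (y ^ 4 / 4 - y ^ 6 / (6 * δ ^ 2))) (cL δ * (y ^ 3 - y ^ 5 / δ ^ 2)) y := by
      intro y _
      have d1 := (hasDerivAt_pow 4 y).div_const 4
      have d2 := (hasDerivAt_pow 6 y).div_const (6 * δ ^ 2)
      have d3 := (d1.sub d2).const_mul (cL δ)
      refine HasDerivAt.congr_deriv d3 ?_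
      show cL δ * (((4 : ℕ) : ℝ) * y ^ 3 / 4 - ((6 : ℕ) : ℝ) * y ^ 5 / (6 * δ ^ 2)) = _
      push_cast
      field_simp
    rw [intervalIntegral.integral_eq_sub_of_hasDerivAt h4 (Continuous.intervalIntegrable (by fun_prop) _ _)]
    field_simp
    ring
  rw [h2] at h1
  have h3 : ∫ ζ : ℂ, cL δ * kap δ ζ * ‖ζ‖ ^ 2 = 2 * Real.pi * (cL δ * (δ ^ 4 / 12)) := h1
  rw [h3]
  unfold cL
  field_simp
  norm_num

theorem int_kk {δ : ℝ} (hδ : 0 < δ) : ∫ ζ : ℂ, kk δ ζ = 1 := by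
  have h1 := ki_rad hδ (fun r => 3 / (Real.pi * δ ^ 2) * max 0 (1 - r ^ 2 / δ ^ 2) ^ 2) (fun y hy => by rw [ki_zero hδ hy]; ring)
  have h2 : ∫ y in (0 : ℝ)..δ, y * (3 / (Real.pi * δ ^ 2) * max 0 (1 - y ^ 2 / δ ^ 2) ^ 2) = 3 / (Real.pi * δ ^ 2) * (δ ^ 2 / 6) := by
    have h3 : ∀ y ∈ Set.uIcc 0 δ, y * (3 / (Real.pi * δ ^ 2) * max 0 (1 - y ^ 2 / δ ^ 2) ^ 2) =
        3 / (Real.pi * δ ^ 2) * (y - 2 * y ^ 3 / δ ^ 2 + y ^ 5 / δ ^ 4) := by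
      intro y hy
      rw [ki_max hδ hy]
      field_simp
      ring
    rw [intervalIntegral.integral_congr h3]
    have h4 : ∀ y ∈ Set.uIcc 0 δ, HasDerivAt (fun y : ℝ => 3 / (Real.pi * δ ^ 2) * (y ^ 2 / 2 - y ^ 4 / (2 * δ ^ 2) + y ^ 6 / (6 * δ ^ 4)))
        (3 / (Real.pi * δ ^ 2) * (y - 2 * y ^ 3 / δ ^ 2 + y ^ 5 / δ ^ 4)) y := by
      intro y _
      have d1 := (hasDerivAt_pow 2 y).div_const 2
      have d2 := (hasDerivAt_pow 4 y).div_const (2 * δ ^ 2)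
      have d4 := (hasDerivAt_pow 6 y).div_const (6 * δ ^ 4)
      have d3 := ((d1.sub d2).add d4).const_mul (3 / (Real.pi * δ ^ 2))
      refine HasDerivAt.congr_deriv d3 ?_
      show 3 / (Real.pi * δ ^ 2) * (((2 : ℕ) : ℝ) * y ^ 1 / 2 - ((4 : ℕ) : ℝ) * y ^ 3 / (2 * δ ^ 2) + ((6 : ℕ) : ℝ) * y ^ 5 / (6 * δ ^ 4)) = _
      push_cast
      field_simp
      ring
    rw [intervalIntegral.integral_eq_sub_of_hasDerivAt h4 (Continuous.intervalIntegrable (by fun_prop) _ _)]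
    field_simp
    ring
  rw [h2] at h1
  have h3 : ∫ ζ : ℂ, kk δ ζ = 2 * Real.pi * (3 / (Real.pi * δ ^ 2) * (δ ^ 2 / 6)) := h1
  rw [h3]
  field_simp
  norm_num

end Pool.H46.Eg
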