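import Pool.Agent.H46.Eg.KerI

/-!
# [H46 EG KERT] the composition of the mollifier and `L` (100-150 lines)
Write `κ' = δ'`, `u η = 1 - ‖η‖² / κ'²`, `p t = max 0 t`.  `kk κ' η = (3 / (π κ'²)) p (u η) ^ 2` and
`cL κ' kap κ' η = (6 / (π κ'⁴)) p (u η)`.
Step 1 (real numbers): `|p t ^ 2 - p s ^ 2 - 2 p s (t - s)| ≤ (t - s) ^ 2` (cases on the signs of s, t).
Step 2: with `t = u (η - ξ)`, `s = u η`: `t - s = (2 re (η conj ξ) - ‖ξ‖²) / κ'²`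
(`‖η - ξ‖² = ‖η‖² - 2 re (η conj ξ) + ‖ξ‖²`).  So
`kk κ' (η - ξ) - kk κ' η = (6 / (π κ'⁴)) p (u η) (2 re (η conj ξ) - ‖ξ‖²) + E'`, where `2 p s (t - s)` times `3 / (π κ'²)` is
`(6 / (π κ'⁴)) p (u η) (2 re (η conj ξ) - ‖ξ‖²)`, and `2 re (η conj ξ) = η conj ξ + conj η ξ`.  For `‖ξ‖ ≤ κ'`:
`|E| ≤ C0 ‖ξ‖²` if `‖η‖ ≤ 2 κ'` (then `|t - s| ≤ 5 ‖ξ‖ / κ'`), and for `‖η‖ > 2 κ'` everything vanishes
(`‖η - ξ‖ ≥ κ'`), for `‖ξ‖ < δ ≤ κ'`.
Step 3: multiply by `cL δ kap δ ξ conj ξ` and integrate over ξ: `∫ cL kap conj ξ = 0` (`int_conj`),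
`∫ cL kap conj ξ conj ξ = 0` (`int_sq0`), `∫ cL kap ξ conj ξ = ∫ cL kap ‖ξ‖² = 1` (`int_sq`): what remains is
`(6 / (π κ'⁴)) p (u η) conj η = cL κ' kap κ' η conj η`, and `‖∫ E cL kap conj ξ‖ ≤ C0 δ ∫ cL kap ‖ξ‖² = C0 δ`
(`kap δ ξ = 0` unless `‖ξ‖ < δ`).
-/

set_option autoImplicit false

open MeasureTheory Set Pool.H46.Bi

namespace Pool.H46.Eg

private theorem kt_step (s t : ℝ) :
    |max 0 t ^ 2 - max 0 s ^ 2 - 2 * max 0 s * (t - s)| ≤ (t - s) ^ 2 := by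
  rcases le_total 0 s with hs | hs
  · rcases le_total 0 t with ht | ht
    · rw [max_eq_right hs, max_eq_right ht]
      have h : t ^ 2 - s ^ 2 - 2 * s * (t - s) = (t - s) ^ 2 := by ring
      rw [h, abs_of_nonneg (sq_nonneg _)]
    · rw [max_eq_right hs, max_eq_left ht, abs_le]
      constructor <;> nlinarith [mul_nonneg hs (neg_nonneg.2 ht), sq_nonneg t, sq_nonneg s]
  · rcases le_total 0 t with ht | ht
    · rw [max_eq_left hs, max_eq_right ht, abs_le]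
      constructor <;> nlinarith [mul_nonneg ht (neg_nonneg.2 hs), sq_nonneg t, sq_nonneg s]
    · rw [max_eq_left hs, max_eq_left ht]
      have h : (0 : ℝ) ^ 2 - 0 ^ 2 - 2 * 0 * (t - s) = 0 := by ring
      rw [h, abs_zero]
      exact sq_nonneg _

private theorem kt_norm (η ξ : ℂ) :
    ‖η - ξ‖ ^ 2 = ‖η‖ ^ 2 - 2 * (η * (starRingEnd ℂ) ξ).re + ‖ξ‖ ^ 2 := by
  rw [← Complex.normSq_eq_norm_sq, ← Complex.normSq_eq_norm_sq, ← Complex.normSq_eq_norm_sq,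
    Complex.normSq_sub]
  ring

/-- the error of the linear approximation -/
private noncomputable def kE (a : ℝ) (η ξ : ℂ) : ℝ :=
  kk a (η - ξ) - kk a η - cL a * kap a η * (2 * (η * (starRingEnd ℂ) ξ).re)

private theorem kE_cont (a : ℝ) (η : ℂ) : Continuous (kE a η) := by
  unfold kE
  have h1 : Continuous fun ξ : ℂ => kk a (η - ξ) := (kk_cont a).comp (continuous_const.sub continuous_id)
  have h2 : Continuous fun ξ : ℂ => (η * (starRingEnd ℂ) ξ).re :=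
    Complex.continuous_re.comp (continuous_const.mul Complex.continuous_conj)
  exact (h1.sub continuous_const).sub (continuous_const.mul (continuous_const.mul h2))

private theorem kE_le {a : ℝ} (ha : 0 < a) (η ξ : ℂ) (hξ : ‖ξ‖ < a) :
    |kE a η ξ| ≤ (75 / (Real.pi * a ^ 4) + cL a) * ‖ξ‖ ^ 2 := by
  have hpi := Real.pi_pos
  have hc := cL_pos ha
  rcases le_or_gt (2 * a) ‖η‖ with h | h
  · have h1 : a ≤ ‖η - ξ‖ := by
      have := norm_sub_norm_le η ξ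
      linarith
    have h2 : a ≤ ‖η‖ := by linarith
    unfold kE
    rw [kk_zero ha h1, kk_zero ha h2, kap_zero ha h2]
    have h3 : |(0 : ℝ) - 0 - cL a * 0 * (2 * (η * (starRingEnd ℂ) ξ).re)| = 0 := by
      rw [mul_zero, zero_mul, sub_zero, sub_zero, abs_zero]
    rw [h3]
    positivity
  · have e1 : kk a (η - ξ) - kk a η - cL a * kap a η * (2 * (η * (starRingEnd ℂ) ξ).re - ‖ξ‖ ^ 2) =
        3 / (Real.pi * a ^ 2) * (max 0 (1 - ‖η - ξ‖ ^ 2 / a ^ 2) ^ 2 -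
          max 0 (1 - ‖η‖ ^ 2 / a ^ 2) ^ 2 - 2 * max 0 (1 - ‖η‖ ^ 2 / a ^ 2) *
            ((1 - ‖η - ξ‖ ^ 2 / a ^ 2) - (1 - ‖η‖ ^ 2 / a ^ 2))) := by
      unfold kk cL kap
      rw [kt_norm η ξ]
      field_simp
      ring
    have e2 : (1 - ‖η - ξ‖ ^ 2 / a ^ 2) - (1 - ‖η‖ ^ 2 / a ^ 2) =
        (2 * (η * (starRingEnd ℂ) ξ).re - ‖ξ‖ ^ 2) / a ^ 2 := by
      rw [kt_norm η ξ]
      field_simp
      ring
    have hre : |(η * (starRingEnd ℂ) ξ).re| ≤ 2 * a * ‖ξ‖ := by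
      refine (Complex.abs_re_le_norm _).trans ?_
      rw [norm_mul, Complex.norm_conj]
      exact mul_le_mul_of_nonneg_right h.le (norm_nonneg _)
    have h3 : |(1 - ‖η - ξ‖ ^ 2 / a ^ 2) - (1 - ‖η‖ ^ 2 / a ^ 2)| ≤ 5 * ‖ξ‖ / a := by
      rw [e2, abs_div, abs_of_pos (by positivity : (0 : ℝ) < a ^ 2), div_le_div_iff₀ (by positivity) ha]
      have h4 : |2 * (η * (starRingEnd ℂ) ξ).re - ‖ξ‖ ^ 2| ≤ 5 * a * ‖ξ‖ := by
        have h5 := abs_le.1 hre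
        have h6 : ‖ξ‖ ^ 2 ≤ a * ‖ξ‖ := by
          rw [pow_two]
          exact mul_le_mul_of_nonneg_right hξ.le (norm_nonneg _)
        have h7 : 0 ≤ ‖ξ‖ ^ 2 := by positivity
        rw [abs_le]
        constructor <;> linarith [h5.1, h5.2]
      calc |2 * (η * (starRingEnd ℂ) ξ).re - ‖ξ‖ ^ 2| * a ≤ 5 * a * ‖ξ‖ * a :=
            mul_le_mul_of_nonneg_right h4 ha.le
        _ = 5 * ‖ξ‖ * a ^ 2 := by ring
    have h4 := kt_step (1 - ‖η‖ ^ 2 / a ^ 2) (1 - ‖η - ξ‖ ^ 2 / a ^ 2)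
    have h5 : ((1 - ‖η - ξ‖ ^ 2 / a ^ 2) - (1 - ‖η‖ ^ 2 / a ^ 2)) ^ 2 ≤ (5 * ‖ξ‖ / a) ^ 2 :=
      sq_le_sq' (by linarith [(abs_le.1 h3).1]) (abs_le.1 h3).2
    have h6 : |kk a (η - ξ) - kk a η -
        cL a * kap a η * (2 * (η * (starRingEnd ℂ) ξ).re - ‖ξ‖ ^ 2)| ≤
        75 / (Real.pi * a ^ 4) * ‖ξ‖ ^ 2 := by
      rw [e1, abs_mul, abs_of_pos (by positivity : (0 : ℝ) < 3 / (Real.pi * a ^ 2))]
      calc 3 / (Real.pi * a ^ 2) * _ ≤ 3 / (Real.pi * a ^ 2) * (5 * ‖ξ‖ / a) ^ 2 :=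
            mul_le_mul_of_nonneg_left (h4.trans h5) (by positivity)
        _ = 75 / (Real.pi * a ^ 4) * ‖ξ‖ ^ 2 := by
            field_simp
            ring
    have h7 : kE a η ξ = (kk a (η - ξ) - kk a η -
        cL a * kap a η * (2 * (η * (starRingEnd ℂ) ξ).re - ‖ξ‖ ^ 2)) -
          cL a * kap a η * ‖ξ‖ ^ 2 := by
      unfold kE
      ring
    have h8 : |cL a * kap a η * ‖ξ‖ ^ 2| ≤ cL a * ‖ξ‖ ^ 2 := by
      have h9 := kap_nonneg a η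
      have h10 := kap_le_one a η
      rw [abs_of_nonneg (by positivity)]
      have h11 : cL a * kap a η ≤ cL a * 1 := mul_le_mul_of_nonneg_left h10 hc.le
      rw [mul_one] at h11
      exact mul_le_mul_of_nonneg_right h11 (by positivity)
    rw [h7]
    refine (abs_sub _ _).trans ?_
    rw [add_mul]
    exact add_le_add h6 h8

theorem ker_taylor {δ' : ℝ} (hδ' : 0 < δ') : ∃ C : ℝ, 0 ≤ C ∧ ∀ δ : ℝ, 0 < δ → δ ≤ δ' → ∀ η : ℂ,
    ‖(∫ ξ : ℂ, ((kk δ' (η - ξ) * (cL δ * kap δ ξ) : ℝ) : ℂ) * (starRingEnd ℂ) ξ) -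
      ((cL δ' * kap δ' η : ℝ) : ℂ) * (starRingEnd ℂ) η‖ ≤ C * δ := by
  have hpi := Real.pi_pos
  have hca := cL_pos hδ'
  refine ⟨75 / (Real.pi * δ' ^ 4) + cL δ', by positivity, fun δ hδ hle η => ?_⟩
  have hw : Continuous fun ξ : ℂ => ((cL δ * kap δ ξ : ℝ) : ℂ) :=
    Complex.continuous_ofReal.comp (continuous_const.mul (kap_cont δ))
  have hw0 : ∀ ξ : ℂ, δ ≤ ‖ξ‖ → ((cL δ * kap δ ξ : ℝ) : ℂ) = 0 := by
    intro ξ hξ
    rw [kap_zero hδ hξ, mul_zero, Complex.ofReal_zero]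
  have hcj : Continuous fun ξ : ℂ => (starRingEnd ℂ) ξ := Complex.continuous_conj
  have i1 : Integrable fun ξ : ℂ => ((cL δ * kap δ ξ : ℝ) : ℂ) * (starRingEnd ℂ) ξ :=
    integrable_of_zero (hw.mul hcj) fun ξ hξ => by rw [hw0 ξ hξ, zero_mul]
  have i2 : Integrable fun ξ : ℂ =>
      ((cL δ * kap δ ξ : ℝ) : ℂ) * (starRingEnd ℂ) ξ * (starRingEnd ℂ) ξ :=
    integrable_of_zero ((hw.mul hcj).mul hcj) fun ξ hξ => by rw [hw0 ξ hξ, zero_mul, zero_mul]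
  have i3 : Integrable fun ξ : ℂ => ((cL δ * kap δ ξ : ℝ) : ℂ) * (starRingEnd ℂ) ξ * ξ :=
    integrable_of_zero ((hw.mul hcj).mul continuous_id) fun ξ hξ => by
      rw [hw0 ξ hξ, zero_mul, zero_mul]
  have i4 : Integrable fun ξ : ℂ =>
      ((kE δ' η ξ : ℝ) : ℂ) * (((cL δ * kap δ ξ : ℝ) : ℂ) * (starRingEnd ℂ) ξ) :=
    integrable_of_zero ((Complex.continuous_ofReal.comp (kE_cont δ' η)).mul (hw.mul hcj))
      fun ξ hξ => by rw [hw0 ξ hξ, zero_mul, mul_zero]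
  have v3 : ∫ ξ : ℂ, ((cL δ * kap δ ξ : ℝ) : ℂ) * (starRingEnd ℂ) ξ * ξ = 1 := by
    have h1 : ∀ ξ : ℂ, ((cL δ * kap δ ξ : ℝ) : ℂ) * (starRingEnd ℂ) ξ * ξ =
        ((cL δ * kap δ ξ * ‖ξ‖ ^ 2 : ℝ) : ℂ) := by
      intro ξ
      rw [mul_assoc, Complex.conj_mul']
      push_cast
      ring
    simp only [h1]
    have h2 := integral_complex_ofReal (μ := (volume : Measure ℂ))
      (f := fun ξ : ℂ => cL δ * kap δ ξ * ‖ξ‖ ^ 2)
    rw [int_sq hδ, Complex.ofReal_one] at h2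
    exact h2
  have hsplit : ∀ ξ : ℂ, ((kk δ' (η - ξ) * (cL δ * kap δ ξ) : ℝ) : ℂ) * (starRingEnd ℂ) ξ =
      (((kk δ' η : ℝ) : ℂ) * (((cL δ * kap δ ξ : ℝ) : ℂ) * (starRingEnd ℂ) ξ) +
      ((cL δ' * kap δ' η : ℝ) : ℂ) * η *
        (((cL δ * kap δ ξ : ℝ) : ℂ) * (starRingEnd ℂ) ξ * (starRingEnd ℂ) ξ)) +
      (((cL δ' * kap δ' η : ℝ) : ℂ) * (starRingEnd ℂ) η *
        (((cL δ * kap δ ξ : ℝ) : ℂ) * (starRingEnd ℂ) ξ * ξ) +
      ((kE δ' η ξ : ℝ) : ℂ) * (((cL δ * kap δ ξ : ℝ) : ℂ) * (starRingEnd ℂ) ξ)) := by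
    intro ξ
    have h1 : ((kk δ' (η - ξ) : ℝ) : ℂ) = ((kk δ' η : ℝ) : ℂ) +
        ((cL δ' * kap δ' η : ℝ) : ℂ) * (η * (starRingEnd ℂ) ξ + (starRingEnd ℂ) η * ξ) +
        ((kE δ' η ξ : ℝ) : ℂ) := by
      have h2 : (η * (starRingEnd ℂ) ξ + (starRingEnd ℂ) η * ξ) =
          ((2 * (η * (starRingEnd ℂ) ξ).re : ℝ) : ℂ) := by
        have h3 := Complex.add_conj (η * (starRingEnd ℂ) ξ)
        rw [map_mul, Complex.conj_conj] at h3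
        rw [h3]
      rw [h2]
      unfold kE
      push_cast
      ring
    rw [Complex.ofReal_mul (kk δ' (η - ξ)), h1]
    ring
  have hint : (∫ ξ : ℂ, ((kk δ' (η - ξ) * (cL δ * kap δ ξ) : ℝ) : ℂ) * (starRingEnd ℂ) ξ) =
      ((cL δ' * kap δ' η : ℝ) : ℂ) * (starRingEnd ℂ) η +
      ∫ ξ : ℂ, ((kE δ' η ξ : ℝ) : ℂ) * (((cL δ * kap δ ξ : ℝ) : ℂ) * (starRingEnd ℂ) ξ) := by
    simp only [hsplit]
    have j1 := i1.const_mul ((kk δ' η : ℝ) : ℂ)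
    have j2 := i2.const_mul (((cL δ' * kap δ' η : ℝ) : ℂ) * η)
    have j3 := i3.const_mul (((cL δ' * kap δ' η : ℝ) : ℂ) * (starRingEnd ℂ) η)
    have j12 : Integrable fun ξ : ℂ =>
        ((kk δ' η : ℝ) : ℂ) * (((cL δ * kap δ ξ : ℝ) : ℂ) * (starRingEnd ℂ) ξ) +
        ((cL δ' * kap δ' η : ℝ) : ℂ) * η *
          (((cL δ * kap δ ξ : ℝ) : ℂ) * (starRingEnd ℂ) ξ * (starRingEnd ℂ) ξ) := j1.add j2
    have j34 : Integrable fun ξ : ℂ =>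
        ((cL δ' * kap δ' η : ℝ) : ℂ) * (starRingEnd ℂ) η *
          (((cL δ * kap δ ξ : ℝ) : ℂ) * (starRingEnd ℂ) ξ * ξ) +
        ((kE δ' η ξ : ℝ) : ℂ) * (((cL δ * kap δ ξ : ℝ) : ℂ) * (starRingEnd ℂ) ξ) := j3.add i4
    rw [integral_add j12 j34, integral_add j1 j2, integral_add j3 i4,
      integral_const_mul, integral_const_mul, integral_const_mul, int_conj, int_sq0, v3]
    ring
  rw [hint, add_sub_cancel_left]
  have hb : Integrable fun ξ : ℂ => (75 / (Real.pi * δ' ^ 4) + cL δ') * δ *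
      (cL δ * kap δ ξ * ‖ξ‖ ^ 2) := (integrable_of_integral_eq_one (int_sq hδ)).const_mul _
  have h1 := norm_integral_le_of_norm_le hb (f := fun ξ : ℂ =>
    ((kE δ' η ξ : ℝ) : ℂ) * (((cL δ * kap δ ξ : ℝ) : ℂ) * (starRingEnd ℂ) ξ))
    (Filter.Eventually.of_forall fun ξ => ?_)
  · rw [integral_const_mul, int_sq hδ, mul_one] at h1
    exact h1
  · have hk0 := kap_nonneg δ ξ
    have hc0 := cL_pos hδ
    rw [norm_mul, norm_mul, Complex.norm_real, Complex.norm_real, Complex.norm_conj,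
      Real.norm_eq_abs, Real.norm_eq_abs, abs_of_nonneg (by positivity : 0 ≤ cL δ * kap δ ξ)]
    rcases le_or_gt δ ‖ξ‖ with h | h
    · rw [kap_zero hδ h]
      simp
    · have h2 := kE_le hδ' η ξ (lt_of_lt_of_le h hle)
      calc |kE δ' η ξ| * (cL δ * kap δ ξ * ‖ξ‖) ≤
          ((75 / (Real.pi * δ' ^ 4) + cL δ') * ‖ξ‖ ^ 2) * (cL δ * kap δ ξ * δ) := by
            refine mul_le_mul h2 ?_ (by positivity) (by positivity)
            exact mul_le_mul_of_nonneg_left h.le (by positivity)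
        _ = (75 / (Real.pi * δ' ^ 4) + cL δ') * δ * (cL δ * kap δ ξ * ‖ξ‖ ^ 2) := by ring

theorem ker_supp {δ' δ : ℝ} (hδ' : 0 < δ') (hδ : 0 < δ) (hle : δ ≤ δ') {η : ℂ}
    (h : 2 * δ' ≤ ‖η‖) :
    (∫ ξ : ℂ, ((kk δ' (η - ξ) * (cL δ * kap δ ξ) : ℝ) : ℂ) * (starRingEnd ℂ) ξ) = 0 := by
  have h1 : ∀ ξ : ℂ, ((kk δ' (η - ξ) * (cL δ * kap δ ξ) : ℝ) : ℂ) * (starRingEnd ℂ) ξ = 0 := by
    intro ξ
    rcases le_or_gt δ ‖ξ‖ with h2 | h2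
    · rw [kap_zero hδ h2]
      simp
    · have h3 : δ' ≤ ‖η - ξ‖ := by
        have := norm_sub_norm_le η ξ
        linarith
      rw [kk_zero hδ' h3]
      simp
  simp only [h1, integral_zero]

end Pool.H46.Eg
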