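import Pool.Agent.H46.Eg.Ker

/-!
# [H46 EG KKT] Taylor expansion of the mollifier (40-70 lines)
With `s = 1 - ‖η‖²/δ²`, `t = 1 - ‖η - ξ‖²/δ²`, p = positive part: `kk δ η = 3/(π δ²) p(s)²`, `cL δ kap δ η = 6/(π δ⁴) p(s)`, `t - s = (2 re (η conj ξ) - ‖ξ‖²)/δ²`,
`|p t ^ 2 - p s ^ 2 - 2 p s (t - s)| ≤ (t - s)²` (cases on the signs of s, t).  For ‖η‖ ≤ 2 δ, ‖ξ‖ ≤ δ: |t - s| ≤ 5 ‖ξ‖/δ; for ‖η‖ ≥ 2 δ everything vanishes
(‖η - ξ‖ ≥ δ).  The difference between `2 p(s) (t - s) 3/(π δ²)` and `cL kap 2 re (η conj ξ)` is `6/(π δ⁴) p(s) ‖ξ‖²`.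
-/

set_option autoImplicit false

open MeasureTheory Metric Set Pool.H46.Bi

namespace Pool.H46.Eg

private theorem kkt_pp (s t : ℝ) :
    |max 0 t ^ 2 - max 0 s ^ 2 - 2 * max 0 s * (t - s)| ≤ (t - s) ^ 2 := by
  rcases le_total 0 s with hs | hs <;> rcases le_total 0 t with ht | ht
  · rw [max_eq_right hs, max_eq_right ht]
    have : t ^ 2 - s ^ 2 - 2 * s * (t - s) = (t - s) ^ 2 := by ring
    rw [this, abs_of_nonneg (sq_nonneg _)]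
  · rw [max_eq_right hs, max_eq_left ht, abs_le]
    constructor <;> nlinarith
  · rw [max_eq_left hs, max_eq_right ht, abs_le]
    constructor <;> nlinarith
  · rw [max_eq_left hs, max_eq_left ht, abs_le]
    constructor <;> nlinarith

theorem kk_taylor {δ : ℝ} (hδ : 0 < δ) : ∃ C : ℝ, 0 ≤ C ∧ ∀ η ξ : ℂ, ‖ξ‖ ≤ δ →
    |kk δ (η - ξ) - kk δ η - cL δ * kap δ η * (2 * (η * (starRingEnd ℂ) ξ).re)| ≤
      C * ‖ξ‖ ^ 2 := by
  have hpi := Real.pi_pos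
  refine ⟨81 / (Real.pi * δ ^ 4), by positivity, ?_⟩
  intro η ξ hξ
  have hnξ := norm_nonneg ξ
  by_cases hη : ‖η‖ ≤ 2 * δ
  · set r : ℝ := 2 * (η * (starRingEnd ℂ) ξ).re with hr
    have h1 : ‖η - ξ‖ ^ 2 = ‖η‖ ^ 2 - r + ‖ξ‖ ^ 2 := by
      have h := @norm_sub_sq ℝ ℂ _ _ _ η ξ
      have h2 : @inner ℝ ℂ _ η ξ = (η * (starRingEnd ℂ) ξ).re := by
        simp only [Complex.inner, Complex.mul_re, Complex.conj_re, Complex.conj_im]
        ring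
      rw [h, hr]
      simp only [RCLike.re_to_real]
      rw [h2]
    have hrb : |r| ≤ 4 * δ * ‖ξ‖ := by
      rw [hr, abs_mul, abs_of_pos (by norm_num : (0 : ℝ) < 2)]
      have h2 : |(η * (starRingEnd ℂ) ξ).re| ≤ ‖η‖ * ‖ξ‖ := by
        refine (Complex.abs_re_le_norm _).trans ?_
        rw [norm_mul, Complex.norm_conj]
      nlinarith
    set s : ℝ := 1 - ‖η‖ ^ 2 / δ ^ 2 with hs
    set t : ℝ := 1 - ‖η - ξ‖ ^ 2 / δ ^ 2 with ht
    have hts : t - s = (r - ‖ξ‖ ^ 2) / δ ^ 2 := by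
      rw [hs, ht, h1]
      field_simp
      ring
    have hk1 : kap δ η = max 0 s := rfl
    have hk2 : kap δ (η - ξ) = max 0 t := rfl
    have hpos : max 0 s ≤ 1 := by
      refine max_le zero_le_one ?_
      rw [hs]
      have : 0 ≤ ‖η‖ ^ 2 / δ ^ 2 := by positivity
      linarith
    have hpos0 : 0 ≤ max 0 s := le_max_left _ _
    have he : kk δ (η - ξ) - kk δ η - cL δ * kap δ η * r =
        3 / (Real.pi * δ ^ 2) * (max 0 t ^ 2 - max 0 s ^ 2 - 2 * max 0 s * (t - s)) -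
          6 / (Real.pi * δ ^ 4) * (max 0 s * ‖ξ‖ ^ 2) := by
      rw [kk, kk, cL, hk1, hk2, hts]
      field_simp
      ring
    rw [he]
    have h3 := kkt_pp s t
    have h4 : (t - s) ^ 2 ≤ 25 * ‖ξ‖ ^ 2 / δ ^ 2 := by
      have h5 : |t - s| ≤ 5 * ‖ξ‖ / δ := by
        rw [hts, abs_div, abs_of_pos (by positivity : (0 : ℝ) < δ ^ 2), div_le_div_iff₀ (by positivity) hδ]
        have h6 : |r - ‖ξ‖ ^ 2| ≤ |r| + ‖ξ‖ ^ 2 := by
          refine (abs_sub _ _).trans ?_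
          rw [abs_of_nonneg (by positivity : (0 : ℝ) ≤ ‖ξ‖ ^ 2)]
        have h7 : |r - ‖ξ‖ ^ 2| ≤ 5 * δ * ‖ξ‖ := by nlinarith
        calc |r - ‖ξ‖ ^ 2| * δ ≤ 5 * δ * ‖ξ‖ * δ := mul_le_mul_of_nonneg_right h7 hδ.le
          _ = _ := by ring
      have h8 : (t - s) ^ 2 = |t - s| ^ 2 := (sq_abs _).symm
      rw [h8]
      refine (pow_le_pow_left₀ (abs_nonneg _) h5 2).trans (le_of_eq ?_)
      ring
    refine (abs_sub _ _).trans ?_
    rw [abs_mul, abs_of_pos (by positivity : (0 : ℝ) < 3 / (Real.pi * δ ^ 2)), abs_mul,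
      abs_of_pos (by positivity : (0 : ℝ) < 6 / (Real.pi * δ ^ 4)),
      abs_of_nonneg (by positivity : 0 ≤ max 0 s * ‖ξ‖ ^ 2)]
    have h9 : 3 / (Real.pi * δ ^ 2) * |max 0 t ^ 2 - max 0 s ^ 2 - 2 * max 0 s * (t - s)| ≤
        3 / (Real.pi * δ ^ 2) * (25 * ‖ξ‖ ^ 2 / δ ^ 2) :=
      mul_le_mul_of_nonneg_left (h3.trans h4) (by positivity)
    have h10 : 6 / (Real.pi * δ ^ 4) * (max 0 s * ‖ξ‖ ^ 2) ≤ 6 / (Real.pi * δ ^ 4) * (1 * ‖ξ‖ ^ 2) := by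
      refine mul_le_mul_of_nonneg_left ?_ (by positivity)
      exact mul_le_mul_of_nonneg_right hpos (by positivity)
    calc _ ≤ 3 / (Real.pi * δ ^ 2) * (25 * ‖ξ‖ ^ 2 / δ ^ 2) + 6 / (Real.pi * δ ^ 4) * (1 * ‖ξ‖ ^ 2) :=
          add_le_add h9 h10
      _ = _ := by
        field_simp
        ring
  · push Not at hη
    have h1 : δ ≤ ‖η‖ := by linarith
    have h2 : δ ≤ ‖η - ξ‖ := by
      have := norm_sub_norm_le η ξ
      linarith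
    rw [kk_zero hδ h1, kk_zero hδ h2, kap_zero hδ h1]
    simp
    positivity

theorem kk_le {δ : ℝ} (hδ : 0 < δ) (ζ : ℂ) : kk δ ζ ≤ 3 / (Real.pi * δ ^ 2) := by
  have hpi := Real.pi_pos
  have h0 := kap_nonneg δ ζ
  have h1 := kap_le_one δ ζ
  rw [kk]
  calc 3 / (Real.pi * δ ^ 2) * kap δ ζ ^ 2 ≤ 3 / (Real.pi * δ ^ 2) * 1 :=
        mul_le_mul_of_nonneg_left (by nlinarith) (by positivity)
    _ = _ := mul_one _

end Pool.H46.Eg
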