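import Pool.Agent.H46.Eg.Mes

/-!
# [H46 EG LIN] linearity of the operators (40-70 lines)
`integral_add`, `integral_const_mul`; the integrability from `T_int` (for `P`: `φ ↦ fourier (-m) φ * F (R φ ω)` is bounded and measurable
on a probability measure).  `P_sup`: `S.Rd`.  `P_zero`: `R φ ω ∈ Om δ` by `S.RX`, `S.Rd`.
-/

set_option autoImplicit false

open MeasureTheory Set Pool.H46.Bi

namespace Pool.H46.Eg

variable {Ω : Type} [MeasurableSpace Ω] (S : Fl Ω)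

private theorem lin_add {F G : Ω → ℂ} (hF : Bd F) (hG : Bd G) {k : ℂ → ℂ} (hk : Continuous k) {δ : ℝ}
    (h0 : ∀ ζ : ℂ, δ ≤ ‖ζ‖ → k ζ = 0) (ω : Ω) :
    ∫ ζ : ℂ, k ζ * (F (S.T ζ ω) + G (S.T ζ ω)) = (∫ ζ : ℂ, k ζ * F (S.T ζ ω)) + ∫ ζ : ℂ, k ζ * G (S.T ζ ω) := by
  rw [← integral_add (T_int S hF hk h0 ω) (T_int S hG hk h0 ω)]
  congr 1
  funext ζ
  ring

theorem L_add {δ : ℝ} (hδ : 0 < δ) {F G : Ω → ℂ} (hF : Bd F) (hG : Bd G) (ω : Ω) :
    S.L δ (fun ω => F ω + G ω) ω = S.L δ F ω + S.L δ G ω := by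
  have hk : Continuous fun ζ : ℂ => ((cL δ * kap δ ζ : ℝ) : ℂ) * (starRingEnd ℂ) ζ :=
    (Complex.continuous_ofReal.comp (continuous_const.mul (kap_cont δ))).mul Complex.continuous_conj
  exact lin_add S hF hG hk (δ := δ) (fun ζ hζ => by rw [kap_zero hδ hζ]; simp) ω

theorem L_smul (δ : ℝ) (c : ℂ) (F : Ω → ℂ) (ω : Ω) :
    S.L δ (fun ω => c * F ω) ω = c * S.L δ F ω := by
  unfold Fl.L
  rw [← integral_const_mul]
  congr 1
  funext ζ
  ring

theorem L'_add {δ : ℝ} (hδ : 0 < δ) {F G : Ω → ℂ} (hF : Bd F) (hG : Bd G) (ω : Ω) :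
    S.L' δ (fun ω => F ω + G ω) ω = S.L' δ F ω + S.L' δ G ω := by
  have hk : Continuous fun ζ : ℂ => ((cL δ * kap δ ζ : ℝ) : ℂ) * ζ :=
    (Complex.continuous_ofReal.comp (continuous_const.mul (kap_cont δ))).mul continuous_id
  exact lin_add S hF hG hk (δ := δ) (fun ζ hζ => by rw [kap_zero hδ hζ]; simp) ω

private theorem lin_P_int (m : ℤ) {F : Ω → ℂ} (hF : Bd F) (ω : Ω) :
    Integrable (fun φ : Tor => (fourier (-m) φ : ℂ) * F (S.R φ ω)) AddCircle.haarAddCircle := by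
  obtain ⟨hF1, C, hC⟩ := hF
  refine Integrable.mono' (g := fun _ => C) (integrable_const C) ?_ ?_
  · exact ((fourier (-m)).continuous.measurable.mul
      (hF1.comp (S.mR.comp (measurable_id.prodMk measurable_const)))).aestronglyMeasurable
  · refine Filter.Eventually.of_forall fun φ => ?_
    rw [norm_mul]
    have h2 : ‖(fourier (-m) φ : ℂ)‖ = 1 := by simp
    rw [h2, one_mul]
    exact hC _

theorem P_add (m : ℤ) {F G : Ω → ℂ} (hF : Bd F) (hG : Bd G) (ω : Ω) :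
    S.P m (fun ω => F ω + G ω) ω = S.P m F ω + S.P m G ω := by
  unfold Fl.P
  rw [← integral_add (lin_P_int S m hF ω) (lin_P_int S m hG ω)]
  congr 1
  funext φ
  ring

theorem P_smul (m : ℤ) (c : ℂ) (F : Ω → ℂ) (ω : Ω) :
    S.P m (fun ω => c * F ω) ω = c * S.P m F ω := by
  unfold Fl.P
  rw [← integral_const_mul]
  congr 1
  funext φ
  ring

/-- `P m` preserves the support condition -/
theorem P_sup (m : ℤ) {δ : ℝ} {G : Ω → ℂ} (hG : S.Sup δ G) : S.Sup δ (S.P m G) := by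
  intro ω hω
  unfold Fl.P
  have h : ∀ φ : Tor, (fourier (-m) φ : ℂ) * G (S.R φ ω) = 0 := by
    intro φ
    rw [hG (S.R φ ω) (by rw [S.Rd]; exact hω), mul_zero]
  simp only [h, integral_zero]

/-- the mode of a function which vanishes on `Om δ` vanishes on `Om δ` -/
theorem P_zero (m : ℤ) {δ : ℝ} {F : Ω → ℂ} (h : ∀ ω ∈ S.Om δ, F ω = 0) :
    ∀ ω ∈ S.Om δ, S.P m F ω = 0 := by
  intro ω hω
  unfold Fl.P
  have h : ∀ φ : Tor, (fourier (-m) φ : ℂ) * F (S.R φ ω) = 0 := by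
    intro φ
    rw [h (S.R φ ω) ⟨S.RX φ ω hω.1, by rw [S.Rd]; exact hω.2⟩, mul_zero]
  simp only [h, integral_zero]

end Pool.H46.Eg
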