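import Pool.Agent.H46.Eg.KkT

/-!
# [H46 EG LOCA] the mollified function and its gradient (80-120 lines, Mathlib and the kernels only)
`av_taylor`: `av δ u (x + v) = ∫ kk δ (z - v) u (x + z)` (translate), `kk_taylor` (with η = z, ξ = v; `2 re (z conj v) = 2 re (v conj z)`); the difference of the
integrands vanishes for ‖z‖ ≥ 2 δ and is at most `C ‖v‖² M` there, area of the ball: `C M π (2δ)² ‖v‖²`.
`gr_cont`: `gr δ u x = ∫ k (w - x) * u w` with k continuous of compact support (translate), u bounded: `continuous_of_dominated` near x (the integrand vanishes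
for ‖w - x‖ ≥ δ, so for x' near x it is bounded by a constant times the indicator of a ball).
`av_const`: gr δ u vanishes a.e. in the ball and is continuous, so it vanishes in the ball (an open subset of measure zero is empty:
`IsOpen.measure_pos`; or `Continuous.ae_eq_iff_eq`-like for the restricted measure); by `av_taylor` the derivative of av δ u is 0 in the ball
(`HasFDerivAt` from the quadratic bound), the ball is convex: `Convex.is_const_of_fderivWithin_eq_zero` or
`IsOpen.is_const_of_fderiv_eq_zero`; or directly: for x, y in the ball cut the segment into n parts: |av y - av x| ≤ n C (‖y - x‖/n)² → 0.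
-/

set_option autoImplicit false

open MeasureTheory Metric Set Pool.H46.Bi

namespace Pool.H46.Eg

/-- the mollified function -/
noncomputable def av (δ : ℝ) (u : ℂ → ℝ) (x : ℂ) : ℝ := ∫ z : ℂ, kk δ z * u (x + z)

/-- its gradient -/
noncomputable def gr (δ : ℝ) (u : ℂ → ℝ) (x : ℂ) : ℂ :=
  ∫ z : ℂ, ((cL δ * kap δ z : ℝ) : ℂ) * (starRingEnd ℂ) z * ((u (x + z) : ℝ) : ℂ)

private theorem loca_int {δ : ℝ} {g : ℂ → ℝ} (hg : Continuous g) (h0 : ∀ z : ℂ, δ ≤ ‖z‖ → g z = 0)
    {u : ℂ → ℝ} (hu : Measurable u) {M : ℝ} (hM : ∀ x, |u x| ≤ M) (x : ℂ) :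
    Integrable (fun z : ℂ => g z * u (x + z)) := by
  have h1 : Integrable g := by
    refine hg.integrable_of_hasCompactSupport
      (HasCompactSupport.intro (isCompact_closedBall (0 : ℂ) δ) fun z hz => ?_)
    refine h0 z ?_
    rw [Metric.mem_closedBall, dist_zero_right, not_le] at hz
    exact hz.le
  refine h1.mul_bdd (c := M) ?_ ?_
  · exact (hu.comp (measurable_const.add measurable_id)).aestronglyMeasurable
  · exact Filter.Eventually.of_forall fun z => by
      rw [Real.norm_eq_abs]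
      exact hM _

private theorem loca_k_cont (δ : ℝ) :
    Continuous (fun z : ℂ => ((cL δ * kap δ z : ℝ) : ℂ) * (starRingEnd ℂ) z) :=
  (Complex.continuous_ofReal.comp (continuous_const.mul (kap_cont δ))).mul Complex.continuous_conj

private theorem loca_k_zero {δ : ℝ} (hδ : 0 < δ) {z : ℂ} (h : δ ≤ ‖z‖) :
    ((cL δ * kap δ z : ℝ) : ℂ) * (starRingEnd ℂ) z = 0 := by
  rw [kap_zero hδ h]
  simp

private theorem loca_int_c {δ : ℝ} (hδ : 0 < δ) {u : ℂ → ℝ} (hu : Measurable u) {M : ℝ}
    (hM : ∀ x, |u x| ≤ M) (x : ℂ) :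
    Integrable (fun z : ℂ => ((cL δ * kap δ z : ℝ) : ℂ) * (starRingEnd ℂ) z *
      ((u (x + z) : ℝ) : ℂ)) := by
  have h1 := integrable_of_zero (loca_k_cont δ) (fun z hz => loca_k_zero hδ hz)
  refine h1.mul_bdd (c := M) ?_ ?_
  · exact (Complex.measurable_ofReal.comp
      (hu.comp (measurable_const.add measurable_id))).aestronglyMeasurable
  · exact Filter.Eventually.of_forall fun z => by
      rw [Complex.norm_real, Real.norm_eq_abs]
      exact hM _

theorem av_taylor {δ : ℝ} (hδ : 0 < δ) {u : ℂ → ℝ} (hu : Measurable u) {M : ℝ}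
    (hM : ∀ x, |u x| ≤ M) : ∃ C : ℝ, 0 ≤ C ∧ ∀ x v : ℂ, ‖v‖ ≤ δ →
      |av δ u (x + v) - av δ u x - 2 * (v * gr δ u x).re| ≤ C * ‖v‖ ^ 2 := by
  obtain ⟨C, hC, hT⟩ := kk_taylor hδ
  have hM0 : 0 ≤ M := (abs_nonneg _).trans (hM 0)
  refine ⟨C * M * (volume : Measure ℂ).real (closedBall 0 (2 * δ)), by positivity, ?_⟩
  intro x v hv
  -- the translated integral
  have e1 : av δ u (x + v) = ∫ z : ℂ, kk δ (z - v) * u (x + z) := by
    unfold av
    rw [← integral_add_right_eq_self (fun z : ℂ => kk δ (z - v) * u (x + z)) v]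
    congr 1
    funext z
    rw [add_sub_cancel_right]
    congr 2
    ring
  have i1 : Integrable (fun z : ℂ => kk δ (z - v) * u (x + z)) := by
    refine loca_int (δ := 2 * δ) ((kk_cont δ).comp (continuous_id.sub continuous_const)) ?_ hu hM x
    intro z hz
    have h2 : ‖z‖ - ‖v‖ ≤ ‖z - v‖ := norm_sub_norm_le z v
    have h3 : δ ≤ ‖z - v‖ := by linarith
    exact kk_zero hδ h3
  have i2 : Integrable (fun z : ℂ => kk δ z * u (x + z)) :=
    loca_int (kk_cont δ) (fun z hz => kk_zero hδ hz) hu hM x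
  have i3 : Integrable (fun z : ℂ => cL δ * kap δ z * (2 * (z * (starRingEnd ℂ) v).re) *
      u (x + z)) := by
    refine loca_int (δ := δ) ?_ ?_ hu hM x
    · refine (continuous_const.mul (kap_cont δ)).mul (continuous_const.mul ?_)
      exact Complex.continuous_re.comp (continuous_id.mul continuous_const)
    · intro z hz
      rw [kap_zero hδ hz]
      ring
  have e2 : 2 * (v * gr δ u x).re =
      ∫ z : ℂ, cL δ * kap δ z * (2 * (z * (starRingEnd ℂ) v).re) * u (x + z) := by
    unfold gr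
    rw [← integral_const_mul]
    have h1 := (loca_int_c hδ hu hM x).const_mul v
    have h2 : (∫ z : ℂ, v * (((cL δ * kap δ z : ℝ) : ℂ) * (starRingEnd ℂ) z *
        ((u (x + z) : ℝ) : ℂ))).re = ∫ z : ℂ, (v * (((cL δ * kap δ z : ℝ) : ℂ) *
        (starRingEnd ℂ) z * ((u (x + z) : ℝ) : ℂ))).re := by
      have h3 := integral_re h1
      exact h3.symm
    rw [h2, ← integral_const_mul]
    congr 1
    funext z
    simp only [Complex.mul_re, Complex.mul_im, Complex.ofReal_re, Complex.ofReal_im,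
      Complex.conj_re, Complex.conj_im]
    ring
  have e3 : av δ u (x + v) - av δ u x - 2 * (v * gr δ u x).re =
      ∫ z : ℂ, (kk δ (z - v) - kk δ z - cL δ * kap δ z * (2 * (z * (starRingEnd ℂ) v).re)) *
        u (x + z) := by
    rw [e1, e2]
    unfold av
    have i12 : Integrable (fun z : ℂ => kk δ (z - v) * u (x + z) - kk δ z * u (x + z)) :=
      i1.sub i2
    rw [← integral_sub i1 i2, ← integral_sub i12 i3]
    congr 1
    funext z
    ring
  rw [e3]
  have hz : ∀ z : ℂ, z ∉ closedBall (0 : ℂ) (2 * δ) →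
      (kk δ (z - v) - kk δ z - cL δ * kap δ z * (2 * (z * (starRingEnd ℂ) v).re)) *
        u (x + z) = 0 := by
    intro z hz
    rw [Metric.mem_closedBall, dist_zero_right, not_le] at hz
    have h2 : ‖z‖ - ‖v‖ ≤ ‖z - v‖ := norm_sub_norm_le z v
    rw [kk_zero hδ (by linarith : δ ≤ ‖z - v‖), kk_zero hδ (by linarith : δ ≤ ‖z‖),
      kap_zero hδ (by linarith : δ ≤ ‖z‖)]
    ring
  rw [← setIntegral_eq_integral_of_forall_compl_eq_zero hz, ← Real.norm_eq_abs]
  have hb := norm_setIntegral_le_of_norm_le_const (μ := (volume : Measure ℂ))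
    (s := closedBall (0 : ℂ) (2 * δ)) (C := C * ‖v‖ ^ 2 * M)
    (f := fun z : ℂ => (kk δ (z - v) - kk δ z - cL δ * kap δ z *
      (2 * (z * (starRingEnd ℂ) v).re)) * u (x + z)) measure_closedBall_lt_top (by
      intro z _
      rw [norm_mul, Real.norm_eq_abs, Real.norm_eq_abs]
      exact mul_le_mul (hT z v hv) (hM _) (abs_nonneg _) (by positivity))
  refine hb.trans (le_of_eq ?_)
  ring

theorem gr_cont {δ : ℝ} (hδ : 0 < δ) {u : ℂ → ℝ} (hu : Measurable u) {M : ℝ}
    (hM : ∀ x, |u x| ≤ M) : Continuous (gr δ u) := by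
  have hloc : LocallyIntegrable (fun x : ℂ => ((u x : ℝ) : ℂ)) := by
    intro x
    refine ⟨closedBall x 1, closedBall_mem_nhds x one_pos, ?_⟩
    refine Measure.integrableOn_of_bounded (M := M) measure_closedBall_lt_top.ne
      (Complex.measurable_ofReal.comp hu).aestronglyMeasurable ?_
    exact Filter.Eventually.of_forall fun z => by
      rw [Complex.norm_real, Real.norm_eq_abs]
      exact hM _
  have hk : Continuous (fun t : ℂ => ((cL δ * kap δ (-t) : ℝ) : ℂ) * (starRingEnd ℂ) (-t)) :=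
    (loca_k_cont δ).comp continuous_neg
  have hcs : HasCompactSupport (fun t : ℂ => ((cL δ * kap δ (-t) : ℝ) : ℂ) *
      (starRingEnd ℂ) (-t)) := by
    refine HasCompactSupport.intro (isCompact_closedBall (0 : ℂ) δ) fun z hz => ?_
    rw [Metric.mem_closedBall, dist_zero_right, not_le] at hz
    exact loca_k_zero hδ (by rw [norm_neg]; exact hz.le)
  have h := hcs.continuous_convolution_left (ContinuousLinearMap.mul ℝ ℂ) hk hloc
  refine h.congr ?_
  intro x
  unfold gr
  rw [convolution_def, ← integral_neg_eq_self]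
  congr 1
  funext z
  simp only [ContinuousLinearMap.mul_apply', neg_neg, sub_neg_eq_add]

theorem av_const {δ : ℝ} (hδ : 0 < δ) {u : ℂ → ℝ} (hu : Measurable u) {M : ℝ}
    (hM : ∀ x, |u x| ≤ M) {x0 : ℂ} {r : ℝ}
    (h : ∀ᵐ x ∂((volume : Measure ℂ).restrict (ball x0 r)), gr δ u x = 0) :
    ∀ x ∈ ball x0 r, ∀ y ∈ ball x0 r, av δ u x = av δ u y := by
  have h0 : EqOn (gr δ u) (fun _ => (0 : ℂ)) (ball x0 r) :=
    Measure.eqOn_open_of_ae_eq h isOpen_ball (gr_cont hδ hu hM).continuousOn continuousOn_const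
  obtain ⟨C, hC, hT⟩ := av_taylor hδ hu hM
  have hder : ∀ x ∈ ball x0 r, HasFDerivAt (av δ u) (0 : ℂ →L[ℝ] ℝ) x := by
    intro x hx
    rw [hasFDerivAt_iff_isLittleO_nhds_zero]
    have hO : (fun v : ℂ => av δ u (x + v) - av δ u x - (0 : ℂ →L[ℝ] ℝ) v) =O[nhds 0]
        fun v : ℂ => ‖v‖ ^ 2 := by
      refine Asymptotics.IsBigO.of_bound C ?_
      filter_upwards [Metric.closedBall_mem_nhds (0 : ℂ) hδ] with v hv
      rw [Metric.mem_closedBall, dist_zero_right] at hv
      have h1 := hT x v hv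
      rw [h0 hx] at h1
      simp only [mul_zero, Complex.zero_re, sub_zero] at h1
      simp only [zero_apply, sub_zero]
      rw [Real.norm_eq_abs, Real.norm_eq_abs, abs_of_nonneg (by positivity : 0 ≤ ‖v‖ ^ 2)]
      exact h1
    exact hO.trans_isLittleO (Asymptotics.isLittleO_norm_pow_id one_lt_two)
  intro x hx y hy
  exact isOpen_ball.is_const_of_fderiv_eq_zero (𝕜 := ℝ) (convex_ball x0 r).isPreconnected
    (fun z hz => (hder z hz).differentiableAt.differentiableWithinAt)
    (fun z hz => (hder z hz).fderiv) hx hy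

end Pool.H46.Eg
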