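import Pool.Agent.H46.Eg.LocT

/-!
# [H46 EG LOCC] a bounded function whose mollified gradients vanish is constant (20-40 lines)
For a.e. x and a.e. y in the ball: u x = lim av (1/(n+1)) u x = lim av (1/(n+1)) u y = u y (`av_tendsto`, `av_const` for n ≥ N, `tendsto_nhds_unique`
with `Filter.Tendsto.congr'`).
-/

set_option autoImplicit false

open MeasureTheory Metric Set Pool.H46.Bi

namespace Pool.H46.Eg

theorem loc_const {u : ℂ → ℝ} (hu : Measurable u) {M : ℝ} (hM : ∀ x, |u x| ≤ M) {x0 : ℂ} {r : ℝ}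
    {N : ℕ}
    (h : ∀ n : ℕ, N ≤ n → ∀ᵐ x ∂((volume : Measure ℂ).restrict (ball x0 r)),
      ∫ z : ℂ, ((cL (1 / ((n : ℝ) + 1)) * kap (1 / ((n : ℝ) + 1)) z : ℝ) : ℂ) *
        (starRingEnd ℂ) z * ((u (x + z) : ℝ) : ℂ) = 0) :
    ∀ᵐ x ∂((volume : Measure ℂ).restrict (ball x0 r)),
      ∀ᵐ y ∂((volume : Measure ℂ).restrict (ball x0 r)), u x = u y := by
  have h1 : ∀ᵐ x ∂((volume : Measure ℂ).restrict (ball x0 r)),
      Filter.Tendsto (fun n : ℕ => av (1 / ((n : ℝ) + 1)) u x) Filter.atTop (nhds (u x)) :=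
    ae_restrict_of_ae (av_tendsto hu hM)
  filter_upwards [h1, ae_restrict_mem measurableSet_ball] with x hx hxb
  filter_upwards [h1, ae_restrict_mem measurableSet_ball] with y hy hyb
  refine tendsto_nhds_unique hx (hy.congr' ?_)
  filter_upwards [Filter.eventually_ge_atTop N] with n hn
  exact av_const (Nat.one_div_pos_of_nat (α := ℝ)) hu hM (h n hn) y hyb x hxb

end Pool.H46.Eg
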