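import Pool.Agent.H46.Eg.LocA
import Pool.Agent.H46.Eg.KerI

/-!
# [H46 EG LOCT] mollified functions converge almost everywhere (50-80 lines)
`|av δ u x - u x| ≤ ∫ kk δ z |u (x+z) - u x| ≤ 3 ⨍ over closedBall x δ of |u - u x|` (`int_kk`, `kk_le`, `kk_zero`, area `π δ²` of the closed ball,
`Complex.volume_closedBall`), and Lebesgue points: `IsUnifLocDoublingMeasure.ae_tendsto_average_norm_sub` or `Besicovitch.ae_tendsto_..`
(u is bounded measurable, so locally integrable; δ = 1/(n+1) → 0 from the right).
-/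

set_option autoImplicit false

open MeasureTheory Metric Set Pool.H46.Bi

namespace Pool.H46.Eg

private theorem loct_kint {δ : ℝ} (hδ : 0 < δ) : Integrable (kk δ) := by
  refine (kk_cont δ).integrable_of_hasCompactSupport
    (HasCompactSupport.intro (isCompact_closedBall (0 : ℂ) δ) fun z hz => ?_)
  refine kk_zero hδ ?_
  rw [Metric.mem_closedBall, dist_zero_right, not_le] at hz
  exact hz.le

theorem loct_bound {δ : ℝ} (hδ : 0 < δ) {u : ℂ → ℝ} (hu : Measurable u) {M : ℝ}
    (hM : ∀ x, |u x| ≤ M) (x : ℂ) :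
    |av δ u x - u x| ≤ 3 * ⨍ y in closedBall x δ, ‖u y - u x‖ := by
  have hmu : Measurable fun z : ℂ => u (x + z) := hu.comp (measurable_const.add measurable_id)
  have i1 : Integrable (fun z : ℂ => kk δ z * u (x + z)) :=
    (loct_kint hδ).mul_bdd (c := M) hmu.aestronglyMeasurable
      (Filter.Eventually.of_forall fun z => by
        rw [Real.norm_eq_abs]
        exact hM _)
  have e1 : av δ u x - u x = ∫ z : ℂ, kk δ z * (u (x + z) - u x) := by
    have h1 : ∫ z : ℂ, kk δ z * u x = u x := by
      rw [integral_mul_const, int_kk hδ, one_mul]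
    unfold av
    conv_lhs => rw [← h1]
    rw [← integral_sub i1 ((loct_kint hδ).mul_const _)]
    congr 1
    funext z
    ring
  have hz : ∀ z : ℂ, z ∉ closedBall (0 : ℂ) δ → kk δ z * (u (x + z) - u x) = 0 := by
    intro z hz
    rw [Metric.mem_closedBall, dist_zero_right, not_le] at hz
    rw [kk_zero hδ hz.le, zero_mul]
  rw [e1, ← setIntegral_eq_integral_of_forall_compl_eq_zero hz, ← Real.norm_eq_abs]
  have hb : ∀ z : ℂ, ‖u (x + z) - u x‖ ≤ 2 * M := by
    intro z
    refine (norm_sub_le _ _).trans ?_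
    rw [Real.norm_eq_abs, Real.norm_eq_abs]
    linarith [hM (x + z), hM x]
  have i2 : IntegrableOn (fun z : ℂ => 3 / (Real.pi * δ ^ 2) * ‖u (x + z) - u x‖)
      (closedBall (0 : ℂ) δ) := by
    refine Integrable.const_mul ?_ _
    refine Measure.integrableOn_of_bounded (M := 2 * M) measure_closedBall_lt_top.ne
      ((hmu.sub_const _).norm).aestronglyMeasurable ?_
    exact Filter.Eventually.of_forall fun z => by
      rw [norm_norm]
      exact hb z
  refine (norm_integral_le_of_norm_le i2 (Filter.Eventually.of_forall fun z => ?_)).trans ?_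
  · rw [norm_mul, Real.norm_eq_abs, abs_of_nonneg (kk_nonneg δ z)]
    exact mul_le_mul_of_nonneg_right (kk_le hδ z) (norm_nonneg _)
  · rw [integral_const_mul, setAverage_eq]
    have h3 : (volume : Measure ℂ).real (closedBall x δ) = Real.pi * δ ^ 2 := by
      rw [Measure.real, Complex.volume_closedBall]
      rw [ENNReal.toReal_mul, ENNReal.toReal_pow, ENNReal.toReal_ofReal hδ.le]
      simp
      ring
    have h4 : ∫ y in closedBall x δ, ‖u y - u x‖ = ∫ z in closedBall (0 : ℂ) δ,
        ‖u (x + z) - u x‖ := by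
      have h5 := (measurePreserving_add_left (volume : Measure ℂ) x).setIntegral_preimage_emb
        (measurableEmbedding_addLeft x) (fun y => ‖u y - u x‖) (closedBall x δ)
      rw [← h5]
      congr 1
      congr 1
      ext z
      simp [mem_closedBall, dist_eq_norm]
    rw [h3, h4, smul_eq_mul]
    apply le_of_eq
    field_simp

theorem av_tendsto {u : ℂ → ℝ} (hu : Measurable u) {M : ℝ} (hM : ∀ x, |u x| ≤ M) :
    ∀ᵐ x : ℂ, Filter.Tendsto (fun n : ℕ => av (1 / ((n : ℝ) + 1)) u x) Filter.atTop
      (nhds (u x)) := by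
  have hloc : LocallyIntegrable u (volume : Measure ℂ) := by
    intro x
    refine ⟨closedBall x 1, closedBall_mem_nhds x one_pos, ?_⟩
    refine Measure.integrableOn_of_bounded (M := M) measure_closedBall_lt_top.ne
      hu.aestronglyMeasurable ?_
    exact Filter.Eventually.of_forall fun z => by
      rw [Real.norm_eq_abs]
      exact hM _
  filter_upwards [IsUnifLocDoublingMeasure.ae_tendsto_average_norm_sub (volume : Measure ℂ) hloc 1]
    with x hx
  have hlim : Filter.Tendsto (fun n : ℕ => 1 / ((n : ℝ) + 1)) Filter.atTop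
      (nhdsWithin 0 (Ioi 0)) := by
    rw [tendsto_nhdsWithin_iff]
    refine ⟨tendsto_one_div_add_atTop_nhds_zero_nat, Filter.Eventually.of_forall fun n => ?_⟩
    exact Nat.one_div_pos_of_nat (α := ℝ)
  have h1 := hx (fun _ => x) (fun n : ℕ => 1 / ((n : ℝ) + 1)) hlim
    (Filter.Eventually.of_forall fun n => by
      rw [one_mul]
      exact mem_closedBall_self (Nat.one_div_pos_of_nat (α := ℝ)).le)
  have h2 : Filter.Tendsto (fun n : ℕ => 3 * ⨍ y in closedBall x (1 / ((n : ℝ) + 1)),
      ‖u y - u x‖) Filter.atTop (nhds (3 * 0)) := h1.const_mul 3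
  rw [mul_zero] at h2
  rw [tendsto_iff_norm_sub_tendsto_zero]
  refine squeeze_zero (fun n => norm_nonneg _) (fun n => ?_) h2
  rw [Real.norm_eq_abs]
  exact loct_bound (Nat.one_div_pos_of_nat (α := ℝ)) hu hM x

end Pool.H46.Eg
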