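import Pool.Agent.H46.Eg.Lbd
import Pool.Agent.H46.Eg.KerT
import Pool.Agent.H46.Eg.AvL

/-!
# [H46 EG LSC] lower semicontinuity (70-110 lines)
`av_contr`: for H Bd and 2 δ ≤ δ': `nn δ' (Av δ' H) ≤ nn δ H`: `‖∫ kk ζ H (T ζ ω)‖² ≤ ∫ kk ζ ‖H (T ζ ω)‖²` (`int_kk`, kk ≥ 0:
Cauchy-Schwarz/Jensen), integrate over Om δ', Fubini, `push` for ‖ζ‖ < δ'.
`lsc`: by `ker_taylor`, `ker_supp`, `kap_zero`: `‖Av δ' (L δ F) ω - L δ' F ω‖ ≤ ∫ over ‖η‖ ≤ 2 δ' of C δ M ≤ C δ M π (2 δ')²` on Om δ';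
`nn_add_le` (L δ' F = Av .. + difference), `av_contr`, μ finite.
-/

set_option autoImplicit false

open MeasureTheory Set Pool.H46.Bi

namespace Pool.H46.Eg

variable {Ω : Type} [MeasurableSpace Ω] (S : Fl Ω)

private theorem lsc_kk_int {δ : ℝ} (hδ : 0 < δ) : Integrable (fun ζ : ℂ => kk δ ζ) := by
  have h := (integrable_of_zero (δ := δ) (f := fun ζ : ℂ => ((kk δ ζ : ℝ) : ℂ))
    (Complex.continuous_ofReal.comp (kk_cont δ)) (fun ζ hζ => by simp [kk_zero hδ hζ])).re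
  exact h

/-- Jensen for the mollifier -/
private theorem lsc_jensen {δ : ℝ} (hδ : 0 < δ) {u : ℂ → ℝ} (hu : Measurable u) {C : ℝ}
    (hC : ∀ ζ, |u ζ| ≤ C) :
    (∫ ζ : ℂ, kk δ ζ * u ζ) ^ 2 ≤ ∫ ζ : ℂ, kk δ ζ * u ζ ^ 2 := by
  have hk := lsc_kk_int hδ
  have i1 : Integrable (fun ζ : ℂ => kk δ ζ * u ζ) :=
    hk.mul_bdd (c := C) hu.aestronglyMeasurable (Filter.Eventually.of_forall hC)
  have i2 : Integrable (fun ζ : ℂ => kk δ ζ * u ζ ^ 2) := by
    refine hk.mul_bdd (c := C ^ 2) (hu.pow_const 2).aestronglyMeasurable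
      (Filter.Eventually.of_forall fun ζ => ?_)
    rw [Real.norm_eq_abs, abs_pow]
    exact pow_le_pow_left₀ (abs_nonneg _) (hC ζ) 2
  obtain ⟨m, hm⟩ : ∃ m, m = ∫ ζ : ℂ, kk δ ζ * u ζ := ⟨_, rfl⟩
  have h0 : 0 ≤ ∫ ζ : ℂ, kk δ ζ * (u ζ - m) ^ 2 :=
    integral_nonneg fun ζ => mul_nonneg (kk_nonneg δ ζ) (sq_nonneg _)
  have h1 : ∫ ζ : ℂ, kk δ ζ * (u ζ - m) ^ 2 =
      ∫ ζ : ℂ, (kk δ ζ * u ζ ^ 2 + ((-2 * m) * (kk δ ζ * u ζ) + m ^ 2 * kk δ ζ)) :=
    integral_congr_ae (Filter.Eventually.of_forall fun ζ => by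
      show kk δ ζ * (u ζ - m) ^ 2 =
        kk δ ζ * u ζ ^ 2 + ((-2 * m) * (kk δ ζ * u ζ) + m ^ 2 * kk δ ζ)
      ring)
  have i3 : Integrable (fun ζ : ℂ => (-2 * m) * (kk δ ζ * u ζ) + m ^ 2 * kk δ ζ) :=
    (i1.const_mul _).add (hk.const_mul _)
  rw [h1, integral_add i2 i3, integral_add (i1.const_mul _) (hk.const_mul _),
    integral_const_mul, integral_const_mul, int_kk hδ, ← hm] at h0
  rw [← hm]
  linarith

theorem av_contr {δ' δ : ℝ} (hδ' : 0 < δ') (hle : 2 * δ ≤ δ') {H : Ω → ℂ} (hH : Bd H) :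
    S.nn δ' (S.Av δ' H) ≤ S.nn δ H := by
  have := S.fin
  obtain ⟨mH, C, hC⟩ := hH
  have hC0 : ∀ ω, 0 ≤ ‖H ω‖ := fun ω => norm_nonneg _
  have hTm : Measurable (fun p : Ω × ℂ => S.T p.2 p.1) :=
    S.mT.comp (measurable_snd.prodMk measurable_fst)
  have hjm : Measurable (fun p : Ω × ℂ => kk δ' p.2 * ‖H (S.T p.2 p.1)‖ ^ 2) :=
    ((kk_cont δ').measurable.comp measurable_snd).mul ((mH.comp hTm).norm.pow_const 2)
  have hk := lsc_kk_int hδ'
  have hsq : ∀ ω, ‖H ω‖ ^ 2 ≤ C ^ 2 := fun ω => pow_le_pow_left₀ (norm_nonneg _) (hC ω) 2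
  have hji : Integrable (Function.uncurry fun (ω : Ω) (ζ : ℂ) => kk δ' ζ * ‖H (S.T ζ ω)‖ ^ 2)
      ((S.μ.restrict (S.Om δ')).prod (volume : Measure ℂ)) := by
    have hb : Integrable (fun p : Ω × ℂ => C ^ 2 * kk δ' p.2)
        ((S.μ.restrict (S.Om δ')).prod (volume : Measure ℂ)) :=
      Integrable.mul_prod (f := fun _ : Ω => C ^ 2) (integrable_const _) hk
    refine hb.mono' hjm.aestronglyMeasurable (Filter.Eventually.of_forall fun p => ?_)
    show ‖kk δ' p.2 * ‖H (S.T p.2 p.1)‖ ^ 2‖ ≤ C ^ 2 * kk δ' p.2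
    rw [norm_mul, Real.norm_eq_abs, abs_of_nonneg (kk_nonneg _ _), Real.norm_eq_abs,
      abs_of_nonneg (by positivity : (0 : ℝ) ≤ ‖H (S.T p.2 p.1)‖ ^ 2), mul_comm]
    exact mul_le_mul_of_nonneg_right (hsq _) (kk_nonneg _ _)
  have h1 : S.nn δ' (S.Av δ' H) ≤
      ∫ ω in S.Om δ', (∫ ζ : ℂ, kk δ' ζ * ‖H (S.T ζ ω)‖ ^ 2) ∂S.μ := by
    unfold Fl.nn
    refine integral_mono_of_nonneg (Filter.Eventually.of_forall fun ω => by positivity)
      hji.integral_prod_left (Filter.Eventually.of_forall fun ω => ?_)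
    show ‖S.Av δ' H ω‖ ^ 2 ≤ ∫ ζ : ℂ, kk δ' ζ * ‖H (S.T ζ ω)‖ ^ 2
    have hmω : Measurable fun ζ : ℂ => H (S.T ζ ω) :=
      mH.comp (S.mT.comp (measurable_id.prodMk measurable_const))
    refine le_trans ?_ (lsc_jensen hδ' hmω.norm (C := C) (fun ζ => by
      rw [abs_norm]
      exact hC _))
    refine pow_le_pow_left₀ (norm_nonneg _) ?_ 2
    unfold Fl.Av
    refine (norm_integral_le_integral_norm _).trans (le_of_eq ?_)
    refine integral_congr_ae (Filter.Eventually.of_forall fun ζ => ?_)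
    show ‖((kk δ' ζ : ℝ) : ℂ) * H (S.T ζ ω)‖ = kk δ' ζ * ‖H (S.T ζ ω)‖
    rw [norm_mul, Complex.norm_real, Real.norm_eq_abs, abs_of_nonneg (kk_nonneg _ _)]
  refine h1.trans ?_
  rw [integral_integral_swap hji]
  have h2 : ∀ ζ : ℂ, ∫ ω in S.Om δ', kk δ' ζ * ‖H (S.T ζ ω)‖ ^ 2 ∂S.μ ≤
      kk δ' ζ * S.nn δ H := by
    intro ζ
    rw [integral_const_mul]
    by_cases hζ : ‖ζ‖ < δ'
    · refine mul_le_mul_of_nonneg_left ?_ (kk_nonneg _ _)
      exact push S hδ' hle hζ (h := fun ω => ‖H ω‖ ^ 2) (mH.norm.pow_const 2)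
        (fun ω => by positivity) hsq
    · rw [kk_zero hδ' (not_lt.1 hζ), zero_mul, zero_mul]
  refine (integral_mono_of_nonneg (Filter.Eventually.of_forall fun ζ => ?_)
    (hk.mul_const (S.nn δ H)) (Filter.Eventually.of_forall h2)).trans (le_of_eq ?_)
  · exact integral_nonneg fun ω => mul_nonneg (kk_nonneg _ _) (by positivity)
  · rw [integral_mul_const, int_kk hδ', one_mul]

theorem lsc {δ' : ℝ} (hδ' : 0 < δ') : ∃ C : ℝ, 0 ≤ C ∧ ∀ δ : ℝ, 0 < δ → 2 * δ ≤ δ' →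
    ∀ F : Ω → ℂ, Bd F → ∀ M : ℝ, 0 ≤ M → (∀ ω, ‖F ω‖ ≤ M) →
      Real.sqrt (S.nn δ' (S.L δ' F)) ≤ Real.sqrt (S.nn δ (S.L δ F)) + C * M * δ := by
  have := S.fin
  obtain ⟨C₀, hC₀, hker⟩ := ker_taylor hδ'
  obtain ⟨V, hV⟩ : ∃ V : ℝ, V = (volume : Measure ℂ).real (Metric.ball (0 : ℂ) (2 * δ')) := ⟨_, rfl⟩
  obtain ⟨m, hm⟩ : ∃ m : ℝ, m = (S.μ.restrict (S.Om δ')).real univ := ⟨_, rfl⟩
  have hV0 : 0 ≤ V := by
    rw [hV]
    exact measureReal_nonneg
  refine ⟨C₀ * V * Real.sqrt m, by positivity, fun δ hδ hle F hF M hM hFM => ?_⟩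
  have hδδ' : δ ≤ δ' := by linarith
  -- the kernel
  obtain ⟨k, hk⟩ : ∃ k : ℂ → ℂ, k = fun η => ((cL δ' * kap δ' η : ℝ) : ℂ) * (starRingEnd ℂ) η :=
    ⟨_, rfl⟩
  obtain ⟨Kr, hKr⟩ : ∃ Kr : ℂ → ℂ, Kr = fun η =>
    ∫ ξ : ℂ, ((kk δ' (η - ξ) * (cL δ * kap δ ξ) : ℝ) : ℂ) * (starRingEnd ℂ) ξ := ⟨_, rfl⟩
  have hkc : Continuous k := by
    rw [hk]
    exact (Complex.continuous_ofReal.comp (continuous_const.mul (kap_cont δ'))).mul
      Complex.continuous_conj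
  have hk0 : ∀ η : ℂ, δ' ≤ ‖η‖ → k η = 0 := fun η hη => by
    rw [hk]
    simp [kap_zero hδ' hη]
  have hKm : Measurable Kr := by
    rw [hKr]
    have hc : Continuous (fun p : ℂ × ℂ =>
        ((kk δ' (p.1 - p.2) * (cL δ * kap δ p.2) : ℝ) : ℂ) * (starRingEnd ℂ) p.2) := by
      refine (Complex.continuous_ofReal.comp (((kk_cont δ').comp
        (continuous_fst.sub continuous_snd)).mul (continuous_const.mul
        ((kap_cont δ).comp continuous_snd)))).mul (Complex.continuous_conj.comp continuous_snd)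
    exact (hc.stronglyMeasurable.integral_prod_right').measurable
  obtain ⟨D, hD⟩ : ∃ D : ℂ → ℂ, D = fun η => Kr η - k η := ⟨_, rfl⟩
  have hDm : Measurable D := by
    rw [hD]
    exact hKm.sub hkc.measurable
  have hDle : ∀ η, ‖D η‖ ≤ (Metric.ball (0 : ℂ) (2 * δ')).indicator (fun _ => C₀ * δ) η := by
    intro η
    by_cases hη : ‖η‖ < 2 * δ'
    · rw [indicator_of_mem (by rw [Metric.mem_ball, dist_zero_right]; exact hη), hD, hKr, hk]
      exact hker δ hδ hδδ' η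
    · rw [indicator_of_notMem (by rw [Metric.mem_ball, dist_zero_right]; exact hη)]
      have h1 : Kr η = 0 := by
        rw [hKr]
        exact ker_supp hδ' hδ hδδ' (not_lt.1 hη)
      have h2 : k η = 0 := hk0 η (by linarith [not_lt.1 hη])
      rw [hD]
      show ‖Kr η - k η‖ ≤ 0
      rw [h1, h2, sub_zero, norm_zero]
  have hind : Integrable ((Metric.ball (0 : ℂ) (2 * δ')).indicator
      (fun _ : ℂ => C₀ * δ * M)) := by
    refine (integrable_indicator_iff measurableSet_ball).2 ?_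
    exact integrableOn_const measure_ball_lt_top.ne
  obtain ⟨E, hE⟩ : ∃ E : Ω → ℂ, E = fun ω => S.L δ' F ω - S.Av δ' (S.L δ F) ω := ⟨_, rfl⟩
  have hAbd : Bd (S.Av δ' (S.L δ F)) := Av_bd S hδ' (L_bd S hδ hF)
  have hEbd : Bd E := by
    rw [hE]
    exact Bd.sub (L_bd S hδ' hF) hAbd
  have hEle : ∀ ω ∈ S.Om δ', ‖E ω‖ ≤ C₀ * δ * M * V := by
    intro ω hω
    have hmω : Measurable fun η : ℂ => F (S.T η ω) :=
      hF.1.comp (S.mT.comp (measurable_id.prodMk measurable_const))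
    have hb : ∀ η, ‖D η * F (S.T η ω)‖ ≤
        (Metric.ball (0 : ℂ) (2 * δ')).indicator (fun _ => C₀ * δ * M) η := by
      intro η
      rw [norm_mul]
      refine (mul_le_mul (hDle η) (hFM _) (norm_nonneg _) ?_).trans (le_of_eq ?_)
      · exact indicator_nonneg (fun _ _ => by positivity) _
      · by_cases hη : η ∈ Metric.ball (0 : ℂ) (2 * δ')
        · rw [indicator_of_mem hη, indicator_of_mem hη]
        · rw [indicator_of_notMem hη, indicator_of_notMem hη, zero_mul]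
    have i1 : Integrable fun η : ℂ => D η * F (S.T η ω) :=
      hind.mono' (hDm.mul hmω).aestronglyMeasurable (Filter.Eventually.of_forall hb)
    have i2 : Integrable fun η : ℂ => k η * F (S.T η ω) := T_int S hF hkc hk0 ω
    have e1 : S.Av δ' (S.L δ F) ω = ∫ η : ℂ, (D η * F (S.T η ω) + k η * F (S.T η ω)) := by
      rw [av_L S hδ' hδ hle hF hω]
      refine integral_congr_ae (Filter.Eventually.of_forall fun η => ?_)
      show _ = D η * F (S.T η ω) + k η * F (S.T η ω)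
      rw [hD, hKr]
      ring
    have e2 : S.L δ' F ω = ∫ η : ℂ, k η * F (S.T η ω) := by
      rw [hk]
      rfl
    have e3 : E ω = -∫ η : ℂ, D η * F (S.T η ω) := by
      rw [hE]
      show S.L δ' F ω - S.Av δ' (S.L δ F) ω = _
      rw [e1, e2, integral_add i1 i2]
      ring
    rw [e3, norm_neg]
    refine (norm_integral_le_of_norm_le hind (Filter.Eventually.of_forall hb)).trans (le_of_eq ?_)
    rw [integral_indicator measurableSet_ball, setIntegral_const, smul_eq_mul, hV]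
    ring
  have hsum : (S.L δ' F) = fun ω => S.Av δ' (S.L δ F) ω + E ω := by
    funext ω
    rw [hE]
    ring
  have h1 : Real.sqrt (S.nn δ' (S.L δ' F)) ≤
      Real.sqrt (S.nn δ' (S.Av δ' (S.L δ F))) + Real.sqrt (S.nn δ' E) := by
    rw [hsum]
    exact nn_add_le S hAbd hEbd
  have h2 : Real.sqrt (S.nn δ' (S.Av δ' (S.L δ F))) ≤ Real.sqrt (S.nn δ (S.L δ F)) :=
    Real.sqrt_le_sqrt (av_contr S hδ' hle (L_bd S hδ hF))
  have h3 : Real.sqrt (S.nn δ' E) ≤ C₀ * V * Real.sqrt m * M * δ := by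
    have h4 : S.nn δ' E ≤ (C₀ * δ * M * V) ^ 2 * m := by
      unfold Fl.nn
      have h5 : ∫ ω in S.Om δ', ‖E ω‖ ^ 2 ∂S.μ ≤
          ∫ ω in S.Om δ', (C₀ * δ * M * V) ^ 2 ∂S.μ := by
        refine integral_mono_of_nonneg (Filter.Eventually.of_forall fun ω => by positivity)
          (integrable_const _) ?_
        refine (ae_restrict_iff' (Om_meas S δ')).2 (Filter.Eventually.of_forall fun ω hω => ?_)
        exact pow_le_pow_left₀ (norm_nonneg _) (hEle ω hω) 2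
      refine h5.trans (le_of_eq ?_)
      rw [integral_const, smul_eq_mul, ← hm, mul_comm]
    have h6 : 0 ≤ C₀ * δ * M * V := by positivity
    refine (Real.sqrt_le_sqrt h4).trans (le_of_eq ?_)
    rw [Real.sqrt_mul (by positivity), Real.sqrt_sq h6]
    ring
  linarith

end Pool.H46.Eg
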