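import Pool.Agent.H46.Eg.Ins

/-!
# [H46 EG LYR] the boundary layer (40-70 lines)
`layer`: the sets {ω | ω.2.1 ∈ U, infDist ω.2.1 Uᶜ ≤ 1/(n+1)} decrease to the empty set (x ∈ U open and Uᶜ closed and nonempty, since U is bounded,
so `0 < infDist x Uᶜ`), the measure is finite: `tendsto_measure_iInter_atTop`, convert to `toReal`.
`ts_inner`: the segment from x to tgt ω ζ is in the ball of radius infDist x Uᶜ, which is a subset of U (`notMem_of_dist_lt_infDist`-like), so
`Stp U 1 x (tgt ω ζ)` and `T_of_stp`, `Mo.one_act`, `Mo.one_dir`.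
-/

set_option autoImplicit false

open MeasureTheory Metric Set Pool.H46.Bi

namespace Pool.H46.Eg

theorem layer {U : Set ℂ} (hP : Bi.Poly U) {ε : ℝ} (hε : 0 < ε) :
    ∃ δ : ℝ, 0 < δ ∧ (mus U {ω : St | ω.2.1 ∈ U ∧ infDist ω.2.1 Uᶜ ≤ δ}).toReal ≤ ε := by
  haveI := mus_fin hP
  have hne : (Uᶜ).Nonempty := by
    by_contra h
    rw [Set.not_nonempty_iff_eq_empty, Set.compl_empty_iff] at h
    have hb := hP.bdd
    rw [h] at hb
    exact NormedSpace.unbounded_univ ℝ ℂ hb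
  have hcl : IsClosed Uᶜ := hP.isOpen.isClosed_compl
  obtain ⟨A, hA⟩ : ∃ A : ℕ → Set St, A = fun n : ℕ =>
      {ω : St | ω.2.1 ∈ U ∧ infDist ω.2.1 Uᶜ ≤ 1 / ((n : ℝ) + 1)} := ⟨_, rfl⟩
  have hm1 : Measurable fun ω : St => ω.2.1 := measurable_fst.comp measurable_snd
  have hmeas : ∀ n, MeasurableSet (A n) := by
    intro n
    rw [hA]
    refine (hm1 hP.isOpen.measurableSet).inter ?_
    exact measurableSet_le ((continuous_infDist_pt _).measurable.comp hm1) measurable_const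
  have hanti : Antitone A := by
    intro m n hmn ω hω
    rw [hA] at hω ⊢
    refine ⟨hω.1, hω.2.trans ?_⟩
    have h1 : (m : ℝ) ≤ n := by exact_mod_cast hmn
    exact one_div_le_one_div_of_le (by positivity) (by linarith)
  have hinter : ⋂ n, A n = ∅ := by
    rw [Set.eq_empty_iff_forall_notMem]
    intro ω hω
    rw [Set.mem_iInter] at hω
    have h0 := hω 0
    rw [hA] at h0
    have hpos : 0 < infDist ω.2.1 Uᶜ := by
      rw [← hcl.notMem_iff_infDist_pos hne]
      exact fun h => h h0.1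
    obtain ⟨n, hn⟩ := exists_nat_one_div_lt hpos
    have h1 := hω n
    rw [hA] at h1
    exact absurd h1.2 (not_le.2 hn)
  have ht := tendsto_measure_iInter_atTop (μ := mus U) (fun n => (hmeas n).nullMeasurableSet)
    hanti ⟨0, measure_ne_top _ _⟩
  rw [hinter, measure_empty] at ht
  have h1 := ht.eventually (gt_mem_nhds (ENNReal.ofReal_pos.2 hε))
  obtain ⟨n, hn⟩ := Filter.eventually_atTop.1 h1
  refine ⟨1 / ((n : ℝ) + 1), by positivity, ?_⟩
  have h2 := (hn n le_rfl).le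
  rw [Function.comp_apply, hA] at h2
  exact ENNReal.toReal_le_of_le_ofReal hε.le h2

/-- far from the complement the translations are translations -/
theorem ts_inner {U : Set ℂ} (hU : IsOpen U) {ω : St} {ζ : ℂ} (hω : ω.2.1 ∈ U)
    (h : ‖ζ‖ < infDist ω.2.1 Uᶜ) : Ts U ζ ω = (ω.1, (tgt ω ζ, ω.2.2)) := by
  have hstp : Stp U Mo.one ω.2.1 (tgt ω ζ) := by
    refine Or.inl ⟨rfl, fun s hs => ?_⟩
    by_contra hcon
    have h1 : infDist ω.2.1 Uᶜ ≤ dist ω.2.1 (ω.2.1 + s * (tgt ω ζ - ω.2.1)) :=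
      infDist_le_dist_of_mem hcon
    rw [dist_eq_norm] at h1
    have h2 : ‖ω.2.1 - (ω.2.1 + s * (tgt ω ζ - ω.2.1))‖ = s * ‖ζ‖ := by
      rw [sub_add_cancel_left, norm_neg, norm_mul, norm_tgt, Complex.norm_real,
        Real.norm_of_nonneg hs.1]
    have h3 : s * ‖ζ‖ ≤ ‖ζ‖ := mul_le_of_le_one_left (norm_nonneg _) hs.2
    linarith
  rw [T_of_stp hU hstp]
  simp only [ap, Mo.one_act, Mo.one_dir]
  simp [Mo.one]

end Pool.H46.Eg
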