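import Pool.Agent.H46.Eg.Flt
import Pool.Agent.H46.Eg.Def

/-!
# [H46 EG MDL] the phase space of a polygon (proved)
`St` = two copies of the phase space.  On the sheet `s = true` vectors are conjugated and rotations reversed.  `Ts U ζ ω`: fly to
`tgt ω ζ`, with at most one reflection (`Stp`).
-/

set_option autoImplicit false

open MeasureTheory Metric Set Pool.H46.Bi

namespace Pool.H46.Eg

/-- states with a sheet -/
abbrev St : Type := Bool × (ℂ × Tor)

/-- vectors on the sheet `s` -/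
noncomputable def sgn (s : Bool) (ζ : ℂ) : ℂ := if s then (starRingEnd ℂ) ζ else ζ

/-- angles on the sheet `s` -/
noncomputable def rt (s : Bool) (φ : Tor) : Tor := if s then -φ else φ

/-- the point seen from the state `ω` in the direction of `ζ` -/
noncomputable def tgt (ω : St) (ζ : ℂ) : ℂ := ω.2.1 + e ω.2.2 * sgn ω.1 ζ

/-- rotation of the direction -/
noncomputable def Rs (φ : Tor) (ω : St) : St := (ω.1, (ω.2.1, ω.2.2 + rt ω.1 φ))

/-- the state at the point `y` of the unfolded plane, moved by `g` -/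
noncomputable def ap (g : Mo) (y : ℂ) (ω : St) : St := (xor g.c ω.1, (g.act y, g.dir ω.2.2))

open Classical in
/-- the translation by `ζ` -/
noncomputable def Ts (U : Set ℂ) (ζ : ℂ) (ω : St) : St :=
  if h : ∃ g, Stp U g ω.2.1 (tgt ω ζ) then ap h.choose (tgt ω ζ) ω else ω

/-- the measure: counting measure on the sheets -/
noncomputable def mus (U : Set ℂ) : Measure St :=
  (Measure.count : Measure Bool).prod ((volume : Measure (ℂ × Tor)).restrict (U ×ˢ univ))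

theorem norm_sgn (s : Bool) (ζ : ℂ) : ‖sgn s ζ‖ = ‖ζ‖ := by
  cases s <;> simp [sgn]

theorem sgn_add (s : Bool) (ζ ξ : ℂ) : sgn s (ζ + ξ) = sgn s ζ + sgn s ξ := by
  cases s <;> simp [sgn]

theorem sgn_real (s : Bool) (t : ℝ) : sgn s (t : ℂ) = (t : ℂ) := by
  cases s <;> simp [sgn]

theorem norm_tgt (ω : St) (ζ : ℂ) : ‖tgt ω ζ - ω.2.1‖ = ‖ζ‖ := by
  unfold tgt
  rw [add_sub_cancel_left, norm_mul, norm_e, one_mul, norm_sgn]

theorem tgt_zero (ω : St) : tgt ω 0 = ω.2.1 := by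
  unfold tgt
  rcases ω with ⟨s, x, θ⟩
  cases s <;> simp [sgn]

/-- real displacements are along the direction -/
theorem tgt_add_real (ω : St) (ζ : ℂ) (t : ℝ) :
    tgt ω (ζ + t) = tgt ω ζ + t * e ω.2.2 := by
  unfold tgt
  rw [sgn_add, sgn_real]
  ring

theorem tgt_R (φ : Tor) (ω : St) (ζ : ℂ) : tgt (Rs φ ω) ζ = tgt ω (e φ * ζ) := by
  rcases ω with ⟨s, x, θ⟩
  cases s
  · simp only [tgt, Rs, sgn, rt, Bool.false_eq_true, if_false]
    rw [e_add]
    ring
  · simp only [tgt, Rs, sgn, rt, if_true]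
    rw [e_add, e_neg, map_mul]
    ring

theorem R_ap (φ : Tor) (g : Mo) (y : ℂ) (ω : St) : ap g y (Rs φ ω) = Rs φ (ap g y ω) := by
  rcases ω with ⟨s, x, θ⟩
  rcases g with ⟨a, b, c⟩
  cases s <;> cases c <;> simp [ap, Rs, rt, Mo.dir] <;> abel

theorem tgt_ap (g : Mo) (ω : St) (ζ ξ : ℂ) :
    tgt (ap g (tgt ω ζ) ω) ξ = g.act (tgt ω (ζ + ξ)) := by
  rcases ω with ⟨s, x, θ⟩
  rcases g with ⟨a, b, c⟩
  cases s <;> cases c <;>
    simp [ap, tgt, sgn, Mo.dir, Mo.act, e_add, e_neg, map_add, map_mul] <;> ring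

theorem ap_ap (g g' : Mo) (y y' : ℂ) (ω : St) :
    ap g' (g.act y') (ap g y ω) = ap (Mo.mul g' g) y' ω := by
  simp only [ap]
  rw [Mo.mul_act, Mo.mul_dir]
  simp [Mo.mul, Bool.xor_assoc]

theorem ap_one (ω : St) : ap Mo.one ω.2.1 ω = ω := by
  simp only [ap, Mo.one_act, Mo.one_dir]
  simp [Mo.one]

theorem T_of_stp {U : Set ℂ} (hU : IsOpen U) {ζ : ℂ} {ω : St} {g : Mo}
    (h : Stp U g ω.2.1 (tgt ω ζ)) : Ts U ζ ω = ap g (tgt ω ζ) ω := by
  have hex : ∃ g, Stp U g ω.2.1 (tgt ω ζ) := ⟨g, h⟩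
  unfold Ts
  rw [dif_pos hex]
  rw [stp_unique hU hex.choose_spec h]

theorem R_zero (ω : St) : Rs 0 ω = ω := by
  rcases ω with ⟨s, x, θ⟩
  cases s <;> simp [Rs, rt]

theorem R_add (φ ψ : Tor) (ω : St) : Rs φ (Rs ψ ω) = Rs (φ + ψ) ω := by
  rcases ω with ⟨s, x, θ⟩
  cases s <;> simp [Rs, rt] <;> abel

end Pool.H46.Eg
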