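import Pool.Agent.H46.Eg.Mdl

/-!
# [H46 EG MDM] measurability (proved)
-/

set_option autoImplicit false

open MeasureTheory Metric Set Pool.H46.Bi

namespace Pool.H46.Eg

theorem sgn_meas : Measurable fun p : Bool × ℂ => sgn p.1 p.2 := by
  unfold sgn
  have hm : MeasurableSet {p : Bool × ℂ | p.1 = true} :=
    measurable_fst (measurableSet_singleton true)
  exact Measurable.ite hm (Complex.continuous_conj.measurable.comp measurable_snd) measurable_snd

theorem tgt_meas : Measurable fun p : ℂ × St => tgt p.2 p.1 := by
  unfold tgt
  have h1 : Measurable fun p : ℂ × St => sgn p.2.1 p.1 :=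
    sgn_meas.comp ((measurable_fst.comp measurable_snd).prodMk measurable_fst)
  have h2 : Measurable fun p : ℂ × St => e p.2.2.2 :=
    e_measurable.comp (measurable_snd.comp (measurable_snd.comp measurable_snd))
  have h3 : Measurable fun p : ℂ × St => p.2.2.1 :=
    measurable_fst.comp (measurable_snd.comp measurable_snd)
  exact h3.add (h2.mul h1)

theorem rs_meas : Measurable fun p : Tor × St => Rs p.1 p.2 := by
  unfold Rs rt
  have hm : MeasurableSet {p : Tor × St | p.2.1 = true} :=
    (measurable_fst.comp measurable_snd) (measurableSet_singleton true)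
  have h1 : Measurable fun p : Tor × St => (if p.2.1 then -p.1 else p.1 : Tor) :=
    Measurable.ite hm measurable_fst.neg measurable_fst
  have h2 : Measurable fun p : Tor × St => p.2.2.2 :=
    measurable_snd.comp (measurable_snd.comp measurable_snd)
  have h3 : Measurable fun p : Tor × St => p.2.2.1 :=
    measurable_fst.comp (measurable_snd.comp measurable_snd)
  exact (measurable_fst.comp measurable_snd).prodMk (h3.prodMk (h2.add h1))

theorem ap_meas (g : Mo) : Measurable fun p : ℂ × St => ap g p.1 p.2 := by
  unfold ap
  have h1 : Measurable fun s : Bool => xor g.c s := measurable_of_countable _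
  have h2 : Measurable fun p : ℂ × St => p.2.2.2 :=
    measurable_snd.comp (measurable_snd.comp measurable_snd)
  exact (h1.comp (measurable_fst.comp measurable_snd)).prodMk
    ((g.act_continuous.measurable.comp measurable_fst).prodMk
      (g.dir_continuous.measurable.comp h2))

end Pool.H46.Eg
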