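import Pool.Agent.H46.Eg.Mdm

/-!
# [H46 EG MDN] the measure (40-70 lines)
`mus_lint`: `lintegral_prod` (for the product with the counting measure), `lintegral_count`, sum over Bool (`Fintype.sum_bool`/`tsum_fintype`).
`mus_fin`: U is bounded, so its area is finite (`hP.bdd.measure_lt_top`), Tor has finite measure (`Measure.prod` of `U ×ˢ univ`).
`mus_compl`: the sheets: `mus_lint` for the indicator, or `Measure.prod_apply`; the complement of U ×ˢ univ is null for the restricted measure.
-/

set_option autoImplicit false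

open MeasureTheory Metric Set Pool.H46.Bi

namespace Pool.H46.Eg

theorem mus_lint (U : Set ℂ) {F : St → ENNReal} (hF : Measurable F) :
    ∫⁻ ω, F ω ∂(mus U) =
      (∫⁻ q in U ×ˢ (univ : Set Tor), F (false, q)) + ∫⁻ q in U ×ˢ (univ : Set Tor), F (true, q) := by
  unfold mus
  rw [lintegral_prod _ hF.aemeasurable, lintegral_count, tsum_fintype, Fintype.sum_bool, add_comm]

/-- the measure of a measurable set, sheet by sheet -/
theorem mus_apply (U : Set ℂ) {S : Set St} (hS : MeasurableSet S) :
    mus U S =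
      ((volume : Measure (ℂ × Tor)).restrict (U ×ˢ (univ : Set Tor))) {q | ((false, q) : St) ∈ S} +
      ((volume : Measure (ℂ × Tor)).restrict (U ×ˢ (univ : Set Tor))) {q | ((true, q) : St) ∈ S} := by
  have hm : ∀ b : Bool, MeasurableSet {q : ℂ × Tor | ((b, q) : St) ∈ S} :=
    fun b => measurable_prodMk_left hS
  rw [← lintegral_indicator_one hS, mus_lint U (measurable_one.indicator hS),
    ← lintegral_indicator_one (hm false), ← lintegral_indicator_one (hm true)]
  rfl

theorem mus_fin {U : Set ℂ} (hP : Bi.Poly U) : IsFiniteMeasure (mus U) := by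
  haveI : IsFiniteMeasure ((volume : Measure (ℂ × Tor)).restrict (U ×ˢ (univ : Set Tor))) := by
    refine ⟨?_⟩
    rw [Measure.restrict_apply_univ, Measure.volume_eq_prod, Measure.prod_prod]
    exact ENNReal.mul_lt_top hP.bdd.measure_lt_top (measure_lt_top _ _)
  unfold mus
  infer_instance

theorem mus_compl {U : Set ℂ} (hU : IsOpen U) : mus U {ω : St | ω.2.1 ∈ U}ᶜ = 0 := by
  have hS : MeasurableSet {ω : St | ω.2.1 ∈ U} :=
    (measurable_fst.comp measurable_snd) hU.measurableSet
  have h0 : ((volume : Measure (ℂ × Tor)).restrict (U ×ˢ (univ : Set Tor)))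
      {q : ℂ × Tor | q.1 ∈ U}ᶜ = 0 := by
    have hU' : MeasurableSet {q : ℂ × Tor | q.1 ∈ U} := measurable_fst hU.measurableSet
    rw [Measure.restrict_apply hU'.compl]
    convert measure_empty (μ := (volume : Measure (ℂ × Tor))) using 2
    ext q
    simp
  rw [mus_apply U hS.compl]
  have h1 : ∀ b : Bool, {q : ℂ × Tor | ((b, q) : St) ∈ {ω : St | ω.2.1 ∈ U}ᶜ}
      = {q : ℂ × Tor | q.1 ∈ U}ᶜ := fun b => rfl
  rw [h1, h1, h0, add_zero]

end Pool.H46.Eg
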