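import Pool.Agent.H46.Eg.Mdn

/-!
# [H46 EG MDNB] the exceptional displacements (50-80 lines)
`front_null`: frontier U ⊆ Lset U ∪ V0 U (a frontier point with a chart is on the line of the chart: `side_self`); `Lset_null`, `V0_finite`
(Bi/Geo.lean).
`b_null`: for fixed ω the map ζ ↦ tgt ω ζ is a translation after an isometry: it preserves the area (`rot_mp`, `Complex.conjLIE.measurePreserving`,
`measurePreserving_add_right`).
`b_null'`: for fixed ζ, on the sheet s the map (x, θ) ↦ (x + e θ * sgn s ζ, θ) preserves the measure of ℂ × Tor (skew product, compare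
`ste_mp` in Bi/Ste.lean and `phi_mp` in Bi/Mea.lean), the preimage of `frontier U ×ˢ univ` is null.  Use `mus_lint` for the indicator, or
`Measure.prod_apply`/`measure_prod_null`.
-/

set_option autoImplicit false

open MeasureTheory Metric Set Pool.H46.Bi

namespace Pool.H46.Eg

theorem front_null {U : Set ℂ} (hP : Bi.Poly U) : (volume : Measure ℂ) (frontier U) = 0 := by
  refine measure_mono_null (t := Lset U ∪ V0 U) ?_
    (measure_union_null (Lset_null hP) ((V0_finite hP).measure_zero _))
  intro p hp
  by_cases h : ∃ α ε, Chart U p α ε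
  · obtain ⟨α, ε, h⟩ := h
    exact Or.inl ⟨p, α, ε, h, side_self p α⟩
  · exact Or.inr ⟨hp, h⟩

theorem b_null {U : Set ℂ} (hP : Bi.Poly U) (ω : St) :
    (volume : Measure ℂ) {ζ : ℂ | tgt ω ζ ∈ frontier U} = 0 := by
  have hfm : NullMeasurableSet (frontier U) (volume : Measure ℂ) :=
    isClosed_frontier.measurableSet.nullMeasurableSet
  rcases ω with ⟨s, x, θ⟩
  cases s
  · have h : MeasurePreserving (fun ζ : ℂ => x + e θ * ζ) (volume : Measure ℂ) volume :=
      (measurePreserving_add_left volume x).comp (rot_mp θ)
    have h2 := h.measure_preimage hfm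
    rw [front_null hP] at h2
    have h3 : {ζ : ℂ | tgt (false, (x, θ)) ζ ∈ frontier U}
        = (fun ζ : ℂ => x + e θ * ζ) ⁻¹' frontier U := by
      ext ζ
      simp [tgt, sgn]
    rw [h3]
    exact h2
  · have h : MeasurePreserving (fun ζ : ℂ => x + e θ * (Complex.conjLIE ζ))
        (volume : Measure ℂ) volume :=
      (measurePreserving_add_left volume x).comp
        ((rot_mp θ).comp Complex.conjLIE.measurePreserving)
    have h2 := h.measure_preimage hfm
    rw [front_null hP] at h2
    have h3 : {ζ : ℂ | tgt (true, (x, θ)) ζ ∈ frontier U}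
        = (fun ζ : ℂ => x + e θ * (Complex.conjLIE ζ)) ⁻¹' frontier U := by
      ext ζ
      simp [tgt, sgn]
    rw [h3]
    exact h2

private theorem sk_mp (c : ℂ) : MeasurePreserving (fun q : ℂ × Tor => (q.1 + e q.2 * c, q.2))
    volume volume := by
  have h1 : MeasurePreserving (Prod.swap : ℂ × Tor → Tor × ℂ) volume volume :=
    Measure.measurePreserving_swap
  have h2 : MeasurePreserving (fun q : Tor × ℂ => ((id q.1 : Tor), q.2 + e q.1 * c))
      ((volume : Measure Tor).prod volume) ((volume : Measure Tor).prod volume) := by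
    refine (MeasurePreserving.id (volume : Measure Tor)).skew_product
      (g := fun (θ : Tor) (x : ℂ) => x + e θ * c) ?_ ?_
    · exact measurable_snd.add ((e_measurable.comp measurable_fst).mul measurable_const)
    · refine Filter.Eventually.of_forall fun θ => ?_
      exact (measurePreserving_add_right volume (e θ * c)).map_eq
  have h3 : MeasurePreserving (Prod.swap : Tor × ℂ → ℂ × Tor) volume volume :=
    Measure.measurePreserving_swap
  exact h3.comp (h2.comp h1)

theorem b_null' {U : Set ℂ} (hP : Bi.Poly U) (ζ : ℂ) :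
    mus U {ω : St | tgt ω ζ ∈ frontier U} = 0 := by
  have hm : Measurable (fun ω : St => tgt ω ζ) :=
    tgt_meas.comp (measurable_const.prodMk measurable_id)
  have hS : MeasurableSet {ω : St | tgt ω ζ ∈ frontier U} := hm isClosed_frontier.measurableSet
  have h0 : (volume : Measure (ℂ × Tor)) (frontier U ×ˢ (univ : Set Tor)) = 0 := by
    rw [Measure.volume_eq_prod, Measure.prod_prod, front_null hP, zero_mul]
  have h1 : ∀ b : Bool, ((volume : Measure (ℂ × Tor)).restrict (U ×ˢ (univ : Set Tor)))
      {q | ((b, q) : St) ∈ {ω : St | tgt ω ζ ∈ frontier U}} = 0 := by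
    intro b
    refine le_antisymm ((Measure.restrict_apply_le _ _).trans (le_of_eq ?_)) zero_le
    have h2 := (sk_mp (sgn b ζ)).measure_preimage
      (isClosed_frontier.measurableSet.prod MeasurableSet.univ :
        MeasurableSet (frontier U ×ˢ (univ : Set Tor))).nullMeasurableSet
    rw [h0] at h2
    rw [← h2]
    congr 1
    ext q
    simp [tgt]
  rw [mus_apply U hS, h1, h1, add_zero]

end Pool.H46.Eg
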