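import Pool.Agent.H46.Eg.Mdn

/-!
# [H46 EG MDNR] rotations preserve the measure (30-60 lines)
On the sheet s the map is (x, θ) ↦ (x, θ ± φ), which preserves the measure of ℂ × Tor (`MeasurePreserving.prod` of the identity and a translation) and the
set U ×ˢ univ; for a measurable S: `mus U (Rs φ ⁻¹' S) = mus U S` by `mus_lint` of the indicator (or `MeasurePreserving.skew_product` with the identity of Bool).
-/

set_option autoImplicit false

open MeasureTheory Metric Set Pool.H46.Bi

namespace Pool.H46.Eg

private theorem turn_mp {U : Set ℂ} (hU : IsOpen U) (ψ : Tor) :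
    MeasurePreserving (fun q : ℂ × Tor => (q.1, q.2 + ψ))
      ((volume : Measure (ℂ × Tor)).restrict (U ×ˢ (univ : Set Tor)))
      ((volume : Measure (ℂ × Tor)).restrict (U ×ˢ (univ : Set Tor))) := by
  have h : MeasurePreserving (fun q : ℂ × Tor => (q.1, q.2 + ψ))
      (volume : Measure (ℂ × Tor)) volume := by
    have := (MeasurePreserving.id (volume : Measure ℂ)).prod
      (measurePreserving_add_right (volume : Measure Tor) ψ)
    exact this
  have h2 := h.restrict_preimage (s := U ×ˢ (univ : Set Tor))
    (hU.measurableSet.prod MeasurableSet.univ)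
  have h3 : (fun q : ℂ × Tor => (q.1, q.2 + ψ)) ⁻¹' (U ×ˢ (univ : Set Tor))
      = U ×ˢ (univ : Set Tor) := by
    ext q; simp
  rwa [h3] at h2

theorem rs_mp (U : Set ℂ) (hU : IsOpen U) (φ : Tor) :
    MeasurePreserving (Rs φ) (mus U) (mus U) := by
  have hm : Measurable (Rs φ) := rs_meas.comp (measurable_const.prodMk measurable_id)
  refine ⟨hm, ?_⟩
  refine Measure.ext fun S hS => ?_
  rw [Measure.map_apply hm hS, mus_apply U (hm hS), mus_apply U hS]
  have h1 : ∀ b : Bool,
      ((volume : Measure (ℂ × Tor)).restrict (U ×ˢ (univ : Set Tor)))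
        {q | ((b, q) : St) ∈ Rs φ ⁻¹' S} =
      ((volume : Measure (ℂ × Tor)).restrict (U ×ˢ (univ : Set Tor)))
        {q | ((b, q) : St) ∈ S} := by
    intro b
    have hb : MeasurableSet {q : ℂ × Tor | ((b, q) : St) ∈ S} := measurable_prodMk_left hS
    exact (turn_mp hU (rt b φ)).measure_preimage hb.nullMeasurableSet
  rw [h1, h1]

end Pool.H46.Eg
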