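import Pool.Agent.H46.Eg.Psh2
import Pool.Agent.H46.Eg.MdnB
import Pool.Agent.H46.Eg.MdnR

/-!
# [H46 EG MDU] the translations do not increase the measure (50-80 lines)
`ts_mu`: let t = ‖ζ‖ and ψ with ζ = t e ψ (`e_surj` for ζ/‖ζ‖; any ψ if ζ = 0).  For ω in the set take g with `Stp U g x (tgt ω ζ)`
(`stp_exists`, `norm_tgt`); ω' = Rs ψ ω has `tgt ω' t = tgt ω ζ` (`tgt_R`), `= x + t e θ'` (`tgt_add_real`, `tgt_zero`), so `Reach U t g x θ'` (`stp_reach`), and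
`Ts U ζ ω = ap g (tgt ω ζ) ω = Rs (-ψ) (ap g (tgt ω ζ) ω') = Rs (-ψ) (xor g.c ω'.1, Phi g t ω'.2)` (`T_of_stp`, `R_ap`, `R_add`).  So the set is contained in
`Rs ψ ⁻¹' (⋃ g, {ω' | Reach U t g ω'.2.1 ω'.2.2 ∧ (xor g.c ω'.1, Phi g t ω'.2) ∈ S'})`, S' = Rs (-ψ) ⁻¹' S; `rs_mp` (twice), `measure_iUnion_le`
(countable: `gen_countable`, `stp_gen`), `push2`.
-/

set_option autoImplicit false

open MeasureTheory Metric Set Pool.H46.Bi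

namespace Pool.H46.Eg

theorem ts_mu {U : Set ℂ} (D : Dat U) (ζ : ℂ) {S : Set St} (hS : MeasurableSet S) :
    mus U {ω : St | ω.2.1 ∈ U ∧ D.K * ‖ζ‖ < infDist ω.2.1 (D.V : Set ℂ) ∧
      tgt ω ζ ∉ frontier U ∧ Ts U ζ ω ∈ S} ≤ mus U S := by
  have hP := D.P
  have hU := hP.isOpen
  haveI : Countable {g : Mo // Gen U g} := (gen_countable hP).to_subtype
  obtain ⟨ψ, hψ⟩ : ∃ ψ : Tor, ζ = e ψ * ((‖ζ‖ : ℝ) : ℂ) := by
    obtain ⟨ψ, hψ⟩ := dir_of 0 ζ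
    refine ⟨ψ, ?_⟩
    rw [sub_zero, zero_add, mul_comm] at hψ
    exact hψ
  set t : ℝ := ‖ζ‖ with ht
  set S' : Set St := Rs (-ψ) ⁻¹' S with hS'
  have hS'm : MeasurableSet S' := (rs_mp U hU (-ψ)).measurable hS
  set A : {g : Mo // Gen U g} → Set St := fun g => {ω : St | Reach U t g.1 ω.2.1 ω.2.2 ∧
      ((xor g.1.c ω.1, Phi g.1 t ω.2) : St) ∈ S'} with hA
  have hsub : {ω : St | ω.2.1 ∈ U ∧ D.K * t < infDist ω.2.1 (D.V : Set ℂ) ∧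
      tgt ω ζ ∉ frontier U ∧ Ts U ζ ω ∈ S} ⊆ Rs ψ ⁻¹' (⋃ g, A g) := by
    rintro ω ⟨hω, hK, hB, hT⟩
    obtain ⟨g, hg⟩ := stp_exists D hω (y := tgt ω ζ) (by rw [norm_tgt]; exact hK) hB
    have h1 : tgt (Rs ψ ω) ((t : ℝ) : ℂ) = tgt ω ζ := by
      rw [tgt_R, ← hψ]
    have h2 : tgt (Rs ψ ω) ((t : ℝ) : ℂ) = (Rs ψ ω).2.1 + t * e (Rs ψ ω).2.2 := by
      have := tgt_add_real (Rs ψ ω) 0 t
      rw [zero_add, tgt_zero] at this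
      exact this
    have h3 : Reach U t g (Rs ψ ω).2.1 (Rs ψ ω).2.2 := by
      refine stp_reach (norm_nonneg ζ) ?_
      rw [← h2, h1]
      exact hg
    have h4 : Ts U ζ ω = Rs (-ψ) (xor g.c (Rs ψ ω).1, Phi g t (Rs ψ ω).2) := by
      rw [T_of_stp hU hg]
      have h5 : ω = Rs (-ψ) (Rs ψ ω) := by
        rw [R_add, neg_add_cancel, R_zero]
      conv_lhs => rw [h5]
      rw [R_ap, ← h5, ← h1, h2]
      rfl
    rw [mem_preimage, mem_iUnion]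
    refine ⟨⟨g, stp_gen hg⟩, h3, ?_⟩
    rw [hS', mem_preimage, ← h4]
    exact hT
  calc mus U {ω : St | ω.2.1 ∈ U ∧ D.K * t < infDist ω.2.1 (D.V : Set ℂ) ∧
      tgt ω ζ ∉ frontier U ∧ Ts U ζ ω ∈ S}
      ≤ mus U (Rs ψ ⁻¹' (⋃ g, A g)) := measure_mono hsub
    _ ≤ (mus U).map (Rs ψ) (⋃ g, A g) :=
        Measure.le_map_apply (rs_mp U hU ψ).measurable.aemeasurable _
    _ = mus U (⋃ g, A g) := by rw [(rs_mp U hU ψ).map_eq]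
    _ ≤ ∑' g, mus U (A g) := measure_iUnion_le A
    _ ≤ mus U S' := push2 hP hS'm
    _ = mus U S := (rs_mp U hU (-ψ)).measure_preimage hS.nullMeasurableSet

end Pool.H46.Eg
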