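import Pool.Agent.H46.Eg.KerI

/-!
# [H46 EG MES] measurability and bounds of the operators (60-110 lines)
Joint measurability: `S.mT`, `S.mR`; `Measurable F` composed with `fun p : ℂ × Ω => S.T p.1 p.2` and the continuous
kernels; `StronglyMeasurable.integral_prod_right'` (or `Measurable.lintegral_prod_right`) for the measurability of
the integral in the parameter ω (swap the coordinates first).
Bounds: `‖L δ F ω‖ ≤ ∫ cL kap ‖ζ‖ C ≤ 2 C / δ` (`norm_integral_le_of_norm_le`, integrable by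
`integrable_of_zero` / `Continuous.integrable_of_hasCompactSupport`; `int_norm`).  `P`: a probability measure, `‖fourier‖ = 1`.
`T_int`: `fun ζ => k ζ * F (T ζ ω)` is integrable when `k` is continuous, zero for `‖ζ‖ ≥ δ`, and F is Bd.
-/

set_option autoImplicit false

open MeasureTheory Set Pool.H46.Bi

namespace Pool.H46.Eg

variable {Ω : Type} [MeasurableSpace Ω] (S : Fl Ω)

theorem Bd.add {F G : Ω → ℂ} (hF : Bd F) (hG : Bd G) : Bd (fun ω => F ω + G ω) := by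
  obtain ⟨hF1, C, hC⟩ := hF
  obtain ⟨hG1, D, hD⟩ := hG
  exact ⟨hF1.add hG1, C + D, fun ω => (norm_add_le _ _).trans (add_le_add (hC ω) (hD ω))⟩

theorem Bd.sub {F G : Ω → ℂ} (hF : Bd F) (hG : Bd G) : Bd (fun ω => F ω - G ω) := by
  obtain ⟨hF1, C, hC⟩ := hF
  obtain ⟨hG1, D, hD⟩ := hG
  exact ⟨hF1.sub hG1, C + D, fun ω => (norm_sub_le _ _).trans (add_le_add (hC ω) (hD ω))⟩

theorem Bd.mul {F G : Ω → ℂ} (hF : Bd F) (hG : Bd G) : Bd (fun ω => F ω * G ω) := by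
  obtain ⟨hF1, C, hC⟩ := hF
  obtain ⟨hG1, D, hD⟩ := hG
  refine ⟨hF1.mul hG1, C * D, fun ω => ?_⟩
  rw [norm_mul]
  exact mul_le_mul (hC ω) (hD ω) (norm_nonneg _) ((norm_nonneg _).trans (hC ω))

theorem Bd.smul (c : ℂ) {F : Ω → ℂ} (hF : Bd F) : Bd (fun ω => c * F ω) := by
  obtain ⟨hF1, C, hC⟩ := hF
  refine ⟨hF1.const_mul c, ‖c‖ * C, fun ω => ?_⟩
  rw [norm_mul]
  exact mul_le_mul_of_nonneg_left (hC ω) (norm_nonneg _)

theorem Om_meas (δ : ℝ) : MeasurableSet (S.Om δ) := by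
  have h : S.Om δ = S.X ∩ {ω | 4 * S.K * δ ≤ S.d ω} := rfl
  rw [h]
  exact S.mX.inter (measurableSet_le measurable_const S.md)

private theorem mes_Tmeas (ω : Ω) : Measurable fun ζ : ℂ => S.T ζ ω :=
  S.mT.comp (measurable_id.prodMk measurable_const)

/-- integrability of the integrands -/
theorem T_int {F : Ω → ℂ} (hF : Bd F) {k : ℂ → ℂ} (hk : Continuous k) {δ : ℝ}
    (h0 : ∀ ζ : ℂ, δ ≤ ‖ζ‖ → k ζ = 0) (ω : Ω) : Integrable fun ζ : ℂ => k ζ * F (S.T ζ ω) := by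
  obtain ⟨hF1, C, hC⟩ := hF
  have h1 := integrable_of_zero hk h0
  refine Integrable.mono' (h1.norm.mul_const C) ?_ ?_
  · exact (hk.measurable.mul (hF1.comp (mes_Tmeas S ω))).aestronglyMeasurable
  · refine Filter.Eventually.of_forall fun ζ => ?_
    rw [norm_mul]
    exact mul_le_mul_of_nonneg_left (hC _) (norm_nonneg _)

/-- measurability of the integrals over `ζ` -/
private theorem mes_meas {F : Ω → ℂ} (hF : Measurable F) {k : ℂ → ℂ} (hk : Continuous k) :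
    Measurable fun ω => ∫ ζ : ℂ, k ζ * F (S.T ζ ω) := by
  have h1 : Measurable fun p : Ω × ℂ => k p.2 * F (S.T p.2 p.1) :=
    (hk.measurable.comp measurable_snd).mul (hF.comp (S.mT.comp (measurable_snd.prodMk measurable_fst)))
  exact (StronglyMeasurable.integral_prod_right' h1.stronglyMeasurable).measurable

private theorem mes_bd {F : Ω → ℂ} (hF : Bd F) {k : ℂ → ℂ} (hk : Continuous k) {δ : ℝ}
    (h0 : ∀ ζ : ℂ, δ ≤ ‖ζ‖ → k ζ = 0) : Bd fun ω => ∫ ζ : ℂ, k ζ * F (S.T ζ ω) := by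
  refine ⟨mes_meas S hF.1 hk, ?_⟩
  obtain ⟨_, C, hC⟩ := hF
  refine ⟨∫ ζ : ℂ, ‖k ζ‖ * C, fun ω => ?_⟩
  refine norm_integral_le_of_norm_le ((integrable_of_zero hk h0).norm.mul_const C) ?_
  refine Filter.Eventually.of_forall fun ζ => ?_
  rw [norm_mul]
  exact mul_le_mul_of_nonneg_left (hC _) (norm_nonneg _)

theorem L_bd {δ : ℝ} (hδ : 0 < δ) {F : Ω → ℂ} (hF : Bd F) : Bd (S.L δ F) := by
  have hk : Continuous fun ζ : ℂ => ((cL δ * kap δ ζ : ℝ) : ℂ) * (starRingEnd ℂ) ζ :=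
    (Complex.continuous_ofReal.comp (continuous_const.mul (kap_cont δ))).mul Complex.continuous_conj
  exact mes_bd S hF hk (δ := δ) (fun ζ hζ => by rw [kap_zero hδ hζ]; simp)

theorem L'_bd {δ : ℝ} (hδ : 0 < δ) {F : Ω → ℂ} (hF : Bd F) : Bd (S.L' δ F) := by
  have hk : Continuous fun ζ : ℂ => ((cL δ * kap δ ζ : ℝ) : ℂ) * ζ :=
    (Complex.continuous_ofReal.comp (continuous_const.mul (kap_cont δ))).mul continuous_id
  exact mes_bd S hF hk (δ := δ) (fun ζ hζ => by rw [kap_zero hδ hζ]; simp)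

theorem Av_bd {δ : ℝ} (hδ : 0 < δ) {F : Ω → ℂ} (hF : Bd F) : Bd (S.Av δ F) := by
  have hk : Continuous fun ζ : ℂ => ((kk δ ζ : ℝ) : ℂ) := Complex.continuous_ofReal.comp (kk_cont δ)
  exact mes_bd S hF hk (δ := δ) (fun ζ hζ => by rw [kk_zero hδ hζ]; simp)

theorem P_norm_le (m : ℤ) {F : Ω → ℂ} {C : ℝ} (hC : ∀ ω, ‖F ω‖ ≤ C) (ω : Ω) :
    ‖S.P m F ω‖ ≤ C := by
  have h1 := norm_integral_le_of_norm_le_const (μ := AddCircle.haarAddCircle)
    (f := fun φ : Tor => (fourier (-m) φ : ℂ) * F (S.R φ ω)) (C := C) (Filter.Eventually.of_forall fun φ => by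
      rw [norm_mul]
      have h2 : ‖(fourier (-m) φ : ℂ)‖ = 1 := by simp
      rw [h2, one_mul]
      exact hC _)
  rw [probReal_univ, mul_one] at h1
  exact h1

theorem P_bd (m : ℤ) {F : Ω → ℂ} (hF : Bd F) : Bd (S.P m F) := by
  obtain ⟨hF1, C, hC⟩ := hF
  refine ⟨?_, C, fun ω => P_norm_le S m hC ω⟩
  have h1 : Measurable fun p : Ω × Tor => (fourier (-m) p.2 : ℂ) * F (S.R p.2 p.1) :=
    ((fourier (-m)).continuous.measurable.comp measurable_snd).mul (hF1.comp (S.mR.comp (measurable_snd.prodMk measurable_fst)))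
  exact (StronglyMeasurable.integral_prod_right' h1.stronglyMeasurable).measurable

end Pool.H46.Eg
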