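import Pool.Agent.H46.Eg.Apx
import Pool.Agent.H46.Eg.Lsc

/-!
# [H46 EG MZ] the quadratic trick (100-150 lines)
Let q δ = nn δ (L δ (P m f)), A, M from `approx`.
`step`: if q δ ≤ Q for all δ > 0 then for s ≥ 0 (only s > 0 and the case of `bound` are used) and δ' > 0:
`q δ' ≤ (Q + s² A) / (1 + s)²`.  For ε > 0 take δ < δ1, g of `approx`, F = P m ((1/(1+s)) f + (s/(1+s)) g), ‖F‖ ≤ M (`P_norm_le`).
 `√nn δ' (L δ' F) ≤ √nn δ (L δ F) + C M δ` (`lsc`);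
 `nn δ (L δ F) = (1+s)^(-2) (q δ + 2 s re ip (L P f) (L P g) + s² nn (L P g)) ≤ (1+s)^(-2) (Q + 2 s ε + s² A)` (linearity `L_add`, `L_smul`,
 `P_add`, `P_smul`; expand the square of the norm of a sum pointwise: ‖x + y‖² = ‖x‖² + 2 re (x conj y) + ‖y‖²);
 `√q δ' ≤ √nn δ' (L δ' F) + √nn δ' (L δ' (P m f - F))`, `P m f - F = (s/(1+s)) P m (f - g)`, `nn_L_le`, `P_int_le`: the last term is
 at most `(2/δ') √ε`.  Let δ → 0 and then ε → 0 (`le_of_forall_pos_le_add` twice, or choose δ ≤ ε and bound by a continuous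
 function of ε tending to the limit: `ge_of_tendsto`/`le_of_tendsto`).
`bound`: `q δ' ≤ A` for all δ' > 0: the same with F = P m g: `√q δ' ≤ √A + C M δ + (2/δ') √ε`.
`mode_zero`: Q0 = sSup {q δ | δ > 0} (bounded by A): `Q0 ≤ (Q0 + s² A)/(1+s)²` for all s > 0, so `Q0 (2 + s) ≤ s A` for all s > 0,
 hence Q0 ≤ 0.  q ≥ 0.
-/

set_option autoImplicit false

open MeasureTheory Set Pool.H46.Bi

namespace Pool.H46.Eg

variable {Ω : Type} [MeasurableSpace Ω] (S : Fl Ω)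

/-- bounded measurable functions are integrable on the sets `Om δ` -/
private theorem mz_int {F : Ω → ℂ} (hF : Bd F) (δ : ℝ) :
    Integrable F (S.μ.restrict (S.Om δ)) := by
  have := S.fin
  obtain ⟨hm, C, hC⟩ := hF
  exact Integrable.of_bound hm.aestronglyMeasurable C (Filter.Eventually.of_forall hC)

private theorem mz_sq {F : Ω → ℂ} (hF : Bd F) (δ : ℝ) :
    Integrable (fun ω => ‖F ω‖ ^ 2) (S.μ.restrict (S.Om δ)) := by
  have := S.fin
  obtain ⟨hm, C, hC⟩ := hF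
  refine Integrable.of_bound (hm.norm.pow_const 2).aestronglyMeasurable (C ^ 2)
    (Filter.Eventually.of_forall fun ω => ?_)
  rw [Real.norm_eq_abs, abs_of_nonneg (sq_nonneg _)]
  exact pow_le_pow_left₀ (norm_nonneg _) (hC ω) 2

private theorem mz_conj {F : Ω → ℂ} (hF : Bd F) : Bd (fun ω => (starRingEnd ℂ) (F ω)) := by
  obtain ⟨hm, C, hC⟩ := hF
  refine ⟨Complex.continuous_conj.measurable.comp hm, C, fun ω => ?_⟩
  rw [Complex.norm_conj]
  exact hC ω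

/-- the norm of a combination -/
private theorem mz_comb {δ : ℝ} {x y : Ω → ℂ} (hx : Bd x) (hy : Bd y) {a b : ℝ} (ha : 0 ≤ a)
    (hb : 0 ≤ b) : S.nn δ (fun ω => (a : ℂ) * x ω + (b : ℂ) * y ω) ≤
      a ^ 2 * S.nn δ x + 2 * (a * b) * ‖S.ip δ x y‖ + b ^ 2 * S.nn δ y := by
  have hi1 := mz_sq S hx δ
  have hi2 := mz_sq S hy δ
  have hi3 := mz_int S (Bd.mul hx (mz_conj hy)) δ
  have hi4 : Integrable (fun ω => (x ω * (starRingEnd ℂ) (y ω)).re)
      (S.μ.restrict (S.Om δ)) := hi3.re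
  have hre : ∫ ω in S.Om δ, (x ω * (starRingEnd ℂ) (y ω)).re ∂S.μ = (S.ip δ x y).re := by
    have h := Complex.reCLM.integral_comp_comm hi3
    exact h
  have e : S.nn δ (fun ω => (a : ℂ) * x ω + (b : ℂ) * y ω) =
      a ^ 2 * S.nn δ x + 2 * (a * b) * (S.ip δ x y).re + b ^ 2 * S.nn δ y := by
    rw [← hre]
    unfold Fl.nn
    have hi5 : Integrable (fun ω => a ^ 2 * ‖x ω‖ ^ 2 +
        2 * (a * b) * (x ω * (starRingEnd ℂ) (y ω)).re) (S.μ.restrict (S.Om δ)) :=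
      (hi1.const_mul _).add (hi4.const_mul _)
    rw [← integral_const_mul, ← integral_const_mul, ← integral_const_mul,
      ← integral_add (hi1.const_mul _) (hi4.const_mul _),
      ← integral_add hi5 (hi2.const_mul _)]
    refine integral_congr_ae (Filter.Eventually.of_forall fun ω => ?_)
    simp only
    rw [Complex.sq_norm, Complex.sq_norm, Complex.sq_norm, Complex.normSq_add,
      Complex.normSq_mul, Complex.normSq_mul, Complex.normSq_ofReal, Complex.normSq_ofReal]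
    have e2 : ((a : ℂ) * x ω * (starRingEnd ℂ) ((b : ℂ) * y ω)).re =
        a * b * (x ω * (starRingEnd ℂ) (y ω)).re := by
      rw [map_mul, Complex.conj_ofReal]
      have e3 : (a : ℂ) * x ω * ((b : ℂ) * (starRingEnd ℂ) (y ω)) =
          ((a * b : ℝ) : ℂ) * (x ω * (starRingEnd ℂ) (y ω)) := by
        push_cast
        ring
      rw [e3, Complex.re_ofReal_mul]
    rw [e2]
    ring
  rw [e]
  have h1 : (S.ip δ x y).re ≤ ‖S.ip δ x y‖ := Complex.re_le_norm _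
  have h2 := mul_le_mul_of_nonneg_left h1 (show 0 ≤ 2 * (a * b) by positivity)
  linarith

/-- the estimate for convex combinations -/
private theorem mz_cvx {f : Ω → ℂ} (hf : Bd f) {M A : ℝ} (hM0 : 0 ≤ M) (hM : ∀ ω, ‖f ω‖ ≤ M)
    (happ : ∀ ε : ℝ, 0 < ε → ∃ δ1 : ℝ, 0 < δ1 ∧
      ∀ δ : ℝ, 0 < δ → δ < δ1 → ∃ g : Ω → ℂ, Bd g ∧ (∀ ω, ‖g ω‖ ≤ M) ∧
        (∀ m : ℤ, ‖S.ip δ (S.L δ (S.P m f)) (S.L δ (S.P m g))‖ ≤ ε) ∧
        (∀ m : ℤ, S.nn δ (S.L δ (S.P m g)) ≤ A) ∧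
        ∫ ω, ‖g ω - f ω‖ ^ 2 ∂S.μ ≤ ε) (m : ℤ) {a b : ℝ} (ha : 0 ≤ a) (hb : 0 ≤ b)
    (hab : a + b = 1) {Q : ℝ}
    (hQ : ∀ δ : ℝ, 0 < δ → a ^ 2 * S.nn δ (S.L δ (S.P m f)) ≤ Q) {δ' : ℝ} (hδ' : 0 < δ') :
    S.nn δ' (S.L δ' (S.P m f)) ≤ Q + b ^ 2 * A := by
  obtain ⟨C, hC, hlsc⟩ := lsc S hδ'
  have hb1 : b ≤ 1 := by linarith
  have ha1 : a ≤ 1 := by linarith
  -- the estimate for each `ε`
  have key : ∀ ε : ℝ, 0 < ε → Real.sqrt (S.nn δ' (S.L δ' (S.P m f))) ≤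
      Real.sqrt (Q + 2 * ε + b ^ 2 * A) + C * M * ε + 2 / δ' * Real.sqrt ε := by
    intro ε hε
    obtain ⟨δ1, hδ1, h1⟩ := happ ε hε
    obtain ⟨δ, hδ, hδa, hδb, hδc⟩ : ∃ δ : ℝ, 0 < δ ∧ δ < δ1 ∧ 2 * δ ≤ δ' ∧ δ ≤ ε := by
      refine ⟨min (min δ1 δ') ε / 2, by positivity, ?_, ?_, ?_⟩
      · have h2 : min (min δ1 δ') ε ≤ δ1 := (min_le_left _ _).trans (min_le_left _ _)
        linarith
      · have h2 : min (min δ1 δ') ε ≤ δ' := (min_le_left _ _).trans (min_le_right _ _)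
        linarith
      · have h2 : min (min δ1 δ') ε ≤ ε := min_le_right _ _
        linarith
    obtain ⟨g, hg, hgM, hip, hnn, hint⟩ := h1 δ hδ hδa
    have hPf := P_bd S m hf
    have hPg := P_bd S m hg
    have hF0 : Bd (fun ω => (a : ℂ) * f ω + (b : ℂ) * g ω) := (hf.smul _).add (hg.smul _)
    have hF0M : ∀ ω, ‖(a : ℂ) * f ω + (b : ℂ) * g ω‖ ≤ M := by
      intro ω
      refine (norm_add_le _ _).trans ?_
      rw [norm_mul, norm_mul, Complex.norm_real, Complex.norm_real, Real.norm_of_nonneg ha,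
        Real.norm_of_nonneg hb]
      have e1 := mul_le_mul_of_nonneg_left (hM ω) ha
      have e2 := mul_le_mul_of_nonneg_left (hgM ω) hb
      have e3 : a * M + b * M = M := by rw [← add_mul, hab, one_mul]
      linarith
    obtain ⟨F, hFdef⟩ : ∃ F, F = S.P m (fun ω => (a : ℂ) * f ω + (b : ℂ) * g ω) := ⟨_, rfl⟩
    have hF : Bd F := by
      rw [hFdef]
      exact P_bd S m hF0
    have hFM : ∀ ω, ‖F ω‖ ≤ M := by
      intro ω
      rw [hFdef]
      exact P_norm_le S m hF0M ω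
    have hFe : F = fun ω => (a : ℂ) * S.P m f ω + (b : ℂ) * S.P m g ω := by
      funext ω
      rw [hFdef, P_add S m (hf.smul _) (hg.smul _), P_smul, P_smul]
    have hLF : ∀ δ : ℝ, 0 < δ → S.L δ F =
        fun ω => (a : ℂ) * S.L δ (S.P m f) ω + (b : ℂ) * S.L δ (S.P m g) ω := by
      intro δ hδ
      funext ω
      rw [hFe, L_add S hδ (hPf.smul _) (hPg.smul _), L_smul, L_smul]
    -- scale `δ`
    have b1 : S.nn δ (S.L δ F) ≤ Q + 2 * ε + b ^ 2 * A := by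
      rw [hLF δ hδ]
      refine (mz_comb S (L_bd S hδ hPf) (L_bd S hδ hPg) ha hb).trans ?_
      have e1 := hQ δ hδ
      have e2 : 2 * (a * b) * ‖S.ip δ (S.L δ (S.P m f)) (S.L δ (S.P m g))‖ ≤ 2 * ε := by
        have e3 : a * b ≤ 1 := by nlinarith
        have e4 := hip m
        have e5 : (a * b) * ‖S.ip δ (S.L δ (S.P m f)) (S.L δ (S.P m g))‖ ≤ 1 * ε :=
          mul_le_mul e3 e4 (norm_nonneg _) zero_le_one
        linarith
      have e3 := mul_le_mul_of_nonneg_left (hnn m) (sq_nonneg b)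
      linarith
    -- scale `δ'`
    have b2 := hlsc δ hδ hδb F hF M hM0 hFM
    have b3 : C * M * δ ≤ C * M * ε := mul_le_mul_of_nonneg_left hδc (by positivity)
    have b4 := Real.sqrt_le_sqrt b1
    -- the difference
    obtain ⟨h, hh⟩ : ∃ h : Ω → ℂ, h = fun ω => f ω + (-1 : ℂ) * g ω := ⟨_, rfl⟩
    have hhb : Bd h := by
      rw [hh]
      exact hf.add (hg.smul _)
    have hPh := P_bd S m hhb
    have e1 : S.P m f = fun ω => F ω + (b : ℂ) * S.P m h ω := by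
      funext ω
      rw [hFe, hh, P_add S m hf (hg.smul _), P_smul]
      have e2 : (a : ℂ) = 1 - b := by
        rw [← Complex.ofReal_one, ← hab]
        push_cast
        ring
      rw [e2]
      ring
    have e2 : S.L δ' (S.P m f) = fun ω => S.L δ' F ω + (b : ℂ) * S.L δ' (S.P m h) ω := by
      funext ω
      rw [e1, L_add S hδ' hF (hPh.smul _), L_smul]
    have b5 : S.nn δ' (fun ω => (b : ℂ) * S.L δ' (S.P m h) ω) ≤ (2 / δ') ^ 2 * ε := by
      rw [nn_smul, Complex.norm_real, Real.norm_of_nonneg hb]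
      have c1 := nn_L_le S hδ' hPh
      have c2 := P_int_le S m hhb
      have c3 : ∫ ω, ‖h ω‖ ^ 2 ∂S.μ = ∫ ω, ‖g ω - f ω‖ ^ 2 ∂S.μ := by
        refine integral_congr_ae (Filter.Eventually.of_forall fun ω => ?_)
        simp only
        rw [hh]
        simp only
        rw [← norm_neg]
        congr 2
        ring
      have c4 : (2 / δ') ^ 2 * ∫ ω, ‖S.P m h ω‖ ^ 2 ∂S.μ ≤ (2 / δ') ^ 2 * ε :=
        mul_le_mul_of_nonneg_left (c2.trans (c3.trans_le hint)) (sq_nonneg _)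
      have c5 : b ^ 2 ≤ 1 := pow_le_one₀ hb hb1
      have c6 := nn_nonneg S δ' (S.L δ' (S.P m h))
      calc b ^ 2 * S.nn δ' (S.L δ' (S.P m h)) ≤ 1 * S.nn δ' (S.L δ' (S.P m h)) :=
            mul_le_mul_of_nonneg_right c5 c6
        _ ≤ _ := by
            rw [one_mul]
            exact c1.trans c4
    have b6 : Real.sqrt (S.nn δ' (fun ω => (b : ℂ) * S.L δ' (S.P m h) ω)) ≤
        2 / δ' * Real.sqrt ε := by
      refine (Real.sqrt_le_sqrt b5).trans (le_of_eq ?_)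
      rw [Real.sqrt_mul (sq_nonneg _), Real.sqrt_sq (by positivity)]
    have b7 := nn_add_le S (δ := δ') (L_bd S hδ' hF) ((L_bd S hδ' hPh).smul (b : ℂ))
    rw [e2]
    linarith
  -- the limit
  have hlim : Filter.Tendsto (fun ε : ℝ => Real.sqrt (Q + 2 * ε + b ^ 2 * A) + C * M * ε +
      2 / δ' * Real.sqrt ε) (nhdsWithin 0 (Ioi 0))
      (nhds (Real.sqrt (Q + 2 * 0 + b ^ 2 * A) + C * M * 0 + 2 / δ' * Real.sqrt 0)) := by
    have hcont : Continuous (fun ε : ℝ => Real.sqrt (Q + 2 * ε + b ^ 2 * A) + C * M * ε +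
      2 / δ' * Real.sqrt ε) := by fun_prop
    exact (hcont.tendsto 0).mono_left nhdsWithin_le_nhds
  have hle : Real.sqrt (S.nn δ' (S.L δ' (S.P m f))) ≤
      Real.sqrt (Q + 2 * 0 + b ^ 2 * A) + C * M * 0 + 2 / δ' * Real.sqrt 0 :=
    ge_of_tendsto hlim (Filter.eventually_of_mem self_mem_nhdsWithin fun ε hε => key ε hε)
  rw [mul_zero, mul_zero, Real.sqrt_zero, mul_zero, add_zero, add_zero, add_zero] at hle
  have hA : 0 ≤ Q + b ^ 2 * A ∨ Q + b ^ 2 * A < 0 := le_or_gt _ _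
  rcases hA with hA | hA
  · exact (Real.sqrt_le_sqrt_iff hA).1 hle
  · exfalso
    obtain ⟨δ1, hδ1, h1⟩ := happ 1 one_pos
    obtain ⟨g, -, -, -, hnn, -⟩ := h1 (δ1 / 2) (by positivity) (by linarith)
    have hA0 : 0 ≤ A := (nn_nonneg S _ _).trans (hnn m)
    have hQ0 : 0 ≤ Q := (mul_nonneg (sq_nonneg a) (nn_nonneg S _ _)).trans (hQ 1 one_pos)
    have : 0 ≤ b ^ 2 * A := mul_nonneg (sq_nonneg _) hA0
    linarith

theorem mode_zero (hC : S.Cuts) {f : Ω → ℂ} (hf : Bd f) (hi : S.Inva f) (ht : S.Tc f) (m : ℤ)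
    {δ' : ℝ} (hδ' : 0 < δ') : S.nn δ' (S.L δ' (S.P m f)) = 0 := by
  obtain ⟨-, M', hM'⟩ := id hf
  obtain ⟨M, hMdef⟩ : ∃ M, M = max M' 0 := ⟨_, rfl⟩
  have hM0 : 0 ≤ M := by
    rw [hMdef]
    exact le_max_right _ _
  have hM : ∀ ω, ‖f ω‖ ≤ M := fun ω => (hM' ω).trans (by
    rw [hMdef]
    exact le_max_left _ _)
  obtain ⟨A, hA, happ⟩ := approx S hC hf hM hi ht
  obtain ⟨q, hq⟩ : ∃ q : ℝ → ℝ, ∀ δ, q δ = S.nn δ (S.L δ (S.P m f)) := ⟨_, fun _ => rfl⟩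
  have hq0 : ∀ δ, 0 ≤ q δ := fun δ => by
    rw [hq]
    exact nn_nonneg S _ _
  have hstep : ∀ a b : ℝ, 0 ≤ a → 0 ≤ b → a + b = 1 → ∀ Q : ℝ,
      (∀ δ : ℝ, 0 < δ → a ^ 2 * q δ ≤ Q) → ∀ δ : ℝ, 0 < δ → q δ ≤ Q + b ^ 2 * A := by
    intro a b ha hb hab Q hQ δ hδ
    rw [hq]
    exact mz_cvx S hf hM0 hM happ m ha hb hab (fun δ hδ => by
      rw [← hq]
      exact hQ δ hδ) hδ
  have hbound : ∀ δ : ℝ, 0 < δ → q δ ≤ A := by
    intro δ hδ
    have h1 := hstep 0 1 le_rfl zero_le_one (by norm_num) 0 (fun δ _ => by simp) δ hδ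
    linarith
  obtain ⟨Q0, hQ0def⟩ : ∃ Q0, Q0 = sSup (q '' Ioi 0) := ⟨_, rfl⟩
  have hbdd : BddAbove (q '' Ioi 0) := by
    refine ⟨A, ?_⟩
    rintro _ ⟨δ, hδ, rfl⟩
    exact hbound δ hδ
  have hle : ∀ δ : ℝ, 0 < δ → q δ ≤ Q0 := fun δ hδ => by
    rw [hQ0def]
    exact le_csSup hbdd ⟨δ, hδ, rfl⟩
  have hsup : ∀ b : ℝ, 0 < b → b < 1 → Q0 ≤ b * A := by
    intro b hb hb1
    have h1 : Q0 ≤ (1 - b) ^ 2 * Q0 + b ^ 2 * A := by
      have h2 := hstep (1 - b) b (by linarith) hb.le (by ring) ((1 - b) ^ 2 * Q0)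
        (fun δ hδ => mul_le_mul_of_nonneg_left (hle δ hδ) (sq_nonneg _))
      have h3 : sSup (q '' Ioi 0) ≤ (1 - b) ^ 2 * Q0 + b ^ 2 * A := by
        refine csSup_le ⟨q 1, 1, Set.mem_Ioi.2 (one_pos : (0 : ℝ) < 1), rfl⟩ ?_
        · rintro _ ⟨δ, hδ, rfl⟩
          exact h2 δ hδ
      rw [← hQ0def] at h3
      exact h3
    have hQ00 : 0 ≤ Q0 := (hq0 1).trans (hle 1 one_pos)
    have h2 : b * (Q0 * (2 - b)) ≤ b * (b * A) := by nlinarith
    have h3 : Q0 * (2 - b) ≤ b * A := le_of_mul_le_mul_left h2 hb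
    nlinarith
  have hQ0 : Q0 ≤ 0 := by
    by_contra hcon
    push Not at hcon
    have h1 : 0 < min (1 / 2) (Q0 / (2 * (A + 1))) := by positivity
    have h2 := hsup _ h1 (by
      have : min (1 / 2) (Q0 / (2 * (A + 1))) ≤ 1 / 2 := min_le_left _ _
      linarith)
    have h3 : min (1 / 2) (Q0 / (2 * (A + 1))) * A ≤ Q0 / (2 * (A + 1)) * (A + 1) :=
      mul_le_mul (min_le_right _ _) (by linarith) hA (by positivity)
    have h4 : Q0 / (2 * (A + 1)) * (A + 1) = Q0 / 2 := by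
      field_simp
    linarith
  rw [← hq]
  exact le_antisymm ((hle δ' hδ').trans hQ0) (hq0 δ')

end Pool.H46.Eg
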