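import Pool.Agent.H46.Eg.Lin

/-!
# [H46 EG NN] the norm and the inner product (60-90 lines)
`ip_le`: Cauchy-Schwarz for integrals: `integral_mul_le_Lp_mul_Lq_of_nonneg` with p = q = 2 (or `inner` in `L2`); bounded
measurable functions on a finite measure (`S.fin`).  `nn_add_le`: from `ip_le`: ‖x + y‖² = ‖x‖² + 2 re (x conj y) + ‖y‖², or
Minkowski (`eLpNorm_add_le`).  `nn_congr`, `ip_congr`: `setIntegral_congr_fun` with `Om_meas`.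
-/

set_option autoImplicit false

open MeasureTheory Set Pool.H46.Bi

namespace Pool.H46.Eg

variable {Ω : Type} [MeasurableSpace Ω] (S : Fl Ω)

private theorem nns_int {μ : Measure Ω} [IsFiniteMeasure μ] {f : Ω → ℝ} (hf : Measurable f)
    (hb : ∃ C : ℝ, ∀ ω, |f ω| ≤ C) : Integrable f μ := by
  obtain ⟨C, hC⟩ := hb
  exact Integrable.of_bound hf.aestronglyMeasurable C (Filter.Eventually.of_forall hC)

omit [MeasurableSpace Ω] in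
private theorem nns_mul {f g : Ω → ℝ} (hf : ∃ C : ℝ, ∀ ω, |f ω| ≤ C)
    (hg : ∃ C : ℝ, ∀ ω, |g ω| ≤ C) : ∃ C : ℝ, ∀ ω, |f ω * g ω| ≤ C := by
  obtain ⟨C, hC⟩ := hf
  obtain ⟨D, hD⟩ := hg
  refine ⟨C * D, fun ω => ?_⟩
  rw [abs_mul]
  exact mul_le_mul (hC ω) (hD ω) (abs_nonneg _) ((abs_nonneg _).trans (hC ω))

/-- Cauchy-Schwarz for bounded functions -/
private theorem nns_cs {μ : Measure Ω} [IsFiniteMeasure μ] {f g : Ω → ℝ} (hf : Measurable f)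
    (hg : Measurable g) (hfb : ∃ C : ℝ, ∀ ω, |f ω| ≤ C) (hgb : ∃ C : ℝ, ∀ ω, |g ω| ≤ C) :
    ∫ ω, f ω * g ω ∂μ ≤ Real.sqrt (∫ ω, f ω ^ 2 ∂μ) * Real.sqrt (∫ ω, g ω ^ 2 ∂μ) := by
  have i1 : Integrable (fun ω => f ω * f ω) μ := nns_int (hf.mul hf) (nns_mul hfb hfb)
  have i2 : Integrable (fun ω => g ω * g ω) μ := nns_int (hg.mul hg) (nns_mul hgb hgb)
  have i3 : Integrable (fun ω => f ω * g ω) μ := nns_int (hf.mul hg) (nns_mul hfb hgb)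
  have e1 : ∫ ω, f ω ^ 2 ∂μ = ∫ ω, f ω * f ω ∂μ :=
    integral_congr_ae (Filter.Eventually.of_forall fun ω => pow_two _)
  have e2 : ∫ ω, g ω ^ 2 ∂μ = ∫ ω, g ω * g ω ∂μ :=
    integral_congr_ae (Filter.Eventually.of_forall fun ω => pow_two _)
  rw [e1, e2]
  have hA : 0 ≤ ∫ ω, f ω * f ω ∂μ := integral_nonneg fun ω => mul_self_nonneg _
  have hC : 0 ≤ ∫ ω, g ω * g ω ∂μ := integral_nonneg fun ω => mul_self_nonneg _
  have hq : ∀ t : ℝ, 0 ≤ (∫ ω, g ω * g ω ∂μ) * (t * t) + (-2 * ∫ ω, f ω * g ω ∂μ) * t +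
      ∫ ω, f ω * f ω ∂μ := by
    intro t
    have h0 : 0 ≤ ∫ ω, (f ω - t * g ω) * (f ω - t * g ω) ∂μ :=
      integral_nonneg fun ω => mul_self_nonneg _
    have h1 : ∫ ω, (f ω - t * g ω) * (f ω - t * g ω) ∂μ =
        ∫ ω, ((t * t) * (g ω * g ω) + ((-2 * t) * (f ω * g ω) + f ω * f ω)) ∂μ :=
      integral_congr_ae (Filter.Eventually.of_forall fun ω => by
        show (f ω - t * g ω) * (f ω - t * g ω) =
          (t * t) * (g ω * g ω) + ((-2 * t) * (f ω * g ω) + f ω * f ω)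
        ring)
    have i4 : Integrable (fun ω => (-2 * t) * (f ω * g ω) + f ω * f ω) μ :=
      (i3.const_mul _).add i1
    rw [h1, integral_add (i2.const_mul _) i4,
      integral_add (i3.const_mul _) i1, integral_const_mul, integral_const_mul] at h0
    linarith
  have hd := discrim_le_zero hq
  unfold discrim at hd
  have h2 : (∫ ω, f ω * g ω ∂μ) ^ 2 ≤ (∫ ω, f ω * f ω ∂μ) * ∫ ω, g ω * g ω ∂μ := by
    nlinarith
  rw [← Real.sqrt_mul hA]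
  exact (le_abs_self _).trans (Real.abs_le_sqrt h2)

private theorem nns_bd {F : Ω → ℂ} (hF : Bd F) :
    Measurable (fun ω => ‖F ω‖) ∧ ∃ C : ℝ, ∀ ω, |‖F ω‖| ≤ C := by
  obtain ⟨h1, C, hC⟩ := hF
  refine ⟨h1.norm, C, fun ω => ?_⟩
  rw [abs_norm]
  exact hC ω

theorem nn_nonneg (δ : ℝ) (F : Ω → ℂ) : 0 ≤ S.nn δ F :=
  integral_nonneg fun ω => by positivity

theorem ip_self {δ : ℝ} (F : Ω → ℂ) : S.ip δ F F = ((S.nn δ F : ℝ) : ℂ) := by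
  unfold Fl.ip Fl.nn
  rw [← integral_complex_ofReal]
  refine integral_congr_ae (Filter.Eventually.of_forall fun ω => ?_)
  show F ω * (starRingEnd ℂ) (F ω) = ((‖F ω‖ ^ 2 : ℝ) : ℂ)
  rw [Complex.mul_conj, Complex.normSq_eq_norm_sq]

theorem ip_le {δ : ℝ} {F G : Ω → ℂ} (hF : Bd F) (hG : Bd G) :
    ‖S.ip δ F G‖ ≤ Real.sqrt (S.nn δ F) * Real.sqrt (S.nn δ G) := by
  have := S.fin
  unfold Fl.ip Fl.nn
  refine (norm_integral_le_integral_norm _).trans ?_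
  have h1 : ∀ ω, ‖F ω * (starRingEnd ℂ) (G ω)‖ = ‖F ω‖ * ‖G ω‖ := fun ω => by
    rw [norm_mul, RCLike.norm_conj]
  simp only [h1]
  exact nns_cs (nns_bd hF).1 (nns_bd hG).1 (nns_bd hF).2 (nns_bd hG).2

/-- the triangle inequality -/
theorem nn_add_le {δ : ℝ} {F G : Ω → ℂ} (hF : Bd F) (hG : Bd G) :
    Real.sqrt (S.nn δ fun ω => F ω + G ω) ≤ Real.sqrt (S.nn δ F) + Real.sqrt (S.nn δ G) := by
  have := S.fin
  obtain ⟨mF, bF⟩ := nns_bd hF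
  obtain ⟨mG, bG⟩ := nns_bd hG
  rw [Real.sqrt_le_left (by positivity)]
  have hA := nn_nonneg S δ F
  have hC := nn_nonneg S δ G
  have hcs := nns_cs (μ := S.μ.restrict (S.Om δ)) mF mG bF bG
  have e1 : (Real.sqrt (S.nn δ F) + Real.sqrt (S.nn δ G)) ^ 2 =
      S.nn δ F + 2 * (Real.sqrt (S.nn δ F) * Real.sqrt (S.nn δ G)) + S.nn δ G := by
    have h1 := Real.sq_sqrt hA
    have h2 := Real.sq_sqrt hC
    linear_combination h1 + h2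
  rw [e1]
  have i1 : Integrable (fun ω => ‖F ω‖ * ‖F ω‖) (S.μ.restrict (S.Om δ)) :=
    nns_int (mF.mul mF) (nns_mul bF bF)
  have i2 : Integrable (fun ω => ‖G ω‖ * ‖G ω‖) (S.μ.restrict (S.Om δ)) :=
    nns_int (mG.mul mG) (nns_mul bG bG)
  have i3 : Integrable (fun ω => ‖F ω‖ * ‖G ω‖) (S.μ.restrict (S.Om δ)) :=
    nns_int (mF.mul mG) (nns_mul bF bG)
  have h3 : (S.nn δ fun ω => F ω + G ω) ≤
      S.nn δ F + 2 * (∫ ω in S.Om δ, ‖F ω‖ * ‖G ω‖ ∂S.μ) + S.nn δ G := by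
    unfold Fl.nn
    have e2 : ∫ ω in S.Om δ, ‖F ω‖ ^ 2 ∂S.μ = ∫ ω in S.Om δ, ‖F ω‖ * ‖F ω‖ ∂S.μ :=
      integral_congr_ae (Filter.Eventually.of_forall fun ω => pow_two _)
    have e3 : ∫ ω in S.Om δ, ‖G ω‖ ^ 2 ∂S.μ = ∫ ω in S.Om δ, ‖G ω‖ * ‖G ω‖ ∂S.μ :=
      integral_congr_ae (Filter.Eventually.of_forall fun ω => pow_two _)
    have i4 : Integrable (fun ω => ‖F ω‖ * ‖F ω‖ + 2 * (‖F ω‖ * ‖G ω‖))
        (S.μ.restrict (S.Om δ)) := i1.add (i3.const_mul _)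
    have i5 : Integrable (fun ω => ‖F ω‖ * ‖F ω‖ + 2 * (‖F ω‖ * ‖G ω‖) + ‖G ω‖ * ‖G ω‖)
        (S.μ.restrict (S.Om δ)) := i4.add i2
    rw [e2, e3, ← integral_const_mul, ← integral_add i1 (i3.const_mul _),
      ← integral_add i4 i2]
    refine integral_mono_of_nonneg (Filter.Eventually.of_forall fun ω => by positivity)
      i5 (Filter.Eventually.of_forall fun ω => ?_)
    show ‖F ω + G ω‖ ^ 2 ≤ ‖F ω‖ * ‖F ω‖ + 2 * (‖F ω‖ * ‖G ω‖) + ‖G ω‖ * ‖G ω‖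
    have h4 := pow_le_pow_left₀ (norm_nonneg _) (norm_add_le (F ω) (G ω)) 2
    linarith
  refine h3.trans ?_
  have h5 : ∫ ω in S.Om δ, ‖F ω‖ * ‖G ω‖ ∂S.μ ≤
      Real.sqrt (S.nn δ F) * Real.sqrt (S.nn δ G) := hcs
  linarith

theorem nn_smul {δ : ℝ} (c : ℂ) (F : Ω → ℂ) : S.nn δ (fun ω => c * F ω) = ‖c‖ ^ 2 * S.nn δ F := by
  unfold Fl.nn
  rw [← integral_const_mul]
  refine integral_congr_ae (Filter.Eventually.of_forall fun ω => ?_)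
  show ‖c * F ω‖ ^ 2 = ‖c‖ ^ 2 * ‖F ω‖ ^ 2
  rw [norm_mul, mul_pow]

theorem nn_congr {δ : ℝ} {F G : Ω → ℂ} (h : ∀ ω ∈ S.Om δ, F ω = G ω) : S.nn δ F = S.nn δ G := by
  unfold Fl.nn
  refine setIntegral_congr_fun (Om_meas S δ) fun ω hω => ?_
  show ‖F ω‖ ^ 2 = ‖G ω‖ ^ 2
  rw [h ω hω]

theorem ip_congr {δ : ℝ} {F G F' G' : Ω → ℂ} (h : ∀ ω ∈ S.Om δ, F ω = F' ω)
    (h' : ∀ ω ∈ S.Om δ, G ω = G' ω) : S.ip δ F G = S.ip δ F' G' := by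
  unfold Fl.ip
  refine setIntegral_congr_fun (Om_meas S δ) fun ω hω => ?_
  show F ω * (starRingEnd ℂ) (G ω) = F' ω * (starRingEnd ℂ) (G' ω)
  rw [h ω hω, h' ω hω]

end Pool.H46.Eg
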