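import Pool.Agent.H46.Eg.Mdn
import Pool.Agent.H46.Bi.Mea

/-!
# [H46 EG PSH2] trajectories do not increase the measure (50-80 lines)
With F w = 1_S (false, w) + 1_S (true, w): by `mus_lint` the sum is `∑' g, ∫⁻ q in U ×ˢ univ, 1[Reach U t g q] * F (Phi g t q)`
(for both values of g.c the two sheets are exchanged or not, the sum over the sheets is F), drop the restriction to U ×ˢ univ,
`push_le` of Bi/Mea.lean bounds it by `∫⁻ q in U ×ˢ univ, F q = mus U S` (`mus_lint`).
-/

set_option autoImplicit false

open MeasureTheory Metric Set Pool.H46.Bi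

namespace Pool.H46.Eg

theorem push2 {U : Set ℂ} (hP : Bi.Poly U) {t : ℝ} {S : Set St} (hS : MeasurableSet S) :
    ∑' g : {g : Mo // Gen U g}, mus U {ω : St | Reach U t g.1 ω.2.1 ω.2.2 ∧
      ((xor g.1.c ω.1, Phi g.1 t ω.2) : St) ∈ S} ≤ mus U S := by
  classical
  have hU := hP.isOpen
  set F : ℂ × Tor → ENNReal := fun w =>
    S.indicator (fun _ => 1) ((false, w) : St) + S.indicator (fun _ => 1) ((true, w) : St) with hF
  have hind : Measurable (S.indicator (fun _ => (1 : ENNReal))) := measurable_const.indicator hS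
  have hs : ∀ s : Bool, Measurable fun w : ℂ × Tor => S.indicator (fun _ => (1 : ENNReal)) ((s, w) : St) :=
    fun s => hind.comp (measurable_const.prodMk measurable_id)
  have hFm : Measurable F := (hs false).add (hs true)
  have h1 : mus U S = ∫⁻ q in U ×ˢ (univ : Set Tor), F q := by
    rw [hF, lintegral_add_left (hs false), ← mus_lint U hind, lintegral_indicator_const hS, one_mul]
  have hR : ∀ g : Mo, MeasurableSet {q : ℂ × Tor | Reach U t g q.1 q.2} := fun g =>
    (reach_isOpen hU t g).measurableSet
  have hPhi : ∀ g : Mo, Measurable (Phi g t) := fun g => (Phi_continuous g t).measurable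
  have h2 : ∀ g : {g : Mo // Gen U g}, mus U {ω : St | Reach U t g.1 ω.2.1 ω.2.2 ∧
      ((xor g.1.c ω.1, Phi g.1 t ω.2) : St) ∈ S} ≤ ∫⁻ q : ℂ × Tor,
      ({q : ℂ × Tor | Reach U t g.1 q.1 q.2}).indicator (fun q => F (Phi g.1 t q)) q := by
    rintro ⟨g, hg⟩
    simp only
    have hx : Measurable fun ω : St => ((xor g.c ω.1, Phi g t ω.2) : St) := by
      refine Measurable.prodMk ?_ ((hPhi g).comp measurable_snd)
      exact (measurable_of_countable (fun b : Bool => xor g.c b)).comp measurable_fst
    have hA : MeasurableSet {ω : St | Reach U t g ω.2.1 ω.2.2 ∧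
        ((xor g.c ω.1, Phi g t ω.2) : St) ∈ S} :=
      (measurable_snd (hR g)).inter (hx hS)
    set A := {ω : St | Reach U t g ω.2.1 ω.2.2 ∧ ((xor g.c ω.1, Phi g t ω.2) : St) ∈ S} with hAd
    have hindA : Measurable (A.indicator (fun _ => (1 : ENNReal))) := measurable_const.indicator hA
    have h3 : mus U A = ∫⁻ ω, A.indicator (fun _ => (1 : ENNReal)) ω ∂(mus U) := by
      rw [lintegral_indicator_const hA, one_mul]
    have hAf : Measurable fun q : ℂ × Tor => A.indicator (fun _ => (1 : ENNReal)) ((false, q) : St) :=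
      hindA.comp (measurable_const.prodMk measurable_id)
    rw [h3, mus_lint U hindA, ← lintegral_add_left hAf]
    refine le_trans (lintegral_mono fun q => ?_) (lintegral_mono' Measure.restrict_le_self le_rfl)
    by_cases hq : Reach U t g q.1 q.2
    · have e1 : ∀ s : Bool, A.indicator (fun _ => (1 : ENNReal)) ((s, q) : St) =
          S.indicator (fun _ => 1) ((xor g.c s, Phi g t q) : St) := by
        intro s
        by_cases h : ((xor g.c s, Phi g t q) : St) ∈ S
        · rw [indicator_of_mem h, indicator_of_mem (show ((s, q) : St) ∈ A from ⟨hq, h⟩)]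
        · rw [indicator_of_notMem h, indicator_of_notMem (fun h' : ((s, q) : St) ∈ A => h h'.2)]
      rw [indicator_of_mem (show q ∈ {q : ℂ × Tor | Reach U t g q.1 q.2} from hq), e1, e1, hF]
      simp only
      cases g.c
      · exact le_rfl
      · rw [add_comm]
        exact le_rfl
    · have e1 : ∀ s : Bool, A.indicator (fun _ => (1 : ENNReal)) ((s, q) : St) = 0 := fun s =>
        indicator_of_notMem (fun h' : ((s, q) : St) ∈ A => hq h'.1) _
      rw [e1, e1, add_zero]
      exact bot_le
  refine (ENNReal.tsum_le_tsum h2).trans ?_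
  rw [h1]
  exact push_le hP t F hFm

end Pool.H46.Eg
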