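import Pool.Agent.H46.Eg.Dat
import Pool.Agent.H46.Bi.Fix

/-!
# [H46 EG STP] steps with at most one collision (60-90 lines)
Tools (Pool.H46.Bi): `Reach.str`, `Reach.bounce`, `reach_det`, `Reach.start_mem`, `Reach.end_mem`, `Reach.gen`, `reach_dist`, `e_surj`.
`stp_reach`: y = x + t e θ; the straight case: s ∈ [0, t] is `(s/t) * t` (t = 0: s = 0).
`dir_of`: every y is x + ‖y - x‖ e θ for some θ (`e_surj`).  `stp_unique`, `stp_start`, `stp_end`, `stp_gen`, `stp_dist` follow through `stp_reach`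
(rewrite y with `dir_of`).
-/

set_option autoImplicit false

open MeasureTheory Metric Set Pool.H46.Bi

namespace Pool.H46.Eg

/-- a flight with at most one collision: from `x` the point `y` of the unfolded plane is seen
through the motion `g` -/
def Stp (U : Set ℂ) (g : Mo) (x y : ℂ) : Prop :=
  (g = Mo.one ∧ ∀ s ∈ Icc (0 : ℝ) 1, x + s * (y - x) ∈ U) ∨
    ∃ (p : ℂ) (α : Tor) (ε : ℝ), Chart U p α ε ∧ g = Mo.refl p α ∧ x ∈ U ∧ x ∈ ball p ε ∧
      y ∈ ball p ε ∧ side p α x * side p α y < 0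

theorem dir_of (x y : ℂ) : ∃ θ : Tor, y = x + (‖y - x‖ : ℝ) * e θ := by
  by_cases h : y = x
  · refine ⟨0, ?_⟩
    rw [h]
    simp
  · have h1 : y - x ≠ 0 := sub_ne_zero.2 h
    have h2 : ‖y - x‖ ≠ 0 := norm_ne_zero_iff.2 h1
    obtain ⟨θ, hθ⟩ := e_surj ((y - x) / (‖y - x‖ : ℝ)) (by
      rw [norm_div, Complex.norm_real, norm_norm, div_self h2])
    refine ⟨θ, ?_⟩
    have h3 : ((‖y - x‖ : ℝ) : ℂ) ≠ 0 := by exact_mod_cast h2
    rw [hθ, mul_div_cancel₀ _ h3]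
    ring

theorem stp_reach {U : Set ℂ} {g : Mo} {x : ℂ} {θ : Tor} {t : ℝ} (ht : 0 ≤ t)
    (h : Stp U g x (x + t * e θ)) : Reach U t g x θ := by
  rcases h with ⟨rfl, h⟩ | ⟨p, α, ε, hc, rfl, hx, hxb, hyb, hs⟩
  · refine Reach.str t x θ ht fun s hs => ?_
    rcases ht.eq_or_lt with h0 | h0
    · have hs0 : s = 0 := by
        have := hs.2
        rw [← h0] at this
        exact le_antisymm this hs.1
      have h1 := h 0 ⟨le_refl _, zero_le_one⟩
      rw [hs0]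
      simpa using h1
    · have h1 := h (s / t) ⟨div_nonneg hs.1 ht, (div_le_one h0).2 hs.2⟩
      have h2 : (t : ℂ) ≠ 0 := by exact_mod_cast h0.ne'
      have h3 : x + ((s / t : ℝ) : ℂ) * (x + (t : ℂ) * e θ - x) = x + (s : ℂ) * e θ := by
        push_cast
        field_simp
        ring
      rwa [h3] at h1
  · exact Reach.bounce t x θ p α ε ht hc hx hxb hyb hs

/-- every step is a trajectory -/
private theorem stp_reach' {U : Set ℂ} {g : Mo} {x y : ℂ} {θ : Tor}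
    (hθ : y = x + (‖y - x‖ : ℝ) * e θ) (h : Stp U g x y) : Reach U ‖y - x‖ g x θ := by
  refine stp_reach (norm_nonneg _) ?_
  rw [← hθ]
  exact h

theorem stp_unique {U : Set ℂ} (hU : IsOpen U) {g g' : Mo} {x y : ℂ} (h : Stp U g x y)
    (h' : Stp U g' x y) : g = g' := by
  obtain ⟨θ, hθ⟩ := dir_of x y
  exact reach_det hU (stp_reach' hθ h) (stp_reach' hθ h')

theorem stp_start {U : Set ℂ} {g : Mo} {x y : ℂ} (h : Stp U g x y) : x ∈ U := by
  obtain ⟨θ, hθ⟩ := dir_of x y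
  exact (stp_reach' hθ h).start_mem

theorem stp_end {U : Set ℂ} (hU : IsOpen U) {g : Mo} {x y : ℂ} (h : Stp U g x y) :
    g.act y ∈ U := by
  obtain ⟨θ, hθ⟩ := dir_of x y
  have h1 := (stp_reach' hθ h).end_mem hU
  rwa [← hθ] at h1

theorem stp_gen {U : Set ℂ} {g : Mo} {x y : ℂ} (h : Stp U g x y) : Gen U g := by
  obtain ⟨θ, hθ⟩ := dir_of x y
  exact (stp_reach' hθ h).gen

theorem stp_dist {U : Set ℂ} (hU : IsOpen U) {g : Mo} {x y : ℂ} (h : Stp U g x y) :
    ‖g.act y - x‖ ≤ ‖y - x‖ := by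
  obtain ⟨θ, hθ⟩ := dir_of x y
  have h1 := reach_dist hU (stp_reach' hθ h)
  rwa [← hθ] at h1

theorem stp_self {U : Set ℂ} {x : ℂ} (hx : x ∈ U) : Stp U Mo.one x x := by
  refine Or.inl ⟨rfl, fun s _ => ?_⟩
  rw [sub_self, mul_zero, add_zero]
  exact hx

end Pool.H46.Eg
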