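import Pool.Agent.H46.Eg.Stp

/-!
# [H46 EG STPE] existence and openness of steps (60-100 lines)
Tools (Pool.H46.Bi): `half_ball`, `seg_mem`, `side_ne`, `side_continuous`, `refl_finite`.
`stp_open`: the straight case: `{(x, y) | ∀ s ∈ [0,1], x + s (y - x) ∈ U}` is open by the tube lemma
(`isCompact_Icc`, `generalized_tube_lemma`; or: for a fixed (x,y) the compact segment has a positive distance from the complement).
The second case: a union of open conditions (`side_continuous`).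
`stp_exists`: `Dat.bc` for r = infDist x V / K.  If `ball x r ⊆ U`: g = 1 (the ball is convex).  In a chart: `side p α y ≠ 0` since
y is not a frontier point, `side p α x ≠ 0` (`side_ne`); the product is positive: g = 1 by `seg_mem` (with y = x + t e θ, `dir_of`), negative: g = refl.
`stp_finite`: `refl_finite`.
-/

set_option autoImplicit false

open MeasureTheory Metric Set Pool.H46.Bi

namespace Pool.H46.Eg

theorem stp_open {U : Set ℂ} (hU : IsOpen U) (g : Mo) :
    IsOpen {q : ℂ × ℂ | Stp U g q.1 q.2} := by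
  rw [isOpen_iff_mem_nhds]
  rintro ⟨x, y⟩ h
  rcases h with ⟨hg, hs⟩ | ⟨p, α, ε, hc, hg, hxU, hx, hy, hside⟩
  · have h1 : ∀ᶠ q : ℂ × ℂ in nhds (x, y), ∀ s ∈ Icc (0 : ℝ) 1, q.1 + s * (q.2 - q.1) ∈ U := by
      refine IsCompact.eventually_forall_of_forall_eventually (isCompact_Icc)
        (P := fun (q : ℂ × ℂ) (s : ℝ) => q.1 + s * (q.2 - q.1) ∈ U) ?_
      intro s hs'
      have hc : Continuous (fun z : (ℂ × ℂ) × ℝ => z.1.1 + (z.2 : ℂ) * (z.1.2 - z.1.1)) := by
        fun_prop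
      exact hc.continuousAt.eventually_mem (hU.mem_nhds (hs s hs'))
    exact h1.mono fun q hq => Or.inl ⟨hg, hq⟩
  · have h1 : ∀ᶠ q : ℂ × ℂ in nhds (x, y), q.1 ∈ U :=
      continuous_fst.continuousAt.eventually_mem (hU.mem_nhds hxU)
    have h2 : ∀ᶠ q : ℂ × ℂ in nhds (x, y), q.1 ∈ ball p ε :=
      continuous_fst.continuousAt.eventually_mem (isOpen_ball.mem_nhds hx)
    have h3 : ∀ᶠ q : ℂ × ℂ in nhds (x, y), q.2 ∈ ball p ε :=
      continuous_snd.continuousAt.eventually_mem (isOpen_ball.mem_nhds hy)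
    have hc2 : Continuous (fun q : ℂ × ℂ => side p α q.1 * side p α q.2) :=
      ((side_continuous p α).comp continuous_fst).mul ((side_continuous p α).comp continuous_snd)
    have h4 : ∀ᶠ q : ℂ × ℂ in nhds (x, y), side p α q.1 * side p α q.2 ∈ Iio (0 : ℝ) :=
      hc2.continuousAt.eventually_mem (isOpen_Iio.mem_nhds hside)
    filter_upwards [h1, h2, h3, h4] with q a1 a2 a3 a4
    exact Or.inr ⟨p, α, ε, hc, hg, a1, a2, a3, a4⟩

theorem stp_exists {U : Set ℂ} (D : Dat U) {x y : ℂ} (hx : x ∈ U)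
    (h : D.K * ‖y - x‖ < infDist x (D.V : Set ℂ)) (hy : y ∉ frontier U) :
    ∃ g, Stp U g x y := by
  have hU : IsOpen U := D.P.isOpen
  have hK : 0 < D.K := lt_of_lt_of_le one_pos D.hK
  obtain ⟨r, hr⟩ : ∃ r : ℝ, r = infDist x (D.V : Set ℂ) / D.K := ⟨_, rfl⟩
  have h1 : ‖y - x‖ < r := by
    rw [hr, lt_div_iff₀ hK, mul_comm]
    exact h
  have hr0 : 0 < r := lt_of_le_of_lt (norm_nonneg _) h1
  have h2 : D.K * r ≤ infDist x (D.V : Set ℂ) := by
    rw [hr, mul_div_cancel₀ _ hK.ne']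
  have hseg : ∀ s ∈ Icc (0 : ℝ) 1, x + s * (y - x) ∈ ball x r := by
    intro s hs
    rw [mem_ball, dist_eq_norm, add_sub_cancel_left, norm_mul, Complex.norm_real, Real.norm_eq_abs,
      abs_of_nonneg hs.1]
    calc s * ‖y - x‖ ≤ 1 * ‖y - x‖ := mul_le_mul_of_nonneg_right hs.2 (norm_nonneg _)
      _ < r := by rw [one_mul]; exact h1
  have hyr : y ∈ ball x r := by
    rw [mem_ball, dist_eq_norm]
    exact h1
  rcases D.bc x hx r hr0 h2 with h3 | ⟨p, α, ε, hc, h3⟩
  · exact ⟨Mo.one, Or.inl ⟨rfl, fun s hs => h3 (hseg s hs)⟩⟩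
  · have hxp : x ∈ ball p ε := h3 (mem_ball_self hr0)
    have hyp : y ∈ ball p ε := h3 hyr
    have hsx : side p α x ≠ 0 := side_ne hU hc hx hxp
    have hsy : side p α y ≠ 0 := fun h4 => hy ((hc.2 y hyp).2 h4)
    rcases lt_or_gt_of_ne (mul_ne_zero hsx hsy) with h4 | h4
    · exact ⟨Mo.refl p α, Or.inr ⟨p, α, ε, hc, rfl, hx, hxp, hyp, h4⟩⟩
    · refine ⟨Mo.one, Or.inl ⟨rfl, fun s hs => ?_⟩⟩
      refine half_ball hU hc hx hxp (h3 (hseg s hs)) ?_
      rw [side_comb]
      have h5 : 0 < side p α x * side p α x := mul_self_pos.2 hsx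
      have h6 : side p α x * ((1 - s) * side p α x + s * side p α y) =
          (1 - s) * (side p α x * side p α x) + s * (side p α x * side p α y) := by ring
      rw [h6]
      rcases hs.1.eq_or_lt with h7 | h7
      · rw [← h7]
        simpa using hsx
      · have h8 := mul_pos h7 h4
        have h9 : 0 ≤ (1 - s) * (side p α x * side p α x) :=
          mul_nonneg (by linarith [hs.2]) h5.le
        linarith

theorem stp_finite {U : Set ℂ} (hP : Bi.Poly U) : {g : Mo | ∃ x y, Stp U g x y}.Finite := by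
  have h := (Set.finite_singleton Mo.one).union (refl_finite hP)
  refine h.subset ?_
  rintro g ⟨x, y, ⟨hg, _⟩ | ⟨p, α, ε, hc, hg, _⟩⟩
  · exact Or.inl hg
  · exact Or.inr ⟨p, α, ε, hc, hg⟩

end Pool.H46.Eg
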