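import Pool.Agent.H46.Eg.WM

/-!
# [H46 EG WA] weak invariance along almost every trajectory (60-90 lines)
For t ≥ 0: for a.e. q: ∀ w, Fw U t q w → f w = f q: countably many g (`gen_countable`, `Reach.gen`), the hypothesis for each.
For t < 0, t = -s: let N g = {q | Reach U s g q ∧ f (Phi g s q) ≠ f q}, a null set.  If Fw U t q w then `fw_rev` gives Fw U s w q: Reach U s g w and q = Phi g s w for some generated g; if f w ≠ f q
then w ∈ N g, so q ∈ Phi g s '' N g, a null set (`phi_mp` and `phi_injective`: `MeasurePreserving` with the measurable embedding; or: `Phi g s` has the inverse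
motion and `(phi_mp ..).quasiMeasurePreserving`; N g measurable).
Then Fubini: the set {(t, q) | ∃ w, Fw U t q w ∧ f w ≠ f q} is measurable (`fw_set`, `fval_meas`, `fval_eq`), for every t its section is null, so it is null in the product
(`Measure.measure_prod_null` or `ae_prod`), and for a.e. q for a.e. t the claim holds (swap).
-/

set_option autoImplicit false

open MeasureTheory Metric Set Pool.H46.Bi

namespace Pool.H46.Eg

theorem weak_ae {U : Set ℂ} (hP : Bi.Poly U) {f : ℂ × Tor → ℝ} (hf : Measurable f)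
    (hw : ∀ (t : ℝ) (g : Mo), ∀ᵐ q : ℂ × Tor, Reach U t g q.1 q.2 → f (Phi g t q) = f q) :
    ∀ᵐ q : ℂ × Tor, ∀ᵐ t : ℝ, ∀ w, Fw U t q w → f w = f q := by
  have hU := hP.isOpen
  have hcnt := gen_countable hP
  have hopp : MeasurePreserving opp (volume : Measure (ℂ × Tor)) volume :=
    (MeasurePreserving.id (volume : Measure ℂ)).prod
      (measurePreserving_add_right (volume : Measure Tor) ((Real.pi : ℝ) : Tor))
  have hpos : ∀ t : ℝ, ∀ᵐ q : ℂ × Tor, ∀ g ∈ {g : Mo | Gen U g},
      Reach U t g q.1 q.2 → f (Phi g t q) = f q := by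
    intro t
    exact (ae_ball_iff hcnt).2 (fun g _ => hw t g)
  have h1 : ∀ t : ℝ, ∀ᵐ q : ℂ × Tor, ∀ w, Fw U t q w → f w = f q := by
    intro t
    rcases le_or_gt 0 t with ht | ht
    · filter_upwards [hpos t] with q hq w hF
      rcases hF with ⟨_, g, hr, hwg⟩ | ⟨h, _⟩
      · rw [hwg]
        exact hq g hr.gen hr
      · exact absurd h (not_lt.2 ht)
    · have h2 : ∀ᵐ q : ℂ × Tor, ∀ g' ∈ {g : Mo | Gen U g}, ∀ g ∈ {g : Mo | Gen U g},
          Reach U (-t) g (opp (Phi g' (-t) (opp q))).1 (opp (Phi g' (-t) (opp q))).2 →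
            f (Phi g (-t) (opp (Phi g' (-t) (opp q)))) = f (opp (Phi g' (-t) (opp q))) := by
        refine (ae_ball_iff hcnt).2 fun g' _ => ?_
        have hmp : MeasurePreserving (fun q => opp (Phi g' (-t) (opp q)))
            (volume : Measure (ℂ × Tor)) volume :=
          hopp.comp ((phi_mp g' (-t)).comp hopp)
        exact hmp.quasiMeasurePreserving.ae (hpos (-t))
      filter_upwards [h2] with q hq w hF
      have hF' := fw_rev hU hF
      rcases hF with ⟨h, _⟩ | ⟨_, g', hr', hw'⟩
      · exact absurd h (not_le.2 ht)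
      · rcases hF' with ⟨_, g, hr, hq'⟩ | ⟨h, _⟩
        · have h3 := hq g' hr'.gen g hr.gen (by rw [← hw']; exact hr)
          rw [← hw', ← hq'] at h3
          exact h3.symm
        · linarith
  have hset : MeasurableSet {p : ℝ × (ℂ × Tor) |
      ¬ ((∃ w, Fw U p.1 p.2 w) ∧ fval U f p.1 p.2 ≠ f p.2)} :=
    ((fw_set hP).inter (measurableSet_eq_fun (fval_meas hP hf)
      (hf.comp measurable_snd)).compl).compl
  have h2 : ∀ᵐ t : ℝ, ∀ᵐ q : ℂ × Tor, ¬ ((∃ w, Fw U t q w) ∧ fval U f t q ≠ f q) := by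
    refine Filter.Eventually.of_forall fun t => ?_
    filter_upwards [h1 t] with q hq
    rintro ⟨⟨w, hF⟩, h3⟩
    apply h3
    rw [fval_eq hU f hF]
    exact hq w hF
  have h3 := (Measure.ae_ae_comm hset).1 h2
  filter_upwards [h3] with q hq
  filter_upwards [hq] with t ht w hF
  by_contra h4
  apply ht
  refine ⟨⟨w, hF⟩, ?_⟩
  rw [fval_eq hU f hF]
  exact h4

end Pool.H46.Eg
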