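import Pool.Agent.H46.Eg.WS
import Pool.Agent.H46.Eg.WA
import Pool.Agent.H46.Eg.Core

/-!
# Weakly invariant functions, not necessarily bounded (assembly)
-/

set_option autoImplicit false

open MeasureTheory Metric Set Pool.H46.Bi

namespace Pool.H46.Eg

theorem core_weak_bdd {U : Set ℂ} (hP : Bi.Poly U) {f : ℂ × Tor → ℝ} (hf : Measurable f) {M : ℝ}
    (hM : ∀ q, |f q| ≤ M)
    (hw : ∀ (t : ℝ) (g : Mo), ∀ᵐ q : ℂ × Tor, Reach U t g q.1 q.2 → f (Phi g t q) = f q) :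
    ∃ h : Tor → ℝ, Measurable h ∧
      (∀ᵐ q : ℂ × Tor ∂((volume : Measure (ℂ × Tor)).restrict (U ×ˢ univ)), f q = h q.2) ∧
      ∀ (p : ℂ) (α : Tor) (ε : ℝ), Chart U p α ε → ∀ᵐ θ : Tor, h (α + α - θ) = h θ := by
  obtain ⟨f', hf', hM', hinv, hae⟩ := strict_fun hP hf hM
  obtain ⟨h, hh, h1⟩ := core hP hf' hM' hinv
  refine ⟨h, hh, ?_, fun p α ε hc => h_refl hP hf' hinv hh h1 hc⟩
  have h2 : ∀ᵐ q : ℂ × Tor ∂((volume : Measure (ℂ × Tor)).restrict (U ×ˢ univ)),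
      ∀ᵐ t : ℝ, ∀ w, Fw U t q w → f w = f q := ae_restrict_of_ae (weak_ae hP hf hw)
  have h3 : ∀ᵐ q : ℂ × Tor ∂((volume : Measure (ℂ × Tor)).restrict (U ×ˢ univ)),
      q ∈ U ×ˢ (univ : Set Tor) :=
    ae_restrict_mem (hP.isOpen.measurableSet.prod MeasurableSet.univ)
  filter_upwards [h1, h2, h3] with q hq1 hq2 hq3
  rw [← hae q hq3.1 hq2, hq1]

theorem core_weak {U : Set ℂ} (hP : Bi.Poly U) {f : ℂ × Tor → ℝ} (hf : Measurable f)
    (hw : ∀ (t : ℝ) (g : Mo), ∀ᵐ q : ℂ × Tor, Reach U t g q.1 q.2 → f (Phi g t q) = f q) :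
    ∃ h : Tor → ℝ, Measurable h ∧
      (∀ᵐ q : ℂ × Tor ∂((volume : Measure (ℂ × Tor)).restrict (U ×ˢ univ)), f q = h q.2) ∧
      ∀ (p : ℂ) (α : Tor) (ε : ℝ), Chart U p α ε → ∀ᵐ θ : Tor, h (α + α - θ) = h θ := by
  have hb : ∀ q, |Real.arctan (f q)| ≤ Real.pi / 2 := by
    intro q
    rw [abs_le]
    exact ⟨(Real.neg_pi_div_two_lt_arctan _).le, (Real.arctan_lt_pi_div_two _).le⟩
  obtain ⟨h, hh, h1, h2⟩ := core_weak_bdd hP (Real.measurable_arctan.comp hf) hb (by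
    intro t g
    filter_upwards [hw t g] with q hq hr
    exact congrArg Real.arctan (hq hr))
  refine ⟨fun θ => Real.tan (h θ), ?_, ?_, ?_⟩
  · have h3 : (fun θ => Real.tan (h θ)) = fun θ => Real.sin (h θ) / Real.cos (h θ) := by
      funext θ
      exact Real.tan_eq_sin_div_cos _
    rw [h3]
    exact (Real.measurable_sin.comp hh).div (Real.measurable_cos.comp hh)
  · filter_upwards [h1] with q hq
    rw [← hq]
    exact (Real.tan_arctan (f q)).symm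
  · intro p α ε hc
    filter_upwards [h2 p α ε hc] with θ hθ
    rw [hθ]

end Pool.H46.Eg
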