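import Pool.Agent.H46.Eg.Rsp
import Pool.Agent.H46.Eg.Hit

/-!
# [H46 EG WF] the two sided flow as a relation (80-120 lines)
`fw_rev`: for t > 0 from `reach_rev` (Reach U t g.inv (opp w), Phi g.inv t (opp w) = opp q, compare the docstring of HitS.lean); t = 0: g = 1
(`reach_det` with `Reach.str 0`), w = q; t < 0: the same read backwards.
`fw_trans`: s, t ≥ 0: `Reach.trans`.  s, t < 0: the same for the opposite states.  s ≥ 0 > t: from opp q' there are the trajectories of time s to opp q (reversal) and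
 of time |t| to opp w; if |t| ≤ s `reach_split` gives one of time s - |t| from opp w to opp q, reverse it: from q to w in time s + t; if |t| > s: `reach_split` gives one of time |t| - s from
 opp q to opp w.  s < 0 ≤ t: from q' there are those of time |s| to q (reversal) and of time t to w: the same.
`fw_iff`: `fw_trans` and `fw_rev`.  `fw_unique`: `reach_det`.  `fw_near`: a ball around q.1 in U, straight trajectories (`Reach.str`) in both directions.
-/

set_option autoImplicit false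

open MeasureTheory Metric Set Pool.H46.Bi

namespace Pool.H46.Eg

/-- the state q is at time t (of any sign) in the state w -/
def Fw (U : Set ℂ) (t : ℝ) (q w : ℂ × Tor) : Prop :=
  (0 ≤ t ∧ ∃ g, Reach U t g q.1 q.2 ∧ w = Phi g t q) ∨
    (t < 0 ∧ ∃ g, Reach U (-t) g (opp q).1 (opp q).2 ∧ w = opp (Phi g (-t) (opp q)))

/-- the one sided relation -/
private def Pw (U : Set ℂ) (t : ℝ) (q w : ℂ × Tor) : Prop :=
  ∃ g, Reach U t g q.1 q.2 ∧ w = Phi g t q

private theorem pw_nonneg {U : Set ℂ} {t : ℝ} {q w : ℂ × Tor} (h : Pw U t q w) : 0 ≤ t := by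
  obtain ⟨g, h, _⟩ := h
  exact h.nonneg

private theorem pw_det {U : Set ℂ} (hU : IsOpen U) {t : ℝ} {q w w' : ℂ × Tor} (h : Pw U t q w)
    (h' : Pw U t q w') : w = w' := by
  obtain ⟨g, h1, h2⟩ := h
  obtain ⟨g', h1', h2'⟩ := h'
  rw [h2, h2', reach_det hU h1 h1']

private theorem pw_start {U : Set ℂ} {t : ℝ} {q w : ℂ × Tor} (h : Pw U t q w) : q.1 ∈ U := by
  obtain ⟨g, h, _⟩ := h
  exact h.start_mem

private theorem pw_end {U : Set ℂ} (hU : IsOpen U) {t : ℝ} {q w : ℂ × Tor} (h : Pw U t q w) :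
    w.1 ∈ U := by
  obtain ⟨g, h, h2⟩ := h
  rw [h2]
  exact Reach.end_mem hU h

private theorem pw_trans {U : Set ℂ} {s t : ℝ} {q q' w : ℂ × Tor} (h : Pw U s q q')
    (h' : Pw U t q' w) : Pw U (s + t) q w := by
  obtain ⟨g, h1, h2⟩ := h
  obtain ⟨g', h1', h2'⟩ := h'
  rw [h2] at h1'
  refine ⟨Mo.mul g' g, Reach.trans _ _ _ _ _ _ h1 h1', ?_⟩
  rw [h2', h2]
  unfold Phi
  refine Prod.ext ?_ ?_
  · simp only
    rw [Mo.mul_act, ← Mo.act_line]
    congr 2
    push_cast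
    ring
  · simp only
    rw [Mo.mul_dir]

private theorem pw_rev {U : Set ℂ} (hU : IsOpen U) {t : ℝ} {q w : ℂ × Tor} (h : Pw U t q w) :
    Pw U t (opp w) (opp q) := by
  obtain ⟨g, h1, h2⟩ := h
  rw [h2]
  refine ⟨g.inv, reach_rev hU h1, ?_⟩
  unfold Phi opp
  refine Prod.ext ?_ ?_
  · simp only
    have h3 : g.act (q.1 + t * e q.2) + t * e (g.dir q.2 + ((Real.pi : ℝ) : Tor)) = g.act q.1 := by
      rw [Mo.act_line, e_add_pi]
      ring
    rw [h3, Mo.inv_act_act]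
  · simp only
    rw [Mo.dir_add_pi, Mo.inv_dir_dir]

private theorem pw_split {U : Set ℂ} (hU : IsOpen U) {r t : ℝ} {q q' w : ℂ × Tor}
    (h : Pw U t q w) (h' : Pw U r q q') (hrt : r ≤ t) : Pw U (t - r) q' w := by
  obtain ⟨g, h1, h2⟩ := h
  obtain ⟨g', h1', h2'⟩ := h'
  obtain ⟨g'', h3, h4⟩ := reach_split hU h1 h1' hrt
  rw [h2']
  refine ⟨g'', h4, ?_⟩
  rw [h2]
  unfold Phi
  refine Prod.ext ?_ ?_
  · simp only
    rw [← h3, Mo.mul_act, ← Mo.act_line]
    congr 2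
    push_cast
    ring
  · simp only
    rw [← h3, Mo.mul_dir]

private theorem pw_str {U : Set ℂ} {q : ℂ × Tor} {r t : ℝ} (hr : ball q.1 r ⊆ U)
    (ht : 0 ≤ t) (htr : t < r) : Pw U t q (Phi Mo.one t q) := by
  refine ⟨Mo.one, Reach.str _ _ _ ht fun s hs => hr ?_, rfl⟩
  rw [mem_ball, dist_eq_norm, add_sub_cancel_left, norm_mul, norm_e, mul_one,
    Complex.norm_real, Real.norm_eq_abs, abs_of_nonneg hs.1]
  linarith [hs.2]

private theorem pw_zero {U : Set ℂ} {q : ℂ × Tor} (hq : q.1 ∈ U) : Pw U 0 q q := by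
  refine ⟨Mo.one, Reach.str _ _ _ le_rfl fun s hs => ?_, ?_⟩
  · have h1 : s = 0 := le_antisymm hs.2 hs.1
    rw [h1]
    simpa using hq
  · unfold Phi
    rw [Mo.one_act, Mo.one_dir]
    simp

private theorem fw_pw {U : Set ℂ} {t : ℝ} {q w : ℂ × Tor} :
    Fw U t q w ↔ (0 ≤ t ∧ Pw U t q w) ∨ (t < 0 ∧ Pw U (-t) (opp q) (opp w)) := by
  unfold Fw Pw
  refine or_congr Iff.rfl (and_congr Iff.rfl (exists_congr fun g => and_congr Iff.rfl ?_))
  constructor
  · intro h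
    rw [h, opp_opp]
  · intro h
    rw [← h, opp_opp]

theorem fw_unique {U : Set ℂ} (hU : IsOpen U) {t : ℝ} {q w w' : ℂ × Tor} (h : Fw U t q w)
    (h' : Fw U t q w') : w = w' := by
  rw [fw_pw] at h h'
  rcases h with ⟨h1, h2⟩ | ⟨h1, h2⟩ <;> rcases h' with ⟨h1', h2'⟩ | ⟨h1', h2'⟩
  · exact pw_det hU h2 h2'
  · exact absurd h1' (not_lt.2 h1)
  · exact absurd h1 (not_lt.2 h1')
  · have h3 := pw_det hU h2 h2'
    rw [← opp_opp w, h3, opp_opp]

theorem fw_start {U : Set ℂ} {t : ℝ} {q w : ℂ × Tor} (h : Fw U t q w) : q.1 ∈ U := by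
  rw [fw_pw] at h
  rcases h with ⟨_, h2⟩ | ⟨_, h2⟩
  · exact pw_start h2
  · exact pw_start (q := opp q) h2

theorem fw_end {U : Set ℂ} (hU : IsOpen U) {t : ℝ} {q w : ℂ × Tor} (h : Fw U t q w) :
    w.1 ∈ U := by
  rw [fw_pw] at h
  rcases h with ⟨_, h2⟩ | ⟨_, h2⟩
  · exact pw_end hU h2
  · exact pw_end (w := opp w) hU h2

theorem fw_rev {U : Set ℂ} (hU : IsOpen U) {t : ℝ} {q w : ℂ × Tor} (h : Fw U t q w) :
    Fw U (-t) w q := by
  rw [fw_pw] at h ⊢
  rcases h with ⟨h1, h2⟩ | ⟨h1, h2⟩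
  · rcases h1.eq_or_lt with h3 | h3
    · rw [← h3] at h2 ⊢
      have h4 : w = q := pw_det hU h2 (pw_zero (pw_start h2))
      rw [h4] at h2 ⊢
      rw [neg_zero]
      exact Or.inl ⟨le_rfl, h2⟩
    · right
      rw [neg_neg]
      exact ⟨by linarith, pw_rev hU h2⟩
  · left
    have h3 := pw_rev hU h2
    rw [opp_opp, opp_opp] at h3
    exact ⟨by linarith, h3⟩

theorem fw_trans {U : Set ℂ} (hU : IsOpen U) {s t : ℝ} {q q' w : ℂ × Tor} (h : Fw U s q q')
    (h' : Fw U t q' w) : Fw U (s + t) q w := by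
  rw [fw_pw] at h h' ⊢
  rcases h with ⟨h1, h2⟩ | ⟨h1, h2⟩ <;> rcases h' with ⟨h1', h2'⟩ | ⟨h1', h2'⟩
  · exact Or.inl ⟨by linarith, pw_trans h2 h2'⟩
  · have h3 := pw_rev hU h2
    rcases le_or_gt (-t) s with h4 | h4
    · have h5 := pw_rev hU (pw_split hU h3 h2' h4)
      rw [opp_opp, opp_opp, sub_neg_eq_add] at h5
      exact Or.inl ⟨by linarith, h5⟩
    · have h5 := pw_split hU h2' h3 h4.le
      have h6 : -(s + t) = -t - s := by ring
      rw [h6]
      exact Or.inr ⟨by linarith, h5⟩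
  · have h3 := pw_rev hU h2
    rw [opp_opp, opp_opp] at h3
    rcases le_or_gt (-s) t with h4 | h4
    · have h5 := pw_split hU h2' h3 h4
      have h6 : s + t = t - -s := by ring
      rw [h6]
      exact Or.inl ⟨by linarith, h5⟩
    · have h5 := pw_rev hU (pw_split hU h3 h2' h4.le)
      have h6 : -(s + t) = -s - t := by ring
      rw [h6]
      exact Or.inr ⟨by linarith, h5⟩
  · right
    have h6 : -(s + t) = -s + -t := by ring
    rw [h6]
    exact ⟨by linarith, pw_trans h2 h2'⟩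

theorem fw_iff {U : Set ℂ} (hU : IsOpen U) {s t : ℝ} {q q' w : ℂ × Tor} (h : Fw U s q q') :
    Fw U t q' w ↔ Fw U (s + t) q w := by
  constructor
  · exact fw_trans hU h
  · intro h'
    have h1 := fw_trans hU (fw_rev hU h) h'
    rwa [neg_add_cancel_left] at h1

theorem fw_near {U : Set ℂ} (hU : IsOpen U) {q : ℂ × Tor} (hq : q.1 ∈ U) :
    ∃ r : ℝ, 0 < r ∧ ∀ t : ℝ, |t| < r → ∃ w, Fw U t q w := by
  obtain ⟨r, hr, hball⟩ := Metric.isOpen_iff.1 hU q.1 hq
  refine ⟨r, hr, fun t ht => ?_⟩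
  rcases le_or_gt 0 t with h | h
  · exact ⟨_, fw_pw.2 (Or.inl ⟨h, pw_str hball h ((le_abs_self t).trans_lt ht)⟩)⟩
  · refine ⟨opp (Phi Mo.one (-t) (opp q)), fw_pw.2 (Or.inr ⟨h, ?_⟩)⟩
    rw [opp_opp]
    exact pw_str (q := opp q) hball (by linarith) ((neg_le_abs t).trans_lt ht)

end Pool.H46.Eg
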