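import Pool.Agent.H46.Eg.Rsp
import Pool.Agent.H46.Bi.Opn

/-!
# [H46 EG WJ] the trajectories depend openly on time and state (50-80 lines)
Let `Reach U t g x θ`, t > 0.  The end point g.act (x + t e θ) is in U (`Reach.end_mem`); choose r > 0 with `ball (end point) (2 r) ⊆ U`, r < t.  For (x', θ') near (x, θ):
`Reach U t g x' θ'` (`reach_nhds`) and the end point y' = g.act (x' + t e θ') is in `ball (end point) r` (continuity).  For |t' - t| < r, t' > 0:
 t' ≥ t: `Reach.trans` with `Reach.str (t' - t)` from y' (the segment is in the ball), `mul one g = g`.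
 t' < t, s = t - t': `reach_rev` gives Reach U t g.inv y' ψ, ψ = g.dir θ' + π; `Reach.str s` from y' in direction ψ: Reach U s one y' ψ; `reach_split` (s ≤ t): Reach U (t - s) g'' with
 `mul g'' one = g.inv` (so g'' = g.inv) from (y' + s e ψ, ψ); `reach_rev` again: Reach U t' g (g.inv.act (y' + s e ψ + t' e ψ)) (g.inv.dir ψ + π) and this
 start state is (x', θ') (`Mo.act_line`, `Mo.inv_act_act`, `Mo.inv_dir_dir`, `Mo.dir_add_pi`, `Mo.inv_inv`, π + π = 0).
So a neighbourhood of (t, x, θ) is contained in the set.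
-/

set_option autoImplicit false

open MeasureTheory Metric Set Pool.H46.Bi

namespace Pool.H46.Eg

theorem reach_joint {U : Set ℂ} (hU : IsOpen U) (g : Mo) :
    IsOpen {p : ℝ × (ℂ × Tor) | 0 < p.1 ∧ Reach U p.1 g p.2.1 p.2.2} := by
  rw [isOpen_iff_mem_nhds]
  rintro ⟨t, x, θ⟩ ⟨ht, hR⟩
  simp only at ht hR
  have hmem : g.act (x + t * e θ) ∈ U := Reach.end_mem hU hR
  obtain ⟨ρ, hρ, hball⟩ := Metric.isOpen_iff.1 hU _ hmem
  set r : ℝ := min (ρ / 2) (t / 2) with hr
  have hr0 : 0 < r := lt_min (by linarith) (by linarith)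
  have hrρ : 2 * r ≤ ρ := by
    have := min_le_left (ρ / 2) (t / 2)
    linarith
  have hrt : r < t := by
    have := min_le_right (ρ / 2) (t / 2)
    linarith
  have hA : ∀ᶠ p : ℝ × (ℂ × Tor) in nhds (t, x, θ), Reach U t g p.2.1 p.2.2 :=
    (continuous_snd.tendsto (t, x, θ)).eventually (reach_nhds hU hR)
  have hc : Continuous (fun p : ℝ × (ℂ × Tor) => g.act (p.2.1 + (t : ℂ) * e p.2.2)) :=
    g.act_continuous.comp ((continuous_fst.comp continuous_snd).add
      (continuous_const.mul (e_continuous.comp (continuous_snd.comp continuous_snd))))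
  have hB : ∀ᶠ p : ℝ × (ℂ × Tor) in nhds (t, x, θ),
      g.act (p.2.1 + (t : ℂ) * e p.2.2) ∈ ball (g.act (x + t * e θ)) r :=
    hc.continuousAt.eventually_mem (isOpen_ball.mem_nhds (mem_ball_self hr0))
  have hC : ∀ᶠ p : ℝ × (ℂ × Tor) in nhds (t, x, θ), p.1 ∈ ball t r :=
    continuous_fst.continuousAt.eventually_mem (isOpen_ball.mem_nhds (mem_ball_self hr0))
  filter_upwards [hA, hB, hC] with p a1 a2 a3
  obtain ⟨t', x', θ'⟩ := p
  simp only at a1 a2 a3
  rw [mem_ball, Real.dist_eq, abs_lt] at a3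
  have ht' : 0 < t' := by linarith [a3.1]
  refine ⟨ht', ?_⟩
  show Reach U t' g x' θ'
  set y : ℂ := g.act (x' + (t : ℂ) * e θ') with hy
  have hseg : ∀ (ψ : Tor) (s : ℝ), 0 ≤ s → s < r → y + (s : ℂ) * e ψ ∈ U := by
    intro ψ s hs0 hs
    apply hball
    rw [mem_ball, dist_eq_norm] at a2 ⊢
    calc ‖y + (s : ℂ) * e ψ - g.act (x + t * e θ)‖ = ‖(y - g.act (x + t * e θ)) + (s : ℂ) * e ψ‖ := by
          congr 1; ring
      _ ≤ ‖y - g.act (x + t * e θ)‖ + ‖(s : ℂ) * e ψ‖ := norm_add_le _ _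
      _ < r + r := by
          refine add_lt_add a2 ?_
          rw [norm_mul, norm_e, mul_one, Complex.norm_real, Real.norm_eq_abs, abs_of_nonneg hs0]
          exact hs
      _ ≤ ρ := by linarith
  rcases le_or_gt t t' with h | h
  · have h1 : Reach U (t' - t) Mo.one y (g.dir θ') :=
      Reach.str _ _ _ (by linarith) fun s hs => hseg _ s hs.1 (by linarith [hs.2, a3.2])
    have h2 := Reach.trans t (t' - t) g Mo.one x' θ' a1 h1
    rw [Mo.one_mul', add_sub_cancel] at h2
    exact h2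
  · set ψ : Tor := g.dir θ' + ((Real.pi : ℝ) : Tor) with hψ
    have h1 : Reach U t g.inv y ψ := reach_rev hU a1
    have h2 : Reach U (t - t') Mo.one y ψ :=
      Reach.str _ _ _ (by linarith) fun s hs => hseg _ s hs.1 (by linarith [hs.2, a3.1])
    obtain ⟨g'', hg'', h3⟩ := reach_split hU h1 h2 (by linarith)
    rw [Mo.mul_one'] at hg''
    subst hg''
    rw [Mo.one_act, Mo.one_dir, sub_sub_cancel] at h3
    have h4 := reach_rev hU h3
    rw [Mo.inv_inv] at h4
    have h5 : g.inv.dir ψ = θ' + ((Real.pi : ℝ) : Tor) := by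
      rw [hψ, Mo.dir_add_pi, Mo.inv_dir_dir]
    have h6 : g.inv.act (y + ((t - t' : ℝ) : ℂ) * e ψ + (t' : ℂ) * e ψ) = x' := by
      have h7 : y + ((t - t' : ℝ) : ℂ) * e ψ + (t' : ℂ) * e ψ = y + (t : ℂ) * e ψ := by
        push_cast; ring
      rw [h7, Mo.act_line, h5, e_add_pi, hy, Mo.inv_act_act]
      ring
    have h8 : g.inv.dir ψ + ((Real.pi : ℝ) : Tor) = θ' := by
      rw [h5]
      apply e_injective
      rw [e_add_pi, e_add_pi, neg_neg]
    rw [h6, h8] at h4
    exact h4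

end Pool.H46.Eg
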