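import Pool.Agent.H46.Eg.WJ
import Pool.Agent.H46.Eg.WF
import Pool.Agent.H46.Bi.Cnt

/-!
# [H46 EG WM] joint measurability along the flow (60-90 lines)
For g with `Gen U g` (countably many: `gen_countable`) let A g = {(t, q) | 0 < t ∧ Reach U t g q} (open: `reach_joint`), A' g = {(t, q) | t < 0 ∧ Reach U (-t) g (opp q)}
(preimage of A g under a continuous map).  The set of the (t, q), t ≠ 0, with ∃ w, Fw U t q w is the union of the A g and A' g (`Reach.gen`), the value of f is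
f (Phi g t q) on A g and f (opp (Phi g (-t) (opp q))) on A' g (`fw_unique` for the consistency), a measurable function (Phi is jointly continuous in (t, q)).
The set t = 0 is {0} × (U ×ˢ univ) and the value there is f q (`fw_near`, `fw_unique`).  So `fw_set` is measurable and `fval` is measurable: preimages of measurable
sets are countable unions (compare Mds.lean).
-/

set_option autoImplicit false

open MeasureTheory Metric Set Pool.H46.Bi

namespace Pool.H46.Eg

open Classical in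
/-- the value of f along the flow, 0 where the flow is not defined -/
noncomputable def fval (U : Set ℂ) (f : ℂ × Tor → ℝ) (t : ℝ) (q : ℂ × Tor) : ℝ :=
  if h : ∃ w, Fw U t q w then f h.choose else 0

theorem fval_eq {U : Set ℂ} (hU : IsOpen U) (f : ℂ × Tor → ℝ) {t : ℝ} {q w : ℂ × Tor}
    (h : Fw U t q w) : fval U f t q = f w := by
  have hex : ∃ w, Fw U t q w := ⟨w, h⟩
  unfold fval
  rw [dif_pos hex, fw_unique hU hex.choose_spec h]

private def wmA (U : Set ℂ) (g : Mo) : Set (ℝ × (ℂ × Tor)) :=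
  {p | 0 < p.1 ∧ Reach U p.1 g p.2.1 p.2.2}

private def wmB (U : Set ℂ) (g : Mo) : Set (ℝ × (ℂ × Tor)) :=
  {p | p.1 < 0 ∧ Reach U (-p.1) g (opp p.2).1 (opp p.2).2}

private def wmZ (U : Set ℂ) : Set (ℝ × (ℂ × Tor)) := {p | p.1 = 0 ∧ p.2.1 ∈ U}

private theorem wm_neg_cont :
    Continuous (fun p : ℝ × (ℂ × Tor) => ((-p.1, opp p.2) : ℝ × (ℂ × Tor))) :=
  continuous_fst.neg.prodMk (opp_continuous.comp continuous_snd)

private theorem wm_phi_cont (g : Mo) : Continuous (fun p : ℝ × (ℂ × Tor) => Phi g p.1 p.2) := by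
  unfold Phi
  refine Continuous.prodMk ?_ ?_
  · exact g.act_continuous.comp ((continuous_fst.comp continuous_snd).add
      ((Complex.continuous_ofReal.comp continuous_fst).mul
        (e_continuous.comp (continuous_snd.comp continuous_snd))))
  · exact g.dir_continuous.comp (continuous_snd.comp continuous_snd)

private theorem wmA_meas {U : Set ℂ} (hU : IsOpen U) (g : Mo) : MeasurableSet (wmA U g) :=
  (reach_joint hU g).measurableSet

private theorem wmB_eq (U : Set ℂ) (g : Mo) :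
    wmB U g = (fun p : ℝ × (ℂ × Tor) => ((-p.1, opp p.2) : ℝ × (ℂ × Tor))) ⁻¹' wmA U g := by
  ext p
  simp only [wmA, wmB, mem_preimage, mem_ofPred_eq, Left.neg_pos_iff]

private theorem wmB_meas {U : Set ℂ} (hU : IsOpen U) (g : Mo) : MeasurableSet (wmB U g) := by
  rw [wmB_eq]
  exact wm_neg_cont.measurable (wmA_meas hU g)

private theorem wmZ_meas {U : Set ℂ} (hU : IsOpen U) : MeasurableSet (wmZ U) := by
  have h1 : MeasurableSet {p : ℝ × (ℂ × Tor) | p.1 = 0} := measurable_fst (measurableSet_singleton 0)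
  have h2 : MeasurableSet {p : ℝ × (ℂ × Tor) | p.2.1 ∈ U} :=
    (measurable_fst.comp measurable_snd) hU.measurableSet
  exact h1.inter h2

private theorem wm_fwA {U : Set ℂ} {g : Mo} {p : ℝ × (ℂ × Tor)} (h : p ∈ wmA U g) :
    Fw U p.1 p.2 (Phi g p.1 p.2) := Or.inl ⟨h.1.le, g, h.2, rfl⟩

private theorem wm_fwB {U : Set ℂ} {g : Mo} {p : ℝ × (ℂ × Tor)} (h : p ∈ wmB U g) :
    Fw U p.1 p.2 (opp (Phi g (-p.1) (opp p.2))) := Or.inr ⟨h.1, g, h.2, rfl⟩

private theorem wm_fwZ {U : Set ℂ} {p : ℝ × (ℂ × Tor)} (h : p ∈ wmZ U) : Fw U p.1 p.2 p.2 := by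
  obtain ⟨h1, h2⟩ := h
  rw [h1]
  refine Or.inl ⟨le_refl _, Mo.one, ?_, ?_⟩
  · refine Reach.str 0 _ _ (le_refl _) ?_
    intro s hs
    have hs0 : s = 0 := le_antisymm hs.2 hs.1
    rw [hs0]
    simpa using h2
  · unfold Phi
    rw [Mo.one_act, Mo.one_dir]
    simp

private theorem wm_cases {U : Set ℂ} {p : ℝ × (ℂ × Tor)} {w : ℂ × Tor} (h : Fw U p.1 p.2 w) :
    (∃ g, Gen U g ∧ p ∈ wmA U g) ∨ (∃ g, Gen U g ∧ p ∈ wmB U g) ∨ p ∈ wmZ U := by
  have hs := fw_start h
  rcases h with ⟨h0, g, hr, _⟩ | ⟨h0, g, hr, _⟩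
  · rcases h0.eq_or_lt with h1 | h1
    · exact Or.inr (Or.inr ⟨h1.symm, hs⟩)
    · exact Or.inl ⟨g, Reach.gen hr, h1, hr⟩
  · exact Or.inr (Or.inl ⟨g, Reach.gen hr, h0, hr⟩)

theorem fw_set {U : Set ℂ} (hP : Bi.Poly U) :
    MeasurableSet {p : ℝ × (ℂ × Tor) | ∃ w, Fw U p.1 p.2 w} := by
  have hG := gen_countable hP
  have hU := hP.isOpen
  have key : {p : ℝ × (ℂ × Tor) | ∃ w, Fw U p.1 p.2 w} =
      (⋃ g ∈ {g : Mo | Gen U g}, wmA U g) ∪ ((⋃ g ∈ {g : Mo | Gen U g}, wmB U g) ∪ wmZ U) := by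
    ext p
    simp only [mem_ofPred_eq, mem_union, mem_iUnion, exists_prop]
    constructor
    · rintro ⟨w, hw⟩
      exact wm_cases hw
    · rintro (⟨g, _, h⟩ | ⟨g, _, h⟩ | h)
      · exact ⟨_, wm_fwA h⟩
      · exact ⟨_, wm_fwB h⟩
      · exact ⟨_, wm_fwZ h⟩
  rw [key]
  exact (MeasurableSet.biUnion hG fun g _ => wmA_meas hU g).union
    ((MeasurableSet.biUnion hG fun g _ => wmB_meas hU g).union (wmZ_meas hU))

theorem fval_meas {U : Set ℂ} (hP : Bi.Poly U) {f : ℂ × Tor → ℝ} (hf : Measurable f) :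
    Measurable fun p : ℝ × (ℂ × Tor) => fval U f p.1 p.2 := by
  have hG := gen_countable hP
  have hU := hP.isOpen
  have hA : ∀ g : Mo, Measurable fun p : ℝ × (ℂ × Tor) => f (Phi g p.1 p.2) := fun g =>
    hf.comp (wm_phi_cont g).measurable
  have hB : ∀ g : Mo, Measurable fun p : ℝ × (ℂ × Tor) => f (opp (Phi g (-p.1) (opp p.2))) := fun g =>
    hf.comp (opp_continuous.measurable.comp ((wm_phi_cont g).measurable.comp wm_neg_cont.measurable))
  have hZ : Measurable fun p : ℝ × (ℂ × Tor) => f p.2 := hf.comp measurable_snd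
  intro M hM
  have key : (fun p : ℝ × (ℂ × Tor) => fval U f p.1 p.2) ⁻¹' M =
      (⋃ g ∈ {g : Mo | Gen U g}, wmA U g ∩ (fun p : ℝ × (ℂ × Tor) => f (Phi g p.1 p.2)) ⁻¹' M) ∪
      ((⋃ g ∈ {g : Mo | Gen U g}, wmB U g ∩
        (fun p : ℝ × (ℂ × Tor) => f (opp (Phi g (-p.1) (opp p.2)))) ⁻¹' M) ∪
      ((wmZ U ∩ (fun p : ℝ × (ℂ × Tor) => f p.2) ⁻¹' M) ∪
      ({p : ℝ × (ℂ × Tor) | ∃ w, Fw U p.1 p.2 w}ᶜ ∩ {_p : ℝ × (ℂ × Tor) | (0 : ℝ) ∈ M}))) := by
    ext p
    simp only [mem_preimage, mem_union, mem_iUnion, mem_inter_iff, exists_prop, mem_compl_iff,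
      mem_ofPred_eq]
    constructor
    · intro h
      by_cases hex : ∃ w, Fw U p.1 p.2 w
      · obtain ⟨w, hw⟩ := hex
        rcases wm_cases hw with ⟨g, hg, h1⟩ | ⟨g, hg, h1⟩ | h1
        · left
          refine ⟨g, hg, h1, ?_⟩
          rw [← fval_eq hU f (wm_fwA h1)]
          exact h
        · right; left
          refine ⟨g, hg, h1, ?_⟩
          rw [← fval_eq hU f (wm_fwB h1)]
          exact h
        · right; right; left
          refine ⟨h1, ?_⟩
          rw [← fval_eq hU f (wm_fwZ h1)]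
          exact h
      · right; right; right
        refine ⟨hex, ?_⟩
        unfold fval at h
        rw [dif_neg hex] at h
        exact h
    · rintro (⟨g, _, h1, h2⟩ | ⟨g, _, h1, h2⟩ | ⟨h1, h2⟩ | ⟨h1, h2⟩)
      · rw [fval_eq hU f (wm_fwA h1)]
        exact h2
      · rw [fval_eq hU f (wm_fwB h1)]
        exact h2
      · rw [fval_eq hU f (wm_fwZ h1)]
        exact h2
      · unfold fval
        rw [dif_neg h1]
        exact h2
  rw [key]
  refine (MeasurableSet.biUnion hG fun g _ => (wmA_meas hU g).inter (hA g hM)).union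
    ((MeasurableSet.biUnion hG fun g _ => (wmB_meas hU g).inter (hB g hM)).union
      (((wmZ_meas hU).inter (hZ hM)).union ((fw_set hP).compl.inter ?_)))
  exact MeasurableSet.const _

end Pool.H46.Eg
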