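import Pool.Agent.H46.Eg.WM

/-!
# [H46 EG WS] a strictly invariant function from the flow (90-130 lines)
E q = {t | ∃ w, Fw U t q w}, measurable, ρ t = 1 / (1 + t²) (integrable).  For q.1 ∈ U: m q = ∫ t in E q, ρ t > 0 (`fw_near`).  I q = (∫ t in E q, ρ t * fval t q) / m q.
G = {q | q.1 ∈ U ∧ ∫ t, ρ t * 1_(E q) t * |fval t q - I q| = 0}.  f' q = I q on G, 0 outside.  All these are measurable in q (`fw_set`, `fval_meas`,
`StronglyMeasurable.integral_prod_left'`; f is bounded by M).
(*) For q.1 ∈ U and c: if for a.e. t, ∀ w, Fw U t q w → f w = c, then I q = c, q ∈ G, f' q = c.  Conversely q ∈ G gives this with c = I q (`integral_eq_zero_iff_of_nonneg`).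
Invariance: Reach U s g q, q' = Phi g s q: `Fw U s q q'`; by `fw_iff` (t ↦ s + t preserves null sets) the condition (*) holds for q with c iff it holds for q' with c.  So
f' q = f' q'.  |f'| ≤ M.
-/

set_option autoImplicit false

open MeasureTheory Metric Set Pool.H46.Bi

namespace Pool.H46.Eg

/-- the weight -/
private noncomputable def wrho (t : ℝ) : ℝ := (1 + t ^ 2)⁻¹

private theorem wrho_pos (t : ℝ) : 0 < wrho t := by
  unfold wrho
  positivity

private theorem wrho_meas : Measurable wrho := by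
  unfold wrho
  fun_prop

private theorem wrho_int : Integrable wrho := integrable_inv_one_add_sq

/-- `f` has the value `c` at almost all times -/
private def WAe (U : Set ℂ) (f : ℂ × Tor → ℝ) (q : ℂ × Tor) (c : ℝ) : Prop :=
  ∀ᵐ t : ℝ, ∀ w, Fw U t q w → f w = c

private theorem wae_move {U : Set ℂ} (hU : IsOpen U) {f : ℂ × Tor → ℝ} {s c : ℝ} {q q' : ℂ × Tor}
    (h : Fw U s q q') (ha : WAe U f q c) : WAe U f q' c := by
  have h1 : ∀ᵐ t : ℝ, ∀ w, Fw U (s + t) q w → f w = c :=
    (measurePreserving_add_left volume s).quasiMeasurePreserving.ae ha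
  filter_upwards [h1] with t ht w hw
  exact ht w ((fw_iff hU h).mp hw)

open Classical in
private noncomputable def wind (U : Set ℂ) (p : ℝ × (ℂ × Tor)) : ℝ :=
  if ∃ w, Fw U p.1 p.2 w then wrho p.1 else 0

private theorem wind_meas {U : Set ℂ} (hP : Bi.Poly U) : Measurable (wind U) := by
  classical
  exact Measurable.ite (fw_set hP) (wrho_meas.comp measurable_fst) measurable_const

private theorem wind_nonneg (U : Set ℂ) (p : ℝ × (ℂ × Tor)) : 0 ≤ wind U p := by
  unfold wind
  split_ifs
  · exact (wrho_pos _).le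
  · exact le_rfl

private theorem wind_le (U : Set ℂ) (p : ℝ × (ℂ × Tor)) : wind U p ≤ wrho p.1 := by
  unfold wind
  split_ifs
  · exact le_rfl
  · exact (wrho_pos _).le

private theorem wind_int {U : Set ℂ} (hP : Bi.Poly U) (q : ℂ × Tor) :
    Integrable (fun t => wind U (t, q)) := by
  refine wrho_int.mono' ((wind_meas hP).comp measurable_prodMk_right).aestronglyMeasurable ?_
  refine Filter.Eventually.of_forall fun t => ?_
  rw [Real.norm_eq_abs, abs_of_nonneg (wind_nonneg U _)]
  exact wind_le U _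

private theorem wm_pos {U : Set ℂ} (hP : Bi.Poly U) {q : ℂ × Tor} (hq : q.1 ∈ U) :
    0 < ∫ t, wind U (t, q) := by
  obtain ⟨r, hr, hr2⟩ := fw_near hP.isOpen hq
  rw [integral_pos_iff_support_of_nonneg (fun t => wind_nonneg U _) (wind_int hP q)]
  have h1 : Ioo (-r) r ⊆ Function.support (fun t => wind U (t, q)) := by
    intro t ht
    have h2 := hr2 t (abs_lt.mpr ht)
    rw [Function.mem_support, wind, if_pos h2]
    exact (wrho_pos t).ne'
  refine lt_of_lt_of_le ?_ (measure_mono h1)
  rw [Real.volume_Ioo]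
  exact ENNReal.ofReal_pos.mpr (by linarith)

theorem strict_fun {U : Set ℂ} (hP : Bi.Poly U) {f : ℂ × Tor → ℝ} (hf : Measurable f) {M : ℝ}
    (hM : ∀ q, |f q| ≤ M) :
    ∃ f' : ℂ × Tor → ℝ, Measurable f' ∧ (∀ q, |f' q| ≤ M) ∧ Inv U f' ∧
      ∀ q : ℂ × Tor, q.1 ∈ U → (∀ᵐ t : ℝ, ∀ w, Fw U t q w → f w = f q) → f' q = f q := by
  classical
  have hM0 : 0 ≤ M := (abs_nonneg _).trans (hM ((0 : ℂ), (0 : Tor)))
  have hv := fval_meas hP hf
  have hvM : ∀ t q, |fval U f t q| ≤ M := by
    intro t q
    unfold fval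
    split_ifs with h
    · exact hM _
    · rw [abs_zero]
      exact hM0
  obtain ⟨m, hm⟩ : ∃ m : ℂ × Tor → ℝ, ∀ q, m q = ∫ t, wind U (t, q) := ⟨_, fun _ => rfl⟩
  obtain ⟨J, hJ⟩ : ∃ J : ℂ × Tor → ℝ, ∀ q, J q = ∫ t, wind U (t, q) * fval U f t q :=
    ⟨_, fun _ => rfl⟩
  obtain ⟨I, hI⟩ : ∃ I : ℂ × Tor → ℝ, ∀ q, I q = J q / m q := ⟨_, fun _ => rfl⟩
  obtain ⟨D, hD⟩ : ∃ D : ℂ × Tor → ℝ, ∀ q, D q = ∫ t, wind U (t, q) * |fval U f t q - I q| :=
    ⟨_, fun _ => rfl⟩
  have hmm : Measurable m := by
    have h1 : StronglyMeasurable (wind U) := (wind_meas hP).stronglyMeasurable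
    have h2 := h1.integral_prod_left' (μ := (volume : Measure ℝ))
    have h3 : m = fun q => ∫ t, wind U (t, q) := funext hm
    rw [h3]
    exact h2.measurable
  have hJm : Measurable J := by
    have h1 : StronglyMeasurable (fun p : ℝ × (ℂ × Tor) => wind U p * fval U f p.1 p.2) :=
      ((wind_meas hP).mul hv).stronglyMeasurable
    have h2 := h1.integral_prod_left' (μ := (volume : Measure ℝ))
    have h3 : J = fun q => ∫ t, wind U (t, q) * fval U f t q := funext hJ
    rw [h3]
    exact h2.measurable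
  have hIm : Measurable I := by
    have h3 : I = fun q => J q / m q := funext hI
    rw [h3]
    exact hJm.div hmm
  have hDm : Measurable D := by
    have h1 : StronglyMeasurable
        (fun p : ℝ × (ℂ × Tor) => wind U p * |fval U f p.1 p.2 - I p.2|) :=
      ((wind_meas hP).mul
        (continuous_abs.measurable.comp (hv.sub (hIm.comp measurable_snd)))).stronglyMeasurable
    have h2 := h1.integral_prod_left' (μ := (volume : Measure ℝ))
    have h3 : D = fun q => ∫ t, wind U (t, q) * |fval U f t q - I q| := funext hD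
    rw [h3]
    exact h2.measurable
  have hvmq : ∀ q, Measurable (fun t => fval U f t q) := fun q =>
    hv.comp (measurable_prodMk_right (y := q))
  have hImul : ∀ q, ∀ c : ℝ, Integrable (fun t => wind U (t, q) * |fval U f t q - c|) := by
    intro q c
    refine ((wind_int hP q).mul_const (M + |c|)).mono' ?_ ?_
    · exact (((wind_meas hP).comp (measurable_prodMk_right (y := q))).mul
        (continuous_abs.measurable.comp ((hvmq q).sub measurable_const))).aestronglyMeasurable
    · refine Filter.Eventually.of_forall fun t => ?_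
      rw [norm_mul, Real.norm_eq_abs, abs_of_nonneg (wind_nonneg U _), Real.norm_eq_abs, abs_abs]
      refine mul_le_mul_of_nonneg_left ?_ (wind_nonneg U _)
      refine (abs_sub _ _).trans ?_
      linarith [hvM t q]
  -- the two directions
  have hA : ∀ q : ℂ × Tor, q.1 ∈ U → ∀ c, WAe U f q c → I q = c ∧ D q = 0 := by
    intro q hq c hc
    have hmq : m q ≠ 0 := by
      rw [hm]
      exact (wm_pos hP hq).ne'
    have h1 : ∀ᵐ t : ℝ, wind U (t, q) * fval U f t q = c * wind U (t, q) := by
      filter_upwards [hc] with t ht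
      by_cases hw : ∃ w, Fw U t q w
      · obtain ⟨w, hw⟩ := hw
        rw [fval_eq hP.isOpen f hw, ht w hw, mul_comm]
      · have : wind U (t, q) = 0 := by
          unfold wind
          exact if_neg hw
        rw [this]
        simp
    have h2 : I q = c := by
      rw [hI, hJ, integral_congr_ae h1, integral_const_mul, ← hm]
      exact mul_div_cancel_right₀ c hmq
    refine ⟨h2, ?_⟩
    rw [hD, h2]
    have h3 : ∀ᵐ t : ℝ, wind U (t, q) * |fval U f t q - c| = 0 := by
      filter_upwards [hc] with t ht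
      by_cases hw : ∃ w, Fw U t q w
      · obtain ⟨w, hw⟩ := hw
        rw [fval_eq hP.isOpen f hw, ht w hw]
        simp
      · have : wind U (t, q) = 0 := by
          unfold wind
          exact if_neg hw
        rw [this]
        simp
    rw [integral_congr_ae h3]
    simp
  have hB : ∀ q : ℂ × Tor, D q = 0 → WAe U f q (I q) := by
    intro q hq
    rw [hD] at hq
    rw [integral_eq_zero_iff_of_nonneg (fun t => mul_nonneg (wind_nonneg U _) (abs_nonneg _))
      (hImul q _)] at hq
    filter_upwards [hq] with t ht w hw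
    have h1 : wind U (t, q) = wrho t := by
      unfold wind
      exact if_pos ⟨w, hw⟩
    simp only [Pi.zero_apply] at ht
    rw [h1, fval_eq hP.isOpen f hw] at ht
    rcases mul_eq_zero.mp ht with h2 | h2
    · exact absurd h2 (wrho_pos t).ne'
    · exact sub_eq_zero.mp (abs_eq_zero.mp h2)
  obtain ⟨f', hf'⟩ : ∃ f' : ℂ × Tor → ℝ, ∀ q, f' q = if q.1 ∈ U ∧ D q = 0 then I q else 0 :=
    ⟨_, fun _ => rfl⟩
  have hval : ∀ q : ℂ × Tor, q.1 ∈ U → ∀ c, WAe U f q c → f' q = c := by
    intro q hq c hc
    obtain ⟨h1, h2⟩ := hA q hq c hc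
    rw [hf', if_pos ⟨hq, h2⟩, h1]
  have hzero : ∀ q : ℂ × Tor, (¬ ∃ c, WAe U f q c) → f' q = 0 := by
    intro q hc
    rw [hf', if_neg]
    rintro ⟨-, h2⟩
    exact hc ⟨_, hB q h2⟩
  refine ⟨f', ?_, ?_, ?_, ?_⟩
  · have h3 : f' = fun q => if q.1 ∈ U ∧ D q = 0 then I q else 0 := funext hf'
    rw [h3]
    refine Measurable.ite ?_ hIm measurable_const
    exact ((hP.isOpen.measurableSet).preimage measurable_fst).inter
      (hDm (measurableSet_singleton 0))
  · intro q
    rw [hf']
    split_ifs with h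
    · have hmq : 0 < m q := by
        rw [hm]
        exact wm_pos hP h.1
      rw [hI, abs_div, abs_of_pos hmq, div_le_iff₀ hmq, hJ, hm, ← Real.norm_eq_abs,
        ← integral_const_mul]
      refine norm_integral_le_of_norm_le ((wind_int hP q).const_mul M) ?_
      refine Filter.Eventually.of_forall fun t => ?_
      rw [norm_mul, Real.norm_eq_abs, abs_of_nonneg (wind_nonneg U _), Real.norm_eq_abs, mul_comm]
      exact mul_le_mul_of_nonneg_right (hvM t q) (wind_nonneg U _)
    · rw [abs_zero]
      exact hM0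
  · intro t g x θ hr
    have hFw : Fw U t (x, θ) (Phi g t (x, θ)) := Or.inl ⟨hr.nonneg, g, hr, rfl⟩
    by_cases hc : ∃ c, WAe U f (x, θ) c
    · obtain ⟨c, hc⟩ := hc
      rw [hval _ (fw_start hFw) c hc, hval _ (fw_end hP.isOpen hFw) c (wae_move hP.isOpen hFw hc)]
    · rw [hzero _ hc, hzero]
      rintro ⟨c, hc'⟩
      exact hc ⟨c, wae_move hP.isOpen (fw_rev hP.isOpen hFw) hc'⟩
  · intro q hq hc
    exact hval q hq _ hc

end Pool.H46.Eg
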